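import Pool.Agent.H41.KA.AG0
import Pool.Agent.H40.KADE.Defs

/-!
KAC ADE, module AH0: the value of a state (definitions).

`IsRF a cd N q w f Φ`: `Φ` is a formal functional (combination of window patterns) which represents
`∑_{l ≤ f} w(l) R_l[q]` on regular terms of the cluster `N`.
`RTfam a cd`: existence of these functionals (output of the response theorem).
`Gv a cd k γ P p M N W q w`: the value of a state of the engine.
-/

set_option autoImplicit false

namespace Pool.Agent.H46.AH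

open scoped BigOperators
open Pool.Agent.H27.KAC Pool.Agent.H40.KADE

section

variable {I : Type} [Fintype I] [DecidableEq I]

/-- window patterns at the frontier `f`: insertion components `A` have level `s` with `s ≤ f < s + mm A`, vertices without
insertion have level `f` or `f - 1`, the class is `q` modulo `ℤ`. -/
structure WP (a : I → I → ℕ) (cd : CrossData a) (B : Finset I) (q : I → ℚ) (f : ℕ) (π : Pat I) : Prop
    extends PatOk a B π where
  le : ∀ A ∈ comps a (insS B π), ∀ x ∈ A, π.s x ≤ f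
  ge : ∀ A ∈ comps a (insS B π), ∀ x ∈ A, f < π.s x + cd.mm A
  sle : ∀ x ∈ B, π.q x = 0 → π.s x ≤ f
  sge : ∀ x ∈ B, π.q x = 0 → f < π.s x + 2
  cls : ∀ x ∈ B, IsZ (π.q x - q x)

/-- `∑_{l ≤ f} w(l) R_l[q]`. -/
noncomputable def RFv (a : I → I → ℕ) (N : Finset I) (q : I → ℚ) (w : ℕ → ℚ) (f : ℕ) (T : Trm I) : ℚ :=
  w 0 * TV a (tauT a N 0 q T) + ∑ l ∈ Finset.Icc 1 f, w l * Rv a N l q T

/-- `q'` is an admissible representative of the class of `q` on `N`. -/
def Rep (a : I → I → ℕ) (N : Finset I) (q q' : I → ℚ) : Prop :=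
  QOk a N q' ∧ ∀ x ∈ N, IsZ (q' x - q x)

/-- `Φ` represents `∑_{l ≤ f} w(l) R_l[q]` on the cluster `N`. -/
structure IsRF (a : I → I → ℕ) (cd : CrossData a) (N : Finset I) (q : I → ℚ) (w : ℕ → ℚ) (f : ℕ)
    (Φ : FFn I) : Prop where
  win : ∀ c ∈ Φ, WP a cd N q f c.2
  val : ∀ q', Rep a N q q' → ∀ T : Trm I, RReg N T → evF a N Φ T = RFv a N q' w f T
  knk : 1 ≤ f → ∀ q', Rep a N q q' → ∀ T : Trm I, RReg N T → Kink N f T →
    evF a N Φ T = w f * TV a (tauT a N f q' T)

/-- The families which come out of the response theorem. -/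
structure RTfam (a : I → I → ℕ) (cd : CrossData a) : Prop where
  tau : ∀ A : Finset I, FinT a A → ConnS a A → ∀ q, QOk a A q → ∀ L f : ℕ, f ≤ L → ∃ Φ : FFn I,
    IsRF a cd A q (fun l => cn a cd A q (L - l)) f Φ
  tauL : ∀ A : Finset I, FinT a A → ConnS a A → ∀ q, QOk a A q → ∀ L : ℕ,
    IsRF a cd A q (fun l => cn a cd A q (L - l)) L [(1, ⟨fun _ => L, q⟩)]
  top : ∀ A : Finset I, FinT a A → ConnS a A → ∀ f : ℕ, 1 ≤ f → ∃ Φ : FFn I,
    IsRF a cd A (fun _ => 0) (fun _ => 1) f Φ ∧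
      ∀ T : Trm I, RReg A T → evF a A Φ T = TV a (T.cols A (fun x => sy x (f + 1) - sy x f))
  top0 : ∀ A : Finset I, FinT a A → ConnS a A → ∀ f : ℕ, ∃ Φ : FFn I,
    IsRF a cd A (fun _ => 0) (fun _ => 1) f Φ

/-- the base term of a state at the frontier `(k | k-1)`. -/
noncomputable def bT (k : ℕ) (γ P p : I → ℚ) (M N : I → I → ℚ) (W : Finset I) : Trm I :=
  ⟨γ, ∑ i, ((-P i) • sy i k + p i • sy i (k - 1)),
    fun i => ∑ l ∈ Finset.univ \ W, (M l i • sy l k - N l i • sy l (k - 1))⟩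

open Classical in
/-- the value of a state. -/
noncomputable def Gv (a : I → I → ℕ) (cd : CrossData a) (k : ℕ) (γ P p : I → ℚ) (M N : I → I → ℚ)
    (W : Finset I) (q : I → ℚ) (w : Finset I → ℕ → ℚ) : ℚ :=
  if h : ∃ Φ : Finset I → FFn I, ∀ A ∈ comps a W, IsRF a cd A q (w A) (k - 1) (Φ A) then
    evU a ((comps a W).toList.map (fun A => (A, h.choose A))) (bT k γ P p M N W)
  else 0

end

end Pool.Agent.H46.AH
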