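import Pool.Agent.H46.AH.AH6
import Pool.Agent.H41.KA.AG1

/-!
KAC ADE, module AH8: plateau functionals: class independence, elimination of columns.

* `PPv_congr`: `PPv a N k q T = PPv a N k q'' T` for two admissible representatives of the same class, `RRegK`:
  termwise (`m` is `0` or `q` on every vertex; the set `S0` of vertices with `m ≠ 0` consists of vertices with integral `q`;
  the terms for `q` and `q''` have the same columns and differ by `∏ η^{integral}` over the quiet vertices: `TV_rep`).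
* `PPv_elim`: column `j ∉ N` may be changed by a combination of `cE a y k`, `y ∈ N`: for the term with `m`: if `m y = 0` use
  `TV_T0` on the quiet set, if `m y ≠ 0` the column equals the column of `y` (`TV_alt`).
-/

set_option autoImplicit false

namespace Pool.Agent.H46.AH

open scoped BigOperators
open Pool.Agent.H27.KAC Pool.Agent.H40.KADE

section

variable {I : Type} [Fintype I] [DecidableEq I]

private theorem ah8_qpos {a : I → I → ℕ} (hs : ∀ i j, a i j = a j i) {N : Finset I}
    (hN : FinT a N) {q : I → ℚ} (hq : QOk a N q) : ∀ x ∈ N, 0 < q x := by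
  intro x hx
  rw [← solN_cqN hs hN q x hx]
  obtain ⟨n, hn, hn'⟩ := hq x hx
  refine solN_pos_self hs hN _ (fun i hi => ?_) x hx ?_
  · obtain ⟨n, -, hn'⟩ := hq i hi
    rw [hn']
    positivity
  · rw [hn']
    have : (1 : ℚ) ≤ n := by exact_mod_cast hn
    linarith

/-- the contribution of a plateau. -/
private theorem ah8_cq (a : I → I → ℕ) (N : Finset I) (q : I → ℚ) (m : I → ℕ)
    (hm : Plat N q m) (x : I) :
    cqN a N (fun i => (m i : ℚ) - q i) x = -cqN a (N.filter (fun x => m x = 0)) q x := by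
  unfold cqN
  rw [AE8_split N m, ← Finset.sum_neg_distrib]
  have h1 : ∑ y ∈ N.filter (fun x => ¬ m x = 0), (cart a x y : ℚ) * ((m y : ℚ) - q y) = 0 := by
    refine Finset.sum_eq_zero fun y hy => ?_
    rw [Finset.mem_filter] at hy
    rcases hm y hy.1 with h | h
    · exact absurd h hy.2
    · rw [h, sub_self, mul_zero]
  rw [h1, add_zero]
  refine Finset.sum_congr rfl fun y hy => ?_
  rw [Finset.mem_filter] at hy
  change (cart a x y : ℚ) * ((m y : ℚ) - q y) = -((cart a x y : ℚ) * q y)
  rw [hy.2]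
  push_cast
  ring

private theorem ah8_one_le {a : I → I → ℕ} (hs : ∀ i j, a i j = a j i) {N : Finset I}
    (hN : FinT a N) {q : I → ℚ} (hq : QOk a N q) (m : I → ℕ) (x : I)
    (hx : x ∈ N.filter (fun x => m x = 0)) :
    1 ≤ cqN a (N.filter (fun x => m x = 0)) q x := by
  rw [Finset.mem_filter] at hx
  obtain ⟨n, hn, hn'⟩ := hq x hx.1
  have hpos := ah8_qpos hs hN hq
  have h1 : cqN a N q x = cqN a (N.filter (fun x => m x = 0)) q x +
      ∑ y ∈ N.filter (fun x => ¬ m x = 0), (cart a x y : ℚ) * q y := by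
    unfold cqN
    rw [AE8_split N m]
  have h2 : ∑ y ∈ N.filter (fun x => ¬ m x = 0), (cart a x y : ℚ) * q y ≤ 0 := by
    refine Finset.sum_nonpos fun y hy => ?_
    rw [Finset.mem_filter] at hy
    rw [AE8_cart_ne a (fun h => hy.2 (h ▸ hx.2) : x ≠ y)]
    have h3 := (hpos y hy.1).le
    have h4 : (0 : ℚ) ≤ a x y := Nat.cast_nonneg _
    nlinarith
  have h3 : (1 : ℚ) ≤ n := by exact_mod_cast hn
  rw [hn'] at h1
  linarith

private theorem ah8_E (a : I → I → ℕ) (hs : ∀ i j, a i j = a j i) (N : Finset I)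
    (k : ℕ) (q : I → ℚ) (m : I → ℕ) (hm : Plat N q m) (T : Trm I) (x : I) :
    (rawT a N k q m T).E (x, k) =
      T.E (x, k) + cqN a (N.filter (fun x => m x = 0)) q x := by
  rw [AE8_rawE a hs, if_pos rfl, ah8_cq a N q m hm]
  ring

private theorem ah8_FReg (a : I → I → ℕ) (hs : ∀ i j, a i j = a j i) (N : Finset I)
    (k : ℕ) (hk : 1 ≤ k) (q : I → ℚ) (hq : QOk a N q) (T : Trm I) (hT : RRegK N k T)
    (m : I → ℕ) (x : I) (hx : x ∈ N) (T' : Trm I) (hE : T'.E = (rawT a N k q m T).E)
    (hΛ : ∀ j, T'.Λ j = (rawT a N k q m T).Λ j ∨ ∃ y, T'.Λ j = cE a y k) :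
    FReg T' x k (k - 1) := by
  have hEl : ∀ l, l ≠ k → T'.E (x, l) = T.E (x, l) := by
    intro l hl
    rw [hE, AE8_rawE a hs, if_neg hl, sub_zero]
  refine ⟨fun l hl hlk => ?_, ?_, fun j l hl hne => ?_⟩
  · rw [hEl l hlk]
    exact hT.nat x hx l hl
  · rw [hE, AE8_rawE a hs, if_pos rfl, AE8_cqN_sub, AE8_cqN_int]
    obtain ⟨n, hn⟩ := hT.nat x hx k hk
    obtain ⟨n', -, hn'⟩ := hq x hx
    rw [hn, hn']
    exact ⟨(n : ℤ) - (∑ y ∈ N, cart a x y * (m y : ℤ) - n'), by push_cast; ring⟩
  · rcases hΛ j with h | ⟨y, h⟩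
    · rw [h, AE8_raw_col] at hne
      by_cases hj : j ∈ N
      · rw [if_pos hj] at hne
        by_cases hmj : m j = 0
        · rw [if_pos hmj] at hne
          left
          by_contra hc
          apply hne
          rw [sy, Finsupp.single_apply, if_neg]
          intro h'
          exact hc (congrArg Prod.snd h').symm
        · rw [if_neg hmj] at hne
          right; left
          by_contra hc
          exact hne (AE8_cE_ne a j x hc)
      · rw [if_neg hj] at hne
        by_cases hlk : l = k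
        · exact Or.inr (Or.inl hlk)
        · rcases hT.col x hx j hj l hl hne with h' | h'
          · exact absurd h' hlk
          · right; right
            rw [hEl l hlk]
            exact h'
    · rw [h] at hne
      right; left
      by_contra hc
      exact hne (AE8_cE_ne a y x hc)

private theorem ah8_pos (a : I → I → ℕ) (hs : ∀ i j, a i j = a j i) (N : Finset I)
    (hN : FinT a N) (k : ℕ) (hk : 1 ≤ k) (q : I → ℚ) (hq : QOk a N q) (T : Trm I)
    (hT : RRegK N k T) (m : I → ℕ) (hm : Plat N q m) (T' : Trm I)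
    (hE : T'.E = (rawT a N k q m T).E) (x : I) (hx : x ∈ N.filter (fun x => m x = 0)) :
    0 < T'.E (x, k) := by
  rw [hE, ah8_E a hs N k q m hm T x]
  have h1 := ah8_one_le hs hN hq m x hx
  obtain ⟨n, hn⟩ := hT.nat x (Finset.mem_filter.1 hx).1 k hk
  rw [hn]
  have : (0 : ℚ) ≤ n := Nat.cast_nonneg _
  linarith

omit [Fintype I] [DecidableEq I] in
private theorem ah8_int {N : Finset I} {q q' : I → ℚ} (h : ∀ x ∈ N, IsZ (q x - q' x))
    (hpos : ∀ x ∈ N, 0 < q' x) {m : I → ℕ} (hm : Plat N q m) (x : I) (hx : x ∈ N)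
    (hmx : m x ≠ 0) : ((⌊q' x⌋₊ : ℕ) : ℚ) = q' x ∧ ⌊q' x⌋₊ ≠ 0 := by
  obtain ⟨z, hz⟩ := h x hx
  have h1 : (m x : ℚ) = q x := (hm x hx).resolve_left hmx
  have h2 : q' x = (((m x : ℤ) - z : ℤ) : ℚ) := by
    push_cast
    rw [h1, ← hz]
    ring
  have h3 := hpos x hx
  rw [h2] at h3 ⊢
  have h4 : 0 < (m x : ℤ) - z := by exact_mod_cast h3
  obtain ⟨n, hn⟩ := Int.eq_ofNat_of_zero_le h4.le
  rw [hn]
  have h5 : (((n : ℤ) : ℚ)) = (n : ℚ) := by push_cast; rfl
  rw [h5, Nat.floor_natCast]
  refine ⟨rfl, ?_⟩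
  omega

/-- the plateau with the same support for another representative. -/
private noncomputable def ah8F (q' : I → ℚ) (m : I → ℕ) (x : I) : ℕ :=
  if m x = 0 then 0 else ⌊q' x⌋₊

omit [Fintype I] [DecidableEq I] in
private theorem ah8F_eq_zero {N : Finset I} {q q' : I → ℚ} (h : ∀ x ∈ N, IsZ (q x - q' x))
    (hpos : ∀ x ∈ N, 0 < q' x) {m : I → ℕ} (hm : Plat N q m) (x : I) (hx : x ∈ N) :
    ah8F q' m x = 0 ↔ m x = 0 := by
  unfold ah8F
  by_cases hmx : m x = 0
  · rw [if_pos hmx]
    simp [hmx]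
  · rw [if_neg hmx]
    exact ⟨fun h' => absurd h' (ah8_int h hpos hm x hx hmx).2, fun h' => absurd h' hmx⟩

omit [Fintype I] [DecidableEq I] in
private theorem ah8F_plat {N : Finset I} {q q' : I → ℚ} (h : ∀ x ∈ N, IsZ (q x - q' x))
    (hpos : ∀ x ∈ N, 0 < q' x) {m : I → ℕ} (hm : Plat N q m) : Plat N q' (ah8F q' m) := by
  intro x hx
  unfold ah8F
  by_cases hmx : m x = 0
  · rw [if_pos hmx]
    exact Or.inl rfl
  · rw [if_neg hmx]
    exact Or.inr (ah8_int h hpos hm x hx hmx).1

open Classical in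
private theorem ah8_mem {N : Finset I} {q q' : I → ℚ} (h : ∀ x ∈ N, IsZ (q x - q' x))
    (hpos : ∀ x ∈ N, 0 < q' x) {B : ℕ} (hB : ∀ x ∈ N, ⌊q' x⌋₊ ≤ B) {m : I → ℕ}
    (hm : m ∈ (mbox N B).filter (fun m => Plat N q m)) :
    ah8F q' m ∈ (mbox N B).filter (fun m => Plat N q' m) := by
  rw [Finset.mem_filter] at hm ⊢
  refine ⟨?_, ah8F_plat h hpos hm.2⟩
  have h1 := hm.1
  unfold mbox at h1 ⊢
  rw [Fintype.mem_piFinset] at h1 ⊢
  intro x
  have h2 := h1 x
  by_cases hx : x ∈ N
  · rw [if_pos hx, Finset.mem_range]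
    unfold ah8F
    split_ifs
    · omega
    · have := hB x hx
      omega
  · rw [if_neg hx, Finset.mem_singleton] at h2 ⊢
    unfold ah8F
    rw [if_pos h2]

open Classical in
private theorem ah8_inv {N : Finset I} {q q' : I → ℚ} (h : ∀ x ∈ N, IsZ (q x - q' x))
    (hpos : ∀ x ∈ N, 0 < q' x) {B : ℕ} {m : I → ℕ}
    (hm : m ∈ (mbox N B).filter (fun m => Plat N q m)) : ah8F q (ah8F q' m) = m := by
  rw [Finset.mem_filter] at hm
  funext x
  by_cases hmx : m x = 0
  · simp [ah8F, hmx]
  · have hx : x ∈ N := by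
      by_contra hx
      have h1 := hm.1
      unfold mbox at h1
      rw [Fintype.mem_piFinset] at h1
      have h2 := h1 x
      rw [if_neg hx, Finset.mem_singleton] at h2
      exact hmx h2
    have h1 : ah8F q' m x ≠ 0 := fun h' => hmx ((ah8F_eq_zero h hpos hm.2 x hx).1 h')
    change (if ah8F q' m x = 0 then 0 else ⌊q x⌋₊) = m x
    rw [if_neg h1, ← (hm.2 x hx).resolve_left hmx, Nat.floor_natCast]

private theorem ah8_term (a : I → I → ℕ) (hs : ∀ i j, a i j = a j i) (N : Finset I)
    (hN : FinT a N) (k : ℕ) (hk : 1 ≤ k) (q q' : I → ℚ) (hq : QOk a N q) (hq' : QOk a N q')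
    (h : ∀ x ∈ N, IsZ (q x - q' x)) (T : Trm I) (hT : RRegK N k T) (m : I → ℕ)
    (hm : Plat N q m) :
    TV a (rawT a N k q m T) = TV a (rawT a N k q' (ah8F q' m) T) := by
  classical
  have hpos' := ah8_qpos hs hN hq'
  -- the integral vector
  have hv : ∀ x, ∃ z : ℤ, (x ∈ N.filter (fun x => m x = 0) → q x - q' x = z) ∧
      (x ∉ N.filter (fun x => m x = 0) → z = 0) := by
    intro x
    by_cases hx : x ∈ N.filter (fun x => m x = 0)
    · obtain ⟨z, hz⟩ := h x (Finset.mem_filter.1 hx).1
      exact ⟨z, fun _ => hz, fun h' => absurd hx h'⟩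
    · exact ⟨0, fun h' => absurd h' hx, fun _ => rfl⟩
  choose v hv1 hv2 using hv
  have hsub : N.filter (fun x => m x = 0) ⊆ N := Finset.filter_subset _ _
  have hN' : FinT a (N.filter (fun x => m x = 0)) := hN.mono hsub
  have hEq : rawT a N k q' (ah8F q' m) T =
      (rawT a N k q m T).etaM a (fun _ => k) (fun i => (v i : ℚ)) := by
    have hδ : ∀ i, (if i ∈ N then (m i : ℚ) - q i else 0) + (v i : ℚ) =
        if i ∈ N then ((ah8F q' m i : ℕ) : ℚ) - q' i else 0 := by
      intro i
      by_cases hi : i ∈ N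
      · rw [if_pos hi, if_pos hi]
        by_cases hmi : m i = 0
        · rw [← hv1 i (Finset.mem_filter.2 ⟨hi, hmi⟩)]
          unfold ah8F
          rw [if_pos hmi, hmi]
          push_cast
          ring
        · rw [hv2 i (fun h' => hmi (Finset.mem_filter.1 h').2)]
          unfold ah8F
          rw [if_neg hmi, (ah8_int h hpos' hm i hi hmi).1, (hm i hi).resolve_left hmi]
          push_cast
          ring
      · rw [if_neg hi, if_neg hi, hv2 i (fun h' => hi (Finset.mem_filter.1 h').1)]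
        push_cast
        ring
    have e1 : (rawT a N k q m T).etaM a (fun _ => k) (fun i => (v i : ℚ)) =
        ((T.eta a k (fun i => if i ∈ N then (m i : ℚ) - q i else 0)).etaM a (fun _ => k)
          (fun i => (v i : ℚ))).cols N
          (fun x => if m x = 0 then sy x (k - 1) else cE a x k) := rfl
    rw [e1, eta_eq_etaM, etaM_etaM]
    unfold rawT
    rw [eta_eq_etaM]
    have e2 : (fun i => (if i ∈ N then (m i : ℚ) - q i else 0) + (v i : ℚ)) =
        fun i => if i ∈ N then ((ah8F q' m i : ℕ) : ℚ) - q' i else 0 := funext hδ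
    rw [e2]
    ext1
    · rfl
    · rfl
    · funext i
      change (if i ∈ N then (if ah8F q' m i = 0 then sy i (k - 1) else cE a i k) else _) =
        (if i ∈ N then (if m i = 0 then sy i (k - 1) else cE a i k) else _)
      by_cases hi : i ∈ N
      · rw [if_pos hi, if_pos hi]
        by_cases hmi : m i = 0
        · rw [if_pos hmi, if_pos ((ah8F_eq_zero h hpos' hm i hi).2 hmi)]
        · rw [if_neg hmi, if_neg (fun h' => hmi ((ah8F_eq_zero h hpos' hm i hi).1 h'))]
      · rw [if_neg hi, if_neg hi]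
  rw [hEq]
  have hnn : ∀ x ∈ N, (0 : ℚ) ≤ T.E (x, k) := by
    intro x hx
    obtain ⟨n, hn⟩ := hT.nat x hx k hk
    rw [hn]
    exact Nat.cast_nonneg _
  have hsol : ∀ x ∈ N.filter (fun x => m x = 0),
      solN a (N.filter (fun x => m x = 0)) (fun i => (rawT a N k q m T).E (i, k)) x =
        solN a (N.filter (fun x => m x = 0)) (fun i => T.E (i, k)) x + q x := by
    intro x hx
    have e1 : (fun i => (rawT a N k q m T).E (i, k)) =
        fun i => T.E (i, k) + cqN a (N.filter (fun x => m x = 0)) q i :=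
      funext fun i => ah8_E a hs N k q m hm T i
    rw [e1, solN_add hs hN', solN_cqN hs hN' q x hx]
  have hbpos : ∀ x ∈ N.filter (fun x => m x = 0), 0 < (rawT a N k q m T).E (x, k) :=
    fun x hx => ah8_pos a hs N hN k hk q hq T hT m hm _ rfl x hx
  refine TV_rep a hs (N.filter (fun x => m x = 0)) hN' (fun _ => k) (fun _ => k - 1)
    (fun _ _ => hk) (fun _ _ _ _ _ => rfl) (fun _ _ => Or.inr (by omega)) _ ?_ ?_ v
    (fun i hi => hv2 i hi) ?_
  · intro x hx
    exact ah8_FReg a hs N k hk q hq T hT m x (hsub hx) _ rfl (fun j => Or.inl rfl)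
  · intro x hx
    exact solN_pos_self hs hN' _ (fun i hi => (hbpos i hi).le) x hx (hbpos x hx)
  · intro x hx
    have h1 := hsol x hx
    change (v x : ℚ) < solN a (N.filter (fun x => m x = 0))
      (fun i => (rawT a N k q m T).E (i, k)) x
    rw [h1, ← hv1 x hx]
    have h2 := hpos' x (hsub hx)
    have h3 : 0 ≤ solN a (N.filter (fun x => m x = 0)) (fun i => T.E (i, k)) x :=
      solN_nonneg hs hN' _ (fun i hi => hnn i (hsub hi)) x
    linarith

theorem PPv_congr (a : I → I → ℕ) (hs : ∀ i j, a i j = a j i) (N : Finset I) (hN : FinT a N)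
    (k : ℕ) (hk : 1 ≤ k) (q q' : I → ℚ) (hq : QOk a N q) (hq' : QOk a N q')
    (h : ∀ x ∈ N, IsZ (q x - q' x)) (T : Trm I) (hT : RRegK N k T) :
    PPv a N k q T = PPv a N k q' T := by
  classical
  have hpos := ah8_qpos hs hN hq
  have hpos' := ah8_qpos hs hN hq'
  have h' : ∀ x ∈ N, IsZ (q' x - q x) := by
    intro x hx
    obtain ⟨z, hz⟩ := h x hx
    exact ⟨-z, by push_cast; rw [← hz]; ring⟩
  obtain ⟨B, hB⟩ : ∃ B, B = bnd N k q T + bnd N k q' T + ∑ x ∈ N, (⌊q x⌋₊ + ⌊q' x⌋₊) :=
    ⟨_, rfl⟩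
  have hBx : ∀ x ∈ N, ⌊q x⌋₊ + ⌊q' x⌋₊ ≤ B := by
    intro x hx
    have := Finset.single_le_sum (f := fun x => ⌊q x⌋₊ + ⌊q' x⌋₊) (fun _ _ => Nat.zero_le _) hx
    omega
  unfold PPv
  rw [← sum_raw_bound a N k hk q T (fun m => Plat N q m) B (by omega),
    ← sum_raw_bound a N k hk q' T (fun m => Plat N q' m) B (by omega)]
  refine Finset.sum_nbij' (ah8F q') (ah8F q) ?_ ?_ ?_ ?_ ?_
  · intro m hm
    exact ah8_mem h hpos' (fun x hx => (by have := hBx x hx; omega)) hm
  · intro m hm
    exact ah8_mem h' hpos (fun x hx => (by have := hBx x hx; omega)) hm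
  · intro m hm
    exact ah8_inv h hpos' hm
  · intro m hm
    exact ah8_inv h' hpos hm
  · intro m hm
    have hpl : Plat N q m := (Finset.mem_filter.1 hm).2
    rw [ah8_term a hs N hN k hk q q' hq hq' h T hT m hpl]
    congr 1
    unfold sgm
    congr 2
    refine Finset.filter_congr fun x hx => ?_
    exact (ah8F_eq_zero h hpos' hpl x hx).symm

theorem PPv_elim (a : I → I → ℕ) (hs : ∀ i j, a i j = a j i) (N : Finset I) (hN : FinT a N)
    (k : ℕ) (hk : 1 ≤ k) (q : I → ℚ) (hq : QOk a N q) (T : Trm I) (hT : RRegK N k T)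
    (j : I) (hj : j ∉ N) (c : QE I) (v : I → ℚ)
    (hc : ∀ x ∈ N, ∀ l, 1 ≤ l → c (x, l) ≠ 0 → l = k ∨ 1 ≤ T.E (x, l)) :
    PPv a N k q (T.col j (c + ∑ y ∈ N, v y • cE a y k)) = PPv a N k q (T.col j c) := by
  classical
  clear hc
  have hcol : ∀ (m : I → ℕ) (d : QE I),
      rawT a N k q m (T.col j d) = (rawT a N k q m T).col j d := by
    intro m d
    ext1
    · rfl
    · rfl
    · funext i
      change (if i ∈ N then (if m i = 0 then sy i (k - 1) else cE a i k) else
          Function.update T.Λ j d i) =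
        Function.update (fun i => if i ∈ N then (if m i = 0 then sy i (k - 1) else cE a i k)
          else T.Λ i) j d i
      by_cases hij : i = j
      · subst hij
        rw [if_neg hj, Function.update_self, Function.update_self]
      · rw [Function.update_of_ne hij, Function.update_of_ne hij]
  unfold PPv
  have hb : ∀ d : QE I, bnd N k q (T.col j d) = bnd N k q T := fun d => rfl
  rw [hb, hb]
  refine Finset.sum_congr rfl fun m hm => ?_
  have hpl : Plat N q m := (Finset.mem_filter.1 hm).2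
  congr 1
  rw [hcol, hcol, TV_col_add, TV_col_sum]
  have h0 : ∑ y ∈ N, TV a ((rawT a N k q m T).col j (v y • cE a y k)) = 0 := by
    refine Finset.sum_eq_zero fun y hy => ?_
    rw [TV_col_smul]
    have h1 : TV a ((rawT a N k q m T).col j (cE a y k)) = 0 := by
      by_cases hmy : m y = 0
      · have hsub : N.filter (fun x => m x = 0) ⊆ N := Finset.filter_subset _ _
        have hN' : FinT a (N.filter (fun x => m x = 0)) := hN.mono hsub
        have hbpos : ∀ x ∈ N.filter (fun x => m x = 0),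
            0 < ((rawT a N k q m T).col j (cE a y k)).E (x, k) :=
          fun x hx => ah8_pos a hs N hN k hk q hq T hT m hpl _ rfl x hx
        refine TV_T0 a hs (N.filter (fun x => m x = 0)) hN' (fun _ => k) (fun _ => k - 1)
          (fun _ _ => hk) (fun _ _ _ _ _ => rfl) (fun _ _ => Or.inr (by omega)) _ ?_ ?_ y
          (Finset.mem_filter.2 ⟨hy, hmy⟩) j ?_
        · intro x hx
          refine ah8_FReg a hs N k hk q hq T hT m x (hsub hx) _ rfl (fun i => ?_)
          by_cases hij : i = j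
          · subst hij
            exact Or.inr ⟨y, Function.update_self _ _ _⟩
          · exact Or.inl (Function.update_of_ne hij _ _)
        · intro x hx
          exact solN_pos_self hs hN' _ (fun i hi => (hbpos i hi).le) x hx (hbpos x hx)
        · exact Function.update_self _ _ _
      · have hyj : y ≠ j := fun h' => hj (h' ▸ hy)
        refine TV_alt a _ y j hyj ?_
        have e1 : ((rawT a N k q m T).col j (cE a y k)).Λ j = cE a y k :=
          Function.update_self _ _ _
        have e2 : ((rawT a N k q m T).col j (cE a y k)).Λ y = (rawT a N k q m T).Λ y :=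
          Function.update_of_ne hyj _ _
        rw [e1, e2, AE8_raw_col, if_pos hy, if_neg hmy]
    rw [h1, mul_zero]
  rw [h0, add_zero]

end

end Pool.Agent.H46.AH
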