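import Pool.Agent.H46.AH.AH6
import Pool.Agent.H46.AH.AH8
import Pool.Agent.H40.KADE.GDef

/-!
KAC ADE, module AH10: elimination of the symbols `(x,k)`, `x ∈ K`, from the columns (bookkeeping; `Trm.ext`,
`Finsupp.ext`, linear algebra of AE1, `cE_apply`, `rsT_E` of AH6).

`elC_cE`: both sides are combinations of symbols of level `k`; the vector `ext a K (uv j)` is `uv j + ∑ v_y uv y` with
`v = solN a K (-C_{·j})`.
`PPv_elT`: `PPv_elim` (AH8) for one column after the other.
-/

set_option autoImplicit false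

namespace Pool.Agent.H46.AH

open scoped BigOperators
open Pool.Agent.H27.KAC Pool.Agent.H40.KADE

section

variable {I : Type} [Fintype I] [DecidableEq I]

/-- elimination of the symbols `(x,k)`, `x ∈ K`, from a column. -/
noncomputable def elC (a : I → I → ℕ) (K : Finset I) (k : ℕ) (c : QE I) : QE I :=
  c + ∑ y ∈ K, solN a K (fun x => -c (x, k)) y • cE a y k

/-- elimination in all columns outside of `K`; the columns of `K` are set to zero. -/
noncomputable def elT (a : I → I → ℕ) (K : Finset I) (k : ℕ) (T : Trm I) : Trm I :=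
  ⟨T.γ, T.E, fun j => if j ∈ K then 0 else elC a K k (T.Λ j)⟩

theorem ah10_cqN_nonadj (a : I → I → ℕ) (K : Finset I) (v : I → ℚ) (i : I)
    (h : ∀ y ∈ K, cart a i y = 0) : cqN a K v i = 0 := by
  unfold cqN
  refine Finset.sum_eq_zero fun y hy => ?_
  rw [h y hy]
  push_cast
  ring

theorem ah10_cart_sep (a : I → I → ℕ) {i j : I} (hij : i ≠ j) (h : a i j = 0) :
    cart a i j = 0 := by
  unfold cart
  rw [if_neg hij, h]
  rfl

theorem ah10_sep_left {a : I → I → ℕ} {A B : Finset I} (h : Sep a A B) {x y : I} (hx : x ∈ A)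
    (hy : y ∈ B) : cart a x y = 0 := by
  refine ah10_cart_sep a (fun e => ?_) (h.2 x hx y hy)
  exact Finset.disjoint_left.1 h.1 hx (e ▸ hy)

theorem ah10_sep_right {a : I → I → ℕ} (hs : ∀ i j, a i j = a j i) {A B : Finset I}
    (h : Sep a A B) {x y : I} (hx : x ∈ A) (hy : y ∈ B) : cart a y x = 0 := by
  rw [cart_symm a hs]
  exact ah10_sep_left h hx hy

theorem ah10_sum_cE (a : I → I → ℕ) (hs : ∀ i j, a i j = a j i) (K : Finset I) (k : ℕ)
    (v : I → ℚ) (i : I) (l : ℕ) :
    (∑ y ∈ K, v y • cE a y k) (i, l) = if l = k then cqN a K v i else 0 := by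
  rw [Finsupp.finsetSum_apply]
  by_cases hl : l = k
  · rw [if_pos hl]
    unfold cqN
    refine Finset.sum_congr rfl fun y _ => ?_
    rw [Finsupp.smul_apply, cE_apply, if_pos hl, smul_eq_mul, cart_symm a hs y i, mul_comm]
  · rw [if_neg hl]
    refine Finset.sum_eq_zero fun y _ => ?_
    rw [Finsupp.smul_apply, cE_apply, if_neg hl, smul_zero]

theorem ah10_elC_apply (a : I → I → ℕ) (hs : ∀ i j, a i j = a j i) (K : Finset I) (k : ℕ)
    (c : QE I) (i : I) (l : ℕ) :
    elC a K k c (i, l) =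
      c (i, l) + if l = k then cqN a K (solN a K (fun x => -c (x, k))) i else 0 := by
  unfold elC
  rw [Finsupp.add_apply, ah10_sum_cE a hs]

theorem ah10_solN_zero {a : I → I → ℕ} (hs : ∀ i j, a i j = a j i) {K : Finset I}
    (hK : FinT a K) (b : I → ℚ) (hb : ∀ x ∈ K, b x = 0) (i : I) : solN a K b i = 0 := by
  have h1 : solN a K b = solN a K (fun x => 0 * b x) :=
    solN_congr hs hK _ _ (fun x hx => by rw [hb x hx, mul_zero])
  rw [h1, solN_smul hs hK, zero_mul]

theorem ah10_elC_sep (a : I → I → ℕ) (hs : ∀ i j, a i j = a j i) (K : Finset I) (k : ℕ)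
    (c : QE I) (i : I) (h : ∀ y ∈ K, cart a i y = 0) (l : ℕ) :
    elC a K k c (i, l) = c (i, l) := by
  rw [ah10_elC_apply a hs, ah10_cqN_nonadj a K _ i h]
  split_ifs
  · rw [add_zero]
  · rw [add_zero]

theorem ah10_elT_Λ (a : I → I → ℕ) (K : Finset I) (k : ℕ) (T : Trm I) (j : I) :
    (elT a K k T).Λ j = if j ∈ K then 0 else elC a K k (T.Λ j) := rfl

theorem ah10_patT_Λ (a : I → I → ℕ) (B : Finset I) (π : Pat I) (T : Trm I) (j : I) :
    (patT a B π T).Λ j = if j ∈ B then sy j (π.s j + 1) else T.Λ j := rfl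

theorem ah10_rsT_Λ (a : I → I → ℕ) (S : Finset I) (k : ℕ) (μ : I → ℚ) (T : Trm I) (j : I) :
    (rsT a S k μ T).Λ j = if j ∈ S then cE a j k else T.Λ j := rfl

theorem elC_zero (a : I → I → ℕ) (hs : ∀ i j, a i j = a j i) (K : Finset I) (hK : FinT a K)
    (k : ℕ) : elC a K k 0 = 0 := by
  unfold elC
  rw [zero_add]
  refine Finset.sum_eq_zero fun y _ => ?_
  rw [ah10_solN_zero hs hK _ (fun x _ => by rw [Finsupp.zero_apply, neg_zero]), zero_smul]

theorem elC_add (a : I → I → ℕ) (hs : ∀ i j, a i j = a j i) (K : Finset I) (hK : FinT a K)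
    (k : ℕ) (c d : QE I) : elC a K k (c + d) = elC a K k c + elC a K k d := by
  unfold elC
  have h1 : ∀ y, solN a K (fun x => -(c + d) (x, k)) y =
      solN a K (fun x => -c (x, k)) y + solN a K (fun x => -d (x, k)) y := by
    intro y
    rw [← solN_add hs hK]
    congr 1
    funext x
    rw [Finsupp.add_apply, neg_add]
  rw [Finset.sum_congr rfl fun y _ => by rw [h1 y, add_smul], Finset.sum_add_distrib]
  abel

theorem elC_smul (a : I → I → ℕ) (hs : ∀ i j, a i j = a j i) (K : Finset I) (hK : FinT a K)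
    (k : ℕ) (r : ℚ) (c : QE I) : elC a K k (r • c) = r • elC a K k c := by
  unfold elC
  have h1 : ∀ y, solN a K (fun x => -(r • c) (x, k)) y =
      r * solN a K (fun x => -c (x, k)) y := by
    intro y
    rw [← solN_smul hs hK]
    congr 1
    funext x
    rw [Finsupp.smul_apply, smul_eq_mul, mul_neg]
  rw [Finset.sum_congr rfl fun y _ => by rw [h1 y, mul_smul], smul_add, Finset.smul_sum]

theorem elC_sum (a : I → I → ℕ) (hs : ∀ i j, a i j = a j i) (K : Finset I) (hK : FinT a K)
    (k : ℕ) {ι : Type} (s : Finset ι) (c : ι → QE I) :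
    elC a K k (∑ i ∈ s, c i) = ∑ i ∈ s, elC a K k (c i) := by
  classical
  induction s using Finset.induction_on with
  | empty => rw [Finset.sum_empty, Finset.sum_empty, elC_zero a hs K hK k]
  | insert i s hi ih => rw [Finset.sum_insert hi, Finset.sum_insert hi, elC_add a hs K hK k, ih]

theorem elC_apply_mem (a : I → I → ℕ) (hs : ∀ i j, a i j = a j i) (K : Finset I) (hK : FinT a K)
    (k : ℕ) (c : QE I) (x : I) (hx : x ∈ K) (l : ℕ) :
    elC a K k c (x, l) = if l = k then 0 else c (x, l) := by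
  rw [ah10_elC_apply a hs]
  by_cases hl : l = k
  · rw [if_pos hl, if_pos hl, solN_spec hs hK _ x hx, hl, add_neg_cancel]
  · rw [if_neg hl, if_neg hl, add_zero]

theorem elC_of_zero (a : I → I → ℕ) (hs : ∀ i j, a i j = a j i) (K : Finset I) (hK : FinT a K)
    (k : ℕ) (c : QE I) (h : ∀ x ∈ K, c (x, k) = 0) : elC a K k c = c := by
  unfold elC
  rw [Finset.sum_eq_zero, add_zero]
  intro y _
  rw [ah10_solN_zero hs hK _ (fun x hx => by rw [h x hx, neg_zero]), zero_smul]

theorem elC_sy (a : I → I → ℕ) (hs : ∀ i j, a i j = a j i) (K : Finset I) (hK : FinT a K)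
    (k : ℕ) (j : I) (hj : j ∉ K) (l : ℕ) : elC a K k (sy j l) = sy j l := by
  refine elC_of_zero a hs K hK k _ fun x hx => ?_
  rw [Finsupp.single_apply, if_neg]
  intro h
  have h1 : j = x := (Prod.ext_iff.1 h).1
  exact hj (h1 ▸ hx)

theorem elC_cE (a : I → I → ℕ) (hs : ∀ i j, a i j = a j i) (K : Finset I) (hK : FinT a K)
    (k : ℕ) (j : I) (hj : j ∉ K) :
    elC a K k (cE a j k) = ∑ l ∈ Finset.univ \ K, effC a K l j • sy l k := by

  have huv : offW K (uv j) = uv j := by
    funext i
    unfold offW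
    by_cases hi : i ∈ K
    · rw [if_pos hi]
      unfold uv
      rw [if_neg]
      rintro rfl
      exact hj hi
    · rw [if_neg hi]
  have hcu : ∀ x, cv a (uv j) x = ((cart a x j : ℤ) : ℚ) := by
    intro x
    unfold cv uv
    rw [Finset.sum_eq_single j]
    · rw [if_pos rfl, mul_one]
    · intro y _ hy
      rw [if_neg hy, mul_zero]
    · intro h
      exact absurd (Finset.mem_univ j) h
  refine Finsupp.ext fun il => ?_
  obtain ⟨i, l⟩ := il
  rw [Finsupp.finsetSum_apply]
  have hR : ∀ l' ∈ Finset.univ \ K, (effC a K l' j • sy l' k) (i, l) =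
      if l' = i then (if l = k then effC a K i j else 0) else 0 := by
    intro l' _
    rw [Finsupp.smul_apply, Finsupp.single_apply, smul_eq_mul]
    by_cases h1 : l' = i
    · subst h1
      rw [if_pos rfl]
      by_cases h2 : l = k
      · subst h2
        rw [if_pos rfl, if_pos rfl, mul_one]
      · rw [if_neg h2, if_neg (fun h => h2 (Prod.ext_iff.1 h).2.symm), mul_zero]
    · rw [if_neg h1, if_neg (fun h => h1 (Prod.ext_iff.1 h).1), mul_zero]
  rw [Finset.sum_congr rfl hR, Finset.sum_ite_eq']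
  by_cases hi : i ∈ K
  · rw [if_neg (fun h => (Finset.mem_sdiff.1 h).2 hi), elC_apply_mem a hs K hK k _ i hi]
    by_cases hl : l = k
    · rw [if_pos hl]
    · rw [if_neg hl, cE_apply, if_neg hl]
  · rw [if_pos (Finset.mem_sdiff.2 ⟨Finset.mem_univ i, hi⟩), ah10_elC_apply a hs, cE_apply]
    by_cases hl : l = k
    · rw [if_pos hl, if_pos hl, if_pos hl]
      unfold Pool.Agent.H40.KADE.effC
      have h1 : ext a K (uv j) = fun i => uv j i + sol a K (fun x => -cv a (uv j) x) i := by
        funext i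
        unfold ext
        rw [huv]
      rw [h1, cv_add, hcu, cart_symm a hs j i,
        cv_eq_cqN a K (sol a K (fun x => -cv a (uv j) x)) (fun x hx => sol_off a K _ x hx),
        sol_eq_solN a hs hK]
      congr 2
      refine solN_congr hs hK _ _ fun x _ => ?_
      rw [cE_apply, if_pos rfl, hcu, cart_symm a hs j x]
    · rw [if_neg hl, if_neg hl, if_neg hl, add_zero]

/-- two nonadjacent sets. -/
theorem elC_union (a : I → I → ℕ) (hs : ∀ i j, a i j = a j i) (K K' : Finset I)
    (hK : FinT a (K ∪ K')) (hsep : Sep a K K') (k : ℕ) (c : QE I) :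
    elC a (K ∪ K') k c = elC a K k (elC a K' k c) := by
  have hK1 : FinT a K := hK.mono Finset.subset_union_left
  have hK2 : FinT a K' := hK.mono Finset.subset_union_right
  have h1 : ∀ y ∈ K, solN a (K ∪ K') (fun x => -c (x, k)) y =
      solN a K (fun x => -(elC a K' k c) (x, k)) y := by
    intro y hy
    rw [solN_component hs hK Finset.subset_union_left (fun i hi j hj hjK => ?_) _ y hy]
    · refine congrFun (solN_congr hs hK1 _ _ fun x hx => ?_) y
      rw [ah10_elC_sep a hs K' k c x (fun y hy => ah10_sep_left hsep hx hy)]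
    · rcases Finset.mem_union.1 hj with h | h
      · exact absurd h hjK
      · exact hsep.2 i hi j h
  have h2 : ∀ y ∈ K', solN a (K ∪ K') (fun x => -c (x, k)) y =
      solN a K' (fun x => -c (x, k)) y := by
    intro y hy
    refine solN_component hs hK Finset.subset_union_right (fun i hi j hj hjK => ?_) _ y hy
    rcases Finset.mem_union.1 hj with h | h
    · rw [hs]
      exact hsep.2 j h i hi
    · exact absurd h hjK
  have h3 : elC a K k (elC a K' k c) = elC a K' k c +
      ∑ y ∈ K, solN a K (fun x => -(elC a K' k c) (x, k)) y • cE a y k := rfl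
  rw [h3]
  have h4 : elC a K' k c = c + ∑ y ∈ K', solN a K' (fun x => -c (x, k)) y • cE a y k := rfl
  have h5 : elC a (K ∪ K') k c =
      c + ∑ y ∈ K ∪ K', solN a (K ∪ K') (fun x => -c (x, k)) y • cE a y k := rfl
  rw [h5, Finset.sum_union hsep.1, Finset.sum_congr rfl (fun y hy => by rw [h1 y hy]),
    Finset.sum_congr (s₁ := K') rfl (fun y hy => by rw [h2 y hy])]
  conv_rhs => rw [add_comm, h4]
  rw [← h4]
  rw [h4]
  abel

theorem elT_union (a : I → I → ℕ) (hs : ∀ i j, a i j = a j i) (K K' : Finset I)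
    (hK : FinT a (K ∪ K')) (hsep : Sep a K K') (k : ℕ) (T : Trm I) :
    elT a (K ∪ K') k T = elT a K k (elT a K' k T) := by
  refine Trm.ext rfl rfl ?_
  funext j
  rw [ah10_elT_Λ, ah10_elT_Λ, ah10_elT_Λ]
  by_cases h1 : j ∈ K
  · rw [if_pos (Finset.mem_union_left _ h1), if_pos h1]
  · by_cases h2 : j ∈ K'
    · rw [if_pos (Finset.mem_union_right _ h2), if_neg h1, if_pos h2,
        elC_zero a hs K (hK.mono Finset.subset_union_left) k]
    · rw [if_neg (fun h => (Finset.mem_union.1 h).elim h1 h2), if_neg h1, if_neg h2,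
        elC_union a hs K K' hK hsep k]

theorem elT_empty (a : I → I → ℕ) (k : ℕ) (T : Trm I) : elT a ∅ k T = T := by
  refine Trm.ext rfl rfl ?_
  funext j
  rw [ah10_elT_Λ, if_neg (Finset.notMem_empty j)]
  unfold elC
  rw [Finset.sum_empty, add_zero]

theorem RReg_elT (a : I → I → ℕ) (hs : ∀ i j, a i j = a j i) (K : Finset I) (hK : FinT a K)
    (k : ℕ) (T : Trm I) (hT : RRegK K k T) : RReg K (elT a K k T) := by
  refine ⟨hT.nat, fun x hx j hj l hl hne => ?_⟩
  rw [ah10_elT_Λ, if_neg hj, elC_apply_mem a hs K hK k _ x hx] at hne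
  by_cases hlk : l = k
  · exact absurd (if_pos hlk) hne
  · rw [if_neg hlk] at hne
    exact (hT.col x hx j hj l hl hne).resolve_left hlk

/-- the plateau functional does not see the elimination. -/
theorem PPv_elT (a : I → I → ℕ) (hs : ∀ i j, a i j = a j i) (K : Finset I) (hK : FinT a K)
    (k : ℕ) (hk : 1 ≤ k) (q : I → ℚ) (hq : QOk a K q) (T : Trm I) (hT : RRegK K k T) :
    PPv a K k q T = PPv a K k q (elT a K k T) := by
  classical
  -- the plateau functional does not see the columns of `K`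
  have hcong : ∀ T1 T2 : Trm I, T1.γ = T2.γ → T1.E = T2.E → (∀ j, j ∉ K → T1.Λ j = T2.Λ j) →
      PPv a K k q T1 = PPv a K k q T2 := by
    intro T1 T2 h1 h2 h3
    have hr : ∀ m : I → ℕ, rawT a K k q m T1 = rawT a K k q m T2 := by
      intro m
      refine Trm.ext ?_ ?_ ?_
      · show (fun i => T1.γ i - k * _) = (fun i => T2.γ i - k * _)
        rw [h1]
      · show T1.E - _ = T2.E - _
        rw [h2]
      · funext i
        rw [AE8_raw_col, AE8_raw_col]
        by_cases hi : i ∈ K
        · rw [if_pos hi, if_pos hi]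
        · rw [if_neg hi, if_neg hi, h3 i hi]
    have hb : bnd K k q T1 = bnd K k q T2 := by
      unfold bnd
      rw [h1]
    unfold PPv
    rw [hb]
    exact Finset.sum_congr rfl fun m _ => by rw [hr m]
  -- one column after the other
  let TS : Finset I → Trm I := fun S =>
    ⟨T.γ, T.E, fun j => if j ∈ S then elC a K k (T.Λ j) else T.Λ j⟩
  have hTS : ∀ S j, (TS S).Λ j = if j ∈ S then elC a K k (T.Λ j) else T.Λ j := fun _ _ => rfl
  have hreg : ∀ S : Finset I, RRegK K k (TS S) := by
    intro S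
    refine ⟨hT.nat, fun x hx j hj l hl hne => ?_⟩
    rw [hTS] at hne
    by_cases hjS : j ∈ S
    · rw [if_pos hjS, elC_apply_mem a hs K hK k _ x hx] at hne
      by_cases hlk : l = k
      · exact Or.inl hlk
      · rw [if_neg hlk] at hne
        exact hT.col x hx j hj l hl hne
    · rw [if_neg hjS] at hne
      exact hT.col x hx j hj l hl hne
  have hind : ∀ S : Finset I, (∀ j ∈ S, j ∉ K) → PPv a K k q (TS S) = PPv a K k q T := by
    intro S
    induction S using Finset.induction_on with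
    | empty =>
      intro _
      refine hcong _ _ rfl rfl fun j _ => ?_
      rw [hTS, if_neg (Finset.notMem_empty j)]
    | insert j S hjS ih =>
      intro hS
      have hjK : j ∉ K := hS j (Finset.mem_insert_self j S)
      have e1 : TS (insert j S) = (TS S).col j (T.Λ j +
          ∑ y ∈ K, solN a K (fun x => -(T.Λ j) (x, k)) y • cE a y k) := by
        refine Trm.ext rfl rfl ?_
        funext i
        rw [hTS]
        show _ = Function.update (TS S).Λ j _ i
        by_cases hij : i = j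
        · subst hij
          rw [if_pos (Finset.mem_insert_self i S), Function.update_self]
          rfl
        · rw [Function.update_of_ne hij, hTS]
          by_cases hiS : i ∈ S
          · rw [if_pos hiS, if_pos (Finset.mem_insert_of_mem hiS)]
          · rw [if_neg hiS, if_neg (fun h => (Finset.mem_insert.1 h).elim hij hiS)]
      have e2 : (TS S).col j (T.Λ j) = TS S := by
        refine Trm.ext rfl rfl ?_
        funext i
        show Function.update (TS S).Λ j _ i = _
        by_cases hij : i = j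
        · subst hij
          rw [Function.update_self, hTS, if_neg hjS]
        · rw [Function.update_of_ne hij]
      rw [e1, PPv_elim a hs K hK k hk q hq (TS S) (hreg S) j hjK (T.Λ j) _
        (fun x hx l hl hne => hT.col x hx j hjK l hl hne), e2]
      exact ih fun i hi => hS i (Finset.mem_insert_of_mem hi)
  rw [← hind (Finset.univ \ K) (fun j hj => (Finset.mem_sdiff.1 hj).2)]
  refine hcong _ _ rfl rfl fun j hj => ?_
  rw [hTS, if_pos (Finset.mem_sdiff.2 ⟨Finset.mem_univ j, hj⟩), ah10_elT_Λ, if_neg hj]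

theorem elT_patT (a : I → I → ℕ) (hs : ∀ i j, a i j = a j i) (K B : Finset I) (hK : FinT a K)
    (hKB : Disjoint K B) (k : ℕ) (π : Pat I) (T : Trm I) :
    elT a K k (patT a B π T) = patT a B π (elT a K k T) := by
  refine Trm.ext rfl rfl ?_
  funext j
  rw [ah10_elT_Λ, ah10_patT_Λ, ah10_patT_Λ, ah10_elT_Λ]
  by_cases h1 : j ∈ B
  · have h2 : j ∉ K := Finset.disjoint_right.1 hKB h1
    rw [if_pos h1, if_pos h1, if_neg h2, elC_sy a hs K hK k j h2]
  · rw [if_neg h1, if_neg h1]

theorem rsT_patT (a : I → I → ℕ) (S B : Finset I) (hSB : Disjoint S B) (k : ℕ) (μ : I → ℚ)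
    (π : Pat I) (T : Trm I) : rsT a S k μ (patT a B π T) = patT a B π (rsT a S k μ T) := by
  refine Trm.ext ?_ ?_ ?_
  · funext i
    show T.γ i - (π.s i : ℚ) * -resQ B π.q i - k * μ i =
      T.γ i - k * μ i - (π.s i : ℚ) * -resQ B π.q i
    ring
  · show T.E - (∑ x, (-resQ B π.q x) • cE a x (π.s x)) - (∑ x, μ x • cE a x k) =
      T.E - (∑ x, μ x • cE a x k) - (∑ x, (-resQ B π.q x) • cE a x (π.s x))
    exact sub_right_comm _ _ _
  · funext j
    rw [ah10_rsT_Λ, ah10_patT_Λ, ah10_patT_Λ, ah10_rsT_Λ]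
    by_cases h1 : j ∈ B
    · rw [if_pos h1, if_pos h1, if_neg (Finset.disjoint_right.1 hSB h1)]
    · rw [if_neg h1, if_neg h1]

theorem rsT_union (a : I → I → ℕ) (S S' : Finset I) (k : ℕ) (μ μ' : I → ℚ) (T : Trm I) :
    rsT a (S ∪ S') k (fun i => μ i + μ' i) T = rsT a S k μ (rsT a S' k μ' T) := by
  refine Trm.ext ?_ ?_ ?_
  · funext i
    show T.γ i - k * (μ i + μ' i) = T.γ i - k * μ' i - k * μ i
    ring
  · show T.E - (∑ x, (μ x + μ' x) • cE a x k) =
      T.E - (∑ x, μ' x • cE a x k) - (∑ x, μ x • cE a x k)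
    rw [Finset.sum_congr rfl fun x _ => add_smul (μ x) (μ' x) (cE a x k), Finset.sum_add_distrib]
    abel
  · funext j
    rw [ah10_rsT_Λ, ah10_rsT_Λ, ah10_rsT_Λ]
    by_cases h1 : j ∈ S
    · rw [if_pos (Finset.mem_union_left _ h1), if_pos h1]
    · by_cases h2 : j ∈ S'
      · rw [if_pos (Finset.mem_union_right _ h2), if_neg h1, if_pos h2]
      · rw [if_neg (fun h => (Finset.mem_union.1 h).elim h1 h2), if_neg h1, if_neg h2]

theorem rsT_elT (a : I → I → ℕ) (hs : ∀ i j, a i j = a j i) (S K : Finset I) (hK : FinT a K)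
    (hsep : Sep a S K) (k : ℕ) (μ : I → ℚ) (T : Trm I) :
    rsT a S k μ (elT a K k T) = elT a K k (rsT a S k μ T) := by
  refine Trm.ext rfl rfl ?_
  funext j
  rw [ah10_rsT_Λ, ah10_elT_Λ, ah10_elT_Λ, ah10_rsT_Λ]
  by_cases h1 : j ∈ S
  · have h2 : j ∉ K := Finset.disjoint_left.1 hsep.1 h1
    rw [if_pos h1, if_pos h1, if_neg h2, elC_of_zero a hs K hK k]
    intro x hx
    rw [cE_apply, if_pos rfl, ah10_sep_left hsep h1 hx]
    rfl
  · rw [if_neg h1, if_neg h1]

/-- a restart on `A` does not influence the separated set `B`. -/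
theorem RReg_rs_sep (a : I → I → ℕ) (hs : ∀ i j, a i j = a j i) (A B S : Finset I)
    (hA : FinT a A) (hAB : Sep a A B) (hS : S ⊆ A) (k : ℕ) (μ : I → ℚ)
    (hμ : ∀ i, i ∉ A → μ i = 0) (T : Trm I) (hT : RReg (A ∪ B) T) :
    RReg B (elT a (A \ S) k (rsT a S k μ T)) := by
  have hE : ∀ x ∈ B, ∀ l, (rsT a S k μ T).E (x, l) = T.E (x, l) := by
    intro x hx l
    rw [rsT_E a hs A S hS k μ hμ T x l,
      ah10_cqN_nonadj a A μ x (fun y hy => ah10_sep_right hs hAB hy hx)]
    split_ifs
    · rw [sub_zero]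
    · rw [sub_zero]
  refine ⟨fun x hx l hl => ?_, fun x hx j hj l hl hne => ?_⟩
  · show IsN ((rsT a S k μ T).E (x, l))
    rw [hE x hx l]
    exact hT.nat x (Finset.mem_union_right _ hx) l hl
  · show 1 ≤ (rsT a S k μ T).E (x, l)
    rw [hE x hx l]
    rw [ah10_elT_Λ] at hne
    by_cases h1 : j ∈ A \ S
    · rw [if_pos h1] at hne
      exact absurd rfl hne
    · rw [if_neg h1, ah10_elC_sep a hs (A \ S) k _ x
        (fun y hy => ah10_sep_right hs hAB (Finset.mem_sdiff.1 hy).1 hx), ah10_rsT_Λ] at hne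
      by_cases h2 : j ∈ S
      · exfalso
        apply hne
        rw [if_pos h2, cE_apply, ah10_sep_left hAB (hS h2) hx]
        split_ifs <;> rfl
      · rw [if_neg h2] at hne
        have h3 : j ∉ A ∪ B := by
          intro h
          rcases Finset.mem_union.1 h with h | h
          · exact h1 (Finset.mem_sdiff.2 ⟨h, h2⟩)
          · exact hj h
        exact hT.col x (Finset.mem_union_right _ hx) j h3 l hl hne

theorem E_rs_sep (a : I → I → ℕ) (hs : ∀ i j, a i j = a j i) (A B S : Finset I)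
    (hAB : Sep a A B) (hS : S ⊆ A) (k : ℕ) (μ : I → ℚ)
    (hμ : ∀ i, i ∉ A → μ i = 0) (T : Trm I) (x : I) (hx : x ∈ B) (l : ℕ) :
    (elT a (A \ S) k (rsT a S k μ T)).E (x, l) = T.E (x, l) ∧
      (elT a (A \ S) k (rsT a S k μ T)).γ x = T.γ x := by
  refine ⟨?_, ?_⟩
  · show (rsT a S k μ T).E (x, l) = T.E (x, l)
    rw [rsT_E a hs A S hS k μ hμ T x l,
      ah10_cqN_nonadj a A μ x (fun y hy => ah10_sep_right hs hAB hy hx)]
    split_ifs
    · rw [sub_zero]
    · rw [sub_zero]
  · show T.γ x - k * μ x = T.γ x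
    rw [hμ x (Finset.disjoint_right.1 hAB.1 hx), mul_zero, sub_zero]

theorem E_patT_sep (a : I → I → ℕ) (hs : ∀ i j, a i j = a j i) (A B : Finset I)
    (hAB : Sep a A B) (π : Pat I) (T : Trm I) (x : I) (hx : x ∈ A) (l : ℕ) :
    (patT a B π T).E (x, l) = T.E (x, l) ∧ (patT a B π T).γ x = T.γ x := by
  refine ⟨?_, ?_⟩
  · rw [patT_E, Finset.sum_eq_zero, add_zero]
    intro y hy
    rw [ah10_sep_right hs hAB hx (Finset.mem_filter.1 hy).1]
    push_cast
    ring
  · show T.γ x - (π.s x : ℚ) * -resQ B π.q x = T.γ x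
    unfold resQ
    rw [if_neg (Finset.disjoint_left.1 hAB.1 hx), neg_zero, mul_zero, sub_zero]

end

end Pool.Agent.H46.AH
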