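import Pool.Agent.H46.AH.AH6
import Pool.Agent.H40.KADE.GDef

/-!
KAC ADE, module AH12: functionals which represent `∑_{l ≤ f} w(l) R_l[q]`: congruence, joint evaluation, unions.

* `IsRF.congr`: only the class of `q` on `N` modulo `ℤ` and the values `w l`, `l ≤ f`, matter.
* `evU_RF`: the joint value on `RReg` terms does not depend on the choice of the functionals: induction on the list of
  components with `evU_congr_head` (AG1).
* `stBlk_union`: `comps a (A ∪ B) = comps a A ∪ comps a B` for separated sets; `evU_perm`.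
* `cn_congrZ`: `cnA` only depends on the class of `q` on `A` modulo `ℤ` (induction on the fuel; `cd.eps_congr`).
* `RFex_of_Adm`: `RTfam.tau`, `RTfam.top0` for an admissible representative (`rp_spec`), then `IsRF.congr`.
-/

set_option autoImplicit false

namespace Pool.Agent.H46.AH

open scoped BigOperators
open Pool.Agent.H27.KAC Pool.Agent.H40.KADE

section

variable {I : Type} [Fintype I] [DecidableEq I]

/-- there are functionals at all frontiers `f ≤ k`. -/
def RFex (a : I → I → ℕ) (cd : CrossData a) (N : Finset I) (q : I → ℚ) (w : ℕ → ℚ) (k : ℕ) : Prop :=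
  ∀ f, f ≤ k → ∃ Φ : FFn I, IsRF a cd N q w f Φ

/-- `fam` selects functionals. -/
def IsFam (a : I → I → ℕ) (cd : CrossData a)
    (fam : Finset I → (I → ℚ) → (ℕ → ℚ) → ℕ → FFn I) : Prop :=
  ∀ N q w f, (∃ Φ : FFn I, IsRF a cd N q w f Φ) → IsRF a cd N q w f (fam N q w f)

private theorem AH12_zadd {p q : ℚ} (hp : IsZ p) (hq : IsZ q) : IsZ (p + q) := by
  obtain ⟨m, rfl⟩ := hp
  obtain ⟨n, rfl⟩ := hq
  exact ⟨m + n, by push_cast; rfl⟩

private theorem AH12_zneg {p : ℚ} (hp : IsZ p) : IsZ (-p) := by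
  obtain ⟨m, rfl⟩ := hp
  exact ⟨-m, by push_cast; rfl⟩

private theorem AH12_zsubc {p q : ℚ} (h : IsZ (p - q)) : IsZ (q - p) := by
  have h1 := AH12_zneg h
  rwa [neg_sub] at h1

theorem Rep.congr {a : I → I → ℕ} {N : Finset I} {q q₂ q' : I → ℚ} (h : Rep a N q q')
    (hq : ∀ x ∈ N, IsZ (q x - q₂ x)) : Rep a N q₂ q' := by
  refine ⟨h.1, fun x hx => ?_⟩
  have h1 := AH12_zadd (h.2 x hx) (hq x hx)
  rwa [sub_add_sub_cancel] at h1

private theorem AH12_RFv (a : I → I → ℕ) (N : Finset I) (q : I → ℚ) {w w₂ : ℕ → ℚ} (f : ℕ)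
    (hw : ∀ l, l ≤ f → w l = w₂ l) (T : Trm I) : RFv a N q w f T = RFv a N q w₂ f T := by
  unfold RFv
  rw [hw 0 (Nat.zero_le f)]
  congr 1
  exact Finset.sum_congr rfl fun l hl => by rw [hw l (Finset.mem_Icc.1 hl).2]

theorem IsRF.congr {a : I → I → ℕ} {cd : CrossData a} {N : Finset I} {q q₂ : I → ℚ} {w w₂ : ℕ → ℚ}
    {f : ℕ} {Φ : FFn I} (h : IsRF a cd N q w f Φ) (hq : ∀ x ∈ N, IsZ (q x - q₂ x))
    (hw : ∀ l, l ≤ f → w l = w₂ l) : IsRF a cd N q₂ w₂ f Φ := by
  refine ⟨fun c hc => ?_, fun q' hq' T hT => ?_, fun hf q' hq' T hT hk => ?_⟩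
  · have h1 := h.win c hc
    refine ⟨h1.toPatOk, h1.le, h1.ge, h1.sle, h1.sge, fun x hx => ?_⟩
    have h2 := AH12_zadd (h1.cls x hx) (hq x hx)
    rwa [sub_add_sub_cancel] at h2
  · rw [h.val q' (hq'.congr fun x hx => AH12_zsubc (hq x hx)) T hT]
    exact AH12_RFv a N q' f hw T
  · rw [h.knk hf q' (hq'.congr fun x hx => AH12_zsubc (hq x hx)) T hT hk, hw f le_rfl]

theorem RFex.congr {a : I → I → ℕ} {cd : CrossData a} {N : Finset I} {q q₂ : I → ℚ} {w w₂ : ℕ → ℚ}
    {k : ℕ} (h : RFex a cd N q w k) (hq : ∀ x ∈ N, IsZ (q x - q₂ x))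
    (hw : ∀ l, l ≤ k → w l = w₂ l) : RFex a cd N q₂ w₂ k := by
  intro f hf
  obtain ⟨Φ, hΦ⟩ := h f hf
  exact ⟨Φ, hΦ.congr hq fun l hl => hw l (hl.trans hf)⟩

/-- two functionals for the same data have the same values. -/
theorem IsRF.unique {a : I → I → ℕ} (hs : ∀ i j, a i j = a j i) {cd : CrossData a} {N : Finset I}
    (hN : FinT a N) {q : I → ℚ} (hq : ∀ x ∈ N, IsZ (cqN a N q x)) {w : ℕ → ℚ} {f : ℕ}
    {Φ Ψ : FFn I} (h : IsRF a cd N q w f Φ) (h' : IsRF a cd N q w f Ψ) (T : Trm I)
    (hT : RReg N T) : evF a N Φ T = evF a N Ψ T := by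
  have hr := rp_spec a hs N hN q hq
  rw [h.val _ hr T hT, h'.val _ hr T hT]

private theorem AH12_uni (U : List (Finset I × FFn I)) (x : I) :
    x ∈ uni U ↔ ∃ b ∈ U, x ∈ b.1 := by
  induction U with
  | nil =>
    constructor
    · intro h
      exact absurd h (Finset.notMem_empty x)
    · rintro ⟨b, hb, _⟩
      exact absurd hb List.not_mem_nil
  | cons c U ih =>
    have h1 : uni (c :: U) = c.1 ∪ uni U := rfl
    rw [h1, Finset.mem_union, ih]
    constructor
    · rintro (h | ⟨b, hb, h⟩)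
      · exact ⟨c, List.mem_cons_self, h⟩
      · exact ⟨b, List.mem_cons_of_mem _ hb, h⟩
    · rintro ⟨b, hb, h⟩
      rcases List.mem_cons.1 hb with h2 | h2
      · rw [h2] at h
        exact Or.inl h
      · exact Or.inr ⟨b, h2, h⟩

private theorem AH12_unim (L : List (Finset I)) (Φ : Finset I → FFn I) (x : I) :
    x ∈ uni (L.map (fun A => (A, Φ A))) ↔ ∃ A ∈ L, x ∈ A := by
  rw [AH12_uni]
  constructor
  · rintro ⟨b, hb, hx⟩
    obtain ⟨A, hA, rfl⟩ := List.mem_map.1 hb
    exact ⟨A, hA, hx⟩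
  · rintro ⟨A, hA, hx⟩
    exact ⟨(A, Φ A), List.mem_map.2 ⟨A, hA, rfl⟩, hx⟩

private theorem AH12_pw {a : I → I → ℕ} (hs : ∀ i j, a i j = a j i) (W : Finset I)
    (L : List (Finset I)) (hL : L.Nodup) (hLW : ∀ A ∈ L, A ∈ comps a W) (Φ : Finset I → FFn I) :
    (L.map (fun A => (A, Φ A))).Pairwise (fun b c => Disjoint b.1 c.1) := by
  rw [List.pairwise_map]
  induction L with
  | nil => exact List.Pairwise.nil
  | cons A L ih =>
    have h1 := List.nodup_cons.1 hL
    refine List.Pairwise.cons (fun B hB => ?_) (ih h1.2 fun B hB => hLW B (List.mem_cons_of_mem _ hB))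
    refine comps_disjoint hs (hLW A List.mem_cons_self) (hLW B (List.mem_cons_of_mem _ hB)) ?_
    rintro rfl
    exact h1.1 hB

private theorem AH12_evU {a : I → I → ℕ} (hs : ∀ i j, a i j = a j i) {W : Finset I}
    (L : List (Finset I)) (hL : L.Nodup) (hLW : ∀ A ∈ L, A ∈ comps a W)
    {Φ Ψ : Finset I → FFn I}
    (h : ∀ A ∈ L, ∀ T : Trm I, RReg A T → evF a A (Φ A) T = evF a A (Ψ A) T) (T : Trm I)
    (hT : RReg (uni (L.map (fun A => (A, Φ A)))) T) :
    evU a (L.map (fun A => (A, Φ A))) T = evU a (L.map (fun A => (A, Ψ A))) T := by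
  induction L generalizing T with
  | nil => rfl
  | cons A L ih =>
    have h1 := List.nodup_cons.1 hL
    have hA := hLW A List.mem_cons_self
    have hLW' : ∀ B ∈ L, B ∈ comps a W := fun B hB => hLW B (List.mem_cons_of_mem _ hB)
    have hne : ∀ B ∈ L, A ≠ B := by
      intro B hB hAB
      rw [hAB] at h1
      exact h1.1 hB
    have hadj : ∀ x ∈ A, ∀ y ∈ uni (L.map (fun A => (A, Φ A))), a x y = 0 := by
      intro x hx y hy
      obtain ⟨B, hB, hyB⟩ := (AH12_unim L Φ y).1 hy
      exact comps_nonadj hs hA (hLW' B hB) (hne B hB) x hx y hyB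
    have hdis : Disjoint (uni (L.map (fun A => (A, Φ A)))) A := by
      rw [Finset.disjoint_left]
      intro y hy hyA
      obtain ⟨B, hB, hyB⟩ := (AH12_unim L Φ y).1 hy
      exact Finset.disjoint_left.1 (comps_disjoint hs hA (hLW' B hB) (hne B hB)) hyA hyB
    have hT1 : RReg (A ∪ uni (L.map (fun A => (A, Φ A)))) T := hT
    have hT2 : RReg (uni (L.map (fun A => (A, Φ A))) ∪ A) T := by
      rw [Finset.union_comm]
      exact hT1
    have step : evU a ((A, Φ A) :: L.map (fun A => (A, Φ A))) T =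
        evU a ((A, Ψ A) :: L.map (fun A => (A, Φ A))) T := by
      refine evU_congr_head a hs A (Φ A) (Ψ A) _ ?_ (fun c _ x hx y hy _ => hadj x hx y hy)
        (h A List.mem_cons_self) T hT1
      exact AH12_pw hs W (A :: L) hL hLW Φ
    rw [List.map_cons, List.map_cons, step, evU_cons, evU_cons]
    congr 1
    refine List.map_congr_left fun c _ => ?_
    show c.1 * evU a _ (patT a A c.2 T) = c.1 * evU a _ (patT a A c.2 T)
    rw [ih h1.2 hLW' (fun B hB => h B (List.mem_cons_of_mem _ hB)) (patT a A c.2 T)]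
    refine RReg_patT a hs _ A hdis c.2 (fun x hx y hy _ => ?_) T hT2
    rw [hs]
    exact hadj y hy x hx

private theorem AH12_cqN (a : I → I → ℕ) (W A : Finset I) (hA : A ∈ comps a W) (q : I → ℚ) :
    ∀ x ∈ A, cqN a A q x = cqN a W q x := by
  intro x hx
  unfold cqN
  refine Finset.sum_subset (comps_subset hA) fun y hy hyA => ?_
  have hxy : x ≠ y := fun h2 => hyA (h2 ▸ hx)
  have h2 : cart a x y = 0 := by
    unfold cart
    rw [if_neg hxy, comps_sep hA x hx y hy hyA]
    rfl
  rw [h2]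
  push_cast
  ring

/-- the joint value does not depend on the choice of the functionals. -/
theorem evU_RF {a : I → I → ℕ} (hs : ∀ i j, a i j = a j i) {cd : CrossData a} {W : Finset I}
    (hW : FinT a W) {q : I → ℚ} (hq : ∀ x ∈ W, IsZ (cqN a W q x)) {w : Finset I → ℕ → ℚ} {f : ℕ}
    {Φ Ψ : Finset I → FFn I} (h : ∀ A ∈ comps a W, IsRF a cd A q (w A) f (Φ A))
    (h' : ∀ A ∈ comps a W, IsRF a cd A q (w A) f (Ψ A)) (T : Trm I) (hT : RReg W T) :
    evU a ((comps a W).toList.map (fun A => (A, Φ A))) T =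
      evU a ((comps a W).toList.map (fun A => (A, Ψ A))) T := by
  refine AH12_evU hs (comps a W).toList (Finset.nodup_toList _)
    (fun A hA => Finset.mem_toList.1 hA) (fun A hA T hT => ?_) T ?_
  · have hA' := Finset.mem_toList.1 hA
    refine (h A hA').unique hs (hW.mono (comps_subset hA')) (fun x hx => ?_) (h' A hA') T hT
    rw [AH12_cqN a W A hA' q x hx]
    exact hq x (comps_subset hA' hx)
  · have h1 : uni ((comps a W).toList.map (fun A => (A, Φ A))) = W := by
      ext x
      rw [AH12_unim]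
      constructor
      · rintro ⟨A, hA, hx⟩
        exact comps_subset (Finset.mem_toList.1 hA) hx
      · intro hx
        obtain ⟨A, hA, hxA⟩ := comps_cover hs x hx
        exact ⟨A, Finset.mem_toList.2 hA, hxA⟩
    rw [h1]
    exact hT

private theorem AH12_mem {a : I → I → ℕ} {N A : Finset I} (h1 : A ⊆ N) (h2 : ConnS a A)
    (h3 : ∀ i ∈ A, ∀ j ∈ N, j ∉ A → a i j = 0) : A ∈ comps a N := by
  classical
  unfold comps
  rw [Finset.mem_filter, Finset.mem_powerset]
  exact ⟨h1, h2, h3⟩

theorem comps_union (a : I → I → ℕ) (hs : ∀ i j, a i j = a j i) (A B : Finset I)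
    (hAB : Sep a A B) : comps a (A ∪ B) = comps a A ∪ comps a B := by
  ext C
  rw [Finset.mem_union]
  constructor
  · intro hC
    have hCs := comps_subset hC
    have hCc := comps_conn hC
    have hCn := comps_sep hC
    by_cases hAC : C ⊆ A
    · exact Or.inl (AH12_mem hAC hCc fun i hi j hj hjC =>
        hCn i hi j (Finset.mem_union_left _ hj) hjC)
    · right
      have hempty : ¬ (C ∩ A).Nonempty := by
        intro hne
        obtain ⟨i, hi, j, hj, hjn, hpos⟩ := hCc.2 (C ∩ A) Finset.inter_subset_left hne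
          (fun h => hAC (Finset.inter_eq_left.1 h))
        have hjA : j ∉ A := fun h => hjn (Finset.mem_inter.2 ⟨hj, h⟩)
        have hjB : j ∈ B := (Finset.mem_union.1 (hCs hj)).resolve_left hjA
        have h0 := hAB.2 i (Finset.mem_inter.1 hi).2 j hjB
        omega
      have hCB : C ⊆ B := by
        intro x hx
        rcases Finset.mem_union.1 (hCs hx) with h | h
        · exact absurd ⟨x, Finset.mem_inter.2 ⟨hx, h⟩⟩ hempty
        · exact h
      exact AH12_mem hCB hCc fun i hi j hj hjC => hCn i hi j (Finset.mem_union_right _ hj) hjC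
  · rintro (hC | hC)
    · refine AH12_mem ((comps_subset hC).trans Finset.subset_union_left) (comps_conn hC)
        fun i hi j hj hjC => ?_
      rcases Finset.mem_union.1 hj with h | h
      · exact comps_sep hC i hi j h hjC
      · exact hAB.2 i (comps_subset hC hi) j h
    · refine AH12_mem ((comps_subset hC).trans Finset.subset_union_right) (comps_conn hC)
        fun i hi j hj hjC => ?_
      rcases Finset.mem_union.1 hj with h | h
      · rw [hs]
        exact hAB.2 j h i (comps_subset hC hi)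
      · exact comps_sep hC i hi j h hjC

theorem comps_disj (a : I → I → ℕ) (A B : Finset I) (hAB : Sep a A B) :
    Disjoint (comps a A) (comps a B) := by
  rw [Finset.disjoint_left]
  intro C hCA hCB
  obtain ⟨x, hx⟩ := (comps_conn hCA).1
  exact Finset.disjoint_left.1 hAB.1 (comps_subset hCA hx) (comps_subset hCB hx)

/-- the blocks of a union of separated sets. -/
theorem evU_union (a : I → I → ℕ) (hs : ∀ i j, a i j = a j i) (A B : Finset I) (hAB : Sep a A B)
    (Φ : Finset I → FFn I) (T : Trm I) :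
    evU a ((comps a (A ∪ B)).toList.map (fun N => (N, Φ N))) T =
      evU a ((comps a A).toList.map (fun N => (N, Φ N)) ++
        (comps a B).toList.map (fun N => (N, Φ N))) T := by
  refine evU_perm a _ _ ?_ (AH12_pw hs (A ∪ B) _ (Finset.nodup_toList _)
    (fun C hC => Finset.mem_toList.1 hC) Φ) T
  rw [← List.map_append]
  refine List.Perm.map _ ?_
  refine (List.perm_ext_iff_of_nodup (Finset.nodup_toList _) ?_).2 fun C => ?_
  · refine List.nodup_append.2 ⟨Finset.nodup_toList _, Finset.nodup_toList _, ?_⟩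
    intro C hC D hD hCD
    rw [← hCD] at hD
    exact Finset.disjoint_left.1 (comps_disj a A B hAB) (Finset.mem_toList.1 hC)
      (Finset.mem_toList.1 hD)
  · rw [List.mem_append, Finset.mem_toList, Finset.mem_toList, Finset.mem_toList,
      comps_union a hs A B hAB, Finset.mem_union]

private theorem AH12_patT_empty (a : I → I → ℕ) (π : Pat I) (T : Trm I) : patT a ∅ π T = T := by
  refine Trm.ext ?_ ?_ ?_
  · funext i
    show T.γ i - (π.s i : ℚ) * (-resQ ∅ π.q i) = T.γ i
    unfold resQ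
    rw [if_neg (Finset.notMem_empty i)]
    ring
  · show T.E - ∑ x, (-resQ ∅ π.q x) • cE a x (π.s x) = T.E
    have h0 : ∑ x, (-resQ ∅ π.q x) • cE a x (π.s x) = 0 := by
      refine Finset.sum_eq_zero fun x _ => ?_
      unfold resQ
      rw [if_neg (Finset.notMem_empty x), neg_zero, zero_smul]
    rw [h0, sub_zero]
  · funext i
    show (if i ∈ (∅ : Finset I) then sy i (π.s i + 1) else T.Λ i) = T.Λ i
    rw [if_neg (Finset.notMem_empty i)]

private theorem AH12_mul_sum {ι : Type} (r : ℚ) (l : List ι) (f : ι → ℚ) :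
    r * (l.map f).sum = (l.map (fun c => r * f c)).sum := by
  induction l with
  | nil => simp
  | cons c l ih =>
    rw [List.map_cons, List.sum_cons, List.map_cons, List.sum_cons, mul_add, ih]

private theorem AH12_flat {ι κ : Type} (l : List ι) (g : ι → List κ) (f : κ → ℚ) :
    ((l.flatMap g).map f).sum = (l.map (fun c => ((g c).map f).sum)).sum := by
  induction l with
  | nil => rfl
  | cons c l ih =>
    rw [List.flatMap_cons, List.map_append, List.sum_append, ih, List.map_cons, List.sum_cons]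

/-- evaluation of a concatenation: outer blocks first. -/
theorem evU_append (a : I → I → ℕ) (U V : List (Finset I × FFn I))
    (hd : U.Pairwise (fun b c => Disjoint b.1 c.1)) (T : Trm I) :
    evU a (U ++ V) T = ((prodF U).map (fun c => c.1 * evU a V (patT a (uni U) c.2 T))).sum := by
  induction U generalizing T with
  | nil =>
    show evU a V T = ([((1 : ℚ), (⟨fun _ => 0, fun _ => 0⟩ : Pat I))].map
      (fun c => c.1 * evU a V (patT a ∅ c.2 T))).sum
    rw [List.map_cons, List.map_nil, List.sum_cons, List.sum_nil, AH12_patT_empty]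
    ring
  | cons b U ih =>
    have hd' := List.pairwise_cons.1 hd
    have hdis : Disjoint b.1 (uni U) := by
      rw [Finset.disjoint_left]
      intro x hx hxU
      obtain ⟨c, hc, hxc⟩ := (AH12_uni U x).1 hxU
      exact Finset.disjoint_left.1 (hd'.1 c hc) hx hxc
    rw [List.cons_append, evU_cons]
    have h1 : prodF (b :: U) = b.2.flatMap
        (fun c => (prodF U).map (fun d => (c.1 * d.1, glue b.1 c.2 d.2))) := rfl
    rw [h1, AH12_flat]
    congr 1
    refine List.map_congr_left fun c _ => ?_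
    rw [ih hd'.2, AH12_mul_sum, List.map_map]
    congr 1
    refine List.map_congr_left fun d _ => ?_
    show c.1 * (d.1 * evU a V (patT a (uni U) d.2 (patT a b.1 c.2 T))) =
      c.1 * d.1 * evU a V (patT a (b.1 ∪ uni U) (glue b.1 c.2 d.2) T)
    rw [patT_glue a b.1 (uni U) hdis, patT_comm a b.1 (uni U) hdis]
    ring

/-- removal of one component: separated rest. -/
theorem comps_sdiff_sep (a : I → I → ℕ) (hs : ∀ i j, a i j = a j i) (W A : Finset I)
    (hA : A ∈ comps a W) : Sep a A (W \ A) ∧ A ∪ (W \ A) = W := by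
  refine ⟨⟨Finset.disjoint_sdiff, fun x hx y hy => ?_⟩,
    Finset.union_sdiff_of_subset (comps_subset hA)⟩
  exact comps_sep hA x hx y (Finset.mem_sdiff.1 hy).1 (Finset.mem_sdiff.1 hy).2

theorem cqN_comp (a : I → I → ℕ) (W A : Finset I) (hA : A ∈ comps a W) (q : I → ℚ) :
    ∀ x ∈ A, cqN a A q x = cqN a W q x :=
  AH12_cqN a W A hA q

private theorem AH12_cnA (a : I → I → ℕ) (cd : CrossData a) (n : ℕ) :
    ∀ (A : Finset I) (q q' : I → ℚ) (g : ℕ), (∀ x ∈ A, IsZ (q x - q' x)) →
      cnA a cd n A q g = cnA a cd n A q' g := by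
  classical
  induction n with
  | zero => intro A q q' g _; rfl
  | succ n ih =>
    intro A q q' g h
    unfold cnA
    by_cases hg : g = 0
    · rw [if_pos hg, if_pos hg]
    · rw [if_neg hg, if_neg hg]
      refine Finset.sum_congr ?_ fun M _ => ?_
      · refine Finset.filter_congr fun M hM => ?_
        have hMA := Finset.mem_powerset.1 hM
        constructor
        · intro h1 x hx
          have h2 := AH12_zadd (AH12_zsubc (h x (hMA hx))) (h1 x hx)
          rwa [sub_add_cancel] at h2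
        · intro h1 x hx
          have h2 := AH12_zadd (h x (hMA hx)) (h1 x hx)
          rwa [sub_add_cancel] at h2
      · congr 1
        refine Finset.prod_congr rfl fun N hN => ?_
        have h1 : ∀ x ∈ N, IsZ (q x - q' x) := fun x hx =>
          h x (Finset.mem_sdiff.1 (comps_subset hN hx)).1
        rw [cd.eps_congr N q q' h1, ih N q q' (g - cd.mm N) h1]

/-- the response numbers only depend on the class on `A`. -/
theorem cn_congrZ (a : I → I → ℕ) (cd : CrossData a) (A : Finset I) (q q' : I → ℚ) (g : ℕ)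
    (h : ∀ x ∈ A, IsZ (q x - q' x)) : cn a cd A q g = cn a cd A q' g :=
  AH12_cnA a cd _ A q q' g h

theorem cn_zero (a : I → I → ℕ) (cd : CrossData a) (A : Finset I) (q : I → ℚ) :
    cn a cd A q 0 = 1 := by
  unfold cn cnA
  rw [if_pos rfl]

/-- restarted clusters. -/
theorem RFex_cn (a : I → I → ℕ) (hs : ∀ i j, a i j = a j i) (cd : CrossData a)
    (h : RTfam a cd) (N : Finset I) (hN : FinT a N) (hc : ConnS a N) (q : I → ℚ)
    (hq : ∀ x ∈ N, IsZ (cqN a N q x)) (L k : ℕ) (hkL : k ≤ L) :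
    RFex a cd N q (fun l => cn a cd N q (L - l)) k := by
  intro f hf
  have hr := rp_spec a hs N hN q hq
  obtain ⟨Φ, hΦ⟩ := h.tau N hN hc _ hr.1 L f (hf.trans hkL)
  exact ⟨Φ, hΦ.congr hr.2 fun l _ => cn_congrZ a cd N _ _ _ hr.2⟩

/-- a cluster which has been restarted at the level `L` with frontier `L`. -/
theorem IsRF_L (a : I → I → ℕ) (hs : ∀ i j, a i j = a j i) (cd : CrossData a)
    (h : RTfam a cd) (N : Finset I) (hN : FinT a N) (hc : ConnS a N) (q q' : I → ℚ)
    (hq : Rep a N q q') (L : ℕ) :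
    IsRF a cd N q (fun l => cn a cd N q (L - l)) L [(1, ⟨fun _ => L, q'⟩)] :=
  (h.tauL N hN hc q' hq.1 L).congr hq.2 fun l _ => cn_congrZ a cd N _ _ _ hq.2

theorem RFex_of_Adm (a : I → I → ℕ) (hs : ∀ i j, a i j = a j i) (cd : CrossData a)
    (h : RTfam a cd) (N : Finset I) (hN : FinT a N) (hc : ConnS a N) (γ q : I → ℚ)
    (hq : ∀ x ∈ N, IsZ (cqN a N q x)) (w : ℕ → ℚ) (k : ℕ)
    (hw : AdmW (fun N q g => cn a cd N q g) k N γ q w) : RFex a cd N q w k := by
  rcases hw with ⟨L, hkL, hw, _⟩ | ⟨hq0, hw, _⟩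
  · refine (RFex_cn a hs cd h N hN hc q hq L k hkL).congr (fun x _ => ⟨0, ?_⟩)
      fun l hl => (hw l hl).symm
    rw [sub_self]
    rfl
  · intro f hf
    obtain ⟨Φ, hΦ⟩ := h.top0 N hN hc f
    refine ⟨Φ, hΦ.congr (fun x hx => ⟨0, ?_⟩) fun l hl => (hw l (hl.trans hf)).symm⟩
    show (0 : ℚ) - q x = _
    rw [hq0 x hx, sub_self]
    rfl

end

end Pool.Agent.H46.AH
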