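import Pool.Agent.H46.AH.AH6
import Pool.Agent.H41.KA.AG1

/-!
KAC ADE, module AH8b: plateau functionals: product over disconnected sets, plateau functional of a cluster as response
functional one level below.

* `PPF`: plateau functional with an arbitrary inner functional; `PPv_union`: product structure.
* `PP_RF`: for a connected cluster and `RReg`: `PPv a A k q T = evF a A Φ T` for `Φ` with
  `IsRF a cd A q (fun l => cn a cd A q (k - l)) (k - 1) Φ`: `PPv = TV (tauT a A k q T) - Rv a A k q T` (`TV_step_split`, AE7),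
  `TV (tauT a A k q T) = RFv a A q (cn (k - ·)) k T` (`RTfam.tauL`, `val`), and `cn a cd A q 0 = 1`.
* `PPJ`: induction over the components with `PPv_union` and `PP_RF`; the inner functional of `PPF` is a combination of
  values of patterned terms, `rawT_patT_comm` exchanges the two operations, `RReg_patT`/`RReg_rawT` keep regularity.
-/

set_option autoImplicit false

namespace Pool.Agent.H46.AH

open scoped BigOperators
open Pool.Agent.H27.KAC Pool.Agent.H40.KADE

section

variable {I : Type} [Fintype I] [DecidableEq I]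

/-- plateau functional with inner functional `F`. -/
noncomputable def PPF (a : I → I → ℕ) (N : Finset I) (k : ℕ) (q : I → ℚ) (B : ℕ)
    (F : Trm I → ℚ) (T : Trm I) : ℚ := by
  classical
  exact ∑ m ∈ (mbox N B).filter (fun m => Plat N q m), sgm N m * F (rawT a N k q m T)

private theorem AH8b_PPv (a : I → I → ℕ) (N : Finset I) (k : ℕ) (hk : 1 ≤ k) (q : I → ℚ)
    (T : Trm I) (B : ℕ) (hB : bnd N k q T ≤ B) [DecidablePred fun m : I → ℕ => Plat N q m] :
    PPv a N k q T =
      ∑ m ∈ (mbox N B).filter (fun m => Plat N q m), sgm N m * TV a (rawT a N k q m T) := by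
  rw [sum_raw_bound a N k hk q T (fun m => Plat N q m) B hB]
  unfold PPv
  refine Finset.sum_congr ?_ fun _ _ => rfl
  ext m
  simp only [Finset.mem_filter]

private theorem AH8b_PPF (a : I → I → ℕ) (N : Finset I) (k : ℕ) (q : I → ℚ) (B : ℕ)
    (F : Trm I → ℚ) (T : Trm I) [DecidablePred fun m : I → ℕ => Plat N q m] :
    PPF a N k q B F T =
      ∑ m ∈ (mbox N B).filter (fun m => Plat N q m), sgm N m * F (rawT a N k q m T) := by
  unfold PPF
  refine Finset.sum_congr ?_ fun _ _ => rfl
  ext m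
  simp only [Finset.mem_filter]

/-- larger bounds do not change anything (if the inner functional is a combination of values of terms). -/
theorem PPF_TV (a : I → I → ℕ) (N : Finset I) (k : ℕ) (hk : 1 ≤ k) (q : I → ℚ) (T : Trm I) (B : ℕ)
    (hB : bnd N k q T ≤ B) : PPF a N k q B (TV a) T = PPv a N k q T := by
  classical
  rw [AH8b_PPv a N k hk q T B hB, AH8b_PPF]

private theorem AH8b_mem_mbox (N : Finset I) (B : ℕ) (m : I → ℕ) :
    m ∈ mbox N B ↔ (∀ i ∈ N, m i ≤ B) ∧ ∀ i, i ∉ N → m i = 0 := by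
  unfold mbox
  rw [Fintype.mem_piFinset]
  constructor
  · intro h
    refine ⟨fun i hi => ?_, fun i hi => ?_⟩
    · have h1 := h i
      rw [if_pos hi, Finset.mem_range] at h1
      omega
    · have h1 := h i
      rw [if_neg hi, Finset.mem_singleton] at h1
      exact h1
  · rintro ⟨h1, h2⟩ i
    by_cases hi : i ∈ N
    · rw [if_pos hi, Finset.mem_range]
      have := h1 i hi
      omega
    · rw [if_neg hi, Finset.mem_singleton]
      exact h2 i hi

private theorem AH8b_raw_union (a : I → I → ℕ) (A B : Finset I) (hAB : Disjoint A B) (k : ℕ)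
    (q : I → ℚ) (m m₁ m₂ : I → ℕ) (h₁ : ∀ i ∈ A, m i = m₁ i) (h₂ : ∀ i ∈ B, m i = m₂ i)
    (T : Trm I) :
    rawT a (A ∪ B) k q m T = rawT a B k q m₂ (rawT a A k q m₁ T) := by
  have hsplit : ∀ i, (if i ∈ A ∪ B then (m i : ℚ) - q i else 0) =
      (if i ∈ A then (m₁ i : ℚ) - q i else 0) + (if i ∈ B then (m₂ i : ℚ) - q i else 0) := by
    intro i
    by_cases hA : i ∈ A
    · have hB : i ∉ B := Finset.disjoint_left.1 hAB hA
      rw [if_pos (Finset.mem_union_left _ hA), if_pos hA, if_neg hB, add_zero, h₁ i hA]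
    · by_cases hB : i ∈ B
      · rw [if_pos (Finset.mem_union_right _ hB), if_neg hA, if_pos hB, zero_add, h₂ i hB]
      · rw [if_neg (fun h => (Finset.mem_union.1 h).elim hA hB), if_neg hA, if_neg hB, add_zero]
  unfold rawT Trm.eta Trm.cols
  apply Trm.ext
  · funext i
    dsimp only
    rw [hsplit i]
    ring
  · dsimp only
    have h3 : ∑ x, (if x ∈ A ∪ B then (m x : ℚ) - q x else 0) • cE a x k =
        ∑ x, (if x ∈ A then (m₁ x : ℚ) - q x else 0) • cE a x k +
          ∑ x, (if x ∈ B then (m₂ x : ℚ) - q x else 0) • cE a x k := by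
      rw [← Finset.sum_add_distrib]
      refine Finset.sum_congr rfl fun x _ => ?_
      rw [hsplit x, add_smul]
    rw [h3, sub_add_eq_sub_sub]
  · funext i
    dsimp only
    by_cases hA : i ∈ A
    · have hB : i ∉ B := Finset.disjoint_left.1 hAB hA
      rw [if_pos (Finset.mem_union_left _ hA), if_neg hB, if_pos hA, h₁ i hA]
    · by_cases hB : i ∈ B
      · rw [if_pos (Finset.mem_union_right _ hB), if_pos hB, h₂ i hB]
      · rw [if_neg (fun h => (Finset.mem_union.1 h).elim hA hB), if_neg hB, if_neg hA]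

private theorem AH8b_sgm_union (A B : Finset I) (hAB : Disjoint A B) (m m₁ m₂ : I → ℕ)
    (h₁ : ∀ i ∈ A, m i = m₁ i) (h₂ : ∀ i ∈ B, m i = m₂ i) :
    sgm (A ∪ B) m = sgm A m₁ * sgm B m₂ := by
  unfold sgm
  rw [← pow_add, Finset.filter_union, Finset.card_union_of_disjoint
    (Finset.disjoint_filter_filter hAB)]
  congr 2
  · congr 1
    exact Finset.filter_congr fun i hi => by rw [h₁ i hi]
  · congr 1
    exact Finset.filter_congr fun i hi => by rw [h₂ i hi]

private theorem AH8b_raw_γ (a : I → I → ℕ) (A : Finset I) (k : ℕ) (q : I → ℚ) (m : I → ℕ)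
    (T : Trm I) (i : I) (hi : i ∉ A) : (rawT a A k q m T).γ i = T.γ i := by
  change T.γ i - k * (if i ∈ A then (m i : ℚ) - q i else 0) = T.γ i
  rw [if_neg hi, mul_zero, sub_zero]

private theorem AH8b_bnd_congr (R : Finset I) (k : ℕ) (q : I → ℚ) (T T' : Trm I)
    (h : ∀ i ∈ R, T.γ i = T'.γ i) : bnd R k q T = bnd R k q T' := by
  unfold bnd
  exact Finset.sum_congr rfl fun i hi => by rw [h i hi]

private theorem AH8b_bnd_mono {R R' : Finset I} (h : R ⊆ R') (k : ℕ) (q : I → ℚ) (T : Trm I) :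
    bnd R k q T ≤ bnd R' k q T := by
  unfold bnd
  exact Finset.sum_le_sum_of_subset h

/-- product structure. -/
theorem PPv_union (a : I → I → ℕ) (hs : ∀ i j, a i j = a j i) (A B : Finset I) (hAB : Sep a A B)
    (k : ℕ) (hk : 1 ≤ k) (q : I → ℚ) (T : Trm I) (b : ℕ) (hb : bnd (A ∪ B) k q T ≤ b) :
    PPv a (A ∪ B) k q T = PPF a A k q b (PPv a B k q) T := by
  classical
  have hd : Disjoint A B := hAB.1
  rw [AH8b_PPv a (A ∪ B) k hk q T b hb, AH8b_PPF]
  have h1 : ∀ m₁ : I → ℕ, PPv a B k q (rawT a A k q m₁ T) =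
      ∑ m ∈ (mbox B b).filter (fun m => Plat B q m),
        sgm B m * TV a (rawT a B k q m (rawT a A k q m₁ T)) := by
    intro m₁
    refine AH8b_PPv a B k hk q _ b ?_
    rw [AH8b_bnd_congr B k q (rawT a A k q m₁ T) T fun i hi =>
      AH8b_raw_γ a A k q m₁ T i (Finset.disjoint_right.1 hd hi)]
    exact (AH8b_bnd_mono Finset.subset_union_right k q T).trans hb
  simp only [h1, Finset.mul_sum]
  rw [← Finset.sum_product']
  symm
  refine Finset.sum_bij' (fun p _ => fun i => if i ∈ A then p.1 i else p.2 i)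
    (fun m _ => (fun i => if i ∈ A then m i else 0, fun i => if i ∈ B then m i else 0))
    ?_ ?_ ?_ ?_ ?_
  · rintro ⟨m₁, m₂⟩ hm
    rw [Finset.mem_product, Finset.mem_filter, Finset.mem_filter, AH8b_mem_mbox,
      AH8b_mem_mbox] at hm
    obtain ⟨⟨⟨h2, h3⟩, h4⟩, ⟨h5, h6⟩, h7⟩ := hm
    dsimp only at h2 h3 h4 h5 h6 h7
    rw [Finset.mem_filter, AH8b_mem_mbox]
    refine ⟨⟨fun i hi => ?_, fun i hi => ?_⟩, fun i hi => ?_⟩
    · by_cases hA : i ∈ A
      · simp only [if_pos hA]
        exact h2 i hA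
      · simp only [if_neg hA]
        exact h5 i ((Finset.mem_union.1 hi).resolve_left hA)
    · have hA : i ∉ A := fun h => hi (Finset.mem_union_left _ h)
      simp only [if_neg hA]
      exact h6 i fun h => hi (Finset.mem_union_right _ h)
    · by_cases hA : i ∈ A
      · simp only [if_pos hA]
        exact h4 i hA
      · simp only [if_neg hA]
        exact h7 i ((Finset.mem_union.1 hi).resolve_left hA)
  · intro m hm
    rw [Finset.mem_filter, AH8b_mem_mbox] at hm
    obtain ⟨⟨h2, h3⟩, h4⟩ := hm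
    rw [Finset.mem_product, Finset.mem_filter, Finset.mem_filter, AH8b_mem_mbox,
      AH8b_mem_mbox]
    refine ⟨⟨⟨fun i hi => ?_, fun i hi => ?_⟩, fun i hi => ?_⟩,
      ⟨fun i hi => ?_, fun i hi => ?_⟩, fun i hi => ?_⟩
    · simp only [if_pos hi]
      exact h2 i (Finset.mem_union_left _ hi)
    · simp only [if_neg hi]
    · simp only [if_pos hi]
      exact h4 i (Finset.mem_union_left _ hi)
    · simp only [if_pos hi]
      exact h2 i (Finset.mem_union_right _ hi)
    · simp only [if_neg hi]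
    · simp only [if_pos hi]
      exact h4 i (Finset.mem_union_right _ hi)
  · rintro ⟨m₁, m₂⟩ hm
    rw [Finset.mem_product, Finset.mem_filter, Finset.mem_filter, AH8b_mem_mbox,
      AH8b_mem_mbox] at hm
    obtain ⟨⟨⟨h2, h3⟩, h4⟩, ⟨h5, h6⟩, h7⟩ := hm
    dsimp only at h2 h3 h4 h5 h6 h7
    refine Prod.ext (funext fun i => ?_) (funext fun i => ?_)
    · dsimp only
      by_cases hA : i ∈ A
      · rw [if_pos hA, if_pos hA]
      · rw [if_neg hA, h3 i hA]
    · dsimp only
      by_cases hB : i ∈ B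
      · rw [if_pos hB, if_neg (Finset.disjoint_right.1 hd hB)]
      · rw [if_neg hB, h6 i hB]
  · intro m hm
    rw [Finset.mem_filter, AH8b_mem_mbox] at hm
    obtain ⟨⟨h2, h3⟩, h4⟩ := hm
    funext i
    dsimp only
    by_cases hA : i ∈ A
    · rw [if_pos hA, if_pos hA]
    · rw [if_neg hA]
      by_cases hB : i ∈ B
      · rw [if_pos hB]
      · rw [if_neg hB, h3 i fun h => (Finset.mem_union.1 h).elim hA hB]
  · rintro ⟨m₁, m₂⟩ hm
    have e1 : ∀ i ∈ A, (fun i => if i ∈ A then m₁ i else m₂ i) i = m₁ i := fun i hi => if_pos hi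
    have e2 : ∀ i ∈ B, (fun i => if i ∈ A then m₁ i else m₂ i) i = m₂ i := fun i hi =>
      if_neg (Finset.disjoint_right.1 hd hi)
    rw [AH8b_sgm_union A B hd _ m₁ m₂ e1 e2, AH8b_raw_union a A B hd k q _ m₁ m₂ e1 e2]
    ring

private theorem AH8b_cn_zero (a : I → I → ℕ) (cd : CrossData a) (A : Finset I) (q : I → ℚ) :
    cn a cd A q 0 = 1 := by
  unfold cn cnA
  exact if_pos rfl

private theorem AH8b_IsZ_zero : IsZ (0 : ℚ) := ⟨0, by norm_num⟩

private theorem AH8b_rep (a : I → I → ℕ) (A : Finset I) (q : I → ℚ) (hq : QOk a A q) :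
    Rep a A q q := ⟨hq, fun x _ => by rw [sub_self]; exact AH8b_IsZ_zero⟩

private theorem AH8b_RFv_succ (a : I → I → ℕ) (A : Finset I) (q : I → ℚ) (w : ℕ → ℚ) (k : ℕ)
    (hk : 1 ≤ k) (T : Trm I) :
    RFv a A q w k T = RFv a A q w (k - 1) T + w k * Rv a A k q T := by
  obtain ⟨n, rfl⟩ : ∃ n, k = n + 1 := ⟨k - 1, by omega⟩
  unfold RFv
  rw [Nat.add_sub_cancel, Finset.sum_Icc_succ_top (by omega)]
  ring

/-- plateau functional of a connected cluster. -/
theorem PP_RF (a : I → I → ℕ) (hs : ∀ i j, a i j = a j i) (cd : CrossData a) (h : RTfam a cd)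
    (A : Finset I) (hA : FinT a A) (hc : ConnS a A) (k : ℕ) (hk : 1 ≤ k) (q : I → ℚ)
    (hq : QOk a A q) (Φ : FFn I)
    (hΦ : IsRF a cd A q (fun l => cn a cd A q (k - l)) (k - 1) Φ) (T : Trm I) (hT : RReg A T) :
    PPv a A k q T = evF a A Φ T := by
  have h1 := TV_step_split a hs A hA k hk q hq T hT
  have h2 := (h.tauL A hA hc q hq k).val q (AH8b_rep a A q hq) T hT
  have h3 := hΦ.val q (AH8b_rep a A q hq) T hT
  have h4 := AH8b_RFv_succ a A q (fun l => cn a cd A q (k - l)) k hk T
  have h5 : evF a A [(1, ⟨fun _ => k, q⟩)] T = TV a (tauT a A k q T) := by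
    rw [tauT_eq_patT]
    unfold evF
    rw [List.map_cons, List.map_nil, List.sum_cons, List.sum_nil]
    ring
  rw [Nat.sub_self, AH8b_cn_zero, one_mul] at h4
  rw [h3]
  rw [h5, h4] at h2
  linarith

private theorem AH8b_empty (a : I → I → ℕ) (k : ℕ) (hk : 1 ≤ k) (q : I → ℚ) (T : Trm I) :
    PPv a ∅ k q T = TV a T := by
  classical
  rw [AH8b_PPv a ∅ k hk q T _ le_rfl]
  have h1 : (mbox (∅ : Finset I) (bnd ∅ k q T)).filter (fun m => Plat ∅ q m) = {fun _ => 0} := by
    ext m
    rw [Finset.mem_filter, AH8b_mem_mbox, Finset.mem_singleton]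
    constructor
    · rintro ⟨⟨-, h⟩, -⟩
      funext i
      exact h i (Finset.notMem_empty i)
    · rintro rfl
      exact ⟨⟨fun i hi => absurd hi (Finset.notMem_empty i), fun i _ => rfl⟩,
        fun i hi => absurd hi (Finset.notMem_empty i)⟩
  rw [h1, Finset.sum_singleton]
  have h2 : sgm (∅ : Finset I) (fun _ => 0) = 1 := by
    unfold sgm
    rw [Finset.filter_empty, Finset.card_empty, pow_zero]
  have h3 : rawT a ∅ k q (fun _ => 0) T = T := by
    unfold rawT Trm.eta Trm.cols
    apply Trm.ext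
    · funext i
      dsimp only
      rw [if_neg (Finset.notMem_empty i), mul_zero, sub_zero]
    · dsimp only
      rw [Finset.sum_eq_zero fun x _ => by
        rw [if_neg (Finset.notMem_empty x), zero_smul], sub_zero]
    · funext i
      dsimp only
      rw [if_neg (Finset.notMem_empty i)]
  rw [h2, h3, one_mul]

private theorem AH8b_uni_cons (b : Finset I × FFn I) (U : List (Finset I × FFn I)) :
    uni (b :: U) = b.1 ∪ uni U := rfl

private theorem AH8b_mem_uni (U : List (Finset I × FFn I)) (x : I) :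
    x ∈ uni U ↔ ∃ b ∈ U, x ∈ b.1 := by
  induction U with
  | nil =>
    constructor
    · intro h
      exact absurd h (Finset.notMem_empty x)
    · rintro ⟨b, hb, -⟩
      exact absurd hb List.not_mem_nil
  | cons b U ih =>
    rw [AH8b_uni_cons, Finset.mem_union, ih]
    constructor
    · rintro (h | ⟨c, hc, h⟩)
      · exact ⟨b, List.mem_cons_self, h⟩
      · exact ⟨c, List.mem_cons_of_mem _ hc, h⟩
    · rintro ⟨c, hc, h⟩
      rcases List.mem_cons.1 hc with rfl | hc
      · exact Or.inl h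
      · exact Or.inr ⟨c, hc, h⟩

private theorem AH8b_sum_comm {α β : Type*} (l : List α) (s : Finset β) (f : α → β → ℚ) :
    (l.map fun x => ∑ y ∈ s, f x y).sum = ∑ y ∈ s, (l.map fun x => f x y).sum := by
  induction l with
  | nil => simp
  | cons x l ih =>
    simp only [List.map_cons, List.sum_cons]
    rw [ih, Finset.sum_add_distrib]

private theorem AH8b_pat_γ (a : I → I → ℕ) (B : Finset I) (π : Pat I) (T : Trm I) (i : I)
    (hi : i ∉ B) : (patT a B π T).γ i = T.γ i := by
  change T.γ i - (π.s i : ℚ) * (-resQ B π.q i) = T.γ i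
  unfold resQ
  rw [if_neg hi, neg_zero, mul_zero, sub_zero]

private theorem AH8b_QOk (a : I → I → ℕ) {N A : Finset I} (hA : A ∈ comps a N)
    {q : I → ℚ} (hq : QOk a N q) : QOk a A q := by
  intro x hx
  obtain ⟨n, hn, h⟩ := hq x (comps_subset hA hx)
  refine ⟨n, hn, ?_⟩
  rw [← h]
  unfold cqN
  refine Finset.sum_subset (comps_subset hA) fun j hj hjA => ?_
  have h1 := comps_sep hA x hx j hj hjA
  have h2 : cart a x j = 0 := by
    rw [AE3_cart_ne a (fun h3 : x = j => hjA (h3 ▸ hx)), h1]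
    rfl
  rw [h2, Int.cast_zero, zero_mul]

private theorem AH8b_main (a : I → I → ℕ) (hs : ∀ i j, a i j = a j i) (cd : CrossData a)
    (h : RTfam a cd) (N : Finset I) (hN : FinT a N) (k : ℕ) (hk : 1 ≤ k) (q : I → ℚ)
    (hq : QOk a N q) (Φ : Finset I → FFn I)
    (hΦ : ∀ A ∈ comps a N, IsRF a cd A q (fun l => cn a cd A q (k - l)) (k - 1) (Φ A)) :
    ∀ L : List (Finset I), L.Nodup → (∀ A ∈ L, A ∈ comps a N) → ∀ T : Trm I,
      RReg (uni (L.map fun A => (A, Φ A))) T →
      PPv a (uni (L.map fun A => (A, Φ A))) k q T = evU a (L.map fun A => (A, Φ A)) T := by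
  classical
  intro L
  induction L with
  | nil =>
    intro _ _ T _
    exact AH8b_empty a k hk q T
  | cons A L ih =>
    intro hnd hmem T hT
    have hA := hmem A List.mem_cons_self
    have hL : ∀ B ∈ L, B ∈ comps a N := fun B hB => hmem B (List.mem_cons_of_mem _ hB)
    have hne : ∀ B ∈ L, A ≠ B := fun B hB hAB => (List.nodup_cons.1 hnd).1 (hAB ▸ hB)
    have hsep : Sep a A (uni (L.map fun A => (A, Φ A))) := by
      refine ⟨?_, fun x hx y hy => ?_⟩
      · rw [Finset.disjoint_left]
        intro x hx hy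
        obtain ⟨b, hb, hxb⟩ := (AH8b_mem_uni _ x).1 hy
        obtain ⟨B, hB, rfl⟩ := List.mem_map.1 hb
        exact Finset.disjoint_left.1 (comps_disjoint hs hA (hL B hB) (hne B hB)) hx hxb
      · obtain ⟨b, hb, hyb⟩ := (AH8b_mem_uni _ y).1 hy
        obtain ⟨B, hB, rfl⟩ := List.mem_map.1 hb
        exact comps_nonadj hs hA (hL B hB) (hne B hB) x hx y hyb
    have hdL : ∀ b ∈ L.map (fun A => (A, Φ A)), Disjoint A b.1 := by
      intro b hb
      obtain ⟨B, hB, rfl⟩ := List.mem_map.1 hb
      exact comps_disjoint hs hA (hL B hB) (hne B hB)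
    have hpw : ∀ L' : List (Finset I), L'.Nodup → (∀ B ∈ L', B ∈ comps a N) →
        (L'.map fun A => (A, Φ A)).Pairwise (fun b c => Disjoint b.1 c.1) := by
      intro L'
      induction L' with
      | nil => intro _ _; exact List.Pairwise.nil
      | cons B L' ih' =>
        intro hnd' hmem'
        rw [List.map_cons, List.pairwise_cons]
        refine ⟨fun c hc => ?_, ih' (List.nodup_cons.1 hnd').2
          fun C hC => hmem' C (List.mem_cons_of_mem _ hC)⟩
        obtain ⟨C, hC, rfl⟩ := List.mem_map.1 hc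
        exact comps_disjoint hs (hmem' B List.mem_cons_self)
          (hmem' C (List.mem_cons_of_mem _ hC))
          fun hBC : B = C => (List.nodup_cons.1 hnd').1 (hBC ▸ hC)
    have hpd := hpw L (List.nodup_cons.1 hnd).2 hL
    rw [List.map_cons, AH8b_uni_cons] at hT ⊢
    dsimp only at hT ⊢
    set U := L.map fun A => (A, Φ A) with hU
    rw [PPv_union a hs A (uni U) hsep k hk q T _ le_rfl, AH8b_PPF]
    have h1 : ∀ m₁ : I → ℕ, PPv a (uni U) k q (rawT a A k q m₁ T) =
        ((prodF U).map (fun c => c.1 * TV a (rawT a A k q m₁ (patT a (uni U) c.2 T)))).sum := by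
      intro m₁
      have hT' : RReg (uni U) (rawT a A k q m₁ T) := by
        refine RReg_rawT a hs (uni U) A ⟨hsep.1.symm, fun x hx y hy => ?_⟩ k q m₁ T ?_
        · rw [hs x y]
          exact hsep.2 y hy x hx
        · rw [Finset.union_comm]
          exact hT
      rw [ih (List.nodup_cons.1 hnd).2 hL _ hT', evU_eq_evF a U hpd]
      unfold evF
      congr 1
      refine List.map_congr_left fun c _ => ?_
      rw [rawT_patT_comm a A (uni U) hsep.1]
    have h2 : ∀ c ∈ prodF U, c.1 * evF a A (Φ A) (patT a (uni U) c.2 T) =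
        ∑ m ∈ (mbox A (bnd (A ∪ uni U) k q T)).filter (fun m => Plat A q m),
          c.1 * (sgm A m * TV a (rawT a A k q m (patT a (uni U) c.2 T))) := by
      intro c _
      have hT' : RReg A (patT a (uni U) c.2 T) :=
        RReg_patT a hs A (uni U) hsep.1 c.2 (fun x hx y hy _ => hsep.2 x hx y hy) T hT
      rw [← PP_RF a hs cd h A (hN.mono (comps_subset hA)) (comps_conn hA) k hk q
        (AH8b_QOk a hA hq) (Φ A) (hΦ A hA) _ hT', ← Finset.mul_sum]
      congr 1
      refine AH8b_PPv a A k hk q _ _ ?_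
      rw [AH8b_bnd_congr A k q (patT a (uni U) c.2 T) T fun i hi =>
        AH8b_pat_γ a (uni U) c.2 T i (Finset.disjoint_left.1 hsep.1 hi)]
      exact AH8b_bnd_mono Finset.subset_union_left k q T
    rw [evU_cons' a (A, Φ A) U hdL hpd T]
    dsimp only
    rw [List.map_congr_left h2, AH8b_sum_comm]
    refine Finset.sum_congr rfl fun m _ => ?_
    rw [h1, ← List.sum_map_mul_left]
    congr 1
    refine List.map_congr_left fun c _ => ?_
    ring

/-- plateau functional of a disconnected set. -/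
theorem PPJ (a : I → I → ℕ) (hs : ∀ i j, a i j = a j i) (cd : CrossData a) (h : RTfam a cd)
    (N : Finset I) (hN : FinT a N) (k : ℕ) (hk : 1 ≤ k) (q : I → ℚ) (hq : QOk a N q)
    (Φ : Finset I → FFn I)
    (hΦ : ∀ A ∈ comps a N, IsRF a cd A q (fun l => cn a cd A q (k - l)) (k - 1) (Φ A))
    (T : Trm I) (hT : RReg N T) :
    PPv a N k q T = evU a ((comps a N).toList.map (fun A => (A, Φ A))) T := by
  have hU : uni ((comps a N).toList.map (fun A => (A, Φ A))) = N := by
    ext x
    rw [AH8b_mem_uni]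
    constructor
    · rintro ⟨b, hb, hx⟩
      obtain ⟨A, hA, rfl⟩ := List.mem_map.1 hb
      exact comps_subset (Finset.mem_toList.1 hA) hx
    · intro hx
      obtain ⟨A, hA, hxA⟩ := comps_cover hs x hx
      exact ⟨(A, Φ A), List.mem_map.2 ⟨A, Finset.mem_toList.2 hA, rfl⟩, hxA⟩
  have h1 := AH8b_main a hs cd h N hN k hk q hq Φ hΦ (comps a N).toList
    (Finset.nodup_toList _) (fun A hA => Finset.mem_toList.1 hA) T (by rw [hU]; exact hT)
  rw [hU] at h1
  exact h1

/-- one step of an untouched cluster: the part without restart. -/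
theorem RF_step (a : I → I → ℕ) (cd : CrossData a) (A : Finset I) (q q' : I → ℚ)
    (hq : Rep a A q q') (w : ℕ → ℚ) (k : ℕ) (hk : 1 ≤ k) (Φ Φ' : FFn I)
    (hΦ : IsRF a cd A q w k Φ) (hΦ' : IsRF a cd A q w (k - 1) Φ') (T : Trm I) (hT : RReg A T) :
    evF a A Φ T = evF a A Φ' T + w k * Rv a A k q' T := by
  rw [hΦ.val q' hq T hT, hΦ'.val q' hq T hT, AH8b_RFv_succ a A q' w k hk T]

end

end Pool.Agent.H46.AH
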