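import Pool.Agent.H46.AH.AH7
import Pool.Agent.H46.AH.AH8
import Pool.Agent.H46.AH.AH8b
import Pool.Agent.H46.AH.AH10
import Pool.Agent.H46.AH.AH12

/-!
KAC ADE, module AH11: one step of a single cluster.

PROOF.  `q' = rp a A q`, `ν_x = T.E (x,k)`, `μ = shv a A S q ν n`.
For every `(S, n)` with `μ ≠ 0` on `A`: `μ > 0` on `A` (`shv_pos`); `K = A \ S`; `PPc a K k (q + μ) (rsT ..) =
PPv a K k q'' (elT a K k (rsT ..))` (`PPv_elT`, `rsT_RRegK`; `q'' = rp ..`, `shv_wt`, `rp_spec`), which by `PPJ` is the value of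
the blocks with `IsRF a cd B q'' (fun l => cn a cd B q'' (k - l)) (k - 1)`, and the blocks of `stBlk a fam k K (q + μ)
(neww ..)` are such functionals up to the choice (`IsRF.congr`, `evU_RF`, `RFex_cn`, `cn_congrZ`).
Case 1, some `ν_x ≠ 0` (kink): `IsRF.knk` and `restart`.
Case 2, `ν = 0` on `A`: `RF_step`, `TV_step_split` (AE7), `restart`; the summand `S = ∅` of `restart` is
`PPc a A k q T = PPv a A k q' T` (`shv = 0`, `PPv_congr`) and cancels; the summand `S = ∅` of the right hand side is the value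
of `fam A q w (k - 1)` (`μ = 0`, `A \ ∅ = A`, `comps_of_conn`; in a `RReg` term without kink the columns do not contain the
symbols `(x,k)`, so the elimination changes the columns of `A` only).
-/

set_option autoImplicit false

namespace Pool.Agent.H46.AH

open scoped BigOperators
open Pool.Agent.H27.KAC Pool.Agent.H40.KADE

section

variable {I : Type} [Fintype I] [DecidableEq I]

private theorem ah11_negZ {x y : ℚ} (h : IsZ (x - y)) : IsZ (y - x) := by
  obtain ⟨z, hz⟩ := h
  exact ⟨-z, by push_cast; rw [← hz]; ring⟩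

private theorem ah11_nuZ {A : Finset I} {k : ℕ} (hk : 1 ≤ k) {T : Trm I} (hT : RReg A T) :
    ∀ x ∈ A, IsZ (T.E (x, k)) := by
  intro x hx
  obtain ⟨n, hn⟩ := hT.nat x hx k hk
  exact ⟨(n : ℤ), by rw [hn]; push_cast; rfl⟩

private theorem ah11_nu0 {A : Finset I} {k : ℕ} (hk : 1 ≤ k) {T : Trm I} (hT : RReg A T) :
    ∀ x ∈ A, 0 ≤ T.E (x, k) := by
  intro x hx
  obtain ⟨n, hn⟩ := hT.nat x hx k hk
  rw [hn]
  exact Nat.cast_nonneg n

/-- the summands with a restart (or with a kink). -/
private theorem ah11_touched (a : I → I → ℕ) (hs : ∀ i j, a i j = a j i) (cd : CrossData a)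
    (h : RTfam a cd) (fam : Finset I → (I → ℚ) → (ℕ → ℚ) → ℕ → FFn I) (hfam : IsFam a cd fam)
    (A : Finset I) (hA : FinT a A) (k : ℕ) (hk : 1 ≤ k) (q : I → ℚ)
    (hq : ∀ x ∈ A, IsZ (cqN a A q x)) (w : ℕ → ℚ) (T : Trm I) (hT : RReg A T)
    (S : Finset I) (hS : S ⊆ A) (n : I → ℤ)
    (hpos : ∀ i ∈ A, 0 < shv a A S q (fun x => T.E (x, k)) n i) :
    PPc a (A \ S) k (fun i => q i + shv a A S q (fun x => T.E (x, k)) n i)
        (rsT a S k (shv a A S q (fun x => T.E (x, k)) n) T) =
      evU a (stBlk a fam k (A \ S) (fun i => q i + shv a A S q (fun x => T.E (x, k)) n i)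
            (neww (fun N q g => cn a cd N q g) (fun _ => w) k
              (fun i => q i + shv a A S q (fun x => T.E (x, k)) n i)
              (shv a A S q (fun x => T.E (x, k)) n)))
            (elT a (A \ S) k (rsT a S k (shv a A S q (fun x => T.E (x, k)) n) T)) := by
  have hK : FinT a (A \ S) := hA.mono Finset.sdiff_subset
  have hwt := shv_wt a hs A S hA hS q (fun x => T.E (x, k)) hq (ah11_nuZ hk hT) n
  have hrep := rp_spec a hs (A \ S) hK _ hwt
  obtain ⟨hreg, -⟩ := rsT_RRegK a hs A S hA hS k hk q n T (RReg.toK hT k)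
  obtain ⟨μ, hμ⟩ : ∃ μ : I → ℚ, μ = shv a A S q (fun x => T.E (x, k)) n := ⟨_, rfl⟩
  rw [← hμ] at hwt hrep hreg hpos ⊢
  unfold PPc
  rw [PPv_elT a hs (A \ S) hK k hk _ hrep.1 _ hreg]
  unfold stBlk
  refine PPJ a hs cd h (A \ S) hK k hk _ hrep.1
    (fun N => fam N (fun i => q i + μ i) (neww (fun N q g => cn a cd N q g) (fun _ => w) k
      (fun i => q i + μ i) μ N) (k - 1)) ?_ _ (RReg_elT a hs (A \ S) hK k _ hreg)
  intro N hN
  have hNA : N ⊆ A := (comps_subset hN).trans Finset.sdiff_subset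
  have hNf : FinT a N := hK.mono (comps_subset hN)
  have hNc : ConnS a N := comps_conn hN
  have hne : ¬ ∀ x ∈ N, μ x = 0 := by
    obtain ⟨x, hx⟩ := hNc.1
    intro h0
    exact (hpos x (hNA hx)).ne' (h0 x hx)
  have hneww : neww (fun N q g => cn a cd N q g) (fun _ => w) k (fun i => q i + μ i) μ N =
      fun l => cn a cd N (fun i => q i + μ i) (k - l) := by
    funext l
    unfold neww
    rw [if_neg hne]
  have hwtN : ∀ x ∈ N, IsZ (cqN a N (fun i => q i + μ i) x) := by
    intro x hx
    rw [cqN_comp a (A \ S) N hN _ x hx]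
    exact hwt x (comps_subset hN hx)
  have h1 := RFex_cn a hs cd h N hNf hNc (fun i => q i + μ i) hwtN k k le_rfl (k - 1)
    (Nat.sub_le _ _)
  have h2 := hfam N (fun i => q i + μ i) (neww (fun N q g => cn a cd N q g) (fun _ => w) k
      (fun i => q i + μ i) μ N) (k - 1) (by rw [hneww]; exact h1)
  have h3 : ∀ x ∈ N, IsZ (q x + μ x - rp a (A \ S) (fun i => q i + μ i) x) := fun x hx =>
    ah11_negZ (hrep.2 x (comps_subset hN hx))
  refine h2.congr h3 (fun l hl => ?_)
  rw [hneww]
  exact cn_congrZ a cd N _ _ _ h3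

/-- the shift vector of the summand `S = ∅` if there is no kink. -/
private theorem ah11_shv_empty (a : I → I → ℕ) (hs : ∀ i j, a i j = a j i) (A : Finset I)
    (hA : FinT a A) (q ν : I → ℚ) (hν : ∀ x ∈ A, ν x = 0) (n : I → ℤ) :
    shv a A ∅ q ν n = fun _ => 0 := by
  symm
  refine shv_unique a hs A ∅ hA (Finset.empty_subset _) q ν n (fun _ => 0) (fun _ _ => rfl) ?_ ?_
  · intro i hi
    exact absurd hi (Finset.notMem_empty i)
  · intro x hx
    rw [hν x (Finset.mem_sdiff.1 hx).1]
    unfold cqN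
    exact Finset.sum_eq_zero fun y _ => mul_zero _

private theorem ah11_rsT_zero (a : I → I → ℕ) (k : ℕ) (T : Trm I) :
    rsT a ∅ k (fun _ => 0) T = T := by
  unfold rsT
  rw [eta_eq_etaM]
  refine Trm.ext ?_ ?_ ?_
  · funext i
    change T.γ i - (k : ℚ) * 0 = T.γ i
    ring
  · change T.E - ∑ x, (0 : ℚ) • cE a x k = T.E
    rw [Finset.sum_eq_zero (fun x _ => zero_smul _ _), sub_zero]
  · funext i
    change (if i ∈ (∅ : Finset I) then cE a i k else T.Λ i) = T.Λ i
    rw [if_neg (Finset.notMem_empty i)]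

private theorem ah11_rbox_empty (k : ℕ) (γ q : I → ℚ) : rbox (∅ : Finset I) k γ q = {0} := by
  unfold rbox
  ext n
  rw [Fintype.mem_piFinset, Finset.mem_singleton]
  constructor
  · intro h
    funext i
    have h1 := h i
    rw [if_neg (Finset.notMem_empty i), Finset.mem_singleton] at h1
    exact h1
  · rintro rfl i
    rw [if_neg (Finset.notMem_empty i), Finset.mem_singleton]
    rfl

/-- the elimination does not change the columns which matter. -/
private theorem ah11_elT (a : I → I → ℕ) (hs : ∀ i j, a i j = a j i) (A : Finset I)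
    (hA : FinT a A) (k : ℕ) (hk : 1 ≤ k) (T : Trm I) (hT : RReg A T)
    (hν : ∀ x ∈ A, T.E (x, k) = 0) (Φ : FFn I) : evF a A Φ (elT a A k T) = evF a A Φ T := by
  unfold evF
  congr 1
  refine List.map_congr_left fun c _ => ?_
  congr 2
  refine patT_congr_cols a A c.2 _ _ rfl rfl fun j hj => ?_
  change (if j ∈ A then 0 else elC a A k (T.Λ j)) = T.Λ j
  rw [if_neg hj]
  refine elC_of_zero a hs A hA k (T.Λ j) fun x hx => ?_
  by_contra hne
  have h1 := hT.col x hx j hj k hk hne
  rw [hν x hx] at h1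
  norm_num at h1

open Classical in
/-- one step of a single cluster. -/
theorem step_cluster (a : I → I → ℕ) (hs : ∀ i j, a i j = a j i) (cd : CrossData a)
    (h : RTfam a cd) (fam : Finset I → (I → ℚ) → (ℕ → ℚ) → ℕ → FFn I) (hfam : IsFam a cd fam)
    (A : Finset I) (hA : FinT a A) (hc : ConnS a A) (k : ℕ) (hk : 1 ≤ k) (q : I → ℚ)
    (hq : ∀ x ∈ A, IsZ (cqN a A q x)) (w : ℕ → ℚ) (hw : RFex a cd A q w k) (T : Trm I)
    (hT : RReg A T) :
    evF a A (fam A q w k) T =
      ∑ S ∈ A.powerset, ∑ n ∈ (rbox S k T.γ q).filter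
          (fun n => ∀ s ∈ S, T.E (s, k) < cqN a A (shv a A S q (fun x => T.E (x, k)) n) s),
        (if ∀ x ∈ A, shv a A S q (fun x => T.E (x, k)) n x = 0 then 1 else w k) *
          evU a (stBlk a fam k (A \ S) (fun i => q i + shv a A S q (fun x => T.E (x, k)) n i)
            (neww (fun N q g => cn a cd N q g) (fun _ => w) k
              (fun i => q i + shv a A S q (fun x => T.E (x, k)) n i)
              (shv a A S q (fun x => T.E (x, k)) n)))
            (elT a (A \ S) k (rsT a S k (shv a A S q (fun x => T.E (x, k)) n) T)) := by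
  have hrep : Rep a A q (rp a A q) := rp_spec a hs A hA q hq
  have hfk : IsRF a cd A q w k (fam A q w k) := hfam A q w k (hw k le_rfl)
  have hfk1 : IsRF a cd A q w (k - 1) (fam A q w (k - 1)) :=
    hfam A q w (k - 1) (hw (k - 1) (Nat.sub_le _ _))
  have hν0 := ah11_nu0 (A := A) hk hT
  have hrs := restart a hs A hA k hk q (rp a A q) hrep T hT
  -- the touched summands
  have htouch : ∀ S ∈ A.powerset, (S.Nonempty ∨ ∃ x ∈ A, T.E (x, k) ≠ 0) →
      ∑ n ∈ (rbox S k T.γ q).filter
          (fun n => ∀ s ∈ S, T.E (s, k) < cqN a A (shv a A S q (fun x => T.E (x, k)) n) s),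
        (if ∀ x ∈ A, shv a A S q (fun x => T.E (x, k)) n x = 0 then 1 else w k) *
          evU a (stBlk a fam k (A \ S) (fun i => q i + shv a A S q (fun x => T.E (x, k)) n i)
            (neww (fun N q g => cn a cd N q g) (fun _ => w) k
              (fun i => q i + shv a A S q (fun x => T.E (x, k)) n i)
              (shv a A S q (fun x => T.E (x, k)) n)))
            (elT a (A \ S) k (rsT a S k (shv a A S q (fun x => T.E (x, k)) n) T)) =
      w k * ∑ n ∈ (rbox S k T.γ q).filter
          (fun n => ∀ s ∈ S, T.E (s, k) < cqN a A (shv a A S q (fun x => T.E (x, k)) n) s),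
        PPc a (A \ S) k (fun i => q i + shv a A S q (fun x => T.E (x, k)) n i)
          (rsT a S k (shv a A S q (fun x => T.E (x, k)) n) T) := by
    intro S hS hne
    rw [Finset.mem_powerset] at hS
    rw [Finset.mul_sum]
    refine Finset.sum_congr rfl fun n hn => ?_
    have hP := (Finset.mem_filter.1 hn).2
    have hpos := shv_pos a hs A S hA hc hS q (fun x => T.E (x, k)) hν0 n hP hne
    have hnz : ¬ ∀ x ∈ A, shv a A S q (fun x => T.E (x, k)) n x = 0 := by
      obtain ⟨x, hx⟩ := hc.1
      intro h0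
      exact (hpos x hx).ne' (h0 x hx)
    rw [if_neg hnz, ah11_touched a hs cd h fam hfam A hA k hk q hq w T hT S hS n hpos]
  by_cases hkink : ∃ x ∈ A, T.E (x, k) ≠ 0
  · -- a kink
    have hK : Kink A k T := by
      obtain ⟨x, hx, hne⟩ := hkink
      refine ⟨x, hx, ?_⟩
      obtain ⟨m, hm⟩ := hT.nat x hx k hk
      rw [hm] at hne ⊢
      have : m ≠ 0 := fun h0 => hne (by rw [h0]; norm_num)
      exact_mod_cast Nat.one_le_iff_ne_zero.2 this
    rw [hfk.knk hk (rp a A q) hrep T hT hK, hrs, Finset.mul_sum]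
    exact Finset.sum_congr rfl fun S hS => (htouch S hS (Or.inr hkink)).symm
  · -- no kink
    have hν : ∀ x ∈ A, T.E (x, k) = 0 := by
      intro x hx
      by_contra hne
      exact hkink ⟨x, hx, hne⟩
    have hstep := RF_step a cd A q (rp a A q) hrep w k hk _ _ hfk hfk1 T hT
    have hsplit := TV_step_split a hs A hA k hk (rp a A q) hrep.1 T hT
    have hmem : (∅ : Finset I) ∈ A.powerset := Finset.empty_mem_powerset A
    rw [← Finset.add_sum_erase _ _ hmem] at hrs ⊢
    have hfil : (rbox (∅ : Finset I) k T.γ q).filter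
        (fun n => ∀ s ∈ (∅ : Finset I),
          T.E (s, k) < cqN a A (shv a A ∅ q (fun x => T.E (x, k)) n) s) = {0} := by
      rw [ah11_rbox_empty, Finset.filter_true_of_mem]
      intro n _ s hs'
      exact absurd hs' (Finset.notMem_empty s)
    have hμ0 : shv a A ∅ q (fun x => T.E (x, k)) 0 = fun _ => 0 :=
      ah11_shv_empty a hs A hA q _ hν 0
    have hqq : (fun i => q i + (0 : ℚ)) = q := by
      funext i
      rw [add_zero]
    have e1 : ∑ n ∈ (rbox (∅ : Finset I) k T.γ q).filter
          (fun n => ∀ s ∈ (∅ : Finset I),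
            T.E (s, k) < cqN a A (shv a A ∅ q (fun x => T.E (x, k)) n) s),
        PPc a (A \ ∅) k (fun i => q i + shv a A ∅ q (fun x => T.E (x, k)) n i)
          (rsT a ∅ k (shv a A ∅ q (fun x => T.E (x, k)) n) T) = PPv a A k (rp a A q) T := by
      rw [hfil, Finset.sum_singleton, hμ0, Finset.sdiff_empty, ah11_rsT_zero]
      change PPc a A k (fun i => q i + (0 : ℚ)) T = _
      rw [hqq]
      rfl
    have e2 : ∑ n ∈ (rbox (∅ : Finset I) k T.γ q).filter
          (fun n => ∀ s ∈ (∅ : Finset I),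
            T.E (s, k) < cqN a A (shv a A ∅ q (fun x => T.E (x, k)) n) s),
        (if ∀ x ∈ A, shv a A ∅ q (fun x => T.E (x, k)) n x = 0 then 1 else w k) *
          evU a (stBlk a fam k (A \ ∅) (fun i => q i + shv a A ∅ q (fun x => T.E (x, k)) n i)
            (neww (fun N q g => cn a cd N q g) (fun _ => w) k
              (fun i => q i + shv a A ∅ q (fun x => T.E (x, k)) n i)
              (shv a A ∅ q (fun x => T.E (x, k)) n)))
            (elT a (A \ ∅) k (rsT a ∅ k (shv a A ∅ q (fun x => T.E (x, k)) n) T)) =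
        evF a A (fam A q w (k - 1)) T := by
      rw [hfil, Finset.sum_singleton, hμ0, Finset.sdiff_empty, ah11_rsT_zero]
      rw [if_pos (fun _ _ => rfl), one_mul]
      change evU a (stBlk a fam k A (fun i => q i + (0 : ℚ))
            (neww (fun N q g => cn a cd N q g) (fun _ => w) k
              (fun i => q i + (0 : ℚ)) (fun _ => 0))) (elT a A k T) = _
      rw [hqq]
      have hnw : neww (fun N q g => cn a cd N q g) (fun _ => w) k q (fun _ => 0) A = w := by
        funext l
        unfold neww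
        rw [if_pos (fun _ _ => rfl)]
      unfold stBlk
      rw [comps_of_conn hc, Finset.toList_singleton, List.map_singleton, hnw, evU_single,
        ah11_elT a hs A hA k hk T hT hν]
    rw [e1] at hrs
    rw [e2, hstep]
    have e3 : Rv a A k (rp a A q) T = ∑ S ∈ A.powerset.erase ∅, ∑ n ∈ (rbox S k T.γ q).filter
          (fun n => ∀ s ∈ S, T.E (s, k) < cqN a A (shv a A S q (fun x => T.E (x, k)) n) s),
        PPc a (A \ S) k (fun i => q i + shv a A S q (fun x => T.E (x, k)) n i)
          (rsT a S k (shv a A S q (fun x => T.E (x, k)) n) T) := by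
      linarith
    rw [e3, Finset.mul_sum]
    congr 1
    refine Finset.sum_congr rfl fun S hS => ?_
    rw [Finset.mem_erase] at hS
    exact (htouch S hS.2 (Or.inl (Finset.nonempty_iff_ne_empty.2 hS.1))).symm

end

end Pool.Agent.H46.AH
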