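import Pool.Agent.H46.AH.AH11
import Pool.Agent.H40.KADE.GTop

/-!
KAC ADE, module AH13: one step of all clusters.

PROOF.  Induction on the number of components of `W`.  `W = ∅`: both sides are `TV a T` (`shv = 0`, `rsT`, `elT` trivial).
Otherwise let `A` be a component, `B = W \ A` (`comps_sdiff_sep`); `shv_union`, `rbox_union` describe the data of the
union.  `evU_union`, `evU_append` and `evU_perm`: evaluate the block of `A` innermost, i.e. on the terms
`patT a B π T` (`π` from the blocks of `B`), which are `RReg A` (`RReg_patT`); apply `step_cluster`; `rsT_patT`, `elT_patT`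
(and `E_patT_sep` for the data) move the patterns of `B` back; then evaluate the new blocks of `A \ S` outermost and the
blocks of `B` innermost, on terms which are `RReg B` (`RReg_rs_sep`, `E_rs_sep`), and apply the induction hypothesis to `B`.
Finally `elT_union`, `rsT_union`, `rsT_elT`, `evU_union`; the classes `q + μ_A` and `q + μ_A + μ_B` agree on `A`
(`evU_RF` / `IsRF.congr`, since `fam` may see the values outside of the component).
-/

set_option autoImplicit false

namespace Pool.Agent.H46.AH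

open scoped BigOperators
open Pool.Agent.H27.KAC Pool.Agent.H40.KADE

section

variable {I : Type} [Fintype I] [DecidableEq I]

/-! ### elementary facts -/

theorem AH13_cqN_union (a : I → I → ℕ) (A B : Finset I) (h : Disjoint A B) (v : I → ℚ) (i : I) :
    cqN a (A ∪ B) v i = cqN a A v i + cqN a B v i := by
  unfold cqN
  rw [Finset.sum_union h]

theorem AH13_cqN_sep (a : I → I → ℕ) (hs : ∀ i j, a i j = a j i) (A B : Finset I)
    (h : Sep a A B) (v : I → ℚ) (i : I) (hi : i ∈ B) : cqN a A v i = 0 := by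
  unfold cqN
  refine Finset.sum_eq_zero fun j hj => ?_
  have h1 : cart a i j = 0 := by
    rw [cart_symm a hs]
    exact AG1_cart hs (fun e => Finset.disjoint_left.1 h.1 hj (e ▸ hi)) (by rw [hs]; exact h.2 j hj i hi)
  rw [h1]
  push_cast
  ring

theorem AH13_cqN_sep' (a : I → I → ℕ) (hs : ∀ i j, a i j = a j i) (A B : Finset I)
    (h : Sep a A B) (v : I → ℚ) (i : I) (hi : i ∈ A) : cqN a B v i = 0 :=
  AH13_cqN_sep a hs B A ⟨h.1.symm, fun x hx y hy => by rw [hs]; exact h.2 y hy x hx⟩ v i hi

theorem AH13_cqN_congr (a : I → I → ℕ) (N : Finset I) (v v' : I → ℚ) (h : ∀ i ∈ N, v i = v' i)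
    (i : I) : cqN a N v i = cqN a N v' i := by
  unfold cqN
  exact Finset.sum_congr rfl fun j hj => by rw [h j hj]

theorem AH13_cqN_zero (a : I → I → ℕ) (N : Finset I) (v : I → ℚ) (h : ∀ i ∈ N, v i = 0)
    (i : I) : cqN a N v i = 0 := by
  unfold cqN
  exact Finset.sum_eq_zero fun j hj => by rw [h j hj, mul_zero]

theorem AH13_cqN_add (a : I → I → ℕ) (N : Finset I) (v v' : I → ℚ) (i : I) :
    cqN a N (fun j => v j + v' j) i = cqN a N v i + cqN a N v' i := by
  unfold cqN
  rw [← Finset.sum_add_distrib]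
  exact Finset.sum_congr rfl fun j _ => mul_add _ _ _

theorem AH13_sep_symm {a : I → I → ℕ} (hs : ∀ i j, a i j = a j i) {A B : Finset I}
    (h : Sep a A B) : Sep a B A :=
  ⟨h.1.symm, fun x hx y hy => by rw [hs]; exact h.2 y hy x hx⟩

theorem AH13_sep_mono {a : I → I → ℕ} {A B A' B' : Finset I} (h : Sep a A B) (hA : A' ⊆ A)
    (hB : B' ⊆ B) : Sep a A' B' :=
  ⟨Finset.disjoint_of_subset_left hA (Finset.disjoint_of_subset_right hB h.1),
    fun x hx y hy => h.2 x (hA hx) y (hB hy)⟩

/-- the shift vector only depends on the values of `ν` on `N \ S` and of `n` on `S`. -/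
theorem AH13_shv_congr (a : I → I → ℕ) (hs : ∀ i j, a i j = a j i) (N S : Finset I)
    (hN : FinT a N) (q ν ν' : I → ℚ) (n : I → ℤ) (hν : ∀ x ∈ N, ν x = ν' x) :
    shv a N S q ν n = shv a N S q ν' n := by
  funext i
  unfold shv
  congr 1
  have h1 : solN a (N \ S) (fun x => ν x - cqN a S (fun s => (n s : ℚ) - q s) x) =
      solN a (N \ S) (fun x => ν' x - cqN a S (fun s => (n s : ℚ) - q s) x) := by
    refine solN_congr hs (hN.mono Finset.sdiff_subset) _ _ fun x hx => ?_
    beta_reduce
    rw [hν x (Finset.mem_sdiff.1 hx).1]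
  rw [h1]

theorem shv_union (a : I → I → ℕ) (hs : ∀ i j, a i j = a j i) (A B : Finset I)
    (hW : FinT a (A ∪ B)) (hAB : Sep a A B) (S S' : Finset I) (hS : S ⊆ A) (hS' : S' ⊆ B)
    (q ν : I → ℚ) (n n' : I → ℤ) (hn : ∀ i, i ∉ S → n i = 0) (hn' : ∀ i, i ∉ S' → n' i = 0)
    (i : I) :
    shv a (A ∪ B) (S ∪ S') q ν (fun i => n i + n' i) i = shv a A S q ν n i + shv a B S' q ν n' i := by
  have hA : FinT a A := hW.mono Finset.subset_union_left
  have hB : FinT a B := hW.mono Finset.subset_union_right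
  have hdis := hAB.1
  have key := shv_unique a hs (A ∪ B) (S ∪ S') hW (Finset.union_subset_union hS hS') q ν
    (fun i => n i + n' i) (fun i => shv a A S q ν n i + shv a B S' q ν n' i) ?_ ?_ ?_
  · exact (congrFun key i).symm
  · intro j hj
    rw [Finset.mem_union, not_or] at hj
    rw [shv_off a A S hS q ν n j hj.1, shv_off a B S' hS' q ν n' j hj.2, add_zero]
  · intro j hj
    rcases Finset.mem_union.1 hj with h | h
    · have hjB : j ∉ B := Finset.disjoint_left.1 hdis (hS h)
      rw [shv_S a A S q ν n j h, shv_off a B S' hS' q ν n' j hjB,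
        hn' j (fun h' => hjB (hS' h'))]
      push_cast
      ring
    · have hjA : j ∉ A := fun h' => Finset.disjoint_left.1 hdis h' (hS' h)
      rw [shv_S a B S' q ν n' j h, shv_off a A S hS q ν n j hjA,
        hn j (fun h' => hjA (hS h'))]
      push_cast
      ring
  · intro x hx
    rw [Finset.mem_sdiff, Finset.mem_union, Finset.mem_union, not_or] at hx
    rw [AH13_cqN_union a A B hdis, AH13_cqN_add, AH13_cqN_add,
      AH13_cqN_zero a A (shv a B S' q ν n') (fun j hj =>
        shv_off a B S' hS' q ν n' j (Finset.disjoint_left.1 hdis hj)) x,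
      AH13_cqN_zero a B (shv a A S q ν n) (fun j hj =>
        shv_off a A S hS q ν n j (fun h' => Finset.disjoint_left.1 hdis h' hj)) x,
      add_zero, zero_add]
    rcases hx.1 with h | h
    · rw [AH13_cqN_sep' a hs A B hAB _ x h, add_zero]
      exact shv_eq a hs A S hA hS q ν n x (Finset.mem_sdiff.2 ⟨h, hx.2.1⟩)
    · rw [AH13_cqN_sep a hs A B hAB _ x h, zero_add]
      exact shv_eq a hs B S' hB hS' q ν n' x (Finset.mem_sdiff.2 ⟨h, hx.2.2⟩)

open Classical in
/-- sums over `S ∪ S'`. -/
theorem sum_rbox_union (A B : Finset I) (hAB : Disjoint A B) (k : ℕ) (γ q : I → ℚ)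
    (f : Finset I → (I → ℤ) → ℚ) :
    ∑ S ∈ (A ∪ B).powerset, ∑ n ∈ rbox S k γ q, f S n =
      ∑ S ∈ A.powerset, ∑ n ∈ rbox S k γ q, ∑ S' ∈ B.powerset, ∑ n' ∈ rbox S' k γ q,
        f (S ∪ S') (fun i => n i + n' i) := by
  have hmem : ∀ (S : Finset I) (n : I → ℤ), n ∈ rbox S k γ q ↔
      (∀ i ∈ S, n i ∈ Finset.Icc ⌈q i⌉ ⌊γ i / k + q i⌋) ∧ ∀ i, i ∉ S → n i = 0 := by
    intro S n
    unfold rbox
    rw [Fintype.mem_piFinset]
    constructor
    · intro h
      refine ⟨fun i hi => ?_, fun i hi => ?_⟩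
      · have := h i
        rw [if_pos hi] at this
        exact this
      · have := h i
        rw [if_neg hi, Finset.mem_singleton] at this
        exact this
    · intro h i
      by_cases hi : i ∈ S
      · rw [if_pos hi]
        exact h.1 i hi
      · rw [if_neg hi, Finset.mem_singleton]
        exact h.2 i hi
  rw [Finset.sum_sigma', Finset.sum_sigma']
  have e1 : ∑ x ∈ A.powerset.sigma (fun S => rbox S k γ q), ∑ S' ∈ B.powerset,
      ∑ n' ∈ rbox S' k γ q, f (x.1 ∪ S') (fun i => x.2 i + n' i) =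
      ∑ x ∈ A.powerset.sigma (fun S => rbox S k γ q),
        ∑ y ∈ B.powerset.sigma (fun S => rbox S k γ q),
          f (x.1 ∪ y.1) (fun i => x.2 i + y.2 i) :=
    Finset.sum_congr rfl fun x _ => by rw [Finset.sum_sigma']
  rw [e1, ← Finset.sum_product']
  symm
  refine Finset.sum_bij'
    (fun z _ => (⟨z.1.1 ∪ z.2.1, fun i => z.1.2 i + z.2.2 i⟩ : (_ : Finset I) × (I → ℤ)))
    (fun z _ => ((⟨z.1 ∩ A, fun i => if i ∈ A then z.2 i else 0⟩ : (_ : Finset I) × (I → ℤ)),
      (⟨z.1 ∩ B, fun i => if i ∈ B then z.2 i else 0⟩ : (_ : Finset I) × (I → ℤ))))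
    ?_ ?_ ?_ ?_ ?_
  · intro z hz
    rw [Finset.mem_product, Finset.mem_sigma, Finset.mem_sigma, Finset.mem_powerset,
      Finset.mem_powerset, hmem, hmem] at hz
    obtain ⟨⟨h1, h2, h3⟩, h4, h5, h6⟩ := hz
    rw [Finset.mem_sigma, Finset.mem_powerset, hmem]
    refine ⟨Finset.union_subset_union h1 h4, fun i hi => ?_, fun i hi => ?_⟩
    · rcases Finset.mem_union.1 hi with h | h
      · have h7 : i ∉ z.2.1 := fun h' => Finset.disjoint_left.1 hAB (h1 h) (h4 h')
        show z.1.2 i + z.2.2 i ∈ _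
        rw [h6 i h7, add_zero]
        exact h2 i h
      · have h7 : i ∉ z.1.1 := fun h' => Finset.disjoint_left.1 hAB (h1 h') (h4 h)
        show z.1.2 i + z.2.2 i ∈ _
        rw [h3 i h7, zero_add]
        exact h5 i h
    · replace hi : i ∉ z.1.1 ∪ z.2.1 := hi
      rw [Finset.mem_union, not_or] at hi
      show z.1.2 i + z.2.2 i = 0
      rw [h3 i hi.1, h6 i hi.2, add_zero]
  · intro z hz
    rw [Finset.mem_sigma, Finset.mem_powerset, hmem] at hz
    obtain ⟨h1, h2, h3⟩ := hz
    rw [Finset.mem_product, Finset.mem_sigma, Finset.mem_sigma, Finset.mem_powerset,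
      Finset.mem_powerset, hmem, hmem]
    refine ⟨⟨Finset.inter_subset_right, fun i hi => ?_, fun i hi => ?_⟩,
      Finset.inter_subset_right, fun i hi => ?_, fun i hi => ?_⟩
    · replace hi : i ∈ z.1 ∩ A := hi
      rw [Finset.mem_inter] at hi
      show (if i ∈ A then z.2 i else 0) ∈ _
      rw [if_pos hi.2]
      exact h2 i hi.1
    · replace hi : i ∉ z.1 ∩ A := hi
      show (if i ∈ A then z.2 i else 0) = 0
      by_cases hiA : i ∈ A
      · rw [if_pos hiA]
        exact h3 i (fun h' => hi (Finset.mem_inter.2 ⟨h', hiA⟩))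
      · rw [if_neg hiA]
    · replace hi : i ∈ z.1 ∩ B := hi
      rw [Finset.mem_inter] at hi
      show (if i ∈ B then z.2 i else 0) ∈ _
      rw [if_pos hi.2]
      exact h2 i hi.1
    · replace hi : i ∉ z.1 ∩ B := hi
      show (if i ∈ B then z.2 i else 0) = 0
      by_cases hiB : i ∈ B
      · rw [if_pos hiB]
        exact h3 i (fun h' => hi (Finset.mem_inter.2 ⟨h', hiB⟩))
      · rw [if_neg hiB]
  · intro z hz
    rw [Finset.mem_product, Finset.mem_sigma, Finset.mem_sigma, Finset.mem_powerset,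
      Finset.mem_powerset, hmem, hmem] at hz
    obtain ⟨⟨h1, h2, h3⟩, h4, h5, h6⟩ := hz
    have hSA : (z.1.1 ∪ z.2.1) ∩ A = z.1.1 := by
      ext i
      rw [Finset.mem_inter, Finset.mem_union]
      constructor
      · rintro ⟨h | h, h'⟩
        · exact h
        · exact absurd (h4 h) (Finset.disjoint_left.1 hAB h')
      · intro h
        exact ⟨Or.inl h, h1 h⟩
    have hSB : (z.1.1 ∪ z.2.1) ∩ B = z.2.1 := by
      ext i
      rw [Finset.mem_inter, Finset.mem_union]
      constructor
      · rintro ⟨h | h, h'⟩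
        · exact absurd h' (Finset.disjoint_left.1 hAB (h1 h))
        · exact h
      · intro h
        exact ⟨Or.inr h, h4 h⟩
    have hnA : (fun i => if i ∈ A then z.1.2 i + z.2.2 i else 0) = z.1.2 := by
      funext i
      by_cases hi : i ∈ A
      · rw [if_pos hi, h6 i (fun h' => Finset.disjoint_left.1 hAB hi (h4 h')), add_zero]
      · rw [if_neg hi, h3 i (fun h' => hi (h1 h'))]
    have hnB : (fun i => if i ∈ B then z.1.2 i + z.2.2 i else 0) = z.2.2 := by
      funext i
      by_cases hi : i ∈ B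
      · rw [if_pos hi, h3 i (fun h' => Finset.disjoint_left.1 hAB (h1 h') hi), zero_add]
      · rw [if_neg hi, h6 i (fun h' => hi (h4 h'))]
    show ((⟨(z.1.1 ∪ z.2.1) ∩ A, fun i => if i ∈ A then z.1.2 i + z.2.2 i else 0⟩ :
        (_ : Finset I) × (I → ℤ)), (⟨(z.1.1 ∪ z.2.1) ∩ B, fun i => if i ∈ B then
          z.1.2 i + z.2.2 i else 0⟩ : (_ : Finset I) × (I → ℤ))) = z
    rw [hSA, hSB, hnA, hnB]
  · intro z hz
    rw [Finset.mem_sigma, Finset.mem_powerset, hmem] at hz
    obtain ⟨h1, h2, h3⟩ := hz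
    have hS : z.1 ∩ A ∪ z.1 ∩ B = z.1 := by
      rw [← Finset.inter_union_distrib_left]
      exact Finset.inter_eq_left.2 h1
    have hn : (fun i => (if i ∈ A then z.2 i else 0) + if i ∈ B then z.2 i else 0) = z.2 := by
      funext i
      by_cases hi : i ∈ A
      · rw [if_pos hi, if_neg (Finset.disjoint_left.1 hAB hi), add_zero]
      · rw [if_neg hi, zero_add]
        by_cases hi' : i ∈ B
        · rw [if_pos hi']
        · rw [if_neg hi', h3 i (fun h' => by
            rcases Finset.mem_union.1 (h1 h') with h | h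
            · exact hi h
            · exact hi' h)]
    show (⟨z.1 ∩ A ∪ z.1 ∩ B, fun i => (if i ∈ A then z.2 i else 0) +
      if i ∈ B then z.2 i else 0⟩ : (_ : Finset I) × (I → ℤ)) = z
    rw [hS, hn]
  · intro z hz
    rfl

/-! ### evaluation of blocks -/

theorem AH13_sum_swap {α : Type} (L : List α) (s : Finset (Finset I))
    (t : Finset I → Finset (I → ℤ)) (g : α → Finset I → (I → ℤ) → ℚ) :
    (L.map (fun c => ∑ S ∈ s, ∑ n ∈ t S, g c S n)).sum =
      ∑ S ∈ s, ∑ n ∈ t S, (L.map (fun c => g c S n)).sum := by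
  induction L with
  | nil => simp
  | cons c L ih =>
    rw [List.map_cons, List.sum_cons, ih, ← Finset.sum_add_distrib]
    refine Finset.sum_congr rfl fun S _ => ?_
    rw [← Finset.sum_add_distrib]
    refine Finset.sum_congr rfl fun n _ => ?_
    rw [List.map_cons, List.sum_cons]

theorem AH13_tail (a : I → I → ℕ) (U V : List (Finset I × FFn I))
    (hd : U.Pairwise (fun b c => Disjoint b.1 c.1)) (s : Finset (Finset I))
    (t : Finset I → Finset (I → ℤ)) (wt : Finset I → (I → ℤ) → ℚ)
    (V' : Finset I → (I → ℤ) → List (Finset I × FFn I)) (T : Trm I)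
    (T' : Finset I → (I → ℤ) → Trm I)
    (h : ∀ π : Pat I, evU a V (patT a (uni U) π T) =
      ∑ S ∈ s, ∑ n ∈ t S, wt S n * evU a (V' S n) (patT a (uni U) π (T' S n))) :
    evU a (U ++ V) T = ∑ S ∈ s, ∑ n ∈ t S, wt S n * evU a (U ++ V' S n) (T' S n) := by
  rw [evU_append a U V hd T]
  have e1 : (prodF U).map (fun c => c.1 * evU a V (patT a (uni U) c.2 T)) =
      (prodF U).map (fun c => ∑ S ∈ s, ∑ n ∈ t S,
        c.1 * (wt S n * evU a (V' S n) (patT a (uni U) c.2 (T' S n)))) := by
    refine List.map_congr_left fun c _ => ?_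
    rw [h c.2, Finset.mul_sum]
    exact Finset.sum_congr rfl fun S _ => Finset.mul_sum _ _ _
  rw [e1, AH13_sum_swap]
  refine Finset.sum_congr rfl fun S _ => Finset.sum_congr rfl fun n _ => ?_
  rw [evU_append a U (V' S n) hd (T' S n), GDef_mul_sum]
  congr 1
  refine List.map_congr_left fun c _ => ?_
  ring

open Classical in
/-- the data only depend on `γ` and `ν` on the cluster. -/
theorem AH13_data (a : I → I → ℕ) (hs : ∀ i j, a i j = a j i) (A : Finset I) (hA : FinT a A)
    (k : ℕ) (q γ γ' ν ν' : I → ℚ) (hγ : ∀ x ∈ A, γ x = γ' x) (hν : ∀ x ∈ A, ν x = ν' x)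
    (F : Finset I → (I → ℚ) → ℚ) :
    ∑ S ∈ A.powerset, ∑ n ∈ (rbox S k γ q).filter
        (fun n => ∀ s ∈ S, ν s < cqN a A (shv a A S q ν n) s), F S (shv a A S q ν n) =
      ∑ S ∈ A.powerset, ∑ n ∈ (rbox S k γ' q).filter
        (fun n => ∀ s ∈ S, ν' s < cqN a A (shv a A S q ν' n) s), F S (shv a A S q ν' n) := by
  refine Finset.sum_congr rfl fun S hS => ?_
  have hSA : S ⊆ A := Finset.mem_powerset.1 hS
  have h1 : rbox S k γ q = rbox S k γ' q := by
    unfold rbox
    congr 1
    funext i
    by_cases hi : i ∈ S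
    · rw [if_pos hi, if_pos hi, hγ i (hSA hi)]
    · rw [if_neg hi, if_neg hi]
  have h2 : ∀ n, shv a A S q ν n = shv a A S q ν' n := fun n =>
    AH13_shv_congr a hs A S hA q ν ν' n hν
  rw [h1]
  refine Finset.sum_congr (Finset.filter_congr fun n _ => ?_) fun n _ => by rw [h2]
  rw [h2]
  constructor
  · intro h s hs'
    rw [← hν s (hSA hs')]
    exact h s hs'
  · intro h s hs'
    rw [hν s (hSA hs')]
    exact h s hs'

theorem AH13_comps_empty (a : I → I → ℕ) : comps a (∅ : Finset I) = ∅ := by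
  rw [Finset.eq_empty_iff_forall_notMem]
  intro N hN
  obtain ⟨x, hx⟩ := (comps_conn hN).1
  exact absurd (comps_subset hN hx) (Finset.notMem_empty x)

theorem AH13_rsT_empty (a : I → I → ℕ) (k : ℕ) (T : Trm I) :
    rsT a ∅ k (fun _ => 0) T = T := by
  refine Trm.ext ?_ ?_ ?_
  · funext i
    show T.γ i - (k : ℚ) * 0 = T.γ i
    ring
  · show T.E - (∑ x, (0 : ℚ) • cE a x k) = T.E
    rw [Finset.sum_eq_zero fun x _ => zero_smul _ _, sub_zero]
  · rfl

/-- untouched components of `W \ S` are components of `W`. -/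
theorem AH13_untouched (a : I → I → ℕ) (hs : ∀ i j, a i j = a j i) (W S : Finset I)
    (hW : FinT a W) (hS : S ⊆ W) (q ν : I → ℚ) (hν : ∀ x ∈ W, 0 ≤ ν x) (n : I → ℤ)
    (hP : ∀ s ∈ S, ν s < cqN a W (shv a W S q ν n) s) (N : Finset I) (hN : N ∈ comps a (W \ S))
    (h0 : ∀ x ∈ N, shv a W S q ν n x = 0) : N ∈ comps a W := by
  classical
  obtain ⟨h1, h2⟩ := shv_nonneg a hs W S hW hS q ν hν n hP
  unfold comps
  rw [Finset.mem_filter, Finset.mem_powerset]
  refine ⟨(comps_subset hN).trans Finset.sdiff_subset, comps_conn hN, fun i hi j hj hjN => ?_⟩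
  by_cases hjS : j ∈ S
  · by_contra hne
    have hiW : i ∈ W \ S := comps_subset hN hi
    have h3 := shv_eq a hs W S hW hS q ν n i hiW
    have h4 := hν i (Finset.mem_sdiff.1 hiW).1
    have h5 : cqN a W (shv a W S q ν n) i ≤ ((cart a i j : ℤ) : ℚ) * shv a W S q ν n j := by
      unfold cqN
      rw [← Finset.add_sum_erase W _ hj]
      have h6 : ∑ x ∈ W.erase j, ((cart a i x : ℤ) : ℚ) * shv a W S q ν n x ≤ 0 := by
        refine Finset.sum_nonpos fun x hx => ?_
        by_cases hxi : x = i
        · rw [hxi, h0 i hi, mul_zero]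
        · rw [AE8_cart_ne a (fun h => hxi h.symm)]
          have := h1 x
          have h7 : (0 : ℚ) ≤ (a i x : ℚ) := Nat.cast_nonneg _
          nlinarith
      linarith
    have h8 : i ≠ j := fun e => (Finset.mem_sdiff.1 hiW).2 (e ▸ hjS)
    rw [AE8_cart_ne a h8] at h5
    have h9 : (0 : ℚ) < (a i j : ℚ) := by
      exact_mod_cast Nat.pos_of_ne_zero hne
    have h10 := h2 j hjS
    nlinarith
  · exact comps_sep hN i hi j (Finset.mem_sdiff.2 ⟨hj, hjS⟩) hjN

/-- the new clusters have functionals. -/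
theorem AH13_newRF (a : I → I → ℕ) (hs : ∀ i j, a i j = a j i) (cd : CrossData a)
    (h : RTfam a cd) (W S : Finset I) (hW : FinT a W) (hS : S ⊆ W) (k : ℕ) (q ν : I → ℚ)
    (hq : ∀ x ∈ W, IsZ (cqN a W q x)) (hν : ∀ x ∈ W, 0 ≤ ν x) (hνZ : ∀ x ∈ W, IsZ (ν x))
    (n : I → ℤ) (hP : ∀ s ∈ S, ν s < cqN a W (shv a W S q ν n) s) (w : Finset I → ℕ → ℚ)
    (hw : ∀ N ∈ comps a W, RFex a cd N q (w N) k) (N : Finset I) (hN : N ∈ comps a (W \ S)) :
    RFex a cd N (fun i => q i + shv a W S q ν n i)
      (neww (fun N q g => cn a cd N q g) w k (fun i => q i + shv a W S q ν n i)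
        (shv a W S q ν n) N) k := by
  have hNf : FinT a N := hW.mono ((comps_subset hN).trans Finset.sdiff_subset)
  by_cases h0 : ∀ x ∈ N, shv a W S q ν n x = 0
  · have h1 := AH13_untouched a hs W S hW hS q ν hν n hP N hN h0
    refine (hw N h1).congr (fun x hx => ?_) (fun l _ => ?_)
    · rw [h0 x hx]
      exact ⟨0, by push_cast; ring⟩
    · unfold neww
      rw [if_pos h0]
  · have h1 := RFex_cn a hs cd h N hNf (comps_conn hN) (fun i => q i + shv a W S q ν n i)
      (fun x hx => by
        rw [cqN_comp a (W \ S) N hN _ x hx]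
        exact shv_wt a hs W S hW hS q ν hq hνZ n x (comps_subset hN hx)) k k le_rfl
    refine h1.congr (fun x _ => ⟨0, by push_cast; ring⟩) (fun l _ => ?_)
    unfold neww
    rw [if_neg h0]

/-- the data of `neww` on one cluster. -/
theorem AH13_neww_congr (a : I → I → ℕ) (cd : CrossData a) (w w' : Finset I → ℕ → ℚ) (k : ℕ)
    (q μ μ' : I → ℚ) (N : Finset I) (hμ : ∀ x ∈ N, μ x = μ' x) (hw : (∀ x ∈ N, μ x = 0) → w N = w' N)
    (l : ℕ) : neww (fun N q g => cn a cd N q g) w k (fun i => q i + μ i) μ N l =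
      neww (fun N q g => cn a cd N q g) w' k (fun i => q i + μ' i) μ' N l := by
  have h1 : (∀ x ∈ N, μ x = 0) ↔ ∀ x ∈ N, μ' x = 0 :=
    ⟨fun h x hx => by rw [← hμ x hx]; exact h x hx, fun h x hx => by rw [hμ x hx]; exact h x hx⟩
  unfold neww
  by_cases h0 : ∀ x ∈ N, μ x = 0
  · rw [if_pos h0, if_pos (h1.1 h0), hw h0]
  · rw [if_neg h0, if_neg (fun h' => h0 (h1.2 h'))]
    refine cn_congrZ a cd N _ _ _ fun x hx => ⟨0, ?_⟩
    rw [hμ x hx]
    push_cast
    ring

theorem AH13_sdiff (A B S S' : Finset I) (h : Disjoint A B) (hS : S ⊆ A) (hS' : S' ⊆ B) :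
    (A ∪ B) \ (S ∪ S') = (A \ S) ∪ (B \ S') := by
  ext x
  rw [Finset.mem_sdiff, Finset.mem_union, Finset.mem_union, Finset.mem_union, Finset.mem_sdiff,
    Finset.mem_sdiff, not_or]
  constructor
  · rintro ⟨h1 | h1, h2, h3⟩
    · exact Or.inl ⟨h1, h2⟩
    · exact Or.inr ⟨h1, h3⟩
  · rintro (⟨h1, h2⟩ | ⟨h1, h2⟩)
    · exact ⟨Or.inl h1, h2, fun h3 => Finset.disjoint_left.1 h h1 (hS' h3)⟩
    · exact ⟨Or.inr h1, fun h3 => Finset.disjoint_left.1 h (hS h3) h1, h2⟩

/-- matching of the new states. -/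
theorem AH13_match (a : I → I → ℕ) (hs : ∀ i j, a i j = a j i) (cd : CrossData a)
    (h : RTfam a cd) (fam : Finset I → (I → ℚ) → (ℕ → ℚ) → ℕ → FFn I) (hfam : IsFam a cd fam)
    (A B : Finset I) (hW : FinT a (A ∪ B)) (hAB : Sep a A B) (hc : ConnS a A) (k : ℕ)
    (hk : 1 ≤ k) (q : I → ℚ) (hq : ∀ x ∈ A ∪ B, IsZ (cqN a (A ∪ B) q x))
    (w : Finset I → ℕ → ℚ) (hw : ∀ N ∈ comps a (A ∪ B), RFex a cd N q (w N) k) (T : Trm I)
    (hT : RReg (A ∪ B) T) (S S' : Finset I) (hS : S ⊆ A) (hS' : S' ⊆ B) (n n' : I → ℤ)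
    (hn : ∀ i, i ∉ S → n i = 0) (hn' : ∀ i, i ∉ S' → n' i = 0)
    (hPA : ∀ s ∈ S, T.E (s, k) < cqN a A (shv a A S q (fun x => T.E (x, k)) n) s)
    (hPB : ∀ s ∈ S', T.E (s, k) < cqN a B (shv a B S' q (fun x => T.E (x, k)) n') s)
    (hPW : ∀ s ∈ S ∪ S', T.E (s, k) <
      cqN a (A ∪ B) (shv a (A ∪ B) (S ∪ S') q (fun x => T.E (x, k)) (fun i => n i + n' i)) s) :
    evU a (stBlk a fam k (A \ S) (fun i => q i + shv a A S q (fun x => T.E (x, k)) n i)
          (neww (fun N q g => cn a cd N q g) (fun _ => w A) k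
            (fun i => q i + shv a A S q (fun x => T.E (x, k)) n i)
            (shv a A S q (fun x => T.E (x, k)) n)) ++
        stBlk a fam k (B \ S') (fun i => q i + shv a B S' q (fun x => T.E (x, k)) n' i)
          (neww (fun N q g => cn a cd N q g) w k
            (fun i => q i + shv a B S' q (fun x => T.E (x, k)) n' i)
            (shv a B S' q (fun x => T.E (x, k)) n')))
        (elT a (B \ S') k (rsT a S' k (shv a B S' q (fun x => T.E (x, k)) n')
          (elT a (A \ S) k (rsT a S k (shv a A S q (fun x => T.E (x, k)) n) T)))) =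
      evU a (stBlk a fam k ((A ∪ B) \ (S ∪ S'))
          (fun i => q i + shv a (A ∪ B) (S ∪ S') q (fun x => T.E (x, k)) (fun i => n i + n' i) i)
          (neww (fun N q g => cn a cd N q g) w k
            (fun i => q i + shv a (A ∪ B) (S ∪ S') q (fun x => T.E (x, k)) (fun i => n i + n' i) i)
            (shv a (A ∪ B) (S ∪ S') q (fun x => T.E (x, k)) (fun i => n i + n' i))))
        (elT a ((A ∪ B) \ (S ∪ S')) k (rsT a (S ∪ S') k
          (shv a (A ∪ B) (S ∪ S') q (fun x => T.E (x, k)) (fun i => n i + n' i)) T)) := by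
  classical
  have hA : FinT a A := hW.mono Finset.subset_union_left
  have hB : FinT a B := hW.mono Finset.subset_union_right
  have hdis := hAB.1
  have hνZ : ∀ x ∈ A ∪ B, IsZ (T.E (x, k)) := by
    intro x hx
    obtain ⟨m, hm⟩ := hT.nat x hx k hk
    exact ⟨m, by rw [hm]; push_cast; rfl⟩
  have hν0 : ∀ x ∈ A ∪ B, 0 ≤ T.E (x, k) := by
    intro x hx
    obtain ⟨m, hm⟩ := hT.nat x hx k hk
    rw [hm]
    exact Nat.cast_nonneg m
  have hregK := rsT_RRegK a hs (A ∪ B) (S ∪ S') hW (Finset.union_subset_union hS hS') k hk q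
    (fun i => n i + n' i) T (Pool.Agent.H46.AH.RReg.toK hT k)
  have hwt := shv_wt a hs (A ∪ B) (S ∪ S') hW (Finset.union_subset_union hS hS') q
    (fun x => T.E (x, k)) hq hνZ (fun i => n i + n' i)
  have hnew := AH13_newRF a hs cd h (A ∪ B) (S ∪ S') hW (Finset.union_subset_union hS hS') k q
    (fun x => T.E (x, k)) hq hν0 hνZ (fun i => n i + n' i) hPW w hw
  have hqA : ∀ x ∈ A, IsZ (cqN a A q x) := by
    intro x hx
    have := hq x (Finset.mem_union_left _ hx)
    rw [AH13_cqN_union a A B hdis, AH13_cqN_sep' a hs A B hAB q x hx, add_zero] at this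
    exact this
  have hqB : ∀ x ∈ B, IsZ (cqN a B q x) := by
    intro x hx
    have := hq x (Finset.mem_union_right _ hx)
    rw [AH13_cqN_union a A B hdis, AH13_cqN_sep a hs A B hAB q x hx, zero_add] at this
    exact this
  have hcW := comps_union a hs A B hAB
  have hcA : comps a A = {A} := comps_of_conn hc
  have hAm : A ∈ comps a (A ∪ B) := by
    rw [hcW, hcA]
    exact Finset.mem_union_left _ (Finset.mem_singleton_self A)
  have hnewA := AH13_newRF a hs cd h A S hA hS k q (fun x => T.E (x, k)) hqA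
    (fun x hx => hν0 x (Finset.mem_union_left _ hx))
    (fun x hx => hνZ x (Finset.mem_union_left _ hx)) n hPA (fun _ => w A)
    (fun N hN => by
      rw [hcA, Finset.mem_singleton] at hN
      rw [hN]
      exact hw A hAm)
  have hnewB := AH13_newRF a hs cd h B S' hB hS' k q (fun x => T.E (x, k)) hqB
    (fun x hx => hν0 x (Finset.mem_union_right _ hx))
    (fun x hx => hνZ x (Finset.mem_union_right _ hx)) n' hPB w
    (fun N hN => hw N (by rw [hcW]; exact Finset.mem_union_right _ hN))
  have hunt : ∀ N ∈ comps a (A \ S), (∀ x ∈ N, shv a A S q (fun x => T.E (x, k)) n x = 0) →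
      N = A := by
    intro N hN h0
    have := AH13_untouched a hs A S hA hS q (fun x => T.E (x, k))
      (fun x hx => hν0 x (Finset.mem_union_left _ hx)) n hPA N hN h0
    rw [hcA, Finset.mem_singleton] at this
    exact this
  have hoffA : ∀ x, x ∉ A → shv a A S q (fun x => T.E (x, k)) n x = 0 := fun x hx =>
    shv_off a A S hS q _ n x hx
  have hoffB : ∀ x, x ∉ B → shv a B S' q (fun x => T.E (x, k)) n' x = 0 := fun x hx =>
    shv_off a B S' hS' q _ n' x hx
  have hμ : shv a (A ∪ B) (S ∪ S') q (fun x => T.E (x, k)) (fun i => n i + n' i) =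
      fun i => shv a A S q (fun x => T.E (x, k)) n i + shv a B S' q (fun x => T.E (x, k)) n' i := by
    funext i
    exact shv_union a hs A B hW hAB S S' hS hS' q _ n n' hn hn' i
  rw [AH13_sdiff A B S S' hdis hS hS'] at hregK hwt hnew ⊢
  rw [hμ] at hregK hwt hnew ⊢
  generalize shv a A S q (fun x => T.E (x, k)) n = μ at *
  generalize shv a B S' q (fun x => T.E (x, k)) n' = μ' at *
  have hsep1 : Sep a (A \ S) (B \ S') := AH13_sep_mono hAB Finset.sdiff_subset Finset.sdiff_subset
  have hU : FinT a ((A \ S) ∪ (B \ S')) :=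
    hW.mono (Finset.union_subset_union Finset.sdiff_subset Finset.sdiff_subset)
  -- the term
  have ht : elT a (B \ S') k (rsT a S' k μ' (elT a (A \ S) k (rsT a S k μ T))) =
      elT a ((A \ S) ∪ (B \ S')) k (rsT a (S ∪ S') k (fun i => μ i + μ' i) T) := by
    rw [rsT_elT a hs S' (A \ S) (hA.mono Finset.sdiff_subset)
      (AH13_sep_mono (AH13_sep_symm hs hAB) hS' Finset.sdiff_subset),
      Finset.union_comm (A \ S), elT_union a hs (B \ S') (A \ S) (by
        rw [Finset.union_comm]; exact hU) (AH13_sep_symm hs hsep1),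
      Finset.union_comm S S']
    have e1 : (fun i => μ i + μ' i) = fun i => μ' i + μ i := by
      funext i
      exact add_comm _ _
    rw [e1, rsT_union a S' S k μ' μ T]
  rw [ht]
  have hreg : RReg ((A \ S) ∪ (B \ S'))
      (elT a ((A \ S) ∪ (B \ S')) k (rsT a (S ∪ S') k (fun i => μ i + μ' i) T)) :=
    RReg_elT a hs _ hU k _ hregK.1
  generalize elT a ((A \ S) ∪ (B \ S')) k (rsT a (S ∪ S') k (fun i => μ i + μ' i) T) = T4 at *
  set Φ : Finset I → FFn I := fun N => if N ⊆ A then
      fam N (fun i => q i + μ i) (neww (fun N q g => cn a cd N q g) (fun _ => w A) k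
        (fun i => q i + μ i) μ N) (k - 1)
    else fam N (fun i => q i + μ' i) (neww (fun N q g => cn a cd N q g) w k
        (fun i => q i + μ' i) μ' N) (k - 1) with hΦ
  have hNA : ∀ N ∈ comps a (A \ S), N ⊆ A := fun N hN =>
    (comps_subset hN).trans Finset.sdiff_subset
  have hNB : ∀ N ∈ comps a (B \ S'), N ⊆ B := fun N hN =>
    (comps_subset hN).trans Finset.sdiff_subset
  have hNB' : ∀ N ∈ comps a (B \ S'), ¬ N ⊆ A := by
    intro N hN hNA'
    obtain ⟨x, hx⟩ := (comps_conn hN).1
    exact Finset.disjoint_left.1 hdis (hNA' hx) (hNB N hN hx)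
  have e1 : stBlk a fam k (A \ S) (fun i => q i + μ i)
      (neww (fun N q g => cn a cd N q g) (fun _ => w A) k (fun i => q i + μ i) μ) =
      (comps a (A \ S)).toList.map (fun N => (N, Φ N)) := by
    unfold stBlk
    refine List.map_congr_left fun N hN => ?_
    rw [Finset.mem_toList] at hN
    rw [hΦ]
    beta_reduce
    rw [if_pos (hNA N hN)]
  have e2 : stBlk a fam k (B \ S') (fun i => q i + μ' i)
      (neww (fun N q g => cn a cd N q g) w k (fun i => q i + μ' i) μ') =
      (comps a (B \ S')).toList.map (fun N => (N, Φ N)) := by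
    unfold stBlk
    refine List.map_congr_left fun N hN => ?_
    rw [Finset.mem_toList] at hN
    rw [hΦ]
    beta_reduce
    rw [if_neg (hNB' N hN)]
  rw [e1, e2, ← evU_union a hs (A \ S) (B \ S') hsep1 Φ T4]
  unfold stBlk
  refine evU_RF (cd := cd) hs hU hwt (w := neww (fun N q g => cn a cd N q g) w k
    (fun i => q i + (μ i + μ' i)) (fun i => μ i + μ' i)) (f := k - 1) ?_ ?_ T4 hreg
  · intro N hN
    rw [comps_union a hs _ _ hsep1, Finset.mem_union] at hN
    rcases hN with hN | hN
    · have h1 := hfam N _ _ _ (hnewA N hN (k - 1) (Nat.sub_le k 1))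
      rw [hΦ]
      beta_reduce
      rw [if_pos (hNA N hN)]
      have hμ0 : ∀ x ∈ N, μ' x = 0 := fun x hx =>
        hoffB x (Finset.disjoint_left.1 hdis (hNA N hN hx))
      refine h1.congr (fun x hx => ?_) (fun l _ => ?_)
      · beta_reduce
        rw [hμ0 x hx]
        exact ⟨0, by push_cast; ring⟩
      · refine AH13_neww_congr a cd (fun _ => w A) w k q μ (fun i => μ i + μ' i) N
          (fun x hx => by rw [hμ0 x hx, add_zero]) (fun h0 => ?_) l
        rw [hunt N hN h0]
    · have h1 := hfam N _ _ _ (hnewB N hN (k - 1) (Nat.sub_le k 1))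
      rw [hΦ]
      beta_reduce
      rw [if_neg (hNB' N hN)]
      have hμ0 : ∀ x ∈ N, μ x = 0 := fun x hx =>
        hoffA x (fun h' => Finset.disjoint_left.1 hdis h' (hNB N hN hx))
      refine h1.congr (fun x hx => ?_) (fun l _ => ?_)
      · beta_reduce
        rw [hμ0 x hx]
        exact ⟨0, by push_cast; ring⟩
      · exact AH13_neww_congr a cd w w k q μ' (fun i => μ i + μ' i) N
          (fun x hx => by rw [hμ0 x hx, zero_add]) (fun _ => rfl) l
  · intro N hN
    exact hfam N _ _ _ (hnew N hN (k - 1) (Nat.sub_le k 1))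

open Classical in
/-- the statement of `step_all` for the set `W`. -/
def AH13_P (a : I → I → ℕ) (cd : CrossData a)
    (fam : Finset I → (I → ℚ) → (ℕ → ℚ) → ℕ → FFn I) (k : ℕ) (q : I → ℚ)
    (w : Finset I → ℕ → ℚ) (W : Finset I) : Prop :=
  ∀ T : Trm I, RReg W T →
    evU a (stBlk a fam (k + 1) W q w) T =
      ∑ S ∈ W.powerset, ∑ n ∈ (rbox S k T.γ q).filter
          (fun n => ∀ s ∈ S, T.E (s, k) < cqN a W (shv a W S q (fun x => T.E (x, k)) n) s),
        tw a W w k (shv a W S q (fun x => T.E (x, k)) n) *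
          evU a (stBlk a fam k (W \ S) (fun i => q i + shv a W S q (fun x => T.E (x, k)) n i)
            (neww (fun N q g => cn a cd N q g) w k
              (fun i => q i + shv a W S q (fun x => T.E (x, k)) n i)
              (shv a W S q (fun x => T.E (x, k)) n)))
            (elT a (W \ S) k (rsT a S k (shv a W S q (fun x => T.E (x, k)) n) T))

theorem AH13_tw (a : I → I → ℕ) (hs : ∀ i j, a i j = a j i) (A B : Finset I)
    (hAB : Sep a A B) (hc : ConnS a A) (w : Finset I → ℕ → ℚ) (k : ℕ) (μ μ' : I → ℚ)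
    (hμ : ∀ x, x ∉ A → μ x = 0) (hμ' : ∀ x, x ∉ B → μ' x = 0) [Decidable (∀ x ∈ A, μ x = 0)] :
    tw a (A ∪ B) w k (fun i => μ i + μ' i) =
      (if ∀ x ∈ A, μ x = 0 then 1 else w A k) * tw a B w k μ' := by
  classical
  unfold tw
  rw [clusters_eq_comps a hs, clusters_eq_comps a hs, comps_union a hs A B hAB,
    comps_of_conn hc, Finset.prod_union (by
      rw [← comps_of_conn hc]
      exact comps_disj a A B hAB), Finset.prod_singleton]
  congr 1
  · have h1 : (∀ x ∈ A, μ x + μ' x = 0) ↔ ∀ x ∈ A, μ x = 0 := by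
      constructor
      · intro h x hx
        have := h x hx
        rwa [hμ' x (Finset.disjoint_left.1 hAB.1 hx), add_zero] at this
      · intro h x hx
        rw [h x hx, hμ' x (Finset.disjoint_left.1 hAB.1 hx), add_zero]
    by_cases h0 : ∀ x ∈ A, μ x = 0
    · rw [if_pos (h1.2 h0), if_pos h0]
    · rw [if_neg (fun h' => h0 (h1.1 h')), if_neg h0]
  · refine Finset.prod_congr rfl fun N hN => ?_
    have hNA : ∀ x ∈ N, μ x = 0 := fun x hx =>
      hμ x (fun h' => Finset.disjoint_left.1 hAB.1 h' (comps_subset hN hx))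
    have h1 : (∀ x ∈ N, μ x + μ' x = 0) ↔ ∀ x ∈ N, μ' x = 0 := by
      constructor
      · intro h x hx
        have := h x hx
        rwa [hNA x hx, zero_add] at this
      · intro h x hx
        rw [h x hx, hNA x hx, zero_add]
    by_cases h0 : ∀ x ∈ N, μ' x = 0
    · rw [if_pos (h1.2 h0), if_pos h0]
    · rw [if_neg (fun h' => h0 (h1.1 h')), if_neg h0]

theorem AH13_cond (a : I → I → ℕ) (hs : ∀ i j, a i j = a j i) (A B : Finset I)
    (hAB : Sep a A B) (S S' : Finset I) (hS : S ⊆ A) (hS' : S' ⊆ B) (ν μ μ' : I → ℚ)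
    (hμ : ∀ x, x ∉ A → μ x = 0) (hμ' : ∀ x, x ∉ B → μ' x = 0) :
    (∀ s ∈ S ∪ S', ν s < cqN a (A ∪ B) (fun i => μ i + μ' i) s) ↔
      (∀ s ∈ S, ν s < cqN a A μ s) ∧ ∀ s ∈ S', ν s < cqN a B μ' s := by
  have hdis := hAB.1
  have h1 : ∀ s, cqN a (A ∪ B) (fun i => μ i + μ' i) s = cqN a A μ s + cqN a B μ' s := by
    intro s
    rw [AH13_cqN_union a A B hdis, AH13_cqN_add, AH13_cqN_add,
      AH13_cqN_zero a A μ' (fun j hj => hμ' j (Finset.disjoint_left.1 hdis hj)) s,
      AH13_cqN_zero a B μ (fun j hj => hμ j (fun h' => Finset.disjoint_left.1 hdis h' hj)) s,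
      add_zero, zero_add]
  constructor
  · intro h
    refine ⟨fun s hs1 => ?_, fun s hs1 => ?_⟩
    · have := h s (Finset.mem_union_left _ hs1)
      rwa [h1, AH13_cqN_sep' a hs A B hAB _ s (hS hs1), add_zero] at this
    · have := h s (Finset.mem_union_right _ hs1)
      rwa [h1, AH13_cqN_sep a hs A B hAB _ s (hS' hs1), zero_add] at this
  · rintro ⟨h2, h3⟩ s hs1
    rw [h1]
    rcases Finset.mem_union.1 hs1 with h | h
    · rw [AH13_cqN_sep' a hs A B hAB _ s (hS h), add_zero]
      exact h2 s h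
    · rw [AH13_cqN_sep a hs A B hAB _ s (hS' h), zero_add]
      exact h3 s h

theorem AH13_blk_disj (a : I → I → ℕ) (hs : ∀ i j, a i j = a j i)
    (fam : Finset I → (I → ℚ) → (ℕ → ℚ) → ℕ → FFn I) (k : ℕ)
    (W : Finset I) (q : I → ℚ) (w : Finset I → ℕ → ℚ) :
    (stBlk a fam k W q w).Pairwise (fun b c => Disjoint b.1 c.1) :=
  (stBlk_sep a hs fam k W q w).imp fun h => h.1

open Classical in
theorem AH13_two (a : I → I → ℕ) (hs : ∀ i j, a i j = a j i) (cd : CrossData a)
    (h : RTfam a cd) (fam : Finset I → (I → ℚ) → (ℕ → ℚ) → ℕ → FFn I) (hfam : IsFam a cd fam)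
    (A B : Finset I) (hW : FinT a (A ∪ B)) (hAB : Sep a A B) (hc : ConnS a A) (k : ℕ)
    (hk : 1 ≤ k) (q : I → ℚ) (hq : ∀ x ∈ A ∪ B, IsZ (cqN a (A ∪ B) q x))
    (w : Finset I → ℕ → ℚ) (hw : ∀ N ∈ comps a (A ∪ B), RFex a cd N q (w N) k)
    (hBP : AH13_P a cd fam k q w B) : AH13_P a cd fam k q w (A ∪ B) := by
  intro T hT
  have hA : FinT a A := hW.mono Finset.subset_union_left
  have hB : FinT a B := hW.mono Finset.subset_union_right
  have hdis := hAB.1
  have hcW := comps_union a hs A B hAB
  have hcA : comps a A = {A} := comps_of_conn hc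
  have hAm : A ∈ comps a (A ∪ B) := by
    rw [hcW, hcA]
    exact Finset.mem_union_left _ (Finset.mem_singleton_self A)
  have hqA : ∀ x ∈ A, IsZ (cqN a A q x) := by
    intro x hx
    have := hq x (Finset.mem_union_left _ hx)
    rw [AH13_cqN_union a A B hdis, AH13_cqN_sep' a hs A B hAB q x hx, add_zero] at this
    exact this
  have hBA : Sep a B A := AH13_sep_symm hs hAB
  -- the blocks of the old state
  have e1 : evU a (stBlk a fam (k + 1) (A ∪ B) q w) T =
      evU a (stBlk a fam (k + 1) B q w ++ [(A, fam A q (w A) k)]) T := by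
    have h1 := evU_union a hs A B hAB (fun N => fam N q (w N) (k + 1 - 1)) T
    have h2 : (comps a A).toList.map (fun N => (N, fam N q (w N) (k + 1 - 1))) =
        [(A, fam A q (w A) k)] := by
      rw [hcA, Finset.toList_singleton, List.map_singleton, Nat.add_sub_cancel]
    rw [h2] at h1
    have h3 : evU a (stBlk a fam (k + 1) (A ∪ B) q w) T =
        evU a ([(A, fam A q (w A) k)] ++ stBlk a fam (k + 1) B q w) T := h1
    rw [h3]
    refine evU_perm a _ _ List.perm_append_comm ?_ T
    rw [List.singleton_append, List.pairwise_cons]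
    refine ⟨fun b hb => ?_, AH13_blk_disj a hs fam (k + 1) B q w⟩
    exact Finset.disjoint_of_subset_right (stBlk_sub a fam (k + 1) B q w b hb) hdis
  -- the step of `A`
  have e2 := AH13_tail a (stBlk a fam (k + 1) B q w) [(A, fam A q (w A) k)]
    (AH13_blk_disj a hs fam (k + 1) B q w) A.powerset
    (fun S => (rbox S k T.γ q).filter
          (fun n => ∀ s ∈ S, T.E (s, k) < cqN a A (shv a A S q (fun x => T.E (x, k)) n) s))
    (fun S n => if ∀ x ∈ A, shv a A S q (fun x => T.E (x, k)) n x = 0 then 1 else w A k)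
    (fun S n => stBlk a fam k (A \ S) (fun i => q i + shv a A S q (fun x => T.E (x, k)) n i)
          (neww (fun N q g => cn a cd N q g) (fun _ => w A) k
            (fun i => q i + shv a A S q (fun x => T.E (x, k)) n i)
            (shv a A S q (fun x => T.E (x, k)) n))) T
    (fun S n => elT a (A \ S) k (rsT a S k (shv a A S q (fun x => T.E (x, k)) n) T))
    (fun π => by
      rw [uni_stBlk a hs, evU_single]
      have hreg : RReg A (patT a B π T) :=
        RReg_patT a hs A B hdis π (fun x hx y hy _ => hAB.2 x hx y hy) T hT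
      rw [step_cluster a hs cd h fam hfam A hA hc k hk q hqA (w A) (hw A hAm) _ hreg]
      have hdat := AH13_data a hs A hA k q (patT a B π T).γ T.γ
        (fun x => (patT a B π T).E (x, k)) (fun x => T.E (x, k))
        (fun x hx => (E_patT_sep a hs A B hAB π T x hx k).2)
        (fun x hx => (E_patT_sep a hs A B hAB π T x hx k).1)
        (fun S μ => (if ∀ x ∈ A, μ x = 0 then 1 else w A k) *
          evU a (stBlk a fam k (A \ S) (fun i => q i + μ i)
            (neww (fun N q g => cn a cd N q g) (fun _ => w A) k (fun i => q i + μ i) μ))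
            (elT a (A \ S) k (rsT a S k μ (patT a B π T))))
      refine hdat.trans ?_
      refine Finset.sum_congr rfl fun S hS => Finset.sum_congr rfl fun n _ => ?_
      rw [rsT_patT a S B (Finset.disjoint_of_subset_left (Finset.mem_powerset.1 hS) hdis),
        elT_patT a hs (A \ S) B (hA.mono Finset.sdiff_subset)
          (Finset.disjoint_of_subset_left Finset.sdiff_subset hdis)])
  rw [e1, e2]
  -- the step of `B`
  have e3 : ∀ S ⊆ A, ∀ n : I → ℤ,
      evU a (stBlk a fam (k + 1) B q w ++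
        stBlk a fam k (A \ S) (fun i => q i + shv a A S q (fun x => T.E (x, k)) n i)
          (neww (fun N q g => cn a cd N q g) (fun _ => w A) k
            (fun i => q i + shv a A S q (fun x => T.E (x, k)) n i)
            (shv a A S q (fun x => T.E (x, k)) n)))
        (elT a (A \ S) k (rsT a S k (shv a A S q (fun x => T.E (x, k)) n) T)) =
      ∑ S' ∈ B.powerset, ∑ n' ∈ (rbox S' k T.γ q).filter
          (fun n' => ∀ s ∈ S', T.E (s, k) < cqN a B (shv a B S' q (fun x => T.E (x, k)) n') s),
        tw a B w k (shv a B S' q (fun x => T.E (x, k)) n') *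
          evU a (stBlk a fam k (A \ S) (fun i => q i + shv a A S q (fun x => T.E (x, k)) n i)
              (neww (fun N q g => cn a cd N q g) (fun _ => w A) k
                (fun i => q i + shv a A S q (fun x => T.E (x, k)) n i)
                (shv a A S q (fun x => T.E (x, k)) n)) ++
            stBlk a fam k (B \ S') (fun i => q i + shv a B S' q (fun x => T.E (x, k)) n' i)
              (neww (fun N q g => cn a cd N q g) w k
                (fun i => q i + shv a B S' q (fun x => T.E (x, k)) n' i)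
                (shv a B S' q (fun x => T.E (x, k)) n')))
            (elT a (B \ S') k (rsT a S' k (shv a B S' q (fun x => T.E (x, k)) n')
              (elT a (A \ S) k (rsT a S k (shv a A S q (fun x => T.E (x, k)) n) T)))) := by
    intro S hS n
    have hoff : ∀ i, i ∉ A → shv a A S q (fun x => T.E (x, k)) n i = 0 := fun i hi =>
      shv_off a A S hS q _ n i hi
    generalize shv a A S q (fun x => T.E (x, k)) n = μ at *
    rw [evU_perm a _ _ List.perm_append_comm (by
      rw [List.pairwise_append]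
      refine ⟨AH13_blk_disj a hs fam (k + 1) B q w, AH13_blk_disj a hs fam k _ _ _,
        fun b hb c hc' => ?_⟩
      exact Finset.disjoint_of_subset_left (stBlk_sub a fam (k + 1) B q w b hb)
        (Finset.disjoint_of_subset_right ((stBlk_sub a fam k _ _ _ c hc').trans
          Finset.sdiff_subset) hdis.symm))]
    refine AH13_tail a _ (stBlk a fam (k + 1) B q w) (AH13_blk_disj a hs fam k _ _ _)
      B.powerset
      (fun S' => (rbox S' k T.γ q).filter
          (fun n' => ∀ s ∈ S', T.E (s, k) < cqN a B (shv a B S' q (fun x => T.E (x, k)) n') s))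
      (fun S' n' => tw a B w k (shv a B S' q (fun x => T.E (x, k)) n'))
      (fun S' n' => stBlk a fam k (B \ S')
        (fun i => q i + shv a B S' q (fun x => T.E (x, k)) n' i)
              (neww (fun N q g => cn a cd N q g) w k
                (fun i => q i + shv a B S' q (fun x => T.E (x, k)) n' i)
                (shv a B S' q (fun x => T.E (x, k)) n'))) _
      (fun S' n' => elT a (B \ S') k (rsT a S' k (shv a B S' q (fun x => T.E (x, k)) n')
              (elT a (A \ S) k (rsT a S k μ T)))) (fun π => ?_)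
    rw [uni_stBlk a hs]
    have hregB : RReg B (elT a (A \ S) k (rsT a S k μ T)) :=
      RReg_rs_sep a hs A B S hA hAB hS k μ hoff T hT
    have hsepB : Sep a B (A \ S) := AH13_sep_mono hBA (Finset.Subset.refl B) Finset.sdiff_subset
    have hregB' : RReg B (patT a (A \ S) π (elT a (A \ S) k (rsT a S k μ T))) := by
      refine ⟨fun x hx l hl => ?_, fun x hx j hj l hl hne => ?_⟩
      · rw [(E_patT_sep a hs B (A \ S) hsepB π _ x hx l).1]
        exact hregB.nat x hx l hl
      · rw [(E_patT_sep a hs B (A \ S) hsepB π _ x hx l).1]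
        rw [patT_Λ] at hne
        by_cases hjA : j ∈ A \ S
        · rw [if_pos hjA] at hne
          exact absurd (AG1_sy_apply (x := x) (j := j) (fun e => hj (e ▸ hx)) _ _) hne
        · rw [if_neg hjA] at hne
          exact hregB.col x hx j hj l hl hne
    rw [hBP _ hregB']
    have hdat := AH13_data a hs B hB k q
      (patT a (A \ S) π (elT a (A \ S) k (rsT a S k μ T))).γ T.γ
      (fun x => (patT a (A \ S) π (elT a (A \ S) k (rsT a S k μ T))).E (x, k))
      (fun x => T.E (x, k))
      (fun x hx => by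
        rw [(E_patT_sep a hs B (A \ S) hsepB π _ x hx k).2]
        exact (E_rs_sep a hs A B S hAB hS k μ hoff T x hx k).2)
      (fun x hx => by
        beta_reduce
        rw [(E_patT_sep a hs B (A \ S) hsepB π _ x hx k).1]
        exact (E_rs_sep a hs A B S hAB hS k μ hoff T x hx k).1)
      (fun S' μ' => tw a B w k μ' *
        evU a (stBlk a fam k (B \ S') (fun i => q i + μ' i)
          (neww (fun N q g => cn a cd N q g) w k (fun i => q i + μ' i) μ'))
          (elT a (B \ S') k (rsT a S' k μ'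
            (patT a (A \ S) π (elT a (A \ S) k (rsT a S k μ T))))))
    refine hdat.trans ?_
    refine Finset.sum_congr rfl fun S' hS' => Finset.sum_congr rfl fun n' _ => ?_
    rw [rsT_patT a S' (A \ S) (Finset.disjoint_of_subset_left (Finset.mem_powerset.1 hS') hsepB.1),
      elT_patT a hs (B \ S') (A \ S) (hB.mono Finset.sdiff_subset)
        (Finset.disjoint_of_subset_left Finset.sdiff_subset hsepB.1)]
  rw [Finset.sum_congr rfl fun S hS => Finset.sum_congr rfl fun n _ => by
    rw [e3 S (Finset.mem_powerset.1 hS) n]]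
  -- the right hand side
  have hbox : ∀ (S : Finset I) (n : I → ℤ), n ∈ rbox S k T.γ q → ∀ i, i ∉ S → n i = 0 := by
    intro S n hn i hi
    unfold rbox at hn
    rw [Fintype.mem_piFinset] at hn
    have := hn i
    rw [if_neg hi, Finset.mem_singleton] at this
    exact this
  rw [Finset.sum_congr rfl fun S'' _ => Finset.sum_filter
    (fun n => ∀ s ∈ S'', T.E (s, k) <
      cqN a (A ∪ B) (shv a (A ∪ B) S'' q (fun x => T.E (x, k)) n) s) _]
  rw [sum_rbox_union A B hdis k T.γ q (fun S'' n => if (∀ s ∈ S'', T.E (s, k) <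
      cqN a (A ∪ B) (shv a (A ∪ B) S'' q (fun x => T.E (x, k)) n) s) then
        tw a (A ∪ B) w k (shv a (A ∪ B) S'' q (fun x => T.E (x, k)) n) *
          evU a (stBlk a fam k ((A ∪ B) \ S'')
              (fun i => q i + shv a (A ∪ B) S'' q (fun x => T.E (x, k)) n i)
            (neww (fun N q g => cn a cd N q g) w k
              (fun i => q i + shv a (A ∪ B) S'' q (fun x => T.E (x, k)) n i)
              (shv a (A ∪ B) S'' q (fun x => T.E (x, k)) n)))
            (elT a ((A ∪ B) \ S'') k
              (rsT a S'' k (shv a (A ∪ B) S'' q (fun x => T.E (x, k)) n) T)) else 0)]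
  refine Finset.sum_congr rfl fun S hS => ?_
  rw [Finset.sum_filter]
  refine Finset.sum_congr rfl fun n hn => ?_
  have hSA := Finset.mem_powerset.1 hS
  have hn0 := hbox S n hn
  have hoffA : ∀ x, x ∉ A → shv a A S q (fun x => T.E (x, k)) n x = 0 := fun x hx =>
    shv_off a A S hSA q _ n x hx
  have hoffB : ∀ S' ⊆ B, ∀ (n' : I → ℤ) (x : I), x ∉ B →
      shv a B S' q (fun x => T.E (x, k)) n' x = 0 := fun S' hS' n' x hx =>
    shv_off a B S' hS' q _ n' x hx
  have hμ : ∀ S' ⊆ B, ∀ n' : I → ℤ, (∀ i, i ∉ S' → n' i = 0) →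
      shv a (A ∪ B) (S ∪ S') q (fun x => T.E (x, k)) (fun i => n i + n' i) =
      fun i => shv a A S q (fun x => T.E (x, k)) n i +
        shv a B S' q (fun x => T.E (x, k)) n' i := by
    intro S' hS' n' hn'
    funext i
    exact shv_union a hs A B hW hAB S S' hSA hS' q _ n n' hn0 hn' i
  by_cases hPA : ∀ s ∈ S, T.E (s, k) < cqN a A (shv a A S q (fun x => T.E (x, k)) n) s
  · rw [if_pos hPA, Finset.mul_sum]
    refine Finset.sum_congr rfl fun S' hS' => ?_
    have hSB := Finset.mem_powerset.1 hS'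
    rw [Finset.sum_filter, Finset.mul_sum]
    refine Finset.sum_congr rfl fun n' hn' => ?_
    have hn0' := hbox S' n' hn'
    have hcond := AH13_cond a hs A B hAB S S' hSA hSB (fun x => T.E (x, k))
      (shv a A S q (fun x => T.E (x, k)) n) (shv a B S' q (fun x => T.E (x, k)) n') hoffA
      (hoffB S' hSB n')
    rw [← hμ S' hSB n' hn0'] at hcond
    by_cases hPB : ∀ s ∈ S', T.E (s, k) < cqN a B (shv a B S' q (fun x => T.E (x, k)) n') s
    · have hPW := hcond.2 ⟨hPA, hPB⟩
      rw [if_pos hPB, if_pos hPW, ← AH13_match a hs cd h fam hfam A B hW hAB hc k hk q hq w hw T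
        hT S S' hSA hSB n n' hn0 hn0' hPA hPB hPW]
      have htw := AH13_tw a hs A B hAB hc w k (shv a A S q (fun x => T.E (x, k)) n)
        (shv a B S' q (fun x => T.E (x, k)) n') hoffA (hoffB S' hSB n')
      rw [← hμ S' hSB n' hn0'] at htw
      rw [htw, mul_assoc]
    · rw [if_neg hPB, if_neg (fun h' => hPB (hcond.1 h').2), mul_zero]
  · rw [if_neg hPA]
    symm
    refine Finset.sum_eq_zero fun S' hS' => Finset.sum_eq_zero fun n' hn' => ?_
    have hSB := Finset.mem_powerset.1 hS'
    have hn0' := hbox S' n' hn'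
    have hcond := AH13_cond a hs A B hAB S S' hSA hSB (fun x => T.E (x, k))
      (shv a A S q (fun x => T.E (x, k)) n) (shv a B S' q (fun x => T.E (x, k)) n') hoffA
      (hoffB S' hSB n')
    rw [← hμ S' hSB n' hn0'] at hcond
    rw [if_neg (fun h' => hPA (hcond.1 h').1)]

open Classical in
theorem AH13_all (a : I → I → ℕ) (hs : ∀ i j, a i j = a j i) (cd : CrossData a)
    (h : RTfam a cd) (fam : Finset I → (I → ℚ) → (ℕ → ℚ) → ℕ → FFn I) (hfam : IsFam a cd fam)
    (k : ℕ) (hk : 1 ≤ k) (q : I → ℚ) (w : Finset I → ℕ → ℚ) (W : Finset I) :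
    FinT a W → (∀ x ∈ W, IsZ (cqN a W q x)) → (∀ A ∈ comps a W, RFex a cd A q (w A) k) →
      AH13_P a cd fam k q w W := by
  induction W using Finset.strongInduction with
  | H W IH =>
    intro hW hq hw
    rcases W.eq_empty_or_nonempty with hW0 | ⟨x, hx⟩
    · subst hW0
      intro T hT
      have hμ : ∀ n : I → ℤ, shv a ∅ ∅ q (fun x => T.E (x, k)) n = fun _ => 0 := by
        intro n
        funext i
        exact shv_off a ∅ ∅ (Finset.Subset.refl _) q _ n i (Finset.notMem_empty i)
      have hb : rbox (∅ : Finset I) k T.γ q = {fun _ => 0} := by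
        ext n
        unfold rbox
        rw [Fintype.mem_piFinset, Finset.mem_singleton]
        constructor
        · intro h1
          funext i
          have := h1 i
          rw [if_neg (Finset.notMem_empty i), Finset.mem_singleton] at this
          exact this
        · intro h1 i
          rw [if_neg (Finset.notMem_empty i), Finset.mem_singleton, h1]
      have hblk : ∀ (k : ℕ) (q : I → ℚ) (w : Finset I → ℕ → ℚ),
          stBlk a fam k ∅ q w = [] := by
        intro k q w
        unfold stBlk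
        rw [AH13_comps_empty, Finset.toList_empty, List.map_nil]
      rw [Finset.powerset_empty, Finset.sum_singleton, hb,
        Finset.filter_true_of_mem (fun n _ s hs' => absurd hs' (Finset.notMem_empty s)),
        Finset.sum_singleton, hμ, hblk, Finset.sdiff_self, hblk, elT_empty, AH13_rsT_empty]
      have htw : tw a ∅ w k (fun _ => 0) = 1 := by
        unfold tw
        rw [clusters_eq_comps a hs, AH13_comps_empty, Finset.prod_empty]
      rw [htw, one_mul]
    · obtain ⟨A, hA, hxA⟩ := comps_cover hs x hx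
      obtain ⟨hsep, hun⟩ := comps_sdiff_sep a hs W A hA
      have hlt : W \ A ⊂ W := by
        refine ⟨Finset.sdiff_subset, fun h' => ?_⟩
        exact (Finset.mem_sdiff.1 (h' hx)).2 hxA
      have hWB : FinT a (W \ A) := hW.mono Finset.sdiff_subset
      have hcW := comps_union a hs A (W \ A) hsep
      rw [hun] at hcW
      have hqB : ∀ x ∈ W \ A, IsZ (cqN a (W \ A) q x) := by
        intro y hy
        have := hq y (Finset.mem_sdiff.1 hy).1
        rw [← hun, AH13_cqN_union a A _ hsep.1, AH13_cqN_sep a hs A _ hsep q y hy, zero_add] at this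
        exact this
      have hIH := IH (W \ A) hlt hWB hqB
        (fun N hN => hw N (by rw [hcW]; exact Finset.mem_union_right _ hN))
      have := AH13_two a hs cd h fam hfam A (W \ A) (by rw [hun]; exact hW) hsep (comps_conn hA)
        k hk q (by rw [hun]; exact hq) w (by rw [hun]; exact hw) hIH
      rw [hun] at this
      exact this

open Classical in
/-- one step of all clusters. -/
theorem step_all (a : I → I → ℕ) (hs : ∀ i j, a i j = a j i) (cd : CrossData a)
    (h : RTfam a cd) (fam : Finset I → (I → ℚ) → (ℕ → ℚ) → ℕ → FFn I) (hfam : IsFam a cd fam)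
    (W : Finset I) (hW : FinT a W) (k : ℕ) (hk : 1 ≤ k) (q : I → ℚ)
    (hq : ∀ x ∈ W, IsZ (cqN a W q x)) (w : Finset I → ℕ → ℚ)
    (hw : ∀ A ∈ comps a W, RFex a cd A q (w A) k) (T : Trm I) (hT : RReg W T) :
    evU a (stBlk a fam (k + 1) W q w) T =
      ∑ S ∈ W.powerset, ∑ n ∈ (rbox S k T.γ q).filter
          (fun n => ∀ s ∈ S, T.E (s, k) < cqN a W (shv a W S q (fun x => T.E (x, k)) n) s),
        tw a W w k (shv a W S q (fun x => T.E (x, k)) n) *
          evU a (stBlk a fam k (W \ S) (fun i => q i + shv a W S q (fun x => T.E (x, k)) n i)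
            (neww (fun N q g => cn a cd N q g) w k
              (fun i => q i + shv a W S q (fun x => T.E (x, k)) n i)
              (shv a W S q (fun x => T.E (x, k)) n)))
            (elT a (W \ S) k (rsT a S k (shv a W S q (fun x => T.E (x, k)) n) T)) :=
  AH13_all a hs cd h fam hfam k hk q w W hW hq hw T hT

end

end Pool.Agent.H46.AH
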