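import Pool.Agent.H46.AH.AH0
import Pool.Agent.H40.KADE.GDef
import Pool.Agent.H41.KA.AD6
import Pool.Agent.H41.KA.AG1

/-!
KAC ADE, module AH9: expansion of the regular vertices.

`reg_expand`: apply `TV_expPD` (AD6) at level `k` to every vertex `x ∉ W` (column `j = x`):
`stE (k+1) P p = ∑ -P_i dd i k + (-2 P_i + p_i) (i,k) + P_i (i,k-1)`, column `x` is `sy x (k+1) + c` with
`c = -∑_l H_lx (l,k)`; weight `(-1)^m choose(-P, m) / P` (for `m ≥ 1` this is `wtq P m`, for `m = 0` the factor `1/P` cancels
with the scale `P` of the column: `TV_col_smul`).  Terms with `k n_x > γ_x` vanish (`TV_neg`); if `γ_x < 0` both sides are zero.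
The patterns of the blocks of `U` live on vertices of `W`: they change `γ` on `W` only, the columns of `W`, and add
exponents; so first prove the statement for `TV` with an additional summand in the exponents, arbitrary `γ` and arbitrary
columns on `W`, and then use induction on `U`.
-/

set_option autoImplicit false

namespace Pool.Agent.H46.AH

open scoped BigOperators
open Pool.Agent.H27.KAC Pool.Agent.H40.KADE

theorem AH9_choose_succ (r : ℚ) (m : ℕ) :
    ((m : ℚ) + 1) * Ring.choose r (m + 1) = Ring.choose r m * (r - m) := by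
  have h := Ring.choose_smul_choose r (n := m + 1) (k := m) (Nat.le_succ m)
  rw [Nat.add_sub_cancel_left, Ring.choose_one_right, Nat.choose_succ_self_right, nsmul_eq_mul] at h
  push_cast at h
  exact h

theorem AH9_wt (P : ℚ) (hP : 0 < P) (m : ℕ) :
    (-1 : ℚ) ^ (m + 1) * Ring.choose (-P) (m + 1) / P = wtq P (m + 1) := by
  induction m with
  | zero =>
    rw [zero_add, Ring.choose_one_right, pow_one, neg_one_mul, neg_neg, div_self hP.ne']
    unfold wtq
    simp
  | succ m ih =>
    have h := AH9_choose_succ (-P) (m + 1)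
    have h1 : wtq P (m + 1 + 1) = wtq P (m + 1) * (P + (m + 1)) / (m + 1 + 1) := by
      unfold wtq
      have e1 : m + 1 + 1 - 1 = m + 1 := rfl
      have e2 : m + 1 - 1 = m := rfl
      rw [e1, e2, Finset.prod_range_succ, Nat.factorial_succ (m + 1)]
      have hf : ((m + 1).factorial : ℚ) ≠ 0 := by exact_mod_cast Nat.factorial_ne_zero _
      have hm : ((m : ℚ) + 1 + 1) ≠ 0 := by positivity
      push_cast
      field_simp
      ring
    rw [h1, ← ih]
    have hm : ((m : ℚ) + 1 + 1) ≠ 0 := by positivity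
    have hPn : P ≠ 0 := hP.ne'
    have h2 : Ring.choose (-P) (m + 1 + 1) = Ring.choose (-P) (m + 1) * (-P - (m + 1)) / (m + 1 + 1) := by
      rw [eq_div_iff hm]
      push_cast at h
      linarith
    rw [h2, pow_succ (-1 : ℚ) (m + 1)]
    field_simp
    ring


section
variable {I : Type} [Fintype I] [DecidableEq I]

theorem AH9_one (a : I → I → ℕ) (hs : ∀ i j, a i j = a j i) (k : ℕ) (hk : 1 ≤ k) (P : ℚ)
    (hP : 0 < P) (T : Trm I) (x : I) (c : QE I) :
    TV a ((T.mulE (-(P • dd x k))).col x (sy x (k + 1) + c)) =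
      ∑ m ∈ Finset.Icc (0 : ℤ) ⌊T.γ x / k⌋, wtq P m.toNat *
        TV a ((T.eta a k (Pi.single x (m : ℚ))).col x
          (sclq P m • ((2 : ℚ) • sy x k - sy x (k - 1) + c) + (m : ℚ) • cE a x k)) := by
  have hk0 : (0 : ℚ) < k := by exact_mod_cast hk
  rw [TV_expPD a hs T x x k hk P hP.ne' c ⌊T.γ x⌋₊ le_rfl]
  -- termwise
  have h1 : ∀ m : ℕ, (-1 : ℚ) ^ m * Ring.choose (-P) m / P *
        TV a ((T.eta a k (Pi.single x (m : ℚ))).col x
          (P • ((2 : ℚ) • sy x k - sy x (k - 1) + c) + (m : ℚ) • cE a x k)) =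
      wtq P m * TV a ((T.eta a k (Pi.single x (m : ℚ))).col x
          (sclq P m • ((2 : ℚ) • sy x k - sy x (k - 1) + c) + (m : ℚ) • cE a x k)) := by
    intro m
    rcases m with _ | m
    · have e1 : (P • ((2 : ℚ) • sy x k - sy x (k - 1) + c) + ((0 : ℕ) : ℚ) • cE a x k) =
          P • ((2 : ℚ) • sy x k - sy x (k - 1) + c) := by
        rw [Nat.cast_zero, zero_smul, add_zero]
      have e2 : (sclq P ((0 : ℕ) : ℚ) • ((2 : ℚ) • sy x k - sy x (k - 1) + c) +
          ((0 : ℕ) : ℚ) • cE a x k) = ((2 : ℚ) • sy x k - sy x (k - 1) + c) := by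
        unfold sclq
        rw [Nat.cast_zero, if_pos rfl, zero_smul, add_zero, one_smul]
      rw [e1, e2, TV_col_smul, Ring.choose_zero_right]
      have e3 : wtq P 0 = 1 := by unfold wtq; simp
      rw [e3]
      field_simp
    · rw [AH9_wt P hP m]
      unfold sclq
      rw [if_neg (by positivity)]
  rw [Finset.sum_congr rfl (fun m _ => h1 m)]
  -- the terms with k m > γ vanish
  have h2 : ∀ m : ℕ, T.γ x < k * m → TV a ((T.eta a k (Pi.single x (m : ℚ))).col x
          (sclq P m • ((2 : ℚ) • sy x k - sy x (k - 1) + c) + (m : ℚ) • cE a x k)) = 0 := by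
    intro m hm
    apply TV_neg a _ x
    show T.γ x - k * (Pi.single x (m : ℚ) : I → ℚ) x < 0
    rw [Pi.single_eq_same]
    linarith
  by_cases hg : T.γ x < 0
  · rw [Finset.Icc_eq_empty, Finset.sum_empty]
    · apply Finset.sum_eq_zero
      intro m _
      rw [h2 m, mul_zero]
      have : (0 : ℚ) ≤ k * m := by positivity
      linarith
    · intro h
      have h3 : (0 : ℚ) ≤ T.γ x / k := by
        have := Int.floor_nonneg.1 h
        exact this
      have h4 : T.γ x / k < 0 := div_neg_of_neg_of_pos hg hk0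
      linarith
  · rw [not_lt] at hg
    symm
    have h5 : 0 ≤ T.γ x / k := div_nonneg hg hk0.le
    have h6 : ∑ m ∈ Finset.Icc (0 : ℤ) ⌊T.γ x / k⌋, wtq P m.toNat *
        TV a ((T.eta a k (Pi.single x (m : ℚ))).col x
          (sclq P m • ((2 : ℚ) • sy x k - sy x (k - 1) + c) + (m : ℚ) • cE a x k)) =
        ∑ m ∈ Finset.range (⌊T.γ x / k⌋₊ + 1), wtq P m *
        TV a ((T.eta a k (Pi.single x (m : ℚ))).col x
          (sclq P m • ((2 : ℚ) • sy x k - sy x (k - 1) + c) + (m : ℚ) • cE a x k)) := by
      symm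
      refine Finset.sum_bij (fun m _ => (m : ℤ)) ?_ ?_ ?_ ?_
      · intro m hm
        rw [Finset.mem_range] at hm
        rw [Finset.mem_Icc]
        refine ⟨by positivity, ?_⟩
        rw [← Int.natCast_floor_eq_floor h5]
        exact_mod_cast Nat.lt_succ_iff.1 hm
      · intro m _ m' _ h
        exact_mod_cast h
      · intro m hm
        rw [Finset.mem_Icc, ← Int.natCast_floor_eq_floor h5] at hm
        refine ⟨m.toNat, ?_, ?_⟩
        · rw [Finset.mem_range]
          omega
        · exact Int.toNat_of_nonneg hm.1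
      · intro m _
        simp
    rw [h6]
    apply Finset.sum_subset
    · intro m hm
      rw [Finset.mem_range] at hm ⊢
      have : ⌊T.γ x / k⌋₊ ≤ ⌊T.γ x⌋₊ := by
        apply Nat.floor_mono
        rw [div_le_iff₀ hk0]
        have : (1 : ℚ) ≤ k := by exact_mod_cast hk
        nlinarith
      omega
    · intro m _ hm
      rw [Finset.mem_range, not_lt, Nat.succ_le_iff, Nat.floor_lt h5, div_lt_iff₀ hk0] at hm
      rw [h2 m (by linarith), mul_zero]


/-- the term with all vertices of `V` unexpanded. -/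
noncomputable def AH9_full (k : ℕ) (P : I → ℚ) (c : I → QE I) (V : Finset I) (B : Trm I) : Trm I :=
  ⟨B.γ, B.E - ∑ i ∈ V, P i • dd i k, fun j => if j ∈ V then sy j (k + 1) + c j else B.Λ j⟩

/-- the term with all vertices of `V` expanded. -/
noncomputable def AH9_part (a : I → I → ℕ) (k : ℕ) (P : I → ℚ) (c : I → QE I) (V : Finset I)
    (B : Trm I) (n : I → ℤ) : Trm I :=
  ⟨fun i => B.γ i - if i ∈ V then (k : ℚ) * n i else 0, B.E - ∑ i ∈ V, (n i : ℚ) • cE a i k,
    fun j => if j ∈ V then sclq (P j) (n j) • ((2 : ℚ) • sy j k - sy j (k - 1) + c j) +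
      (n j : ℚ) • cE a j k else B.Λ j⟩

/-- the box. -/
noncomputable def AH9_box (V : Finset I) (k : ℕ) (γ : I → ℚ) : Finset (I → ℤ) :=
  Fintype.piFinset (fun i => if i ∈ V then Finset.Icc 0 ⌊γ i / k⌋ else {0})

theorem AH9_box_congr (V : Finset I) (k : ℕ) (γ γ' : I → ℚ) (h : ∀ i ∈ V, γ i = γ' i) :
    AH9_box V k γ = AH9_box V k γ' := by
  unfold AH9_box
  congr 1
  funext i
  by_cases hi : i ∈ V
  · rw [if_pos hi, if_pos hi, h i hi]
  · rw [if_neg hi, if_neg hi]

theorem AH9_box_insert (V : Finset I) (x : I) (hx : x ∉ V) (k : ℕ) (γ : I → ℚ)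
    (F : (I → ℤ) → ℚ) : ∑ n ∈ AH9_box (insert x V) k γ, F n =
      ∑ m ∈ Finset.Icc (0 : ℤ) ⌊γ x / k⌋, ∑ n ∈ AH9_box V k γ, F (Function.update n x m) := by
  rw [← Finset.sum_product']
  symm
  refine Finset.sum_bij' (fun p _ => Function.update p.2 x p.1)
    (fun n _ => (n x, Function.update n x 0)) ?_ ?_ ?_ ?_ ?_
  · rintro ⟨m, n⟩ hp
    rw [Finset.mem_product] at hp
    unfold AH9_box at hp ⊢
    rw [Fintype.mem_piFinset] at hp ⊢
    intro i
    by_cases hi : i = x
    · subst hi
      rw [Function.update_self, if_pos (Finset.mem_insert_self _ _)]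
      exact hp.1
    · rw [Function.update_of_ne hi]
      have h2 := hp.2 i
      by_cases hV : i ∈ V
      · rw [if_pos hV] at h2
        rw [if_pos (Finset.mem_insert_of_mem hV)]
        exact h2
      · rw [if_neg hV] at h2
        rw [if_neg (fun h => (Finset.mem_insert.1 h).elim hi hV)]
        exact h2
  · intro n hn
    unfold AH9_box at hn ⊢
    rw [Fintype.mem_piFinset] at hn
    rw [Finset.mem_product, Fintype.mem_piFinset]
    refine ⟨?_, fun i => ?_⟩
    · have h := hn x
      rw [if_pos (Finset.mem_insert_self _ _)] at h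
      exact h
    · by_cases hi : i = x
      · subst hi
        show Function.update n i 0 i ∈ _
        rw [Function.update_self, if_neg hx]
        exact Finset.mem_singleton_self _
      · show Function.update n x 0 i ∈ _
        rw [Function.update_of_ne hi]
        have h2 := hn i
        by_cases hV : i ∈ V
        · rw [if_pos (Finset.mem_insert_of_mem hV)] at h2
          rw [if_pos hV]
          exact h2
        · rw [if_neg (fun h => (Finset.mem_insert.1 h).elim hi hV)] at h2
          rw [if_neg hV]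
          exact h2
  · rintro ⟨m, n⟩ hp
    rw [Finset.mem_product] at hp
    unfold AH9_box at hp
    rw [Fintype.mem_piFinset] at hp
    have h := hp.2 x
    rw [if_neg hx, Finset.mem_singleton] at h
    refine Prod.ext ?_ ?_
    · show Function.update n x m x = m
      rw [Function.update_self]
    · show Function.update (Function.update n x m) x 0 = n
      rw [Function.update_idem]
      funext i
      by_cases hi : i = x
      · subst hi
        rw [Function.update_self]
        exact h.symm
      · rw [Function.update_of_ne hi]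
  · intro n hn
    show Function.update (Function.update n x 0) x (n x) = n
    rw [Function.update_idem, Function.update_eq_self]
  · intro p _
    rfl

theorem AH9_TV (a : I → I → ℕ) (hs : ∀ i j, a i j = a j i) (k : ℕ) (hk : 1 ≤ k) (P : I → ℚ)
    (c : I → QE I) (V : Finset I) : ∀ (_ : ∀ i ∈ V, 0 < P i) (B : Trm I),
    TV a (AH9_full k P c V B) = ∑ n ∈ AH9_box V k B.γ,
      (∏ j ∈ V, wtq (P j) (n j).toNat) * TV a (AH9_part a k P c V B n) := by
  induction V using Finset.induction_on with
  | empty =>
    intro _ B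
    have h1 : AH9_box (∅ : Finset I) k B.γ = {fun _ => 0} := by
      ext n
      unfold AH9_box
      rw [Fintype.mem_piFinset, Finset.mem_singleton]
      constructor
      · intro h
        funext i
        have := h i
        rw [if_neg (Finset.notMem_empty i), Finset.mem_singleton] at this
        exact this
      · rintro rfl i
        rw [if_neg (Finset.notMem_empty i)]
        exact Finset.mem_singleton_self _
    rw [h1, Finset.sum_singleton, Finset.prod_empty, one_mul]
    have h2 : AH9_full k P c ∅ B = B := by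
      refine Trm.ext rfl ?_ ?_
      · show B.E - ∑ i ∈ (∅ : Finset I), P i • dd i k = B.E
        rw [Finset.sum_empty, sub_zero]
      · funext j
        simp [AH9_full]
    have h3 : AH9_part a k P c ∅ B (fun _ => 0) = B := by
      refine Trm.ext ?_ ?_ ?_
      · funext i
        show B.γ i - (if i ∈ (∅ : Finset I) then _ else 0) = B.γ i
        rw [if_neg (Finset.notMem_empty i), sub_zero]
      · show B.E - ∑ i ∈ (∅ : Finset I), _ = B.E
        rw [Finset.sum_empty, sub_zero]
      · funext j
        simp [AH9_part]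
    rw [h2, h3]
  | insert x V hx ih =>
    intro hP B
    have hPV : ∀ i ∈ V, 0 < P i := fun i hi => hP i (Finset.mem_insert_of_mem hi)
    have hne : ∀ i ∈ V, i ≠ x := by
      intro i hi h
      rw [h] at hi
      exact hx hi
    have h1 : AH9_full k P c (insert x V) B =
        ((AH9_full k P c V B).mulE (-(P x • dd x k))).col x (sy x (k + 1) + c x) := by
      refine Trm.ext rfl ?_ ?_
      · show B.E - ∑ i ∈ insert x V, P i • dd i k =
          (B.E - ∑ i ∈ V, P i • dd i k) + -(P x • dd x k)
        rw [Finset.sum_insert hx]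
        abel
      · funext j
        show (if j ∈ insert x V then sy j (k + 1) + c j else B.Λ j) =
          Function.update (fun j => if j ∈ V then sy j (k + 1) + c j else B.Λ j) x
            (sy x (k + 1) + c x) j
        by_cases hj : j = x
        · subst hj
          rw [Function.update_self, if_pos (Finset.mem_insert_self _ _)]
        · rw [Function.update_of_ne hj]
          by_cases hV : j ∈ V
          · rw [if_pos hV, if_pos (Finset.mem_insert_of_mem hV)]
          · rw [if_neg hV, if_neg (fun h => (Finset.mem_insert.1 h).elim hj hV)]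
    rw [h1, AH9_one a hs k hk (P x) (hP x (Finset.mem_insert_self _ _)) _ x (c x),
      AH9_box_insert V x hx k B.γ]
    refine Finset.sum_congr rfl fun m _ => ?_
    -- the base term after the expansion of `x`
    obtain ⟨B', hB'⟩ : ∃ B' : Trm I, B' = (B.eta a k (Pi.single x (m : ℚ))).col x
      (sclq (P x) m • ((2 : ℚ) • sy x k - sy x (k - 1) + c x) + (m : ℚ) • cE a x k) := ⟨_, rfl⟩
    have h2 : ((AH9_full k P c V B).eta a k (Pi.single x (m : ℚ))).col x
        (sclq (P x) m • ((2 : ℚ) • sy x k - sy x (k - 1) + c x) + (m : ℚ) • cE a x k) =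
        AH9_full k P c V B' := by
      rw [hB']
      refine Trm.ext rfl ?_ ?_
      · show (B.E - ∑ i ∈ V, P i • dd i k) - ∑ i, (Pi.single x (m : ℚ) : I → ℚ) i • cE a i k =
          (B.E - ∑ i, (Pi.single x (m : ℚ) : I → ℚ) i • cE a i k) - ∑ i ∈ V, P i • dd i k
        abel
      · funext j
        show Function.update (fun j => if j ∈ V then sy j (k + 1) + c j else B.Λ j) x _ j =
          if j ∈ V then sy j (k + 1) + c j else Function.update B.Λ x _ j
        by_cases hj : j = x
        · subst hj
          rw [Function.update_self, if_neg hx, Function.update_self]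
        · rw [Function.update_of_ne hj, Function.update_of_ne hj]
    rw [h2, ih hPV B']
    have h3 : AH9_box V k B'.γ = AH9_box V k B.γ := by
      apply AH9_box_congr
      intro i hi
      rw [hB']
      show B.γ i - k * (Pi.single x (m : ℚ) : I → ℚ) i = B.γ i
      rw [Pi.single_eq_of_ne (hne i hi), mul_zero, sub_zero]
    rw [h3, Finset.mul_sum]
    refine Finset.sum_congr rfl fun n _ => ?_
    rw [← mul_assoc, Finset.prod_insert hx, Function.update_self]
    have h4 : ∏ j ∈ V, wtq (P j) (Function.update n x m j).toNat =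
        ∏ j ∈ V, wtq (P j) (n j).toNat := by
      refine Finset.prod_congr rfl fun j hj => ?_
      rw [Function.update_of_ne (hne j hj)]
    rw [h4]
    congr 1
    congr 1
    rw [hB']
    refine Trm.ext ?_ ?_ ?_
    · funext i
      show (B.γ i - k * (Pi.single x (m : ℚ) : I → ℚ) i) - (if i ∈ V then (k : ℚ) * n i else 0) =
        B.γ i - if i ∈ insert x V then (k : ℚ) * (Function.update n x m i : ℤ) else 0
      by_cases hi : i = x
      · subst hi
        rw [Pi.single_eq_same, if_neg hx, if_pos (Finset.mem_insert_self _ _),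
          Function.update_self, sub_zero]
      · rw [Pi.single_eq_of_ne hi, mul_zero, sub_zero, Function.update_of_ne hi]
        by_cases hV : i ∈ V
        · rw [if_pos hV, if_pos (Finset.mem_insert_of_mem hV)]
        · rw [if_neg hV, if_neg (fun h => (Finset.mem_insert.1 h).elim hi hV)]
    · show (B.E - ∑ i, (Pi.single x (m : ℚ) : I → ℚ) i • cE a i k) -
          ∑ i ∈ V, (n i : ℚ) • cE a i k =
        B.E - ∑ i ∈ insert x V, ((Function.update n x m i : ℤ) : ℚ) • cE a i k
      rw [Finset.sum_insert hx, Function.update_self]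
      have e1 : ∑ i, (Pi.single x (m : ℚ) : I → ℚ) i • cE a i k = (m : ℚ) • cE a x k := by
        rw [Finset.sum_eq_single x]
        · rw [Pi.single_eq_same]
        · intro i _ hi
          rw [Pi.single_eq_of_ne hi, zero_smul]
        · intro h
          exact absurd (Finset.mem_univ x) h
      have e2 : ∑ i ∈ V, ((Function.update n x m i : ℤ) : ℚ) • cE a i k =
          ∑ i ∈ V, (n i : ℚ) • cE a i k := by
        refine Finset.sum_congr rfl fun i hi => ?_
        rw [Function.update_of_ne (hne i hi)]
      rw [e1, e2]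
      abel
    · funext j
      show (if j ∈ V then sclq (P j) (n j) • ((2 : ℚ) • sy j k - sy j (k - 1) + c j) +
          (n j : ℚ) • cE a j k else Function.update B.Λ x _ j) =
        if j ∈ insert x V then sclq (P j) ((Function.update n x m j : ℤ) : ℚ) •
          ((2 : ℚ) • sy j k - sy j (k - 1) + c j) + ((Function.update n x m j : ℤ) : ℚ) • cE a j k
          else B.Λ j
      by_cases hj : j = x
      · subst hj
        rw [if_neg hx, Function.update_self, if_pos (Finset.mem_insert_self _ _),
          Function.update_self]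
      · rw [Function.update_of_ne hj, Function.update_of_ne hj]
        by_cases hV : j ∈ V
        · rw [if_pos hV, if_pos (Finset.mem_insert_of_mem hV)]
        · rw [if_neg hV, if_neg (fun h => (Finset.mem_insert.1 h).elim hj hV)]


theorem AH9_patT_full (a : I → I → ℕ) (k : ℕ) (P : I → ℚ) (c : I → QE I) (V D : Finset I)
    (hD : Disjoint D V) (π : Pat I) (B : Trm I) :
    patT a D π (AH9_full k P c V B) = AH9_full k P c V (patT a D π B) := by
  refine Trm.ext rfl ?_ ?_
  · show (B.E - ∑ i ∈ V, P i • dd i k) - ∑ x, _ • cE a x (π.s x) =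
      (B.E - ∑ x, _ • cE a x (π.s x)) - ∑ i ∈ V, P i • dd i k
    abel
  · funext j
    show (if j ∈ D then sy j (π.s j + 1) else if j ∈ V then sy j (k + 1) + c j else B.Λ j) =
      if j ∈ V then sy j (k + 1) + c j else if j ∈ D then sy j (π.s j + 1) else B.Λ j
    by_cases hj : j ∈ D
    · have hjV : j ∉ V := Finset.disjoint_left.1 hD hj
      rw [if_pos hj, if_neg hjV, if_pos hj]
    · rw [if_neg hj, if_neg hj]

theorem AH9_patT_part (a : I → I → ℕ) (k : ℕ) (P : I → ℚ) (c : I → QE I) (V D : Finset I)
    (hD : Disjoint D V) (π : Pat I) (B : Trm I) (n : I → ℤ) :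
    patT a D π (AH9_part a k P c V B n) = AH9_part a k P c V (patT a D π B) n := by
  refine Trm.ext ?_ ?_ ?_
  · funext i
    show (B.γ i - (if i ∈ V then (k : ℚ) * n i else 0)) - (π.s i : ℚ) * -resQ D π.q i =
      (B.γ i - (π.s i : ℚ) * -resQ D π.q i) - if i ∈ V then (k : ℚ) * n i else 0
    ring
  · show (B.E - ∑ i ∈ V, (n i : ℚ) • cE a i k) - ∑ x, _ • cE a x (π.s x) =
      (B.E - ∑ x, _ • cE a x (π.s x)) - ∑ i ∈ V, (n i : ℚ) • cE a i k
    abel
  · funext j
    show (if j ∈ D then sy j (π.s j + 1) else if j ∈ V then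
        sclq (P j) (n j) • ((2 : ℚ) • sy j k - sy j (k - 1) + c j) + (n j : ℚ) • cE a j k
        else B.Λ j) =
      if j ∈ V then
        sclq (P j) (n j) • ((2 : ℚ) • sy j k - sy j (k - 1) + c j) + (n j : ℚ) • cE a j k
      else if j ∈ D then sy j (π.s j + 1) else B.Λ j
    by_cases hj : j ∈ D
    · have hjV : j ∉ V := Finset.disjoint_left.1 hD hj
      rw [if_pos hj, if_neg hjV, if_pos hj]
    · rw [if_neg hj, if_neg hj]

theorem AH9_list_sum {ι κ : Type} (l : List ι) (s : Finset κ) (f : ι → κ → ℚ) :
    (l.map (fun c => ∑ n ∈ s, f c n)).sum = ∑ n ∈ s, (l.map (fun c => f c n)).sum := by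
  induction l with
  | nil => simp
  | cons c l ih =>
    rw [List.map_cons, List.sum_cons, ih, ← Finset.sum_add_distrib]
    refine Finset.sum_congr rfl fun n _ => ?_
    rw [List.map_cons, List.sum_cons]

theorem AH9_evU (a : I → I → ℕ) (hs : ∀ i j, a i j = a j i) (k : ℕ) (hk : 1 ≤ k) (P : I → ℚ)
    (c : I → QE I) (V : Finset I) (hP : ∀ i ∈ V, 0 < P i) (U : List (Finset I × FFn I)) :
    ∀ (_ : ∀ b ∈ U, Disjoint b.1 V) (B : Trm I),
    evU a U (AH9_full k P c V B) = ∑ n ∈ AH9_box V k B.γ,
      (∏ j ∈ V, wtq (P j) (n j).toNat) * evU a U (AH9_part a k P c V B n) := by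
  induction U with
  | nil =>
    intro _ B
    exact AH9_TV a hs k hk P c V hP B
  | cons b U ih =>
    intro hU B
    have hb : Disjoint b.1 V := hU b List.mem_cons_self
    have hU' : ∀ d ∈ U, Disjoint d.1 V := fun d hd => hU d (List.mem_cons_of_mem _ hd)
    rw [evU_cons_def]
    have h1 : ∀ d : ℚ × Pat I, d.1 * evU a U (patT a b.1 d.2 (AH9_full k P c V B)) =
        ∑ n ∈ AH9_box V k B.γ, (∏ j ∈ V, wtq (P j) (n j).toNat) *
          (d.1 * evU a U (patT a b.1 d.2 (AH9_part a k P c V B n))) := by
      intro d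
      rw [AH9_patT_full a k P c V b.1 hb d.2 B, ih hU' (patT a b.1 d.2 B)]
      have h2 : AH9_box V k (patT a b.1 d.2 B).γ = AH9_box V k B.γ := by
        apply AH9_box_congr
        intro i hi
        show B.γ i - (d.2.s i : ℚ) * -resQ b.1 d.2.q i = B.γ i
        have hib : i ∉ b.1 := fun h => Finset.disjoint_left.1 hb h hi
        unfold resQ
        rw [if_neg hib]
        ring
      rw [h2, Finset.mul_sum]
      refine Finset.sum_congr rfl fun n _ => ?_
      rw [AH9_patT_part a k P c V b.1 hb d.2 B n]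
      ring
    rw [List.map_congr_left (fun d _ => h1 d), AH9_list_sum]
    refine Finset.sum_congr rfl fun n _ => ?_
    rw [evU_cons_def, GDef_mul_sum]

/-- the box of the regular vertices. -/
noncomputable def nbox (W : Finset I) (k : ℕ) (γ : I → ℚ) : Finset (I → ℤ) :=
  Fintype.piFinset (fun i => if i ∈ W then {0} else Finset.Icc 0 ⌊γ i / k⌋)

/-- the term after the expansion of the regular vertices. -/
noncomputable def regT (a : I → I → ℕ) (k : ℕ) (γ P p : I → ℚ) (H : I → I → ℚ) (W : Finset I)
    (n : I → ℤ) : Trm I :=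
  ⟨fun i => γ i - k * n i,
    ∑ i, ((-(2 * P i - p i)) • sy i k + P i • sy i (k - 1)) - ∑ i, (n i : ℚ) • cE a i k,
    fun j => if j ∈ W then 0 else
      sclq (P j) (n j) • ((2 : ℚ) • sy j k - sy j (k - 1) - ∑ l ∈ Finset.univ \ W, H l j • sy l k) +
        (n j : ℚ) • cE a j k⟩

/-- expansion of the regular vertices. -/
theorem reg_expand (a : I → I → ℕ) (hs : ∀ i j, a i j = a j i) (k : ℕ) (hk : 1 ≤ k)
    (γ P p : I → ℚ) (H : I → I → ℚ) (W : Finset I) (hP : ∀ i, i ∉ W → 0 < P i)
    (hP0 : ∀ i ∈ W, P i = 0) (U : List (Finset I × FFn I)) (hU : ∀ b ∈ U, b.1 ⊆ W) :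
    evU a U (stTrm (k + 1) γ P p idm H W) =
      ∑ n ∈ nbox W k γ, stw W P n * evU a U (regT a k γ P p H W n) := by
  have hbox : nbox W k γ = AH9_box (Finset.univ \ W) k γ := by
    unfold nbox AH9_box
    congr 1
    funext i
    by_cases hi : i ∈ W
    · rw [if_pos hi, if_neg (fun h => (Finset.mem_sdiff.1 h).2 hi)]
    · rw [if_neg hi, if_pos (Finset.mem_sdiff.2 ⟨Finset.mem_univ i, hi⟩)]
  obtain ⟨B, hB⟩ : ∃ B : Trm I, B = ⟨γ, ∑ i, ((-(2 * P i - p i)) • sy i k + P i • sy i (k - 1)),
    fun _ => 0⟩ := ⟨_, rfl⟩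
  have hfull : stTrm (k + 1) γ P p idm H W =
      AH9_full k P (fun j => -∑ l ∈ Finset.univ \ W, H l j • sy l k) (Finset.univ \ W) B := by
    rw [hB]
    refine Trm.ext rfl ?_ ?_
    · show ∑ i, ((-P i) • sy i (k + 1) + (p i) • sy i (k + 1 - 1)) =
        ∑ i, ((-(2 * P i - p i)) • sy i k + P i • sy i (k - 1)) -
          ∑ i ∈ Finset.univ \ W, P i • dd i k
      have h1 : ∑ i ∈ Finset.univ \ W, P i • (dd i k : QE I) = ∑ i, P i • dd i k := by
        apply Finset.sum_subset (Finset.subset_univ _)
        intro i _ hi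
        have hiW : i ∈ W := by
          by_contra h
          exact hi (Finset.mem_sdiff.2 ⟨Finset.mem_univ i, h⟩)
        rw [hP0 i hiW, zero_smul]
      rw [h1, ← Finset.sum_sub_distrib]
      refine Finset.sum_congr rfl fun i _ => ?_
      unfold dd
      rw [Nat.add_sub_cancel]
      module
    · funext j
      show (if j ∈ W then 0 else ∑ l ∈ Finset.univ \ W,
        (idm l j • sy l (k + 1) - H l j • sy l (k + 1 - 1))) =
        if j ∈ Finset.univ \ W then sy j (k + 1) + -∑ l ∈ Finset.univ \ W, H l j • sy l k else 0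
      by_cases hj : j ∈ W
      · rw [if_pos hj, if_neg (fun h => (Finset.mem_sdiff.1 h).2 hj)]
      · have hj' : j ∈ Finset.univ \ W := Finset.mem_sdiff.2 ⟨Finset.mem_univ j, hj⟩
        rw [if_neg hj, if_pos hj', Finset.sum_sub_distrib, Nat.add_sub_cancel]
        have h2 : ∑ l ∈ Finset.univ \ W, idm l j • (sy l (k + 1) : QE I) = sy j (k + 1) := by
          rw [Finset.sum_eq_single j]
          · unfold idm
            rw [if_pos rfl, one_smul]
          · intro l _ hl
            unfold idm
            rw [if_neg hl, zero_smul]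
          · intro h
            exact absurd hj' h
        rw [h2, sub_eq_add_neg]
  have hd : ∀ b ∈ U, Disjoint b.1 (Finset.univ \ W) := by
    intro b hb
    rw [Finset.disjoint_left]
    intro x hx hx'
    exact (Finset.mem_sdiff.1 hx').2 (hU b hb hx)
  rw [hfull, AH9_evU a hs k hk P _ (Finset.univ \ W)
    (fun i hi => hP i (Finset.mem_sdiff.1 hi).2) U hd B, hbox]
  have hBγ : B.γ = γ := by rw [hB]
  rw [hBγ]
  refine Finset.sum_congr rfl fun n hn => ?_
  unfold stw
  congr 1
  congr 1
  have hn0 : ∀ i ∈ W, n i = 0 := by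
    intro i hi
    unfold AH9_box at hn
    rw [Fintype.mem_piFinset] at hn
    have h := hn i
    rw [if_neg (fun h => (Finset.mem_sdiff.1 h).2 hi), Finset.mem_singleton] at h
    exact h
  rw [hB]
  refine Trm.ext ?_ ?_ ?_
  · funext i
    show γ i - (if i ∈ Finset.univ \ W then (k : ℚ) * n i else 0) = γ i - k * n i
    by_cases hi : i ∈ W
    · rw [if_neg (fun h => (Finset.mem_sdiff.1 h).2 hi), hn0 i hi, Int.cast_zero, mul_zero]
    · rw [if_pos (Finset.mem_sdiff.2 ⟨Finset.mem_univ i, hi⟩)]
  · show (∑ i, ((-(2 * P i - p i)) • sy i k + P i • sy i (k - 1))) -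
        ∑ i ∈ Finset.univ \ W, (n i : ℚ) • cE a i k =
      (∑ i, ((-(2 * P i - p i)) • sy i k + P i • sy i (k - 1))) - ∑ i, (n i : ℚ) • cE a i k
    congr 1
    apply Finset.sum_subset (Finset.subset_univ _)
    intro i _ hi
    have hiW : i ∈ W := by
      by_contra h
      exact hi (Finset.mem_sdiff.2 ⟨Finset.mem_univ i, h⟩)
    rw [hn0 i hiW, Int.cast_zero, zero_smul]
  · funext j
    show (if j ∈ Finset.univ \ W then sclq (P j) (n j) • ((2 : ℚ) • sy j k - sy j (k - 1) +
        -∑ l ∈ Finset.univ \ W, H l j • sy l k) + (n j : ℚ) • cE a j k else 0) =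
      if j ∈ W then 0 else sclq (P j) (n j) • ((2 : ℚ) • sy j k - sy j (k - 1) -
        ∑ l ∈ Finset.univ \ W, H l j • sy l k) + (n j : ℚ) • cE a j k
    by_cases hj : j ∈ W
    · rw [if_pos hj, if_neg (fun h => (Finset.mem_sdiff.1 h).2 hj)]
    · rw [if_neg hj, if_pos (Finset.mem_sdiff.2 ⟨Finset.mem_univ j, hj⟩), ← sub_eq_add_neg]

theorem regT_E (a : I → I → ℕ) (hs : ∀ i j, a i j = a j i) (k : ℕ) (γ P p : I → ℚ)
    (H : I → I → ℚ) (W : Finset I) (hP0 : ∀ i ∈ W, P i = 0) (hp0 : ∀ i ∈ W, p i = 0)
    (n : I → ℤ) (x : I) (hx : x ∈ W) (l : ℕ) :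
    (regT a k γ P p H W n).E (x, l) = if l = k then -cv a (fun i => (n i : ℚ)) x else 0 := by
  show (∑ i, ((-(2 * P i - p i)) • sy i k + P i • sy i (k - 1)) -
    ∑ i, (n i : ℚ) • cE a i k : QE I) (x, l) = _
  rw [Finsupp.sub_apply, Finsupp.finsetSum_apply, Finsupp.finsetSum_apply]
  have h1 : ∑ i, ((-(2 * P i - p i)) • sy i k + P i • sy i (k - 1) : QE I) (x, l) = 0 := by
    apply Finset.sum_eq_zero
    intro i _
    rw [Finsupp.add_apply, Finsupp.smul_apply, Finsupp.smul_apply]
    by_cases hi : i = x
    · subst hi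
      rw [hP0 i hx, hp0 i hx]
      simp
    · have e1 : ∀ l', (sy i l' : QE I) (x, l) = 0 := by
        intro l'
        apply Finsupp.single_eq_of_ne
        intro h
        exact hi (Prod.ext_iff.1 h).1.symm
      rw [e1, e1, smul_zero, smul_zero, add_zero]
  rw [h1]
  by_cases hl : l = k
  · rw [if_pos hl]
    have h2 : ∑ i, ((n i : ℚ) • cE a i k : QE I) (x, l) = cv a (fun i => (n i : ℚ)) x := by
      unfold cv
      refine Finset.sum_congr rfl fun i _ => ?_
      rw [Finsupp.smul_apply, cE_apply, if_pos hl, smul_eq_mul, mul_comm]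
      congr 1
      unfold cart
      by_cases h : i = x
      · subst h
        rfl
      · rw [if_neg h, if_neg (fun h' => h h'.symm), hs i x]
    rw [h2, zero_sub]
  · rw [if_neg hl]
    have h2 : ∑ i, ((n i : ℚ) • cE a i k : QE I) (x, l) = 0 := by
      apply Finset.sum_eq_zero
      intro i _
      rw [Finsupp.smul_apply, cE_apply, if_neg hl, smul_zero]
    rw [h2, sub_zero]

theorem regT_RReg (a : I → I → ℕ) (hs : ∀ i j, a i j = a j i) (k : ℕ) (γ P p : I → ℚ)
    (H : I → I → ℚ) (W : Finset I) (hP0 : ∀ i ∈ W, P i = 0) (hp0 : ∀ i ∈ W, p i = 0)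
    (hH : ∀ l i, l ∈ W ∨ i ∈ W → H l i = 0) (n : I → ℤ) (hn : n ∈ nbox W k γ) :
    RReg W (regT a k γ P p H W n) := by
  have hn0 : ∀ i ∈ W, n i = 0 := by
    intro i hi
    unfold nbox at hn
    rw [Fintype.mem_piFinset] at hn
    have h := hn i
    rw [if_pos hi, Finset.mem_singleton] at h
    exact h
  have hnn : ∀ i, 0 ≤ n i := by
    intro i
    by_cases hi : i ∈ W
    · rw [hn0 i hi]
    · unfold nbox at hn
      rw [Fintype.mem_piFinset] at hn
      have h := hn i
      rw [if_neg hi, Finset.mem_Icc] at h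
      exact h.1
  have hcv : ∀ x ∈ W, -cv a (fun i => (n i : ℚ)) x = ∑ j, (a x j : ℚ) * n j := by
    intro x hx
    unfold cv
    rw [← Finset.sum_neg_distrib]
    refine Finset.sum_congr rfl fun j _ => ?_
    by_cases hj : x = j
    · subst hj
      simp [hn0 x hx]
    · unfold cart
      rw [if_neg hj]
      push_cast
      ring
  constructor
  · intro x hx l _
    rw [regT_E a hs k γ P p H W hP0 hp0 n x hx l]
    by_cases hl : l = k
    · rw [if_pos hl, hcv x hx]
      refine ⟨∑ j, a x j * (n j).toNat, ?_⟩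
      push_cast
      refine Finset.sum_congr rfl fun j _ => ?_
      congr 1
      have := Int.toNat_of_nonneg (hnn j)
      exact_mod_cast this.symm
    · rw [if_neg hl]
      exact ⟨0, by simp⟩
  · intro x hx j hj l hl hne
    have hxj : x ≠ j := fun h => hj (h ▸ hx)
    have h1 : (regT a k γ P p H W n).Λ j (x, l) = (n j : ℚ) * cE a j k (x, l) := by
      show (if j ∈ W then 0 else sclq (P j) (n j) • ((2 : ℚ) • sy j k - sy j (k - 1) -
        ∑ l ∈ Finset.univ \ W, H l j • sy l k) + (n j : ℚ) • cE a j k : QE I) (x, l) = _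
      rw [if_neg hj, Finsupp.add_apply, Finsupp.smul_apply, Finsupp.smul_apply,
        Finsupp.sub_apply, Finsupp.sub_apply, Finsupp.smul_apply, Finsupp.finsetSum_apply]
      have e1 : ∀ l', (sy j l' : QE I) (x, l) = 0 := by
        intro l'
        apply Finsupp.single_eq_of_ne
        intro h
        exact hxj (Prod.ext_iff.1 h).1
      have e2 : ∑ i ∈ Finset.univ \ W, (H i j • sy i k : QE I) (x, l) = 0 := by
        apply Finset.sum_eq_zero
        intro i hi
        have hix : i ≠ x := by
          intro h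
          rw [h] at hi
          exact (Finset.mem_sdiff.1 hi).2 hx
        rw [Finsupp.smul_apply, Finsupp.single_eq_of_ne, smul_zero]
        intro h
        exact hix (Prod.ext_iff.1 h).1.symm
      rw [e1, e1, e2]
      simp
    rw [h1, cE_apply] at hne
    by_cases hlk : l = k
    · rw [if_pos hlk] at hne
      rw [regT_E a hs k γ P p H W hP0 hp0 n x hx l, if_pos hlk, hcv x hx]
      have h2 : n j ≠ 0 := by
        intro h
        rw [h] at hne
        simp at hne
      have h3 : a j x ≠ 0 := by
        intro h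
        apply hne
        unfold cart
        rw [if_neg (fun h' => hxj h'.symm), h]
        simp
      have h4 : (1 : ℚ) ≤ (a x j : ℚ) * n j := by
        have e1 : (1 : ℤ) ≤ n j := by
          have := hnn j
          omega
        have e2 : 1 ≤ a x j := by
          rw [hs x j]
          omega
        have e3 : (1 : ℚ) ≤ n j := by exact_mod_cast e1
        have e4 : (1 : ℚ) ≤ a x j := by exact_mod_cast e2
        nlinarith
      refine le_trans h4 ?_
      exact Finset.single_le_sum (f := fun j => (a x j : ℚ) * n j)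
        (fun i _ => mul_nonneg (by positivity) (by exact_mod_cast hnn i)) (Finset.mem_univ j)
    · rw [if_neg hlk, mul_zero] at hne
      exact absurd rfl hne

end

end Pool.Agent.H46.AH
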