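import Pool.Agent.H46.AH.AH13
import Pool.Agent.H46.AH.AH9

/-!
KAC ADE, module AH14: the field `step` of `ClusterVal`.

PROOF.  `reg_expand` (AH9), then `step_all` (AH13) for `T = regT a k γ P p H W n0`, `n0 ∈ nbox W k γ` (`regT_RReg`, `regT_E`:
`ν_x = -(C n0)_x`).  `boxS (W \ S) k γ q` is the product of `nbox` and `rbox S` (`n = n0 + n1`); `mhat a (W \ S) q n = n0 + μ`,
`μ = shv a W S q ν n1` (`ext`, `sol_eq_solN`, uniqueness); the term is literally the term of the new state (`st_term`); `tw`,
`neww` only see the values of `m` on `W`; `stQ` and `q + μ` agree on `W \ S`: `evU_RF`, `cn_congrZ`.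
-/

set_option autoImplicit false

namespace Pool.Agent.H46.AH

open scoped BigOperators
open Pool.Agent.H27.KAC Pool.Agent.H40.KADE

section

variable {I : Type} [Fintype I] [DecidableEq I]

/-- the shift vector of the engine. -/
theorem mhat_eq (a : I → I → ℕ) (hs : ∀ i j, a i j = a j i) (W S : Finset I) (hW : FinT a W)
    (hS : S ⊆ W) (q : I → ℚ) (hq0 : ∀ i, i ∉ W → q i = 0) (n0 n1 : I → ℤ)
    (h0 : ∀ i ∈ W, n0 i = 0) (h1 : ∀ i, i ∉ S → n1 i = 0) (i : I) :
    mhat a (W \ S) q (fun i => n0 i + n1 i) i =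
      n0 i + shv a W S q (fun x => -cv a (fun i => (n0 i : ℚ)) x) n1 i := by
  have hFT : FT a (W \ S) := FinT_FT a hs (hW.mono Finset.sdiff_subset)
  unfold mhat
  refine (ext_unique a hFT (fun i => ((n0 i + n1 i : ℤ) : ℚ) - q i)
    (fun i => (n0 i : ℚ) + shv a W S q (fun x => -cv a (fun i => (n0 i : ℚ)) x) n1 i)
    (fun x hx => ?_) (fun x hx => ?_) i).symm
  · beta_reduce
    by_cases hxW : x ∈ W
    · have hxS : x ∈ S := by
        by_contra h'
        exact hx (Finset.mem_sdiff.2 ⟨hxW, h'⟩)
      rw [shv_S a W S q _ n1 x hxS, h0 x hxW]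
      push_cast
      ring
    · rw [shv_off a W S hS q _ n1 x hxW, h1 x (fun h' => hxW (hS h')), hq0 x hxW]
      push_cast
      ring
  · rw [cv_add, cv_eq_cqN a W (shv a W S q (fun x => -cv a (fun i => (n0 i : ℚ)) x) n1)
      (fun y hy => shv_off a W S hS q _ n1 y hy), shv_eq a hs W S hW hS q _ n1 x hx,
      add_neg_cancel]

theorem AH14_sum_cE (a : I → I → ℕ) (hs : ∀ i j, a i j = a j i) (k : ℕ) (m : I → ℚ) :
    ∑ x, m x • cE a x k = ∑ j, cv a m j • (sy j k : QE I) := by
  unfold cE cv
  have h1 : ∀ x, m x • ∑ j, ((cart a x j : ℤ) : ℚ) • (sy j k : QE I) =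
      ∑ j, (((cart a j x : ℤ) : ℚ) * m x) • (sy j k : QE I) := by
    intro x
    rw [Finset.smul_sum]
    refine Finset.sum_congr rfl fun j _ => ?_
    rw [smul_smul, cart_symm a hs x j, mul_comm]
  rw [Finset.sum_congr rfl fun x _ => h1 x, Finset.sum_comm]
  refine Finset.sum_congr rfl fun j _ => ?_
  rw [Finset.sum_smul]

/-- the term of the new state. -/
theorem st_term (a : I → I → ℕ) (hs : ∀ i j, a i j = a j i) (k : ℕ) (γ P p : I → ℚ)
    (H : I → I → ℚ) (W S : Finset I) (hW : FinT a W) (hS : S ⊆ W) (hP0 : ∀ i ∈ W, P i = 0)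
    (hp0 : ∀ i ∈ W, p i = 0) (hH : ∀ l i, l ∈ W ∨ i ∈ W → H l i = 0) (n0 : I → ℤ)
    (h0 : ∀ i ∈ W, n0 i = 0) (μ m : I → ℚ) (hμ : ∀ i, i ∉ W → μ i = 0)
    (hm : ∀ i, m i = n0 i + μ i) :
    elT a (W \ S) k (rsT a S k μ (regT a k γ P p H W n0)) =
      stTrm k (stG k γ m) (stP a P p m) P (stM a W (W \ S) P H m) (stN W P m) (W \ S) := by
  have hK : FinT a (W \ S) := hW.mono Finset.sdiff_subset
  refine Trm.ext ?_ ?_ ?_
  · funext i
    show γ i - (k : ℚ) * (n0 i : ℚ) - (k : ℚ) * μ i = γ i - (k : ℚ) * m i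
    rw [hm i]
    ring
  · show ∑ i, ((-(2 * P i - p i)) • (sy i k : QE I) + P i • sy i (k - 1)) -
      ∑ i, (n0 i : ℚ) • cE a i k - (∑ x, μ x • cE a x k) =
      ∑ i, ((-(stP a P p m i)) • (sy i k : QE I) + (P i) • sy i (k - 1))
    have h1 : ∑ i, (n0 i : ℚ) • cE a i k + ∑ x, μ x • cE a x k =
        ∑ j, cv a m j • (sy j k : QE I) := by
      rw [← AH14_sum_cE a hs, ← Finset.sum_add_distrib]
      refine Finset.sum_congr rfl fun x _ => ?_
      rw [← add_smul, hm x]
    rw [sub_sub, h1, ← Finset.sum_sub_distrib]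
    refine Finset.sum_congr rfl fun i _ => ?_
    unfold stP
    rw [show -(2 * P i - p i + cv a m i) = -(2 * P i - p i) - cv a m i by ring, sub_smul]
    abel
  · funext j
    show (if j ∈ W \ S then 0 else elC a (W \ S) k
      (if j ∈ S then cE a j k else (if j ∈ W then 0 else
        sclq (P j) (n0 j) • ((2 : ℚ) • sy j k - sy j (k - 1) -
          ∑ l ∈ Finset.univ \ W, H l j • sy l k) + (n0 j : ℚ) • cE a j k))) =
      if j ∈ W \ S then 0 else ∑ l ∈ Finset.univ \ (W \ S),
        (stM a W (W \ S) P H m l j • sy l k - stN W P m l j • sy l (k - 1))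
    by_cases hj : j ∈ W \ S
    · rw [if_pos hj, if_pos hj]
    · rw [if_neg hj, if_neg hj]
      by_cases hjS : j ∈ S
      · rw [if_pos hjS, elC_cE a hs (W \ S) hK k j hj]
        refine Finset.sum_congr rfl fun l _ => ?_
        unfold Pool.Agent.H40.KADE.stM stN
        rw [if_pos (hS hjS), if_neg (fun h => h.2 (hS hjS)), zero_smul, sub_zero]
      · rw [if_neg hjS]
        have hjW : j ∉ W := fun h => hj (Finset.mem_sdiff.2 ⟨h, hjS⟩)
        have hmj : m j = n0 j := by rw [hm j, hμ j hjW, add_zero]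
        rw [if_neg hjW, elC_add a hs _ hK, elC_smul a hs _ hK, elC_smul a hs _ hK,
          elC_cE a hs (W \ S) hK k j hj]
        have h2 : elC a (W \ S) k ((2 : ℚ) • sy j k - sy j (k - 1) -
            ∑ l ∈ Finset.univ \ W, H l j • sy l k) = (2 : ℚ) • sy j k - sy j (k - 1) -
            ∑ l ∈ Finset.univ \ W, H l j • sy l k := by
          have e1 : (2 : ℚ) • (sy j k : QE I) - sy j (k - 1) -
              ∑ l ∈ Finset.univ \ W, H l j • sy l k = ((2 : ℚ) • (sy j k : QE I) +
                (-1 : ℚ) • sy j (k - 1)) + ∑ l ∈ Finset.univ \ W, (-H l j) • sy l k := by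
            rw [neg_smul, one_smul, ← sub_eq_add_neg, sub_eq_add_neg ((2 : ℚ) • _ - _),
              ← Finset.sum_neg_distrib]
            congr 1
            exact Finset.sum_congr rfl fun l _ => (neg_smul _ _).symm
          rw [e1, elC_add a hs _ hK, elC_add a hs _ hK, elC_smul a hs _ hK, elC_smul a hs _ hK,
            elC_sy a hs _ hK k j hj, elC_sy a hs _ hK k j hj, elC_sum a hs _ hK]
          congr 1
          refine Finset.sum_congr rfl fun l hl => ?_
          rw [elC_smul a hs _ hK, elC_sy a hs _ hK k l (fun h =>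
            (Finset.mem_sdiff.1 hl).2 (Finset.mem_sdiff.1 h).1)]
        rw [h2]
        have h3 : ∀ l, stM a W (W \ S) P H m l j • (sy l k : QE I) -
            stN W P m l j • sy l (k - 1) =
            sclq (P j) (n0 j) • ((if l = j then (2 : ℚ) else 0) • (sy l k : QE I) -
              (if l = j then (1 : ℚ) else 0) • sy l (k - 1) - H l j • sy l k) +
              (n0 j : ℚ) • (effC a (W \ S) l j • sy l k) := by
          intro l
          unfold Pool.Agent.H40.KADE.stM stN
          rw [if_neg hjW, hmj]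
          by_cases hlj : l = j
          · rw [if_pos hlj, if_pos ⟨hlj, hjW⟩, if_pos hlj, add_smul, mul_smul, mul_smul, one_smul,
              sub_smul, smul_sub, smul_sub, smul_sub]
            abel
          · rw [if_neg hlj, if_neg (fun h => hlj h.1), if_neg hlj, add_smul, mul_smul, mul_smul,
              sub_smul, smul_sub]
            simp only [zero_smul, sub_zero, zero_sub, smul_zero, smul_neg]
        rw [Finset.sum_congr rfl fun l _ => h3 l, Finset.sum_add_distrib, ← Finset.smul_sum,
          ← Finset.smul_sum, Finset.sum_sub_distrib, Finset.sum_sub_distrib]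
        congr 2
        have hju : j ∈ Finset.univ \ (W \ S) := Finset.mem_sdiff.2 ⟨Finset.mem_univ j, hj⟩
        congr 1
        · congr 1
          · rw [Finset.sum_eq_single_of_mem j hju (fun l _ hl => by
              rw [if_neg hl, zero_smul]), if_pos rfl]
          · rw [Finset.sum_eq_single_of_mem j hju (fun l _ hl => by
              rw [if_neg hl, zero_smul]), if_pos rfl, one_smul]
        · refine Finset.sum_subset ?_ ?_
          · intro l hl
            rw [Finset.mem_sdiff] at hl ⊢
            exact ⟨hl.1, fun h => hl.2 (Finset.mem_sdiff.1 h).1⟩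
          · intro l hl hl'
            have hlW : l ∈ W := by
              by_contra h
              exact hl' (Finset.mem_sdiff.2 ⟨Finset.mem_univ l, h⟩)
            rw [hH l j (Or.inl hlW), zero_smul]

open Classical in
/-- sums over the box of the engine. -/
theorem sum_boxS (W S : Finset I) (hS : S ⊆ W) (k : ℕ) (γ q : I → ℚ) (hq0 : ∀ i, i ∉ W → q i = 0)
    (f : (I → ℤ) → ℚ) :
    ∑ n ∈ boxS (W \ S) k γ q, f n =
      ∑ n0 ∈ nbox W k γ, ∑ n1 ∈ rbox S k γ q, f (fun i => n0 i + n1 i) := by
  have m1 : ∀ n : I → ℤ, n ∈ boxS (W \ S) k γ q ↔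
      (∀ i, i ∈ W \ S → n i = 0) ∧ ∀ i, i ∉ W \ S → n i ∈ Finset.Icc ⌈q i⌉ ⌊γ i / k + q i⌋ := by
    intro n
    unfold boxS
    rw [Fintype.mem_piFinset]
    constructor
    · intro h
      refine ⟨fun i hi => ?_, fun i hi => ?_⟩
      · have := h i
        rw [if_pos hi, Finset.mem_singleton] at this
        exact this
      · have := h i
        rw [if_neg hi] at this
        exact this
    · intro h i
      by_cases hi : i ∈ W \ S
      · rw [if_pos hi, Finset.mem_singleton]
        exact h.1 i hi
      · rw [if_neg hi]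
        exact h.2 i hi
  have m2 : ∀ n : I → ℤ, n ∈ nbox W k γ ↔
      (∀ i, i ∈ W → n i = 0) ∧ ∀ i, i ∉ W → n i ∈ Finset.Icc 0 ⌊γ i / k⌋ := by
    intro n
    unfold nbox
    rw [Fintype.mem_piFinset]
    constructor
    · intro h
      refine ⟨fun i hi => ?_, fun i hi => ?_⟩
      · have := h i
        rw [if_pos hi, Finset.mem_singleton] at this
        exact this
      · have := h i
        rw [if_neg hi] at this
        exact this
    · intro h i
      by_cases hi : i ∈ W
      · rw [if_pos hi, Finset.mem_singleton]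
        exact h.1 i hi
      · rw [if_neg hi]
        exact h.2 i hi
  have m3 : ∀ n : I → ℤ, n ∈ rbox S k γ q ↔
      (∀ i, i ∈ S → n i ∈ Finset.Icc ⌈q i⌉ ⌊γ i / k + q i⌋) ∧ ∀ i, i ∉ S → n i = 0 := by
    intro n
    unfold rbox
    rw [Fintype.mem_piFinset]
    constructor
    · intro h
      refine ⟨fun i hi => ?_, fun i hi => ?_⟩
      · have := h i
        rw [if_pos hi] at this
        exact this
      · have := h i
        rw [if_neg hi, Finset.mem_singleton] at this
        exact this
    · intro h i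
      by_cases hi : i ∈ S
      · rw [if_pos hi]
        exact h.1 i hi
      · rw [if_neg hi, Finset.mem_singleton]
        exact h.2 i hi
  have hq' : ∀ i, i ∉ W → Finset.Icc ⌈q i⌉ ⌊γ i / k + q i⌋ = Finset.Icc 0 ⌊γ i / k⌋ := by
    intro i hi
    rw [hq0 i hi, Int.ceil_zero, add_zero]
  rw [← Finset.sum_product']
  symm
  refine Finset.sum_bij' (fun z _ => fun i => z.1 i + z.2 i)
    (fun n _ => (fun i => if i ∈ W then 0 else n i, fun i => if i ∈ S then n i else 0))
    ?_ ?_ ?_ ?_ ?_
  · intro z hz
    rw [Finset.mem_product, m2, m3] at hz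
    obtain ⟨⟨h1, h2⟩, h3, h4⟩ := hz
    rw [m1]
    refine ⟨fun i hi => ?_, fun i hi => ?_⟩
    · rw [Finset.mem_sdiff] at hi
      beta_reduce
      rw [h1 i hi.1, h4 i hi.2, add_zero]
    · beta_reduce
      by_cases hiW : i ∈ W
      · have hiS : i ∈ S := by
          by_contra h'
          exact hi (Finset.mem_sdiff.2 ⟨hiW, h'⟩)
        rw [h1 i hiW, zero_add]
        exact h3 i hiS
      · rw [h4 i (fun h' => hiW (hS h')), add_zero, hq' i hiW]
        exact h2 i hiW
  · intro n hn
    rw [m1] at hn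
    rw [Finset.mem_product, m2, m3]
    refine ⟨⟨fun i hi => if_pos hi, fun i hi => ?_⟩, fun i hi => ?_, fun i hi => if_neg hi⟩
    · show (if i ∈ W then 0 else n i) ∈ _
      rw [if_neg hi, ← hq' i hi]
      exact hn.2 i (fun h' => hi (Finset.mem_sdiff.1 h').1)
    · show (if i ∈ S then n i else 0) ∈ _
      rw [if_pos hi]
      exact hn.2 i (fun h' => (Finset.mem_sdiff.1 h').2 hi)
  · intro z hz
    rw [Finset.mem_product, m2, m3] at hz
    obtain ⟨⟨h1, h2⟩, h3, h4⟩ := hz
    have e1 : (fun i => if i ∈ W then 0 else z.1 i + z.2 i) = z.1 := by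
      funext i
      by_cases hi : i ∈ W
      · rw [if_pos hi, h1 i hi]
      · rw [if_neg hi, h4 i (fun h' => hi (hS h')), add_zero]
    have e2 : (fun i => if i ∈ S then z.1 i + z.2 i else 0) = z.2 := by
      funext i
      by_cases hi : i ∈ S
      · rw [if_pos hi, h1 i (hS hi), zero_add]
      · rw [if_neg hi, h4 i hi]
    show ((fun i => if i ∈ W then 0 else z.1 i + z.2 i),
      (fun i => if i ∈ S then z.1 i + z.2 i else 0)) = z
    rw [e1, e2]
  · intro n hn
    rw [m1] at hn
    funext i
    show (if i ∈ W then 0 else n i) + (if i ∈ S then n i else 0) = n i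
    by_cases hi : i ∈ W
    · by_cases hi' : i ∈ S
      · rw [if_pos hi, if_pos hi', zero_add]
      · rw [if_pos hi, if_neg hi', hn.1 i (Finset.mem_sdiff.2 ⟨hi, hi'⟩), zero_add]
    · rw [if_neg hi, if_neg (fun h' => hi (hS h')), add_zero]
  · intro z hz
    rfl

open Classical in
/-- the field `step` of `ClusterVal`. -/
theorem GG_step (a : I → I → ℕ) (hs : ∀ i j, a i j = a j i) (cd : CrossData a)
    (h : RTfam a cd) (fam : Finset I → (I → ℚ) → (ℕ → ℚ) → ℕ → FFn I) (hfam : IsFam a cd fam)
    (k : ℕ) (γ P p : I → ℚ) (H : I → I → ℚ) (W : Finset I) (q : I → ℚ)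
    (w : Finset I → ℕ → ℚ) (hk : 1 ≤ k) (hG : GS a (fun N q g => cn a cd N q g) (k + 1) γ P p W q w)
    (hP : ∀ i, i ∉ W → 0 < P i) (hp : ∀ i, 0 ≤ p i) (hH : ∀ l i, l ∈ W ∨ i ∈ W → H l i = 0) :
    GG a fam (k + 1) γ P p idm H W q w =
      ∑ S ∈ W.powerset, ∑ n ∈ (boxS (W \ S) k γ q).filter
          (fun n => ∀ s ∈ S, 0 < cv a (mhat a (W \ S) q n) s),
        stw W P n * tw a W w k (mhat a (W \ S) q n) *
          GG a fam k (stG k γ (mhat a (W \ S) q n)) (stP a P p (mhat a (W \ S) q n)) P
            (stM a W (W \ S) P H (mhat a (W \ S) q n)) (stN W P (mhat a (W \ S) q n)) (W \ S)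
            (stQ (W \ S) q (mhat a (W \ S) q n))
            (neww (fun N q g => cn a cd N q g) w k (stQ (W \ S) q (mhat a (W \ S) q n))
              (mhat a (W \ S) q n)) := by
  have hW : FinT a W := FT_FinT a hs hG.ft
  have hFT := hG.ft
  have hqZ : ∀ x ∈ W, IsZ (cqN a W q x) := by
    intro x hx
    obtain ⟨z, hz⟩ := hG.int x
    rw [hG.P0 x hx, hG.p0 x hx, cv_eq_cqN a W q hG.q0] at hz
    exact ⟨-z, by push_cast; linarith⟩
  have hw : ∀ A ∈ comps a W, RFex a cd A q (w A) k := by
    intro A hA
    have hA' : A ∈ clusters a W := by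
      rw [clusters_eq_comps a hs]
      exact hA
    refine RFex_of_Adm a hs cd h A (hW.mono (comps_subset hA)) (comps_conn hA) γ q
      (fun x hx => ?_) (w A) k (hG.adm A hA')
    rw [cqN_comp a W A hA q x hx]
    exact hqZ x (comps_subset hA hx)
  have hnb : ∀ n0 ∈ nbox W k γ, ∀ i ∈ W, n0 i = 0 := by
    intro n0 hn i hi
    unfold nbox at hn
    rw [Fintype.mem_piFinset] at hn
    have := hn i
    rw [if_pos hi, Finset.mem_singleton] at this
    exact this
  have hrb : ∀ S ⊆ W, ∀ n1 ∈ rbox S k γ q, ∀ i, i ∉ S → n1 i = 0 := by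
    intro S _ n1 hn i hi
    unfold rbox at hn
    rw [Fintype.mem_piFinset] at hn
    have := hn i
    rw [if_neg hi, Finset.mem_singleton] at this
    exact this
  unfold GG
  rw [reg_expand a hs k hk γ P p H W hP hG.P0 (stBlk a fam (k + 1) W q w)
    (fun b hb => stBlk_sub a fam (k + 1) W q w b hb)]
  have hL : ∀ n0 ∈ nbox W k γ,
      stw W P n0 * evU a (stBlk a fam (k + 1) W q w) (regT a k γ P p H W n0) =
      ∑ S ∈ W.powerset, ∑ n1 ∈ rbox S k γ q,
        if (∀ s ∈ S, 0 < cv a (mhat a (W \ S) q (fun i => n0 i + n1 i)) s) then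
          stw W P (fun i => n0 i + n1 i) *
            tw a W w k (mhat a (W \ S) q (fun i => n0 i + n1 i)) *
            evU a (stBlk a fam k (W \ S) (stQ (W \ S) q (mhat a (W \ S) q (fun i => n0 i + n1 i)))
              (neww (fun N q g => cn a cd N q g) w k
                (stQ (W \ S) q (mhat a (W \ S) q (fun i => n0 i + n1 i)))
                (mhat a (W \ S) q (fun i => n0 i + n1 i))))
              (stTrm k (stG k γ (mhat a (W \ S) q (fun i => n0 i + n1 i)))
                (stP a P p (mhat a (W \ S) q (fun i => n0 i + n1 i))) P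
                (stM a W (W \ S) P H (mhat a (W \ S) q (fun i => n0 i + n1 i)))
                (stN W P (mhat a (W \ S) q (fun i => n0 i + n1 i))) (W \ S))
        else 0 := by
    intro n0 hn0
    have hn0W := hnb n0 hn0
    set T : Trm I := regT a k γ P p H W n0 with hTdef
    have hT : RReg W T := regT_RReg a hs k γ P p H W hG.P0 hG.p0 hH n0 hn0
    have hTE : ∀ x ∈ W, T.E (x, k) = -cv a (fun i => (n0 i : ℚ)) x := by
      intro x hx
      rw [hTdef, regT_E a hs k γ P p H W hG.P0 hG.p0 n0 x hx k, if_pos rfl]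
    have hTγ : ∀ x ∈ W, T.γ x = γ x := by
      intro x hx
      show γ x - (k : ℚ) * (n0 x : ℚ) = γ x
      rw [hn0W x hx]
      push_cast
      ring
    have hν0 : ∀ x ∈ W, 0 ≤ -cv a (fun i => (n0 i : ℚ)) x := by
      intro x hx
      rw [← hTE x hx]
      obtain ⟨z, hz⟩ := hT.nat x hx k hk
      rw [hz]
      exact Nat.cast_nonneg z
    have hνZ : ∀ x ∈ W, IsZ (-cv a (fun i => (n0 i : ℚ)) x) := by
      intro x hx
      rw [← hTE x hx]
      obtain ⟨z, hz⟩ := hT.nat x hx k hk
      exact ⟨z, by rw [hz]; push_cast; rfl⟩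
    have h1 := AH13_all a hs cd h fam hfam k hk q w W hW hqZ hw T hT
    have h2 := AH13_data a hs W hW k q T.γ γ (fun x => T.E (x, k))
      (fun x => -cv a (fun i => (n0 i : ℚ)) x) hTγ hTE
      (fun S μ => tw a W w k μ *
        evU a (stBlk a fam k (W \ S) (fun i => q i + μ i)
          (neww (fun N q g => cn a cd N q g) w k (fun i => q i + μ i) μ))
          (elT a (W \ S) k (rsT a S k μ T)))
    rw [h1.trans h2, Finset.mul_sum]
    refine Finset.sum_congr rfl fun S hS => ?_
    have hSW := Finset.mem_powerset.1 hS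
    rw [Finset.mul_sum, Finset.sum_filter]
    refine Finset.sum_congr rfl fun n1 hn1 => ?_
    have hn1S := hrb S hSW n1 hn1
    have hm : mhat a (W \ S) q (fun i => n0 i + n1 i) = fun i => (n0 i : ℚ) +
        shv a W S q (fun x => -cv a (fun i => (n0 i : ℚ)) x) n1 i := by
      funext i
      exact mhat_eq a hs W S hW hSW q hG.q0 n0 n1 hn0W hn1S i
    have hoff : ∀ i, i ∉ W → shv a W S q (fun x => -cv a (fun i => (n0 i : ℚ)) x) n1 i = 0 :=
      fun i hi => shv_off a W S hSW q _ n1 i hi
    have hcond : (∀ s ∈ S, -cv a (fun i => (n0 i : ℚ)) s <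
          cqN a W (shv a W S q (fun x => -cv a (fun i => (n0 i : ℚ)) x) n1) s) ↔
        ∀ s ∈ S, 0 < cv a (mhat a (W \ S) q (fun i => n0 i + n1 i)) s := by
      have e : ∀ s, cv a (mhat a (W \ S) q (fun i => n0 i + n1 i)) s =
          cv a (fun i => (n0 i : ℚ)) s +
            cqN a W (shv a W S q (fun x => -cv a (fun i => (n0 i : ℚ)) x) n1) s := by
        intro s
        rw [hm, cv_add, cv_eq_cqN a W _ hoff s]
      constructor
      · intro h' s hs'
        rw [e s]
        have := h' s hs'
        linarith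
      · intro h' s hs'
        have := h' s hs'
        rw [e s] at this
        linarith
    by_cases hc : ∀ s ∈ S, -cv a (fun i => (n0 i : ℚ)) s <
          cqN a W (shv a W S q (fun x => -cv a (fun i => (n0 i : ℚ)) x) n1) s
    · rw [if_pos hc, if_pos (hcond.1 hc), mul_assoc]
      have hstw : stw W P (fun i => n0 i + n1 i) = stw W P n0 := by
        unfold stw
        refine Finset.prod_congr rfl fun j hj => ?_
        show wtq (P j) (n0 j + n1 j).toNat = wtq (P j) (n0 j).toNat
        rw [hn1S j (fun h' => (Finset.mem_sdiff.1 hj).2 (hSW h')), add_zero]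
      have htw : tw a W w k (mhat a (W \ S) q (fun i => n0 i + n1 i)) =
          tw a W w k (shv a W S q (fun x => -cv a (fun i => (n0 i : ℚ)) x) n1) := by
        rw [hm]
        unfold tw
        refine Finset.prod_congr rfl fun N hN => ?_
        rw [clusters_eq_comps a hs] at hN
        have h3 : (∀ x ∈ N, (n0 x : ℚ) +
            shv a W S q (fun x => -cv a (fun i => (n0 i : ℚ)) x) n1 x = 0) ↔
            ∀ x ∈ N, shv a W S q (fun x => -cv a (fun i => (n0 i : ℚ)) x) n1 x = 0 := by
          constructor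
          · intro h' x hx
            have := h' x hx
            rw [hn0W x (comps_subset hN hx)] at this
            push_cast at this
            linarith
          · intro h' x hx
            rw [hn0W x (comps_subset hN hx), h' x hx]
            push_cast
            ring
        by_cases h4 : ∀ x ∈ N, shv a W S q (fun x => -cv a (fun i => (n0 i : ℚ)) x) n1 x = 0
        · rw [if_pos (h3.2 h4), if_pos h4]
        · rw [if_neg (fun h' => h4 (h3.1 h')), if_neg h4]
      rw [hstw, htw]
      congr 2
      have hst := st_term a hs k γ P p H W S hW hSW hG.P0 hG.p0 hH n0 hn0W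
        (shv a W S q (fun x => -cv a (fun i => (n0 i : ℚ)) x) n1)
        (mhat a (W \ S) q (fun i => n0 i + n1 i)) hoff (fun i => by rw [hm])
      rw [← hst]
      -- the functionals
      have hregK := rsT_RRegK a hs W S hW hSW k hk q n1 T (Pool.Agent.H46.AH.RReg.toK hT k)
      have hshv : shv a W S q (fun x => T.E (x, k)) n1 =
          shv a W S q (fun x => -cv a (fun i => (n0 i : ℚ)) x) n1 :=
        AH13_shv_congr a hs W S hW q _ _ n1 hTE
      rw [hshv] at hregK
      have hK : FinT a (W \ S) := hW.mono Finset.sdiff_subset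
      have hreg : RReg (W \ S) (elT a (W \ S) k (rsT a S k
          (shv a W S q (fun x => -cv a (fun i => (n0 i : ℚ)) x) n1) T)) :=
        RReg_elT a hs _ hK k _ hregK.1
      have hwt := shv_wt a hs W S hW hSW q (fun x => -cv a (fun i => (n0 i : ℚ)) x) hqZ hνZ n1
      have hnew := AH13_newRF a hs cd h W S hW hSW k q
        (fun x => -cv a (fun i => (n0 i : ℚ)) x) hqZ hν0 hνZ n1 hc w hw
      unfold stBlk
      refine evU_RF (cd := cd) hs hK hwt
        (w := neww (fun N q g => cn a cd N q g) w k
          (fun i => q i + shv a W S q (fun x => -cv a (fun i => (n0 i : ℚ)) x) n1 i)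
          (shv a W S q (fun x => -cv a (fun i => (n0 i : ℚ)) x) n1)) (f := k - 1) ?_ ?_ _ hreg
      · intro N hN
        exact hfam N _ _ _ (hnew N hN (k - 1) (Nat.sub_le k 1))
      · intro N hN
        have hNs := comps_subset hN
        have hmN : ∀ x ∈ N, mhat a (W \ S) q (fun i => n0 i + n1 i) x =
            shv a W S q (fun x => -cv a (fun i => (n0 i : ℚ)) x) n1 x := by
          intro x hx
          rw [hm]
          beta_reduce
          rw [hn0W x (Finset.mem_sdiff.1 (hNs hx)).1]
          push_cast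
          ring
        have hqN : ∀ x ∈ N, q x + shv a W S q (fun x => -cv a (fun i => (n0 i : ℚ)) x) n1 x =
            stQ (W \ S) q (mhat a (W \ S) q (fun i => n0 i + n1 i)) x := by
          intro x hx
          unfold stQ
          rw [if_pos (hNs hx), hmN x hx]
        have hnN : ∀ l, neww (fun N q g => cn a cd N q g) w k
            (fun i => q i + shv a W S q (fun x => -cv a (fun i => (n0 i : ℚ)) x) n1 i)
            (shv a W S q (fun x => -cv a (fun i => (n0 i : ℚ)) x) n1) N l =
            neww (fun N q g => cn a cd N q g) w k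
                (stQ (W \ S) q (mhat a (W \ S) q (fun i => n0 i + n1 i)))
                (mhat a (W \ S) q (fun i => n0 i + n1 i)) N l := by
          intro l
          unfold neww
          by_cases h5 : ∀ x ∈ N, shv a W S q (fun x => -cv a (fun i => (n0 i : ℚ)) x) n1 x = 0
          · rw [if_pos h5, if_pos (fun x hx => by rw [hmN x hx]; exact h5 x hx)]
          · rw [if_neg h5, if_neg (fun h' => h5 (fun x hx => by
              rw [← hmN x hx]; exact h' x hx))]
            refine cn_congrZ a cd N _ _ _ fun x hx => ⟨0, ?_⟩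
            rw [hqN x hx]
            push_cast
            ring
        have hex : ∃ Φ : FFn I, IsRF a cd N
            (stQ (W \ S) q (mhat a (W \ S) q (fun i => n0 i + n1 i)))
            (neww (fun N q g => cn a cd N q g) w k
                (stQ (W \ S) q (mhat a (W \ S) q (fun i => n0 i + n1 i)))
                (mhat a (W \ S) q (fun i => n0 i + n1 i)) N) (k - 1) Φ := by
          obtain ⟨Φ, hΦ⟩ := hnew N hN (k - 1) (Nat.sub_le k 1)
          exact ⟨Φ, hΦ.congr (fun x hx => ⟨0, by rw [hqN x hx]; push_cast; ring⟩)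
            (fun l _ => hnN l)⟩
        exact (hfam N _ _ _ hex).congr (fun x hx => ⟨0, by rw [hqN x hx]; push_cast; ring⟩)
          (fun l _ => (hnN l).symm)
    · rw [if_neg hc, if_neg (fun h' => hc (hcond.2 h'))]
  rw [Finset.sum_congr rfl hL, Finset.sum_comm]
  refine Finset.sum_congr rfl fun S hS => ?_
  have hSW := Finset.mem_powerset.1 hS
  rw [Finset.sum_filter, sum_boxS W S hSW k γ q hG.q0]

end

end Pool.Agent.H46.AH
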