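import Pool.Agent.H46.AH.AH0
import Pool.Agent.H40.KADE.Br
import Pool.Agent.H41.KA.AG13
import Pool.Agent.H41.KA.AG14

/-!
KAC ADE, module AH15: the families of the response theorem.
-/

set_option autoImplicit false

namespace Pool.Agent.H46.AH

open scoped BigOperators
open Pool.Agent.H27.KAC Pool.Agent.H40.KADE

section

variable {I : Type} [Fintype I] [DecidableEq I]

theorem AH15_symm {p q : ℚ} (h : IsZ (p - q)) : IsZ (q - p) := by
  obtain ⟨n, hn⟩ := h
  exact ⟨-n, by push_cast; linarith⟩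

theorem AH15_add {p q r : ℚ} (h : IsZ (p - q)) (h' : IsZ (q - r)) : IsZ (p - r) := by
  obtain ⟨n, hn⟩ := h
  obtain ⟨m, hm⟩ := h'
  exact ⟨n + m, by push_cast; linarith⟩

/-- from a response family to a functional which represents. -/
theorem IsRF_of_Resp (a : I → I → ℕ) (hs : ∀ i j, a i j = a j i) (cd : CrossData a)
    (A : Finset I) (hA : FinT a A) (hc : ConnS a A) (q q₀ : I → ℚ) (hq : QOk a A q)
    (h0 : ∀ x ∈ A, IsZ (q x - q₀ x)) (K : ℕ) (w : ℕ → ℚ) (Φ : ℕ → FFn I)
    (hr : Resp a cd A q K w Φ) (f : ℕ) (hf : f ≤ K) : IsRF a cd A q₀ w f (Φ f) where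
  win := fun c hc' => by
    obtain ⟨h1, h2, h3, h4, h5, h6⟩ := hr.win f hf c hc'
    exact ⟨h1, h2, h3, h4, h5, fun x hx => AH15_add (h6 x hx) (h0 x hx)⟩
  val := fun q' hq' T hT => by
    have h1 := Resp.change_class a hs cd A hA hc q q' hq hq'.1 (fun x hx =>
      AH15_add (h0 x hx) (AH15_symm (hq'.2 x hx))) K w Φ hr
    exact h1.val f hf T hT
  knk := fun h1f q' hq' T hT hk => by
    have h1 := Resp.change_class a hs cd A hA hc q q' hq hq'.1 (fun x hx =>
      AH15_add (h0 x hx) (AH15_symm (hq'.2 x hx))) K w Φ hr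
    exact h1.knk f h1f hf T hT hk

theorem AH15_zero (x : ℚ) : IsZ (x - x) := ⟨0, by push_cast; ring⟩

/-- the families of the response theorem. -/
theorem rtfam_of (a : I → I → ℕ) (hs : ∀ i j, a i j = a j i) (cd : CrossData a) : RTfam a cd where
  tau := fun A hA hc q hq L f hf => by
    obtain ⟨Φ, h1, -⟩ := TauFam_all a hs cd A hA hc q hq L
    exact ⟨Φ f, IsRF_of_Resp a hs cd A hA hc q q hq (fun x _ => AH15_zero _) L _ Φ h1 f hf⟩
  tauL := fun A hA hc q hq L => by
    obtain ⟨Φ, h1, h2⟩ := TauFam_all a hs cd A hA hc q hq L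
    rw [← h2]
    exact IsRF_of_Resp a hs cd A hA hc q q hq (fun x _ => AH15_zero _) L _ Φ h1 L le_rfl
  top := fun A hA hc f hf => by
    obtain ⟨q', -, h2, h3⟩ := exists_QOk a hs hA (fun _ => 0) (fun x _ => by
      refine ⟨0, ?_⟩
      unfold cqN
      rw [Finset.sum_eq_zero fun j _ => mul_zero _]
      push_cast
      rfl) 1
    have hq' : QOk a A q' := fun x hx => h3 x hx
    obtain ⟨Φ, h4, h5⟩ := TopFam a hs cd A hA hc q' hq' (fun x hx => by
      have := h2 x hx
      rwa [sub_zero] at this) f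
    exact ⟨Φ f, IsRF_of_Resp a hs cd A hA hc q' (fun _ => 0) hq' h2 f _ Φ h4 f le_rfl, h5⟩
  top0 := fun A hA hc f => by
    obtain ⟨q', -, h2, h3⟩ := exists_QOk a hs hA (fun _ => 0) (fun x _ => by
      refine ⟨0, ?_⟩
      unfold cqN
      rw [Finset.sum_eq_zero fun j _ => mul_zero _]
      push_cast
      rfl) 1
    have hq' : QOk a A q' := fun x hx => h3 x hx
    obtain ⟨Φ, h4, h5⟩ := TopFam a hs cd A hA hc q' hq' (fun x hx => by
      have := h2 x hx
      rwa [sub_zero] at this) f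
    exact ⟨Φ f, IsRF_of_Resp a hs cd A hA hc q' (fun _ => 0) hq' h2 f _ Φ h4 f le_rfl⟩

end

end Pool.Agent.H46.AH
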