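import Pool.Agent.H46.AH.AH12
import Pool.Agent.H41.KA.AG6

/-!
KAC ADE, module AH20: killing of joint values by an outer vertex; the field `vanNeg`; the columns of the new walls.

* `blkOf_ok`: block data (AG0) of a cluster: `BlkOk` follows from `IsRF` (`rp_spec`).
* `evU_kill`: `evU_eq_evF` (AG1): for every pattern of the product (`PatWide_prod`, AG6) the value is zero by `TV_kill` (AG5) with
  `V = ∅`, `U = uni ..  = W`; `hI2` of `TV_kill` follows from `cls` and the hypothesis.
* `GG_vanNeg`: `evU_kill` for `z = l`, `f = k - 1`; `RReg W` of `stTrm` is trivial (all exponents on the walls are zero, the columns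
  outside of `W` do not contain symbols of `W`).
* `drop_cols`: replace the columns `x ∈ X` one after the other (`TV_col_add` in every pattern: `evU_col_add'`); the term with
  column `c x` is killed in the direction `x`.
-/

set_option autoImplicit false

namespace Pool.Agent.H46.AH

open scoped BigOperators
open Pool.Agent.H27.KAC Pool.Agent.H40.KADE

section

variable {I : Type} [Fintype I] [DecidableEq I]

private theorem AH20_isZ_add {p q : ℚ} (hp : IsZ p) (hq : IsZ q) : IsZ (p + q) := by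
  obtain ⟨m, rfl⟩ := hp
  obtain ⟨n, rfl⟩ := hq
  exact ⟨m + n, by push_cast; ring⟩

private theorem AH20_isZ_sub {p q : ℚ} (hp : IsZ p) (hq : IsZ q) : IsZ (p - q) := by
  obtain ⟨m, rfl⟩ := hp
  obtain ⟨n, rfl⟩ := hq
  exact ⟨m - n, by push_cast; ring⟩

private theorem AH20_isZ_neg {p : ℚ} (hp : IsZ p) : IsZ (-p) := by
  obtain ⟨m, rfl⟩ := hp
  exact ⟨-m, by push_cast; ring⟩

private theorem AH20_isZ_mul {p q : ℚ} (hp : IsZ p) (hq : IsZ q) : IsZ (p * q) := by
  obtain ⟨m, rfl⟩ := hp
  obtain ⟨n, rfl⟩ := hq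
  exact ⟨m * n, by push_cast; ring⟩

private theorem AH20_isZ_sum {ι : Type} (s : Finset ι) (g : ι → ℚ) (h : ∀ i ∈ s, IsZ (g i)) :
    IsZ (∑ i ∈ s, g i) := by
  refine Finset.sum_induction g IsZ (fun _ _ => AH20_isZ_add) ⟨0, by simp⟩ h

private theorem AH20_isN_zero : IsN (0 : ℚ) := ⟨0, by simp⟩

omit [Fintype I] in
private theorem AH20_sy_ne {i j : I} {k l : ℕ} (h : i ≠ j) : (sy i k : QE I) (j, l) = 0 := by
  rw [Finsupp.single_apply, if_neg]
  intro h1
  exact h (congrArg Prod.fst h1)

omit [Fintype I] in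
private theorem AH20_sy_lev {i j : I} {k l : ℕ} (h : l ≠ k) : (sy i k : QE I) (j, l) = 0 := by
  rw [Finsupp.single_apply, if_neg]
  intro h1
  exact h (congrArg Prod.snd h1).symm

private theorem AH20_pw (a : I → I → ℕ) (hs : ∀ i j, a i j = a j i) (W : Finset I)
    (Φ : Finset I → FFn I) :
    ((comps a W).toList.map (fun A => (A, Φ A))).Pairwise (fun b c => Sep a b.1 c.1) := by
  rw [List.pairwise_map]
  refine List.Nodup.pairwise_of_forall_ne (Finset.nodup_toList _) fun A hA B hB hAB => ?_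
  rw [Finset.mem_toList] at hA hB
  exact ⟨comps_disjoint hs hA hB hAB, comps_nonadj hs hA hB hAB⟩

/-- additivity in one column -/
private theorem AH20_col_add (a : I → I → ℕ) : ∀ (U : List (Finset I × FFn I)) (T : Trm I) (z : I),
    (∀ b ∈ U, z ∉ b.1) → ∀ c c' : QE I,
    evU a U (T.col z (c + c')) = evU a U (T.col z c) + evU a U (T.col z c')
  | [], T, z, _, c, c' => by
    rw [evU_nil, evU_nil, evU_nil, TV_col_add]
  | b :: U, T, z, h, c, c' => by
    have hz : z ∉ b.1 := h b List.mem_cons_self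
    have hU : ∀ b ∈ U, z ∉ b.1 := fun b' hb' => h b' (List.mem_cons_of_mem _ hb')
    rw [evU_cons, evU_cons, evU_cons, ← List.sum_map_add]
    congr 1
    refine List.map_congr_left fun x _ => ?_
    rw [patT_col_comm a b.1 x.2 z hz, patT_col_comm a b.1 x.2 z hz, patT_col_comm a b.1 x.2 z hz,
      AH20_col_add a U _ z hU c c', mul_add]

/-- block data of a cluster. -/
noncomputable def blkOf (a : I → I → ℕ) (q : I → ℚ) (w : Finset I → ℕ → ℚ) (f : ℕ)
    (Φ : Finset I → FFn I) (A : Finset I) : Blk I := ⟨A, Φ A, w A f, rp a A q, false⟩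

theorem blkOf_ok (a : I → I → ℕ) (hs : ∀ i j, a i j = a j i) (cd : CrossData a) (A : Finset I)
    (hA : FinT a A) (hc : ConnS a A) (q : I → ℚ) (hq : ∀ x ∈ A, IsZ (cqN a A q x))
    (w : Finset I → ℕ → ℚ) (f : ℕ) (hf : 1 ≤ f) (Φ : Finset I → FFn I)
    (hΦ : IsRF a cd A q (w A) f (Φ A)) : BlkOk a cd f (blkOf a q w f Φ A) := by
  have hrp := rp_spec a hs A hA q hq
  refine ⟨hA, hc, hrp.1, ?_, ?_, ?_⟩
  · intro c hcΦ
    have hw := hΦ.win c hcΦ
    exact ⟨hw.toPatOk, hw.le, fun N hN x hx => (hw.ge N hN x hx).le⟩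
  · intro c hcΦ x hx
    have hw := hΦ.win c hcΦ
    have h1 := AH20_isZ_sub (hw.cls x hx) (hrp.2 x hx)
    have e : c.2.q x - q x - (rp a A q x - q x) = c.2.q x - rp a A q x := by ring
    rw [e] at h1
    exact h1
  · intro T hT hk
    have h1 := hΦ.knk hf _ hrp T hT hk
    have e1 : (blkOf a q w f Φ A).cf = w A f := by
      show (if false = true then (-1 : ℚ) ^ A.card else 1) * w A f = w A f
      rw [if_neg (by simp), one_mul]
    have e2 : (blkOf a q w f Φ A).sd f = f + 1 := by
      show (if false = true then f - 1 else f + 1) = f + 1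
      rw [if_neg (by simp)]
    rw [e1, e2]
    exact h1

theorem uni_comps (a : I → I → ℕ) (hs : ∀ i j, a i j = a j i) (W : Finset I)
    (Φ : Finset I → FFn I) : uni ((comps a W).toList.map (fun A => (A, Φ A))) = W := by
  ext x
  rw [mem_uni]
  constructor
  · rintro ⟨b, hb, hx⟩
    obtain ⟨A, hA, rfl⟩ := List.mem_map.1 hb
    exact comps_subset (Finset.mem_toList.1 hA) hx
  · intro hx
    obtain ⟨A, hA, hxA⟩ := comps_cover hs x hx
    exact ⟨(A, Φ A), List.mem_map.2 ⟨A, Finset.mem_toList.2 hA, rfl⟩, hxA⟩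

theorem evU_kill (a : I → I → ℕ) (hs : ∀ i j, a i j = a j i) (cd : CrossData a) (f : ℕ)
    (hf : 1 ≤ f) (W : Finset I) (hW : FinT a W) (q : I → ℚ) (hq : ∀ x ∈ W, IsZ (cqN a W q x))
    (w : Finset I → ℕ → ℚ) (Φ : Finset I → FFn I)
    (hΦ : ∀ A ∈ comps a W, IsRF a cd A q (w A) f (Φ A)) (T : Trm I) (hT : RReg W T) (z : I)
    (hz : z ∉ W) (hzz : a z z = 0) (hN : ∀ l, 1 ≤ l → l ≠ f → l ≠ f + 1 → IsN (T.E (z, l)))
    (h0 : 0 ≤ T.E (z, f + 1))
    (hI2 : IsZ (T.E (z, f) + T.E (z, f + 1) - ∑ x ∈ W, (a z x : ℚ) * q x))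
    (hcol : ∀ j, j ∉ W → ∀ l, 1 ≤ l → T.Λ j (z, l) ≠ 0 → l = f ∨ 0 < T.E (z, l))
    (h1 : 0 < T.E (z, f)) :
    evU a ((comps a W).toList.map (fun A => (A, Φ A))) T = 0 := by
  have hpw := AH20_pw a hs W Φ
  have hdis : ((comps a W).toList.map (fun A => (A, Φ A))).Pairwise
      (fun b c => Disjoint b.1 c.1) := hpw.imp fun h => h.1
  rw [evU_eq_evF a _ hdis]
  unfold evF
  refine List.sum_eq_zero fun y hy => ?_
  obtain ⟨c, hc, rfl⟩ := List.mem_map.1 hy
  have hwide : PatWide a cd (uni ((comps a W).toList.map (fun A => (A, Φ A)))) f c.2 := by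
    refine PatWide_prodF a hs cd f _ hpw ?_ c hc
    intro b hb d hd
    obtain ⟨A, hA, rfl⟩ := List.mem_map.1 hb
    have hw := (hΦ A (Finset.mem_toList.1 hA)).win d hd
    exact ⟨hw.toPatOk, hw.le, fun N hN x hx => (hw.ge N hN x hx).le⟩
  have hcls : ∀ x ∈ W, IsZ (c.2.q x - q x) := by
    intro x hx
    obtain ⟨A, hA, hxA⟩ := comps_cover hs x hx
    obtain ⟨d, hd, hdx⟩ := prodF_mem _ hdis c hc (A, Φ A)
      (List.mem_map.2 ⟨A, Finset.mem_toList.2 hA, rfl⟩)
    rw [(hdx x hxA).2]
    exact ((hΦ A hA).win d hd).cls x hxA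
  rw [uni_comps a hs W Φ] at hwide ⊢
  have hV : FinT a (∅ : Finset I) := FinT.empty a
  have hsep : Sep a W (∅ : Finset I) := ⟨Finset.disjoint_empty_right _, fun x _ y hy => by simp at hy⟩
  rw [TV_kill a hs cd f hf W ∅ hW hV hsep c.2 hwide (fun _ => f + 1) (fun v hv => by simp at hv) T hT
    (fun v hv => by simp at hv) z hz (by simp) hzz hN h0 ?_ hcol ?_, mul_zero]
  · have h2 : IsZ (∑ x ∈ W, (a z x : ℚ) * (c.2.q x - q x)) :=
      AH20_isZ_sum _ _ fun x hx => AH20_isZ_mul ⟨(a z x : ℤ), by push_cast; ring⟩ (hcls x hx)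
    have h3 := AH20_isZ_sub hI2 h2
    have e : T.E (z, f) + T.E (z, f + 1) - ∑ x ∈ W, (a z x : ℚ) * q x -
        ∑ x ∈ W, (a z x : ℚ) * (c.2.q x - q x) =
        T.E (z, f) + T.E (z, f + 1) - ∑ x ∈ W, (a z x : ℚ) * c.2.q x := by
      have e1 : ∑ x ∈ W, (a z x : ℚ) * (c.2.q x - q x) =
          ∑ x ∈ W, (a z x : ℚ) * c.2.q x - ∑ x ∈ W, (a z x : ℚ) * q x := by
        rw [← Finset.sum_sub_distrib]
        exact Finset.sum_congr rfl fun x _ => by ring
      rw [e1]
      ring
    rw [e] at h3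
    exact h3
  · rw [Finset.sum_empty, add_zero]
    exact h1

theorem stTrm_E (a : I → I → ℕ) (k : ℕ) (hk : 1 ≤ k) (γ P p : I → ℚ) (M N : I → I → ℚ)
    (W : Finset I) (i : I) (l : ℕ) :
    (stTrm k γ P p M N W).E (i, l) =
      (if l = k then -P i else 0) + (if l + 1 = k then p i else 0) := by
  show (stE k P p) (i, l) = _
  unfold stE
  rw [Finsupp.finsetSum_apply, Finset.sum_eq_single i]
  · rw [Finsupp.add_apply, Finsupp.smul_apply, Finsupp.smul_apply, Finsupp.single_apply,
      Finsupp.single_apply]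
    congr 1
    · by_cases h : l = k
      · rw [if_pos (by rw [h]), if_pos h, smul_eq_mul, mul_one]
      · rw [if_neg (fun h1 => h (congrArg Prod.snd h1).symm), if_neg h, smul_zero]
    · by_cases h : l + 1 = k
      · rw [if_pos (by rw [← h]; rfl), if_pos h, smul_eq_mul, mul_one]
      · rw [if_neg (fun h1 => h (by have := (congrArg Prod.snd h1); simp only at this; omega)),
          if_neg h, smul_zero]
  · intro j _ hj
    rw [Finsupp.add_apply, Finsupp.smul_apply, Finsupp.smul_apply, AH20_sy_ne hj, AH20_sy_ne hj,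
      smul_zero, smul_zero, add_zero]
  · intro h
    exact absurd (Finset.mem_univ i) h

/-- the columns of a state contain only symbols of levels `k`, `k - 1` off `W`. -/
private theorem AH20_stCol (k : ℕ) (M N : I → I → ℚ) (W : Finset I) (j i : I) (l : ℕ)
    (h : (stCol k M N W j) (i, l) ≠ 0) : j ∉ W ∧ i ∉ W ∧ (l = k ∨ l = k - 1) := by
  unfold stCol at h
  by_cases hj : j ∈ W
  · rw [if_pos hj] at h
    exact absurd rfl h
  rw [if_neg hj, Finsupp.finsetSum_apply] at h
  refine ⟨hj, ?_⟩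
  by_contra hcon
  apply h
  refine Finset.sum_eq_zero fun x hx => ?_
  have hxW : x ∉ W := (Finset.mem_sdiff.1 hx).2
  rw [Finsupp.sub_apply, Finsupp.smul_apply, Finsupp.smul_apply]
  by_cases hiW : i ∈ W
  · have hne : x ≠ i := fun h => hxW (h ▸ hiW)
    rw [AH20_sy_ne hne, AH20_sy_ne hne, smul_zero, smul_zero, sub_zero]
  · have h1 : l ≠ k := fun h => hcon ⟨hiW, Or.inl h⟩
    have h2 : l ≠ k - 1 := fun h => hcon ⟨hiW, Or.inr h⟩
    rw [AH20_sy_lev h1, AH20_sy_lev h2, smul_zero, smul_zero, sub_zero]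

theorem stTrm_RReg (a : I → I → ℕ) (k : ℕ) (hk : 1 ≤ k) (γ P p : I → ℚ) (M N : I → I → ℚ)
    (W : Finset I) (hP : ∀ x ∈ W, P x = 0) (hp : ∀ x ∈ W, p x = 0) :
    RReg W (stTrm k γ P p M N W) := by
  refine ⟨?_, ?_⟩
  · intro x hx l _
    rw [stTrm_E a k hk γ P p M N W x l, hP x hx, hp x hx]
    have e : (if l = k then -(0 : ℚ) else 0) + (if l + 1 = k then (0 : ℚ) else 0) = 0 := by
      simp
    rw [e]
    exact AH20_isN_zero
  · intro x hx j _ l _ h
    exact absurd hx (AH20_stCol k M N W j x l h).2.1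

/-- the field `vanNeg` of `ClusterVal`. -/
theorem GG_vanNeg (a : I → I → ℕ) (hs : ∀ i j, a i j = a j i) (cd : CrossData a)
    (h : RTfam a cd) (fam : Finset I → (I → ℚ) → (ℕ → ℚ) → ℕ → FFn I) (hfam : IsFam a cd fam)
    (k : ℕ) (γ P p : I → ℚ) (M N : I → I → ℚ) (W : Finset I) (q : I → ℚ)
    (w : Finset I → ℕ → ℚ) (l : I) (hk : 2 ≤ k)
    (hG : GS a (fun N q g => cn a cd N q g) k γ P p W q w) (hp : ∀ i, 0 ≤ p i)
    (hl : l ∉ W) (hll : a l l = 0) (hPl : P l < 0) (hpl : 0 < p l) :
    GG a fam k γ P p M N W q w = 0 := by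
  have hW : FinT a W := FT_FinT a hs hG.ft
  have hE := fun i l => stTrm_E a k (show 1 ≤ k by omega) γ P p M N W i l
  have hcvN : ∀ x, cv a q x = cqN a W q x := fun x => cv_eq_cqN a W q hG.q0 x
  have hqZ : ∀ x ∈ W, IsZ (cqN a W q x) := by
    intro x hx
    obtain ⟨z, hz⟩ := hG.int x
    rw [hG.P0 x hx, hG.p0 x hx, hcvN x] at hz
    exact ⟨-z, by push_cast; linarith⟩
  unfold GG stBlk
  refine evU_kill a hs cd (k - 1) (by omega) W hW q hqZ w
    (fun B => fam B q (w B) (k - 1)) ?_ (stTrm k γ P p M N W)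
    (stTrm_RReg a k (by omega) γ P p M N W hG.P0 hG.p0) l hl hll ?_ ?_ ?_ ?_ ?_
  · intro A hA
    have hAW := comps_subset hA
    have hqA : ∀ x ∈ A, IsZ (cqN a A q x) := by
      intro x hx
      rw [cqN_comp a W A hA q x hx]
      exact hqZ x (hAW hx)
    have hadm := hG.adm A (by rw [clusters_eq_comps a hs]; exact hA)
    exact hfam A q (w A) (k - 1)
      (RFex_of_Adm a hs cd h A (hW.mono hAW) (comps_conn hA) γ q hqA (w A) (k - 1) hadm (k - 1)
        le_rfl)
  · intro l' _ h1 h2
    rw [hE, if_neg (by omega), if_neg (by omega), add_zero]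
    exact AH20_isN_zero
  · rw [hE, if_pos (by omega), if_neg (by omega), add_zero]
    linarith
  · rw [hE, hE, if_neg (by omega), if_pos (by omega), if_pos (by omega), if_neg (by omega)]
    obtain ⟨z, hz⟩ := hG.int l
    have hcl : cv a q l = - ∑ x ∈ W, (a l x : ℚ) * q x := by
      rw [hcvN l]
      unfold cqN
      rw [← Finset.sum_neg_distrib]
      refine Finset.sum_congr rfl fun x hx => ?_
      have hne : l ≠ x := fun h => hl (h ▸ hx)
      unfold cart
      rw [if_neg hne]
      push_cast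
      ring
    rw [hcl] at hz
    refine ⟨-z, ?_⟩
    push_cast
    linarith
  · intro j hj l' _ hΛ
    obtain ⟨-, -, h3⟩ := AH20_stCol k M N W j l l' hΛ
    rcases h3 with h3 | h3
    · right
      rw [hE, if_pos h3, if_neg (by omega), add_zero]
      linarith
    · exact Or.inl h3
  · rw [hE, if_neg (by omega), if_pos (by omega), zero_add]
    exact hpl

/-- the columns of the new walls. -/
theorem drop_cols (a : I → I → ℕ) (hs : ∀ i j, a i j = a j i) (cd : CrossData a) (f : ℕ)
    (hf : 1 ≤ f) (W : Finset I) (hW : FinT a W) (q : I → ℚ) (hq : ∀ x ∈ W, IsZ (cqN a W q x))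
    (w : Finset I → ℕ → ℚ) (Φ : Finset I → FFn I)
    (hΦ : ∀ A ∈ comps a W, IsRF a cd A q (w A) f (Φ A)) (T : Trm I) (hT : RReg W T)
    (X : Finset I) (hXW : Disjoint W X) (hX0 : ∀ z ∈ X, a z z = 0)
    (hE : ∀ z ∈ X, ∀ l, 1 ≤ l → l ≠ f → T.E (z, l) = 0) (hp : ∀ z ∈ X, 0 < T.E (z, f))
    (hI2 : ∀ z ∈ X, IsZ (T.E (z, f) - ∑ x ∈ W, (a z x : ℚ) * q x)) (c : I → QE I)
    (hc : ∀ x ∈ X, T.Λ x = sy x (f + 1) + c x)
    (hc' : ∀ x ∈ X, ∀ i l, 1 ≤ l → c x (i, l) ≠ 0 → l = f ∧ i ∉ W)
    (hcol : ∀ z ∈ X, ∀ j, j ∉ W → j ∉ X → ∀ l, 1 ≤ l → T.Λ j (z, l) ≠ 0 → l = f) :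
    evU a ((comps a W).toList.map (fun A => (A, Φ A))) T =
      evU a ((comps a W).toList.map (fun A => (A, Φ A))) (T.cols X (fun x => sy x (f + 1))) := by
  have key : ∀ Y : Finset I, Y ⊆ X → evU a ((comps a W).toList.map (fun A => (A, Φ A))) T =
      evU a ((comps a W).toList.map (fun A => (A, Φ A))) (T.cols Y (fun x => sy x (f + 1))) := by
    intro Y
    induction Y using Finset.induction_on with
    | empty =>
      intro _
      have e : T.cols (∅ : Finset I) (fun x => sy x (f + 1)) = T := by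
        refine Trm.ext rfl rfl ?_
        funext i
        show (if i ∈ (∅ : Finset I) then sy i (f + 1) else T.Λ i) = T.Λ i
        rw [if_neg (Finset.notMem_empty i)]
      rw [e]
    | insert z Y hzY ih =>
      intro hYX
      have hzX : z ∈ X := hYX (Finset.mem_insert_self z Y)
      have hYX' : Y ⊆ X := fun y hy => hYX (Finset.mem_insert_of_mem hy)
      have hzW : z ∉ W := fun h => Finset.disjoint_left.1 hXW h hzX
      rw [ih hYX']
      set T' : Trm I := T.cols Y (fun x => sy x (f + 1)) with hT'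
      have hΛ' : ∀ j, T'.Λ j = if j ∈ Y then sy j (f + 1) else T.Λ j := fun j => rfl
      have e1 : T' = T'.col z (sy z (f + 1) + c z) := by
        refine Trm.ext rfl rfl ?_
        funext i
        show T'.Λ i = Function.update T'.Λ z (sy z (f + 1) + c z) i
        by_cases hi : i = z
        · subst hi
          rw [Function.update_self, hΛ', if_neg hzY, hc i hzX]
        · rw [Function.update_of_ne hi]
      have e2 : T.cols (insert z Y) (fun x => sy x (f + 1)) = T'.col z (sy z (f + 1)) := by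
        refine Trm.ext rfl rfl ?_
        funext i
        show (if i ∈ insert z Y then sy i (f + 1) else T.Λ i) =
          Function.update T'.Λ z (sy z (f + 1)) i
        by_cases hi : i = z
        · subst hi
          rw [Function.update_self, if_pos (Finset.mem_insert_self _ _)]
        · rw [Function.update_of_ne hi, hΛ']
          by_cases hiY : i ∈ Y
          · rw [if_pos hiY, if_pos (Finset.mem_insert_of_mem hiY)]
          · rw [if_neg hiY, if_neg (fun h => hiY (Finset.mem_of_mem_insert_of_ne h hi))]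
      have hzU : ∀ b ∈ (comps a W).toList.map (fun A => (A, Φ A)), z ∉ b.1 := by
        intro b hb
        obtain ⟨A, hA, rfl⟩ := List.mem_map.1 hb
        exact fun h => hzW (comps_subset (Finset.mem_toList.1 hA) h)
      have e3 : evU a ((comps a W).toList.map (fun A => (A, Φ A))) T' =
          evU a ((comps a W).toList.map (fun A => (A, Φ A))) (T'.col z (sy z (f + 1))) +
          evU a ((comps a W).toList.map (fun A => (A, Φ A))) (T'.col z (c z)) := by
        rw [← AH20_col_add a _ T' z hzU, ← e1]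
      have hΛ'' : ∀ j, (T'.col z (c z)).Λ j = if j = z then c z else T'.Λ j := by
        intro j
        show Function.update T'.Λ z (c z) j = _
        by_cases hj : j = z
        · subst hj
          rw [Function.update_self, if_pos rfl]
        · rw [Function.update_of_ne hj, if_neg hj]
      have hEz : ∀ x l, (T'.col z (c z)).E (x, l) = T.E (x, l) := fun x l => rfl
      have e4 : evU a ((comps a W).toList.map (fun A => (A, Φ A))) (T'.col z (c z)) = 0 := by
        refine evU_kill a hs cd f hf W hW q hq w Φ hΦ (T'.col z (c z)) ?_ z hzW (hX0 z hzX)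
          ?_ ?_ ?_ ?_ ?_
        · refine ⟨fun x hx l hl => hT.nat x hx l hl, ?_⟩
          intro x hx j hj l hl hne
          rw [hΛ''] at hne
          by_cases hjz : j = z
          · rw [if_pos hjz] at hne
            exact absurd hx (hc' z hzX x l hl hne).2
          · rw [if_neg hjz, hΛ'] at hne
            by_cases hjY : j ∈ Y
            · rw [if_pos hjY] at hne
              have hjx : j ≠ x := fun h => hj (h ▸ hx)
              exact absurd (AH20_sy_ne hjx) hne
            · rw [if_neg hjY] at hne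
              exact hT.col x hx j hj l hl hne
        · intro l hl hlf _
          rw [hEz, hE z hzX l hl hlf]
          exact AH20_isN_zero
        · rw [hEz, hE z hzX (f + 1) (by omega) (by omega)]
        · rw [hEz, hEz, hE z hzX (f + 1) (by omega) (by omega), add_zero]
          exact hI2 z hzX
        · intro j hj l hl hne
          left
          rw [hΛ''] at hne
          by_cases hjz : j = z
          · rw [if_pos hjz] at hne
            exact (hc' z hzX z l hl hne).1
          · rw [if_neg hjz, hΛ'] at hne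
            by_cases hjY : j ∈ Y
            · rw [if_pos hjY] at hne
              exact absurd (AH20_sy_ne hjz) hne
            · rw [if_neg hjY] at hne
              by_cases hjX : j ∈ X
              · rw [hc j hjX, Finsupp.add_apply, AH20_sy_ne hjz, zero_add] at hne
                exact (hc' j hjX z l hl hne).1
              · exact hcol z hzX j hj hjX l hl hne
        · rw [hEz]
          exact hp z hzX
      rw [e3, e4, add_zero, e2]
  exact key X (Finset.Subset.refl X)

end

end Pool.Agent.H46.AH
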