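import Pool.Agent.H41.KA.AG6
import Pool.Agent.H41.KA.AG1b
import Pool.Agent.H46.AH.AH0

/-!
KAC ADE, module AH21: conversion of all blocks which are adjacent to a set `X` of outer vertices with positive effective
exponents (`side = f + 1`).

PROOF.  Induction on `X.card` (`X = ∅`: then `L = []`).  Choose `z ∈ X`; let `L1` be the blocks of `L` which are adjacent to `z`
and `L2` the others (`List.filter`, `evU_perm`).  Evaluate the blocks of `L2` outermost (`evU_cons`, or `evU_eq_evF` for `L2`); on the
terms `patT a (uniB L2) π T` apply `evU_conv` (AG6) to `L1`, `V`, `z`, `σz = f + 1` (the blocks of `L2` are separated from `V`, `L1` and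
not adjacent to `z`, so all hypotheses are inherited); the explicit insertion commutes with the patterns of `L2`
(`expl_patT_comm` or `blkT_patT_comm`).  Then use the induction hypothesis for `X.erase z`, `V ∪ uniB L1`, `L2`, `expl a f L1 T`.
Effective exponents: for `z' ∈ X`, with `V' = V ∪ uniB L1`: `T'.E (z',f) + ∑_{v ∈ V'} a z' v * solN a V' (T'.E (·,f)) v =
T.E (z',f) + ∑_{v ∈ V} a z' v * solN a V (T.E) v + ∑_{b ∈ L1} ∑_{v ∈ b.B} a z' v * solN a b.B (T.E (·,f)) v`
(the insertion `q` contributes `-∑ a z' v q v` to the exponent and `q` to `solN`: `solN_component`, `solN_add`, `solN_cqN`), and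
the last sum is `≥ 0` (`solN_nonneg`, exponents of `RReg` terms are natural).
Integrality: `T'.E (z',f) = T.E (z',f) - ∑_{b ∈ L1} ∑ a z' x q x`.
-/

set_option autoImplicit false

namespace Pool.Agent.H46.AH

open scoped BigOperators
open Pool.Agent.H27.KAC Pool.Agent.H40.KADE

section

variable {I : Type} [Fintype I] [DecidableEq I]

/-! auxiliary facts -/

private theorem isZ_add {x y : ℚ} (hx : IsZ x) (hy : IsZ y) : IsZ (x + y) := by
  obtain ⟨m, rfl⟩ := hx
  obtain ⟨n, rfl⟩ := hy
  exact ⟨m + n, by push_cast; ring⟩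

private theorem isN_isZ {x : ℚ} (hx : IsN x) : IsZ x := by
  obtain ⟨n, rfl⟩ := hx
  exact ⟨n, by push_cast; rfl⟩

private theorem isN_nonneg {x : ℚ} (hx : IsN x) : 0 ≤ x := by
  obtain ⟨n, rfl⟩ := hx
  positivity

private theorem isN_one {x : ℚ} (hx : IsN x) (h : 0 < x) : 1 ≤ x := by
  obtain ⟨n, rfl⟩ := hx
  have : 0 < n := by exact_mod_cast h
  exact_mod_cast this

private theorem cart_ne (a : I → I → ℕ) (hs : ∀ i j, a i j = a j i) {x y : I} (h : x ≠ y) :
    ((cart a x y : ℤ) : ℚ) = -(a y x : ℚ) := by
  unfold cart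
  rw [if_neg h, hs x y]
  push_cast
  ring

private theorem cart_symm (a : I → I → ℕ) (hs : ∀ i j, a i j = a j i) (x y : I) :
    cart a x y = cart a y x := by
  unfold cart
  rw [hs x y]
  by_cases h : x = y
  · rw [if_pos h, if_pos h.symm]
  · rw [if_neg h, if_neg (fun e => h e.symm)]

private theorem disjU {a : I → I → ℕ} {L : List (Blk I)}
    (hd : L.Pairwise (fun b c => Sep a b.B c.B)) :
    (L.map (fun b => (b.B, b.Φ))).Pairwise (fun b c => Disjoint b.1 c.1) :=
  List.pairwise_map.2 (hd.imp (fun h => h.1))

private theorem sep_head {a : I → I → ℕ} {b : Blk I} {L : List (Blk I)}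
    (hd : (b :: L).Pairwise (fun b c => Sep a b.B c.B)) : Sep a b.B (uniB L) := by
  rw [List.pairwise_cons] at hd
  constructor
  · rw [Finset.disjoint_left]
    intro x hx hx'
    obtain ⟨c, hc, hxc⟩ := (mem_uniB L x).1 hx'
    exact (Finset.disjoint_left.1 (hd.1 c hc).1) hx hxc
  · intro x hx y hy
    obtain ⟨c, hc, hyc⟩ := (mem_uniB L y).1 hy
    exact (hd.1 c hc).2 x hx y hyc

private theorem sum_uniB {a : I → I → ℕ} (g : I → ℚ) : ∀ L : List (Blk I),
    L.Pairwise (fun b c => Sep a b.B c.B) →
      ∑ x ∈ uniB L, g x = (L.map (fun b => ∑ x ∈ b.B, g x)).sum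
  | [], _ => by simp [uniB]
  | b :: L, hd => by
    have h1 : uniB (b :: L) = b.B ∪ uniB L := rfl
    rw [h1, Finset.sum_union (sep_head hd).1, List.map_cons, List.sum_cons,
      sum_uniB g L (List.pairwise_cons.1 hd).2]

private theorem uniB_append (L L' : List (Blk I)) : uniB (L ++ L') = uniB L ∪ uniB L' := by
  ext x
  simp only [mem_uniB, Finset.mem_union, List.mem_append]
  constructor
  · rintro ⟨b, hb | hb, hx⟩
    · exact Or.inl ⟨b, hb, hx⟩
    · exact Or.inr ⟨b, hb, hx⟩
  · rintro (⟨b, hb, hx⟩ | ⟨b, hb, hx⟩)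
    · exact ⟨b, Or.inl hb, hx⟩
    · exact ⟨b, Or.inr hb, hx⟩

private theorem uniB_perm {L L' : List (Blk I)} (h : L.Perm L') : uniB L = uniB L' := by
  ext x
  simp only [mem_uniB]
  constructor
  · rintro ⟨b, hb, hx⟩
    exact ⟨b, h.mem_iff.1 hb, hx⟩
  · rintro ⟨b, hb, hx⟩
    exact ⟨b, h.mem_iff.2 hb, hx⟩

private theorem expl_perm (a : I → I → ℕ) (f : ℕ) {L L' : List (Blk I)} (h : L.Perm L') :
    L.Pairwise (fun b c => Disjoint b.B c.B) → ∀ T : Trm I, expl a f L T = expl a f L' T := by
  induction h with
  | nil => intro _ T; rfl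
  | cons b h ih =>
    intro hd T
    rw [expl_cons, expl_cons, ih (List.pairwise_cons.1 hd).2 T]
  | swap b c L =>
    intro hd T
    rw [expl_cons, expl_cons, expl_cons, expl_cons]
    have h1 := (List.pairwise_cons.1 hd).1 b List.mem_cons_self
    exact blkT_comm a c.B b.B h1 f _ f _ c.q b.q _
  | trans h1 h2 ih1 ih2 =>
    intro hd T
    have hd' : _ := (h1.pairwise_iff (fun {b c} (h : Disjoint b.B c.B) => h.symm)).1 hd
    rw [ih1 hd T, ih2 hd' T]

private theorem expl_patT_comm (a : I → I → ℕ) (f : ℕ) (B : Finset I) (π : Pat I) :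
    ∀ L : List (Blk I), (∀ b ∈ L, Disjoint b.B B) → ∀ T : Trm I,
      expl a f L (patT a B π T) = patT a B π (expl a f L T)
  | [], _, T => rfl
  | b :: L, h, T => by
    rw [expl_cons, expl_cons, expl_patT_comm a f B π L (fun c hc => h c (List.mem_cons_of_mem _ hc)) T,
      blkT_patT_comm a b.B B (h b List.mem_cons_self)]

private theorem sum_map_flatMap {α β : Type} (h : α → List β) (g : β → ℚ) :
    ∀ l : List α, ((l.flatMap h).map g).sum = (l.map (fun c => ((h c).map g).sum)).sum
  | [] => rfl
  | c :: l => by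
    rw [List.flatMap_cons, List.map_append, List.sum_append, sum_map_flatMap h g l, List.map_cons,
      List.sum_cons]

private theorem pair_ne {a : I → I → ℕ} (hs : ∀ i j, a i j = a j i) : ∀ {L : List (Blk I)},
    L.Pairwise (fun b c => Sep a b.B c.B) → ∀ {b c : Blk I}, b ∈ L → c ∈ L → b ≠ c →
      Sep a b.B c.B
  | [], _, _, _, hb, _, _ => absurd hb List.not_mem_nil
  | d :: L, hd, b, c, hb, hc, hne => by
    have hd2 := List.pairwise_cons.1 hd
    rcases List.mem_cons.1 hb with h1 | h1
    · rcases List.mem_cons.1 hc with h2 | h2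
      · exact absurd (h1.trans h2.symm) hne
      · subst h1
        exact hd2.1 c h2
    · rcases List.mem_cons.1 hc with h2 | h2
      · subst h2
        exact Sep.symm hs (hd2.1 b h1)
      · exact pair_ne hs hd2.2 h1 h2 hne

/-- the last blocks can be evaluated first. -/
private theorem evU_append (a : I → I → ℕ) (U1 : List (Finset I × FFn I)) :
    ∀ U2 : List (Finset I × FFn I), U2.Pairwise (fun b c => Disjoint b.1 c.1) → ∀ T : Trm I,
      evU a (U2 ++ U1) T =
        ((prodF U2).map (fun c => c.1 * evU a U1 (patT a (uni U2) c.2 T))).sum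
  | [], _, T => by
    have h0 : patT a (∅ : Finset I) (⟨fun _ => 0, fun _ => 0⟩ : Pat I) T = T := by
      have h1 : patT a (∅ : Finset I) (⟨fun _ => 0, fun _ => 0⟩ : Pat I) T =
          tauT a ∅ 0 (fun _ => 0) T := (tauT_eq_patT a ∅ 0 (fun _ => 0) T).symm
      rw [h1]
      exact blkT_empty a _ _ _ T
    simp only [List.nil_append, prodF, List.map_cons, List.map_nil, List.sum_cons, List.sum_nil,
      uni, List.foldr_nil, h0]
    ring
  | b :: U2, hd, T => by
    have hd2 := List.pairwise_cons.1 hd
    have hdis : Disjoint b.1 (uni U2) := by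
      rw [Finset.disjoint_left]
      intro x hx hx'
      obtain ⟨c, hc, hxc⟩ := (mem_uni U2 x).1 hx'
      exact (Finset.disjoint_left.1 (hd2.1 c hc)) hx hxc
    have hu : uni (b :: U2) = b.1 ∪ uni U2 := rfl
    rw [List.cons_append, evU_cons]
    have hp : prodF (b :: U2) = mulF b.1 b.2 (prodF U2) := rfl
    rw [hp, mulF, sum_map_flatMap]
    congr 1
    apply List.map_congr_left
    intro c _
    rw [evU_append a U1 U2 hd2.2, ← List.sum_map_mul_left, List.map_map]
    congr 1
    apply List.map_congr_left
    intro d _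
    simp only [Function.comp]
    rw [hu, patT_glue a b.1 (uni U2) hdis, patT_comm a b.1 (uni U2) hdis]
    ring

private theorem expl_E' (a : I → I → ℕ) (hs : ∀ i j, a i j = a j i) (f : ℕ) (L : List (Blk I))
    (T : Trm I) (z : I) (hz : z ∉ uniB L) (l : ℕ) :
    (expl a f L T).E (z, l) = T.E (z, l) -
      if l = f then (L.map (fun b => ∑ x ∈ b.B, (a z x : ℚ) * b.q x)).sum else 0 := by
  rw [expl_E]
  by_cases h : l = f
  · rw [if_pos h, if_pos h]
    have : (L.map (fun b => ∑ x ∈ b.B, b.q x * ((cart a x z : ℤ) : ℚ))).sum =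
        -(L.map (fun b => ∑ x ∈ b.B, (a z x : ℚ) * b.q x)).sum := by
      induction L with
      | nil => simp
      | cons b L ih =>
        simp only [List.map_cons, List.sum_cons]
        rw [ih (fun h => hz (by
          change z ∈ b.B ∪ uniB L
          exact Finset.mem_union_right _ h))]
        have : ∑ x ∈ b.B, b.q x * ((cart a x z : ℤ) : ℚ) = -∑ x ∈ b.B, (a z x : ℚ) * b.q x := by
          rw [← Finset.sum_neg_distrib]
          apply Finset.sum_congr rfl
          intro x hx
          have hne : x ≠ z := fun e => hz (by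
            change z ∈ b.B ∪ uniB L
            exact Finset.mem_union_left _ (e ▸ hx))
          rw [cart_ne a hs hne]
          ring
        rw [this]
        ring
    rw [this]
    ring
  · rw [if_neg h, if_neg h]
    ring

private theorem list_zero_sum (a : I → I → ℕ) (L : List (Blk I)) (z : I)
    (h : ∀ b ∈ L, ∀ x ∈ b.B, a z x = 0) :
    (L.map (fun b => ∑ x ∈ b.B, (a z x : ℚ) * b.q x)).sum = 0 := by
  apply List.sum_eq_zero
  intro y hy
  obtain ⟨b, hb, rfl⟩ := List.mem_map.1 hy
  apply Finset.sum_eq_zero
  intro x hx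
  rw [h b hb x hx]
  push_cast
  ring

/-- exponents inside a block. -/
private theorem expl_E_in (a : I → I → ℕ) (hs : ∀ i j, a i j = a j i) (f : ℕ) :
    ∀ (L : List (Blk I)), L.Pairwise (fun b c => Sep a b.B c.B) → ∀ (T : Trm I) (b : Blk I),
      b ∈ L → ∀ v ∈ b.B, (expl a f L T).E (v, f) = T.E (v, f) + cqN a b.B b.q v := by
  intro L hd T b hb v hv
  rw [expl_E, if_pos rfl]
  congr 1
  have hin : ∑ x ∈ b.B, b.q x * ((cart a x v : ℤ) : ℚ) = cqN a b.B b.q v := by
    unfold cqN
    apply Finset.sum_congr rfl
    intro x _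
    rw [cart_symm a hs x v]
    ring
  induction L with
  | nil => exact absurd hb (List.not_mem_nil)
  | cons c L ih =>
    have hd2 := List.pairwise_cons.1 hd
    rw [List.map_cons, List.sum_cons]
    have hzero : ∀ c' : Blk I, Sep a c'.B b.B → ∑ x ∈ c'.B, c'.q x * ((cart a x v : ℤ) : ℚ) = 0 := by
      intro c' hsep
      apply Finset.sum_eq_zero
      intro x hx
      have hne : x ≠ v := fun e => (Finset.disjoint_left.1 hsep.1) hx (e ▸ hv)
      rw [cart_ne a hs hne, hs v x, hsep.2 x hx v hv]
      simp
    by_cases hbL : b ∈ L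
    · rw [ih hd2.2 hbL, hzero c (hd2.1 b hbL), zero_add]
    · have hbc : b = c := by
        rcases List.mem_cons.1 hb with h | h
        · exact h
        · exact absurd h hbL
      subst hbc
      rw [hin]
      have : (L.map (fun c => ∑ x ∈ c.B, c.q x * ((cart a x v : ℤ) : ℚ))).sum = 0 := by
        apply List.sum_eq_zero
        intro y hy
        obtain ⟨c', hc', rfl⟩ := List.mem_map.1 hy
        exact hzero c' (Sep.symm hs (hd2.1 c' hc'))
      rw [this, add_zero]

private theorem expl_E_ne (a : I → I → ℕ) (f : ℕ) (L : List (Blk I)) (T : Trm I) (i : I) (l : ℕ)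
    (h : l ≠ f) : (expl a f L T).E (i, l) = T.E (i, l) := by
  rw [expl_E, if_neg h, add_zero]

theorem conv_all (a : I → I → ℕ) (hs : ∀ i j, a i j = a j i) (cd : CrossData a) (f : ℕ)
    (hf : 1 ≤ f) (X : Finset I) (L : List (Blk I)) (hL : ∀ b ∈ L, BlkOk a cd f b)
    (hup : ∀ b ∈ L, b.up = false) (hd : L.Pairwise (fun b c => Sep a b.B c.B)) (V : Finset I)
    (hV : FinT a V) (hLV : Sep a (uniB L) V)
    (hadj : ∀ b ∈ L, ∃ z ∈ X, ∃ x ∈ b.B, 0 < a z x) (T : Trm I) (hT : RReg (uniB L) T)
    (hTV : ∀ v ∈ V, FRegI (uniB L) T v f (f + 1)) (hXL : ∀ z ∈ X, z ∉ uniB L)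
    (hXV : ∀ z ∈ X, z ∉ V) (hXX : ∀ z ∈ X, a z z = 0)
    (hN : ∀ z ∈ X, ∀ l, 1 ≤ l → l ≠ f → IsN (T.E (z, l)))
    (hI2 : ∀ z ∈ X, IsZ (T.E (z, f) - (L.map (fun b => ∑ x ∈ b.B, (a z x : ℚ) * b.q x)).sum))
    (hcol : ∀ z ∈ X, ∀ j, j ∉ uniB L → ∀ l, 1 ≤ l → T.Λ j (z, l) ≠ 0 →
      l = f ∨ l = f + 1 ∨ 0 < T.E (z, l))
    (heff : ∀ z ∈ X, 0 < T.E (z, f) + ∑ v ∈ V, (a z v : ℚ) * solN a V (fun i => T.E (i, f)) v) :
    evU a (L.map (fun b => (b.B, b.Φ))) T = (L.map Blk.cf).prod * TV a (expl a f L T) := by
  classical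
  induction X using Finset.induction_on generalizing L V T with
  | empty =>
    have hL0 : L = [] := by
      rw [List.eq_nil_iff_forall_not_mem]
      intro b hb
      obtain ⟨z, hz, _⟩ := hadj b hb
      exact absurd hz (Finset.notMem_empty z)
    subst hL0
    rw [List.map_nil, List.map_nil, evU_nil, expl_nil, List.prod_nil, one_mul]
  | insert z X hzX ih =>
    -- the two parts of the list
    set L1 : List (Blk I) := L.filter (fun b => decide (∃ x ∈ b.B, 0 < a z x)) with hL1d
    set L2 : List (Blk I) := L.filter (fun b => !decide (∃ x ∈ b.B, 0 < a z x)) with hL2d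
    have hp : L.Perm (L2 ++ L1) := by
      have h := List.filter_append_perm (fun b : Blk I => decide (∃ x ∈ b.B, 0 < a z x)) L
      exact (h.symm).trans List.perm_append_comm
    have hm1 : ∀ b ∈ L1, b ∈ L ∧ ∃ x ∈ b.B, 0 < a z x := by
      intro b hb
      rw [hL1d, List.mem_filter] at hb
      exact ⟨hb.1, by simpa using hb.2⟩
    have hm2 : ∀ b ∈ L2, b ∈ L ∧ ∀ x ∈ b.B, a z x = 0 := by
      intro b hb
      rw [hL2d, List.mem_filter] at hb
      refine ⟨hb.1, ?_⟩
      intro x hx
      by_contra h0
      have h1 := hb.2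
      rw [Bool.not_eq_true', decide_eq_false_iff_not] at h1
      exact h1 ⟨x, hx, Nat.pos_of_ne_zero h0⟩
    have hd' : (L2 ++ L1).Pairwise (fun b c => Sep a b.B c.B) :=
      (hp.pairwise_iff (fun {b c} (h : Sep a b.B c.B) => Sep.symm hs h)).1 hd
    obtain ⟨hd2, hd1, h21⟩ := List.pairwise_append.1 hd'
    have hun : uniB L = uniB L2 ∪ uniB L1 := by rw [uniB_perm hp, uniB_append]
    have hs21 : Sep a (uniB L2) (uniB L1) := by
      constructor
      · rw [Finset.disjoint_left]
        intro x hx hx'
        obtain ⟨b, hb, hxb⟩ := (mem_uniB L2 x).1 hx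
        obtain ⟨c, hc, hxc⟩ := (mem_uniB L1 x).1 hx'
        exact (Finset.disjoint_left.1 (h21 b hb c hc).1) hxb hxc
      · intro x hx y hy
        obtain ⟨b, hb, hxb⟩ := (mem_uniB L2 x).1 hx
        obtain ⟨c, hc, hyc⟩ := (mem_uniB L1 y).1 hy
        exact (h21 b hb c hc).2 x hxb y hyc
    have hs12 : Sep a (uniB L1) (uniB L2) := Sep.symm hs hs21
    have hsum : ∀ g : Blk I → ℚ, (L.map g).sum = (L2.map g).sum + (L1.map g).sum := by
      intro g
      rw [(hp.map g).sum_eq, List.map_append, List.sum_append]
    have hzL : z ∉ uniB L := hXL z (Finset.mem_insert_self z X)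
    have hzL1 : z ∉ uniB L1 := fun h => hzL (by rw [hun]; exact Finset.mem_union_right _ h)
    have hzL2 : z ∉ uniB L2 := fun h => hzL (by rw [hun]; exact Finset.mem_union_left _ h)
    have hzV : z ∉ V := hXV z (Finset.mem_insert_self z X)
    have hV1 : Sep a (uniB L1) V := Sep.mono hLV (by rw [hun]; exact Finset.subset_union_right) (Finset.Subset.refl V)
    have hV2 : Sep a (uniB L2) V := Sep.mono hLV (by rw [hun]; exact Finset.subset_union_left) (Finset.Subset.refl V)
    have hz2 : ∀ x ∈ uniB L2, a z x = 0 := by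
      intro x hx
      obtain ⟨b, hb, hxb⟩ := (mem_uniB L2 x).1 hx
      exact (hm2 b hb).2 x hxb
    -- reduction to the rearranged list
    have e1 : evU a (L.map (fun b => (b.B, b.Φ))) T =
        evU a ((L2 ++ L1).map (fun b => (b.B, b.Φ))) T :=
      evU_perm a _ _ (hp.map _) (disjU hd) T
    have e2 : (L.map Blk.cf).prod = ((L2 ++ L1).map Blk.cf).prod := (hp.map _).prod_eq
    have e3 : expl a f L T = expl a f (L2 ++ L1) T := expl_perm a f hp (hd.imp (fun h => h.1)) T
    rw [e1, e2, e3, List.map_append, List.map_append, List.prod_append, expl_append,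
      evU_append a _ _ (disjU hd2)]
    -- conversion of the blocks of `L1`
    have hstep : ∀ c ∈ prodF (L2.map (fun b => (b.B, b.Φ))),
        evU a (L1.map (fun b => (b.B, b.Φ)))
            (patT a (uni (L2.map (fun b => (b.B, b.Φ)))) c.2 T) =
          (L1.map Blk.cf).prod *
            TV a (patT a (uni (L2.map (fun b => (b.B, b.Φ)))) c.2 (expl a f L1 T)) := by
      intro c hc
      rw [uni_map_blk]
      set Y : Trm I := patT a (uniB L2) c.2 T with hY
      have hYE : ∀ i, (∀ x ∈ uniB L2, x ≠ i ∧ a x i = 0) → ∀ l, Y.E (i, l) = T.E (i, l) := by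
        intro i hi l
        rw [hY, patT_E, Finset.sum_eq_zero, add_zero]
        intro x hx
        have hx2 := hi x (Finset.mem_filter.1 hx).1
        rw [cart_ne a hs hx2.1, hs i x, hx2.2]
        simp
      have hYz : ∀ l, Y.E (z, l) = T.E (z, l) := hYE z (fun x hx =>
        ⟨fun e => hzL2 (e ▸ hx), by rw [hs x z]; exact hz2 x hx⟩)
      have hYv : ∀ v ∈ V, ∀ l, Y.E (v, l) = T.E (v, l) := fun v hv => hYE v (fun x hx =>
        ⟨fun e => (Finset.disjoint_left.1 hV2.1) hx (e ▸ hv), hV2.2 x hx v hv⟩)
      have hYin : ∀ j ∈ uniB L2, Y.Λ j = sy j (c.2.s j + 1) := by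
        intro j hj
        rw [hY]
        simp only [patT, Trm.cols]
        rw [if_pos hj]
      have hYout : ∀ j, j ∉ uniB L2 → Y.Λ j = T.Λ j := by
        intro j hj
        rw [hY]
        simp only [patT, Trm.cols]
        rw [if_neg hj]
        rfl
      have hYcol : ∀ i, i ∉ uniB L2 → ∀ j, j ∉ uniB L1 → ∀ l, Y.Λ j (i, l) ≠ 0 →
          j ∉ uniB L ∧ T.Λ j (i, l) ≠ 0 := by
        intro i hi j hj l h
        by_cases hj2 : j ∈ uniB L2
        · exfalso
          rw [hYin j hj2] at h
          have hne : j ≠ i := fun e => hi (e ▸ hj2)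
          exact h (by simp [hne])
        · rw [hYout j hj2] at h
          refine ⟨?_, h⟩
          rw [hun, Finset.mem_union]
          push Not
          exact ⟨hj2, hj⟩
      have hconv := evU_conv a hs cd f hf L1 (fun b hb => hL b (hm1 b hb).1) hd1 V hV hV1 z hzL1 hzV
        (hXX z (Finset.mem_insert_self z X)) (fun b hb => (hm1 b hb).2) Y
        (RReg_patT a hs (uniB L1) (uniB L2) hs12.1 c.2
          (fun x hx y hy _ => hs12.2 x hx y hy) T
          (by rw [Finset.union_comm, ← hun]; exact hT))
        (fun _ => f + 1) (fun _ _ => Or.inl rfl)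
        (by
          intro v hv
          have hv2 : v ∉ uniB L2 := fun h => (Finset.disjoint_left.1 hV2.1) h hv
          have hreg := hTV v hv
          constructor
          · intro l hl hlf
            rw [hYv v hv l]
            exact hreg.nat l hl hlf
          · rw [hYv v hv f]
            exact hreg.int
          · intro j hj l hl h
            obtain ⟨hj', h'⟩ := hYcol v hv2 j hj l h
            rw [hYv v hv l]
            exact hreg.col j hj' l hl h')
        (f + 1) (Or.inl rfl)
        (by
          intro l hl hlf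
          rw [hYz l]
          exact hN z (Finset.mem_insert_self z X) l hl hlf)
        (by
          have h := hI2 z (Finset.mem_insert_self z X)
          rw [hsum, list_zero_sum a L2 z (fun b hb x hx => (hm2 b hb).2 x hx), zero_add] at h
          rw [hYz f]
          exact h)
        (by
          intro j hj l hl h
          obtain ⟨hj', h'⟩ := hYcol z hzL2 j hj l h
          rw [hYz l]
          exact hcol z (Finset.mem_insert_self z X) j hj' l hl h')
        (by
          have h := heff z (Finset.mem_insert_self z X)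
          rw [hYz f, solN_congr hs hV (fun i => Y.E (i, f)) (fun i => T.E (i, f))
            (fun i hi => hYv i hi f)]
          exact h)
      rw [hconv, hY, expl_patT_comm a f (uniB L2) c.2 L1 (by
        intro b hb
        rw [Finset.disjoint_left]
        intro x hx hx'
        exact (Finset.disjoint_left.1 hs12.1) ((mem_uniB L1 x).2 ⟨b, hb, hx⟩) hx')]
    have e4 : ((prodF (L2.map (fun b => (b.B, b.Φ)))).map (fun c => c.1 *
        evU a (L1.map (fun b => (b.B, b.Φ)))
          (patT a (uni (L2.map (fun b => (b.B, b.Φ)))) c.2 T))).sum =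
        (L1.map Blk.cf).prod * evU a (L2.map (fun b => (b.B, b.Φ))) (expl a f L1 T) := by
      rw [evU_eq_evF a _ (disjU hd2)]
      unfold evF
      rw [← List.sum_map_mul_left]
      congr 1
      apply List.map_congr_left
      intro c hc
      rw [hstep c hc]
      ring
    rw [e4]
    -- the induction hypothesis
    set T' : Trm I := expl a f L1 T with hT'
    have hT'z : ∀ z' ∈ X, ∀ l, T'.E (z', l) = T.E (z', l) -
        if l = f then (L1.map (fun b => ∑ x ∈ b.B, (a z' x : ℚ) * b.q x)).sum else 0 := by
      intro z' hz' l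
      rw [hT']
      apply expl_E' a hs f L1 T z'
      intro h
      exact hXL z' (Finset.mem_insert_of_mem hz') (by rw [hun]; exact Finset.mem_union_right _ h)
    have hT'v : ∀ v ∈ V, ∀ l, T'.E (v, l) = T.E (v, l) := by
      intro v hv l
      have hv1 : v ∉ uniB L1 := fun h => (Finset.disjoint_left.1 hV1.1) h hv
      rw [hT', expl_E' a hs f L1 T v hv1, list_zero_sum a L1 v (by
        intro b hb x hx
        rw [hs v x]
        exact hV1.2 x ((mem_uniB L1 x).2 ⟨b, hb, hx⟩) v hv)]
      simp
    have hT'col : ∀ i, ∀ j, j ∉ uniB L2 → ∀ l, T'.Λ j (i, l) ≠ 0 →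
        (j = i ∧ l = f + 1 ∧ i ∈ uniB L1) ∨ (j ∉ uniB L ∧ T.Λ j (i, l) ≠ 0) := by
      intro i j hj l h
      by_cases hj1 : j ∈ uniB L1
      · left
        obtain ⟨b, hb, hjb⟩ := (mem_uniB L1 j).1 hj1
        rw [hT', expl_Λ_in a f L1 T (hd1.imp (fun h => h.1)) b hb j hjb] at h
        have hsd : b.sd f = f + 1 := by
          unfold Blk.sd
          rw [hup b (hm1 b hb).1]
          simp
        rw [hsd] at h
        by_cases hji : (j, f + 1) = (i, l)
        · have h1 : j = i := congrArg Prod.fst hji
          have h2 : f + 1 = l := congrArg Prod.snd hji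
          exact ⟨h1, h2.symm, h1 ▸ hj1⟩
        · exfalso
          exact h (Finsupp.single_eq_of_ne (fun e => hji e.symm))
      · right
        rw [hT', expl_Λ_out a f L1 T j hj1] at h
        refine ⟨?_, h⟩
        rw [hun, Finset.mem_union]
        push Not
        exact ⟨hj, hj1⟩
    have hQ : ∀ b ∈ L1, ∀ v ∈ b.B, ∃ n : ℕ, 1 ≤ n ∧ cqN a b.B b.q v = n := fun b hb =>
      (hL b (hm1 b hb).1).qok
    have hihyp := ih L2 (fun b hb => hL b (hm2 b hb).1) (fun b hb => hup b (hm2 b hb).1) hd2
      (V ∪ uniB L1)
      (FinT.union_sep hs hV (FinT_uniB a hs L1 (fun b hb => (hL b (hm1 b hb).1).fin) hd1)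
        (Sep.symm hs hV1))
      (Sep.symm hs (Sep_union (Sep.symm hs hV2) hs12))
      (by
        intro b hb
        obtain ⟨z', hz', x, hx, hax⟩ := hadj b (hm2 b hb).1
        rcases Finset.mem_insert.1 hz' with h | h
        · exfalso
          subst h
          rw [(hm2 b hb).2 x hx] at hax
          exact lt_irrefl 0 hax
        · exact ⟨z', h, x, hx, hax⟩)
      T'
      (RReg_expl a hs f L1 (uniB L2) hs21 T (by rw [← hun]; exact hT))
      (by
        intro v hv
        rcases Finset.mem_union.1 hv with hvV | hv1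
        · have hreg := hTV v hvV
          have hv1 : v ∉ uniB L1 := fun h => (Finset.disjoint_left.1 hV1.1) h hvV
          constructor
          · intro l hl hlf
            rw [hT'v v hvV l]
            exact hreg.nat l hl hlf
          · rw [hT'v v hvV f]
            exact hreg.int
          · intro j hj l hl h
            rcases hT'col v j hj l h with h1 | ⟨h1, h2⟩
            · exact absurd h1.2.2 hv1
            · rw [hT'v v hvV l]
              exact hreg.col j h1 l hl h2
        · have hvL : v ∈ uniB L := by rw [hun]; exact Finset.mem_union_right _ hv1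
          obtain ⟨b, hb, hvb⟩ := (mem_uniB L1 v).1 hv1
          constructor
          · intro l hl hlf
            rw [hT', expl_E_ne a f L1 T v l hlf]
            exact hT.nat v hvL l hl
          · rw [hT', expl_E_in a hs f L1 hd1 T b hb v hvb]
            obtain ⟨n, _, hn⟩ := hQ b hb v hvb
            rw [hn]
            exact isZ_add (isN_isZ (hT.nat v hvL f hf)) (isN_isZ ⟨n, rfl⟩)
          · intro j hj l hl h
            rcases hT'col v j hj l h with h1 | ⟨h1, h2⟩
            · exact Or.inl h1.2.1
            · by_cases hlf : l = f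
              · exact Or.inr (Or.inl hlf)
              · right; right
                rw [hT', expl_E_ne a f L1 T v l hlf]
                exact hT.col v hvL j h1 l hl h2)
      (by
        intro z' hz' h
        exact hXL z' (Finset.mem_insert_of_mem hz') (by rw [hun]; exact Finset.mem_union_left _ h))
      (by
        intro z' hz' h
        rcases Finset.mem_union.1 h with h | h
        · exact hXV z' (Finset.mem_insert_of_mem hz') h
        · exact hXL z' (Finset.mem_insert_of_mem hz') (by rw [hun]; exact Finset.mem_union_right _ h))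
      (fun z' hz' => hXX z' (Finset.mem_insert_of_mem hz'))
      (by
        intro z' hz' l hl hlf
        rw [hT'z z' hz' l, if_neg hlf, sub_zero]
        exact hN z' (Finset.mem_insert_of_mem hz') l hl hlf)
      (by
        intro z' hz'
        have h := hI2 z' (Finset.mem_insert_of_mem hz')
        rw [hsum] at h
        rw [hT'z z' hz' f, if_pos rfl]
        convert h using 1
        ring)
      (by
        intro z' hz' j hj l hl h
        have hzL1' : z' ∉ uniB L1 := fun h =>
          hXL z' (Finset.mem_insert_of_mem hz') (by rw [hun]; exact Finset.mem_union_right _ h)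
        rcases hT'col z' j hj l h with h1 | ⟨h1, h2⟩
        · exact absurd h1.2.2 hzL1'
        · rcases hcol z' (Finset.mem_insert_of_mem hz') j h1 l hl h2 with h3 | h3 | h3
          · exact Or.inl h3
          · exact Or.inr (Or.inl h3)
          · by_cases hlf : l = f
            · exact Or.inl hlf
            · right; right
              rw [hT'z z' hz' l, if_neg hlf, sub_zero]
              exact h3)
      (by
        intro z' hz'
        have h := heff z' (Finset.mem_insert_of_mem hz')
        have hfinV' : FinT a (V ∪ uniB L1) :=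
          FinT.union_sep hs hV (FinT_uniB a hs L1 (fun b hb => (hL b (hm1 b hb).1).fin) hd1)
            (Sep.symm hs hV1)
        have hdisV : Disjoint V (uniB L1) := hV1.1.symm
        rw [hT'z z' hz' f, if_pos rfl, Finset.sum_union hdisV]
        have hA : ∑ v ∈ V, (a z' v : ℚ) * solN a (V ∪ uniB L1) (fun i => T'.E (i, f)) v =
            ∑ v ∈ V, (a z' v : ℚ) * solN a V (fun i => T.E (i, f)) v := by
          apply Finset.sum_congr rfl
          intro v hv
          rw [solN_component hs hfinV' Finset.subset_union_left (by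
            intro i hi j hj hj'
            rcases Finset.mem_union.1 hj with h | h
            · exact absurd h hj'
            · rw [hs i j]
              exact hV1.2 j h i hi) (fun i => T'.E (i, f)) v hv,
            solN_congr hs hV (fun i => T'.E (i, f)) (fun i => T.E (i, f)) (fun i hi => hT'v i hi f)]
        have hB : (L1.map (fun b => ∑ x ∈ b.B, (a z' x : ℚ) * b.q x)).sum ≤
            ∑ v ∈ uniB L1, (a z' v : ℚ) * solN a (V ∪ uniB L1) (fun i => T'.E (i, f)) v := by
          rw [sum_uniB (a := a) _ L1 hd1]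
          apply List.sum_le_sum
          intro b hb
          apply Finset.sum_le_sum
          intro x hx
          apply mul_le_mul_of_nonneg_left _ (by positivity)
          have hbfin : FinT a b.B := (hL b (hm1 b hb).1).fin
          have hbsub : b.B ⊆ V ∪ uniB L1 := fun y hy =>
            Finset.mem_union_right _ ((mem_uniB L1 y).2 ⟨b, hb, hy⟩)
          have hsepb : ∀ i ∈ b.B, ∀ j ∈ V ∪ uniB L1, j ∉ b.B → a i j = 0 := by
            intro i hi j hj hj'
            have hi1 : i ∈ uniB L1 := (mem_uniB L1 i).2 ⟨b, hb, hi⟩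
            rcases Finset.mem_union.1 hj with h | h
            · exact hV1.2 i hi1 j h
            · obtain ⟨b', hb', hjb'⟩ := (mem_uniB L1 j).1 h
              have hne : b ≠ b' := fun e => hj' (e ▸ hjb')
              have hsep := pair_ne hs hd1 hb hb' hne
              exact hsep.2 i hi j hjb'
          rw [solN_component hs hfinV' hbsub hsepb (fun i => T'.E (i, f)) x hx]
          have hEb : ∀ i ∈ b.B, T'.E (i, f) = T.E (i, f) + cqN a b.B b.q i := by
            intro i hi
            rw [hT', expl_E_in a hs f L1 hd1 T b hb i hi]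
          rw [solN_congr hs hbfin (fun i => T'.E (i, f)) (fun i => T.E (i, f) + cqN a b.B b.q i) hEb,
            solN_add hs hbfin (fun i => T.E (i, f)) (cqN a b.B b.q) x,
            solN_cqN hs hbfin b.q x hx]
          have h0 := solN_nonneg hs hbfin (fun i => T.E (i, f)) (by
            intro i hi
            exact isN_nonneg (hT.nat i (by
              rw [hun]
              exact Finset.mem_union_right _ ((mem_uniB L1 i).2 ⟨b, hb, hi⟩)) f hf)) x
          linarith
        rw [hA]
        linarith)
    rw [hihyp]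
    ring

end

end Pool.Agent.H46.AH
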