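import Pool.Agent.H46.AH.AH10

/-!
KAC ADE, module AH22: merging of restarted blocks with new walls.

`blk_elT`: columns `j ∉ N` may be changed by combinations of the `cE a y k`, `y ∈ N`: `TV_T0` (AE6) with
`N`, `κ = k`; the exponents of `blkT a N k σ q T` on `N` at level `k` are `T.E + C_N q`, so `solN = q + solN(T.E) > 0`.
`merge`: with `N = B ∪ X`, `T1 = blkT a B f (f+1) q' T` (all columns of `N` are `(x,f+1)`).  The exponents of `T1` on `N` at level
`f` are `C_N (q' + Q)` (`q'` cut off to `B`), so `solN = q' + Q > 0`; `TV_rep` (AE4) with `v = q' + Q - q''` (integers,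
`v < solN` since `q'' > 0`) gives `TV T1 = TV (T1.etaM a f v) = TV (blkT a N f (f+1) q'' (T.eta a f Q))`; then `blk_elT`
for `T.eta a f Q` (exponents `0` on `N` at all levels).
-/

set_option autoImplicit false

namespace Pool.Agent.H46.AH

open scoped BigOperators
open Pool.Agent.H27.KAC Pool.Agent.H40.KADE

section

variable {I : Type} [Fintype I] [DecidableEq I]

private theorem ah22_cart (a : I → I → ℕ) (hs : ∀ i j, a i j = a j i) (x y : I) :
    cart a x y = cart a y x := AE4_cart_symm hs x y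

private theorem ah22_sum (a : I → I → ℕ) (hs : ∀ i j, a i j = a j i) (N : Finset I) (v : I → ℚ)
    (hv : ∀ i, i ∉ N → v i = 0) (i : I) : ∑ x, v x * (cart a x i : ℚ) = cqN a N v i := by
  unfold cqN
  rw [← Finset.sum_subset (Finset.subset_univ N)]
  · refine Finset.sum_congr rfl fun x _ => ?_
    rw [ah22_cart a hs x i]
    ring
  · intro x _ hx
    rw [hv x hx, zero_mul]

private theorem ah22_etaE (a : I → I → ℕ) (hs : ∀ i j, a i j = a j i) (N : Finset I) (k : ℕ)
    (v : I → ℚ) (hv : ∀ i, i ∉ N → v i = 0) (T : Trm I) (i : I) (l : ℕ) :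
    (T.eta a k v).E (i, l) = T.E (i, l) - if l = k then cqN a N v i else 0 := by
  rw [eta_eq_etaM, etaM_E]
  by_cases hl : l = k
  · subst hl
    rw [if_pos rfl, Finset.filter_true_of_mem (fun _ _ => rfl), ah22_sum a hs N v hv]
  · rw [if_neg hl, Finset.filter_false_of_mem (fun _ _ h => hl h.symm), Finset.sum_empty]

private theorem ah22_neg (a : I → I → ℕ) (N : Finset I) (v : I → ℚ) (i : I) :
    cqN a N (fun x => -v x) i = -cqN a N v i := by
  unfold cqN
  rw [← Finset.sum_neg_distrib]
  exact Finset.sum_congr rfl fun x _ => by ring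

private theorem ah22_congr (a : I → I → ℕ) (N : Finset I) (v w : I → ℚ) (h : ∀ i ∈ N, v i = w i)
    (i : I) : cqN a N v i = cqN a N w i := by
  unfold cqN
  exact Finset.sum_congr rfl fun x hx => by rw [h x hx]

private theorem ah22_add (a : I → I → ℕ) (N : Finset I) (v w : I → ℚ) (i : I) :
    cqN a N (fun x => v x + w x) i = cqN a N v i + cqN a N w i := by
  unfold cqN
  rw [← Finset.sum_add_distrib]
  exact Finset.sum_congr rfl fun x _ => by ring

private theorem ah22_sub (a : I → I → ℕ) (N : Finset I) (v w : I → ℚ) (i : I) :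
    cqN a N (fun x => v x - w x) i = cqN a N v i - cqN a N w i := by
  unfold cqN
  rw [← Finset.sum_sub_distrib]
  exact Finset.sum_congr rfl fun x _ => by ring

/-- exponents of `blkT`. -/
private theorem ah22_E (a : I → I → ℕ) (hs : ∀ i j, a i j = a j i) (N N' : Finset I)
    (hNN : N ⊆ N') (k σ : ℕ) (q : I → ℚ) (T : Trm I) (i : I) (l : ℕ) :
    (blkT a N k σ q T).E (i, l) = T.E (i, l) + if l = k then cqN a N' (resQ N q) i else 0 := by
  have h1 : (blkT a N k σ q T).E (i, l) = (T.eta a k (fun i => -resQ N q i)).E (i, l) := rfl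
  have h2 : ∀ i, i ∉ N' → -resQ N q i = 0 := by
    intro i hi
    rw [resQ, if_neg (fun h => hi (hNN h)), neg_zero]
  rw [h1, ah22_etaE a hs N' k _ h2, ah22_neg]
  by_cases hl : l = k
  · rw [if_pos hl, if_pos hl]; ring
  · rw [if_neg hl, if_neg hl]; ring

private theorem ah22_qpos (a : I → I → ℕ) (hs : ∀ i j, a i j = a j i) (N : Finset I)
    (hN : FinT a N) (q : I → ℚ) (hq : QOk a N q) : ∀ x ∈ N, 0 < q x := by
  intro x hx
  rw [← solN_cqN hs hN q x hx]
  refine solN_pos_self hs hN _ ?_ x hx ?_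
  · intro i hi
    obtain ⟨n, -, hn⟩ := hq i hi
    rw [hn]
    exact Nat.cast_nonneg n
  · obtain ⟨n, h1, hn⟩ := hq x hx
    rw [hn]
    exact_mod_cast h1

omit [Fintype I] in
private theorem ah22_sy (i x : I) (k l : ℕ) (h : (sy i k : QE I) (x, l) ≠ 0) : l = k := by
  by_contra hlk
  apply h
  rw [sy, Finsupp.single_apply, if_neg]
  intro e
  exact hlk (congrArg Prod.snd e).symm

private theorem ah22_cE (a : I → I → ℕ) (y x : I) (k l : ℕ) (h : (cE a y k) (x, l) ≠ 0) :
    l = k := by
  by_contra hlk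
  apply h
  rw [cE_apply, if_neg hlk]

theorem blk_elT (a : I → I → ℕ) (hs : ∀ i j, a i j = a j i) (N : Finset I) (hN : FinT a N)
    (k σ : ℕ) (hk : 1 ≤ k) (hσ : Side k σ) (q : I → ℚ) (hq : QOk a N q) (T : Trm I)
    (hT : RRegK N k T) :
    TV a (blkT a N k σ q T) = TV a (blkT a N k σ q (elT a N k T)) := by
  classical
  obtain ⟨γ1, hγ1⟩ : ∃ γ1, γ1 = (blkT a N k σ q T).γ := ⟨_, rfl⟩
  obtain ⟨E1, hE1⟩ : ∃ E1, E1 = (blkT a N k σ q T).E := ⟨_, rfl⟩
  have hE1v : ∀ i l, E1 (i, l) = T.E (i, l) + if l = k then cqN a N q i else 0 := by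
    intro i l
    rw [hE1, ah22_E a hs N N (Finset.Subset.refl _) k σ q T i l]
    have : cqN a N (resQ N q) i = cqN a N q i :=
      ah22_congr a N _ _ (fun x hx => by rw [resQ, if_pos hx]) i
    rw [this]
  have hqpos := ah22_qpos a hs N hN q hq
  -- the intermediate terms
  let Cs : Finset I → Trm I := fun S =>
    ⟨γ1, E1, fun j => if j ∈ N then sy j σ else if j ∈ S then elC a N k (T.Λ j) else T.Λ j⟩
  have hC0 : Cs ∅ = blkT a N k σ q T := by
    refine Trm.ext hγ1 hE1 ?_
    funext j
    simp only [Cs, blkT, Trm.cols, Trm.eta, Finset.notMem_empty, if_false]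
  have hC1 : Cs (Finset.univ \ N) = blkT a N k σ q (elT a N k T) := by
    refine Trm.ext hγ1 hE1 ?_
    funext j
    simp only [Cs, blkT, Trm.cols, Trm.eta, elT]
    by_cases hj : j ∈ N
    · rw [if_pos hj, if_pos hj]
    · rw [if_neg hj, if_neg hj, if_neg hj,
        if_pos (Finset.mem_sdiff.2 ⟨Finset.mem_univ j, hj⟩)]
  -- all columns are harmless
  have hcolL : ∀ x ∈ N, ∀ j, j ∉ N → ∀ l, 1 ≤ l → T.Λ j (x, l) ≠ 0 → l = σ ∨ l = k ∨
      1 ≤ E1 (x, l) := by
    intro x hx j hj l hl hne
    rcases hT.col x hx j hj l hl hne with h | h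
    · exact Or.inr (Or.inl h)
    · by_cases hlk : l = k
      · exact Or.inr (Or.inl hlk)
      · refine Or.inr (Or.inr ?_)
        rw [hE1v, if_neg hlk, add_zero]
        exact h
  have hcolE : ∀ x ∈ N, ∀ j, j ∉ N → ∀ l, 1 ≤ l → (elC a N k (T.Λ j)) (x, l) ≠ 0 →
      l = σ ∨ l = k ∨ 1 ≤ E1 (x, l) := by
    intro x hx j hj l hl hne
    rw [elC_apply_mem a hs N hN k _ x hx] at hne
    by_cases hlk : l = k
    · exact Or.inr (Or.inl hlk)
    · rw [if_neg hlk] at hne
      exact hcolL x hx j hj l hl hne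
  have key : ∀ S : Finset I, (∀ j ∈ S, j ∉ N) → TV a (Cs S) = TV a (Cs ∅) := by
    intro S
    induction S using Finset.induction_on with
    | empty => intro _; rfl
    | insert j S hjS ih =>
      intro hS
      have hjN : j ∉ N := hS j (Finset.mem_insert_self j S)
      rw [← ih (fun i hi => hS i (Finset.mem_insert_of_mem hi))]
      have e1 : Cs (insert j S) = (Cs S).col j (elC a N k (T.Λ j)) := by
        refine Trm.ext rfl rfl ?_
        funext i
        simp only [Cs, Trm.col]
        by_cases hij : i = j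
        · subst hij
          rw [Function.update_self, if_neg hjN, if_pos (Finset.mem_insert_self i S)]
        · rw [Function.update_of_ne hij]
          by_cases hiS : i ∈ S
          · rw [if_pos (Finset.mem_insert_of_mem hiS), if_pos hiS]
          · rw [if_neg (fun h => (Finset.mem_insert.1 h).elim hij hiS), if_neg hiS]
      have e2 : (Cs S).Λ j = T.Λ j := by
        simp only [Cs]
        rw [if_neg hjN, if_neg hjS]
      have e3 : TV a ((Cs S).col j (T.Λ j)) = TV a (Cs S) := by
        rw [← e2]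
        exact TV_col_self a (Cs S) j
      have e4 : ∀ y ∈ N, TV a ((Cs S).col j (cE a y k)) = 0 := by
        intro y hy
        have hEE : ((Cs S).col j (cE a y k)).E = E1 := rfl
        refine TV_T0 a hs N hN (fun _ => k) (fun _ => σ) (fun _ _ => hk) (fun _ _ _ _ _ => rfl)
          (fun _ _ => hσ) _ ?_ ?_ y hy j ?_
        · intro x hx
          refine ⟨fun l hl hlk => ?_, ?_, fun i l hl hne => ?_⟩
          · rw [hEE, hE1v, if_neg hlk, add_zero]
            exact hT.nat x hx l hl
          · rw [hEE, hE1v, if_pos rfl]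
            obtain ⟨n, hn⟩ := hT.nat x hx k hk
            obtain ⟨m, -, hm⟩ := hq x hx
            exact ⟨n + m, by rw [hn, hm]; push_cast; rfl⟩
          · rw [hEE]
            simp only [Trm.col] at hne
            by_cases hij : i = j
            · subst hij
              rw [Function.update_self] at hne
              exact Or.inr (Or.inl (ah22_cE a y x k l hne))
            · rw [Function.update_of_ne hij] at hne
              simp only [Cs] at hne
              by_cases hiN : i ∈ N
              · rw [if_pos hiN] at hne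
                exact Or.inl (ah22_sy i x σ l hne)
              · rw [if_neg hiN] at hne
                by_cases hiS : i ∈ S
                · rw [if_pos hiS] at hne
                  exact hcolE x hx i hiN l hl hne
                · rw [if_neg hiS] at hne
                  exact hcolL x hx i hiN l hl hne
        · intro x hx
          have h1 : solN a N (fun i => ((Cs S).col j (cE a y k)).E (i, k)) x =
              solN a N (fun i => T.E (i, k) + cqN a N q i) x := by
            refine congrFun (solN_congr hs hN _ _ fun i _ => ?_) x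
            rw [hEE, hE1v, if_pos rfl]
          rw [h1, solN_add hs hN, solN_cqN hs hN q x hx]
          have h2 : 0 ≤ solN a N (fun i => T.E (i, k)) x := by
            refine solN_nonneg hs hN _ ?_ x
            intro i hi
            obtain ⟨n, hn⟩ := hT.nat i hi k hk
            rw [hn]
            exact Nat.cast_nonneg n
          have := hqpos x hx
          linarith
        · simp only [Trm.col, Function.update_self]
      rw [e1, elC, TV_col_add, e3, TV_col_sum, Finset.sum_eq_zero, add_zero]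
      intro y hy
      rw [TV_col_smul, e4 y hy, mul_zero]
  rw [← hC0, ← hC1]
  exact (key _ (fun j hj => (Finset.mem_sdiff.1 hj).2)).symm

theorem merge (a : I → I → ℕ) (hs : ∀ i j, a i j = a j i) (f : ℕ) (hf : 1 ≤ f) (B X : Finset I)
    (hBX : Disjoint B X) (hN : FinT a (B ∪ X)) (q' q'' Q : I → ℚ) (hq' : QOk a B q')
    (hq'' : QOk a (B ∪ X) q'') (T : Trm I) (hE0 : ∀ x ∈ B ∪ X, ∀ l, 1 ≤ l → l ≠ f → T.E (x, l) = 0)
    (hEB : ∀ x ∈ B, T.E (x, f) = 0) (hQ0 : ∀ i, i ∉ B ∪ X → Q i = 0)
    (hQ : ∀ x ∈ B ∪ X, cqN a (B ∪ X) Q x = T.E (x, f)) (hQnn : ∀ x ∈ B ∪ X, 0 ≤ Q x)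
    (hQpos : ∀ x ∈ X, 0 < Q x)
    (hcls : ∀ x ∈ B ∪ X, IsZ (q'' x - (resQ B q' x + Q x)))
    (hcol : ∀ x ∈ B ∪ X, ∀ j, j ∉ B ∪ X → ∀ l, 1 ≤ l → T.Λ j (x, l) ≠ 0 → l = f)
    (hX : ∀ x ∈ X, T.Λ x = sy x (f + 1)) :
    TV a (blkT a B f (f + 1) q' T) =
      TV a (blkT a (B ∪ X) f (f + 1) q'' (elT a (B ∪ X) f (T.eta a f Q))) := by
  classical
  have hBN : B ⊆ B ∪ X := Finset.subset_union_left
  have hq'pos := ah22_qpos a hs B (hN.mono hBN) q' hq'
  have hq''pos := ah22_qpos a hs (B ∪ X) hN q'' hq''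
  have hE1 : ∀ i l, (blkT a B f (f + 1) q' T).E (i, l) =
      T.E (i, l) + if l = f then cqN a (B ∪ X) (resQ B q') i else 0 :=
    fun i l => ah22_E a hs B (B ∪ X) hBN f (f + 1) q' T i l
  -- the integral vector
  have hz : ∀ x, ∃ z : ℤ, (x ∈ B ∪ X → (z : ℚ) = resQ B q' x + Q x - q'' x) ∧
      (x ∉ B ∪ X → z = 0) := by
    intro x
    by_cases hx : x ∈ B ∪ X
    · obtain ⟨z, hz⟩ := hcls x hx
      refine ⟨-z, fun _ => ?_, fun h => absurd hx h⟩
      push_cast
      linarith
    · exact ⟨0, fun h => absurd h hx, fun _ => rfl⟩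
  choose v hv1 hv0 using hz
  have hvres : ∀ i, (v i : ℚ) = resQ B q' i + Q i - resQ (B ∪ X) q'' i := by
    intro i
    by_cases hi : i ∈ B ∪ X
    · rw [hv1 i hi, resQ, resQ, if_pos hi]
    · rw [hv0 i hi, resQ, resQ, if_neg hi, if_neg (fun h => hi (hBN h)), hQ0 i hi]
      push_cast
      ring
  have hEf : ∀ x ∈ B ∪ X, (blkT a B f (f + 1) q' T).E (x, f) =
      cqN a (B ∪ X) (fun i => resQ B q' i + Q i) x := by
    intro x hx
    rw [hE1, if_pos rfl, ah22_add, hQ x hx]
    ring
  have hsol : ∀ x ∈ B ∪ X, solN a (B ∪ X) (fun i => (blkT a B f (f + 1) q' T).E (i, f)) x =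
      resQ B q' x + Q x := by
    intro x hx
    have h1 := congrFun (solN_congr hs hN (fun i => (blkT a B f (f + 1) q' T).E (i, f))
      (cqN a (B ∪ X) (fun i => resQ B q' i + Q i)) hEf) x
    rw [h1, solN_cqN hs hN _ x hx]
  have hpos : ∀ x ∈ B ∪ X, 0 < resQ B q' x + Q x := by
    intro x hx
    rcases Finset.mem_union.1 hx with h | h
    · rw [resQ, if_pos h]
      have h1 := hq'pos x h
      have h2 := hQnn x hx
      linarith
    · rw [resQ, if_neg (fun h' => Finset.disjoint_left.1 hBX h' h), zero_add]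
      exact hQpos x h
  have hint : ∀ x ∈ B ∪ X, IsZ (cqN a (B ∪ X) (fun i => resQ B q' i + Q i) x) := by
    intro x hx
    obtain ⟨n, -, hn⟩ := hq'' x hx
    refine ⟨n + ∑ j ∈ B ∪ X, cart a x j * v j, ?_⟩
    have h1 : cqN a (B ∪ X) (fun i => resQ B q' i + Q i) x =
        cqN a (B ∪ X) (fun i => q'' i + (v i : ℚ)) x := by
      refine ah22_congr a _ _ _ (fun i hi => ?_) x
      rw [hv1 i hi]
      ring
    rw [h1, ah22_add, hn]
    push_cast
    unfold cqN
    rfl
  have step1 : TV a (blkT a B f (f + 1) q' T) =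
      TV a ((blkT a B f (f + 1) q' T).etaM a (fun _ => f) (fun i => (v i : ℚ))) := by
    refine TV_rep a hs (B ∪ X) hN (fun _ => f) (fun _ => f + 1) (fun _ _ => hf)
      (fun _ _ _ _ _ => rfl) (fun _ _ => Or.inl rfl) _ ?_ ?_ v hv0 ?_
    · intro x hx
      refine ⟨fun l hl hlf => ?_, ?_, fun j l hl hne => ?_⟩
      · rw [hE1, if_neg hlf, hE0 x hx l hl hlf]
        exact ⟨0, by simp⟩
      · rw [hEf x hx]
        exact hint x hx
      · simp only [blkT, Trm.cols, Trm.eta] at hne
        by_cases hjB : j ∈ B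
        · rw [if_pos hjB] at hne
          exact Or.inl (ah22_sy j x (f + 1) l hne)
        · rw [if_neg hjB] at hne
          by_cases hjX : j ∈ X
          · rw [hX j hjX] at hne
            exact Or.inl (ah22_sy j x (f + 1) l hne)
          · refine Or.inr (Or.inl (hcol x hx j ?_ l hl hne))
            intro h
            exact (Finset.mem_union.1 h).elim hjB hjX
    · intro x hx
      rw [hsol x hx]
      exact hpos x hx
    · intro x hx
      rw [hsol x hx, hv1 x hx]
      have := hq''pos x hx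
      linarith
  have step2 : (blkT a B f (f + 1) q' T).etaM a (fun _ => f) (fun i => (v i : ℚ)) =
      blkT a (B ∪ X) f (f + 1) q'' (T.eta a f Q) := by
    refine Trm.ext ?_ ?_ ?_
    · funext i
      simp only [blkT, Trm.cols, Trm.eta, Trm.etaM]
      rw [hvres i]
      ring
    · simp only [blkT, Trm.cols, Trm.eta, Trm.etaM]
      simp only [hvres, neg_smul, sub_smul, add_smul, Finset.sum_neg_distrib,
        Finset.sum_sub_distrib, Finset.sum_add_distrib]
      abel
    · funext j
      simp only [blkT, Trm.cols, Trm.eta, Trm.etaM]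
      by_cases hjB : j ∈ B
      · rw [if_pos hjB, if_pos (hBN hjB)]
      · rw [if_neg hjB]
        by_cases hjX : j ∈ X
        · rw [if_pos (Finset.mem_union_right _ hjX), hX j hjX]
        · rw [if_neg (fun h => (Finset.mem_union.1 h).elim hjB hjX)]
  rw [step1, step2]
  refine blk_elT a hs (B ∪ X) hN f (f + 1) hf (Or.inl rfl) q'' hq'' (T.eta a f Q) ?_
  refine ⟨fun x hx l hl => ?_, fun x hx j hj l hl hne => ?_⟩
  · rw [ah22_etaE a hs (B ∪ X) f Q hQ0]
    by_cases hlf : l = f
    · subst hlf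
      rw [if_pos rfl, hQ x hx]
      exact ⟨0, by simp⟩
    · rw [if_neg hlf, hE0 x hx l hl hlf]
      exact ⟨0, by simp⟩
  · exact Or.inl (hcol x hx j hj l hl hne)

end

end Pool.Agent.H46.AH
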