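import Pool.Agent.H46.AH.AH20
import Pool.Agent.H46.AH.AH21
import Pool.Agent.H46.AH.AH22

/-!
KAC ADE, module AH23: pieces for the field `create` of `ClusterVal`.

* `tch a W X` = union of the components of `W` which are adjacent to `X`.  `crQ a W X p` solves `C_{W ∪ X} Q = p` on `X`, `0` on `W`
  (`sol_eq_solN`): every component of `W ∪ X` is a component of `W` not adjacent to `X` (there `Q = 0`) or contains a vertex of `X`
  (there `Q > 0`: `solN_component`, `solN_pos`); the union of the latter is `tch a W X ∪ X` (`comps_adj_set`).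
* `evU_tau`: `patT`/`tauT_eq_patT`, `blkT_union`, the components cover `N`.
* `expl_comps`: `blkT_congr` on the components, `blkT_union`.
* `cr_term`: columns `j ∉ W ∪ X`: `elC` of `(j,k) - ∑_l H l j (l,k-1)` is `(j,k) - ∑_l crH l j (l,k-1)`
  (`elC_add`, `elC_sum`, `elC_sy`; for `x ∈ X` the combination which removes `(x,k-1)` is `∑_y sol(1_x)_y cE a y (k-1)`);
  exponents: `p - C Q`; `γ - (k-1) Q`; columns `j ∈ W \ tch` are zero on both sides, the columns of `tch ∪ X` are replaced.
* `tw_tch`: `clusters_eq_comps`, `comps_tch`, `Finset.prod_ite`; `Blk.cf` of `blkOf` is `w A f`.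
-/

set_option autoImplicit false

namespace Pool.Agent.H46.AH

open scoped BigOperators
open Pool.Agent.H27.KAC Pool.Agent.H40.KADE

section

variable {I : Type} [Fintype I] [DecidableEq I]

open Classical in
/-- the union of the components of `W` adjacent to `X`. -/
noncomputable def tch (a : I → I → ℕ) (W X : Finset I) : Finset I :=
  ((comps a W).filter (fun A => ∃ z ∈ X, ∃ x ∈ A, 0 < a z x)).biUnion id

private theorem ah23_mem (a : I → I → ℕ) (W X : Finset I) (x : I) :
    x ∈ tch a W X ↔ ∃ A ∈ comps a W, (∃ z ∈ X, ∃ y ∈ A, 0 < a z y) ∧ x ∈ A := by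
  classical
  unfold tch
  rw [Finset.mem_biUnion]
  constructor
  · rintro ⟨A, hA, hx⟩
    rw [Finset.mem_filter] at hA
    exact ⟨A, hA.1, hA.2, hx⟩
  · rintro ⟨A, hA, hz, hx⟩
    exact ⟨A, Finset.mem_filter.2 ⟨hA, hz⟩, hx⟩

private theorem ah23_mem_comps (a : I → I → ℕ) (N A : Finset I) :
    A ∈ comps a N ↔ A ⊆ N ∧ ConnS a A ∧ ∀ i ∈ A, ∀ j ∈ N, j ∉ A → a i j = 0 := by
  classical
  unfold comps
  rw [Finset.mem_filter, Finset.mem_powerset]

/-- the union of the untouched components is separated from the union of the touched components. -/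
private theorem ah23_sep1 (a : I → I → ℕ) (hs : ∀ i j, a i j = a j i) (W X : Finset I) (x y : I)
    (hx : x ∈ W \ tch a W X) (hy : y ∈ tch a W X) : a x y = 0 := by
  rw [Finset.mem_sdiff] at hx
  obtain ⟨A, hA, hz, hyA⟩ := (ah23_mem a W X y).1 hy
  rw [hs x y]
  refine comps_sep hA y hyA x hx.1 ?_
  intro hxA
  exact hx.2 ((ah23_mem a W X x).2 ⟨A, hA, hz, hxA⟩)

private theorem ah23_sep2 (a : I → I → ℕ) (hs : ∀ i j, a i j = a j i) (W X : Finset I) (x y : I)
    (hx : x ∈ W \ tch a W X) (hy : y ∈ X) : a x y = 0 := by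
  rw [Finset.mem_sdiff] at hx
  by_contra hne
  obtain ⟨A, hA, hxA⟩ := comps_cover hs x hx.1
  refine hx.2 ((ah23_mem a W X x).2 ⟨A, hA, ⟨y, hy, x, hxA, ?_⟩, hxA⟩)
  rw [hs y x]
  exact Nat.pos_of_ne_zero hne

theorem tch_sub (a : I → I → ℕ) (W X : Finset I) : tch a W X ⊆ W := by
  classical
  intro x hx
  unfold tch at hx
  rw [Finset.mem_biUnion] at hx
  obtain ⟨A, hA, hxA⟩ := hx
  exact comps_subset (Finset.mem_filter.1 hA).1 hxA

theorem tch_sep (a : I → I → ℕ) (hs : ∀ i j, a i j = a j i) (W X : Finset I)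
    (hWX : Disjoint W X) : Sep a (W \ tch a W X) (tch a W X ∪ X) := by
  constructor
  · rw [Finset.disjoint_left]
    intro x hx hx'
    rw [Finset.mem_sdiff] at hx
    rw [Finset.mem_union] at hx'
    rcases hx' with h | h
    · exact hx.2 h
    · exact Finset.disjoint_left.1 hWX hx.1 h
  · intro x hx y hy
    rw [Finset.mem_union] at hy
    rcases hy with h | h
    · exact ah23_sep1 a hs W X x y hx h
    · exact ah23_sep2 a hs W X x y hx h

open Classical in
theorem comps_tch (a : I → I → ℕ) (hs : ∀ i j, a i j = a j i) (W X : Finset I) :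
    comps a (tch a W X) = (comps a W).filter (fun A => ∃ z ∈ X, ∃ x ∈ A, 0 < a z x) := by
  classical
  have h1 : ∀ A ∈ comps a W, (∃ z ∈ X, ∃ x ∈ A, 0 < a z x) → A ∈ comps a (tch a W X) := by
    intro A hA hz
    rw [ah23_mem_comps]
    refine ⟨?_, comps_conn hA, ?_⟩
    · intro x hx
      exact (ah23_mem a W X x).2 ⟨A, hA, hz, hx⟩
    · intro i hi j hj hjA
      exact comps_sep hA i hi j (tch_sub a W X hj) hjA
  ext B
  rw [Finset.mem_filter]
  constructor
  · intro hB
    obtain ⟨x, hx⟩ := (comps_conn hB).1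
    obtain ⟨A, hA, hz, hxA⟩ := (ah23_mem a W X x).1 (comps_subset hB hx)
    have hA' := h1 A hA hz
    have hBA : B = A := by
      by_contra hne
      exact Finset.disjoint_left.1 (comps_disjoint hs hB hA' hne) hx hxA
    rw [hBA]
    exact ⟨hA, hz⟩
  · rintro ⟨hB, hz⟩
    exact h1 B hB hz

theorem comps_untouched (a : I → I → ℕ) (hs : ∀ i j, a i j = a j i) (W X : Finset I)
    (A : Finset I) (hA : A ∈ comps a (W \ tch a W X)) :
    A ∈ comps a W ∧ ∀ z ∈ X, ∀ x ∈ A, a z x = 0 := by
  constructor
  · rw [ah23_mem_comps]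
    refine ⟨(comps_subset hA).trans Finset.sdiff_subset, comps_conn hA, ?_⟩
    intro i hi j hj hjA
    by_cases hjt : j ∈ tch a W X
    · exact ah23_sep1 a hs W X i j (comps_subset hA hi) hjt
    · exact comps_sep hA i hi j (Finset.mem_sdiff.2 ⟨hj, hjt⟩) hjA
  · intro z hz x hx
    rw [hs z x]
    exact ah23_sep2 a hs W X x z (comps_subset hA hx) hz

/-- properties of `Q`. -/
theorem crQ_facts (a : I → I → ℕ) (hs : ∀ i j, a i j = a j i) (W X : Finset I)
    (hWX : Disjoint W X) (hF : FinT a (W ∪ X)) (p : I → ℚ) (hp : ∀ x ∈ X, 0 < p x) :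
    (∀ i, i ∉ tch a W X ∪ X → crQ a W X p i = 0) ∧
      (∀ i ∈ tch a W X ∪ X, 0 < crQ a W X p i) ∧
      (∀ x ∈ X, cv a (crQ a W X p) x = p x) ∧ (∀ x ∈ W, cv a (crQ a W X p) x = 0) ∧
      ∀ x ∈ tch a W X ∪ X, cqN a (tch a W X ∪ X) (crQ a W X p) x = if x ∈ X then p x else 0 := by
  have hFT : FT a (W ∪ X) := FinT_FT a hs hF
  have hXW : ∀ x ∈ W, x ∉ X := fun x hx hx' => Finset.disjoint_left.1 hWX hx hx'
  have hr : ∀ x ∈ W ∪ X, (0 : ℚ) ≤ if x ∈ X then p x else 0 := by
    intro x _
    split_ifs with h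
    · exact (hp x h).le
    · exact le_refl _
  have hQ : crQ a W X p = sol a (W ∪ X) (fun x => if x ∈ X then p x else 0) := rfl
  have hQ' : crQ a W X p = solN a (W ∪ X) (fun x => if x ∈ X then p x else 0) := by
    rw [hQ, sol_eq_solN a hs hF]
  have hnn : ∀ i, 0 ≤ crQ a W X p i := by
    intro i
    rw [hQ]
    exact sol_nonneg a hFT _ hr i
  have hcX : ∀ x ∈ X, cv a (crQ a W X p) x = p x := by
    intro x hx
    rw [hQ, sol_cv a hFT _ x (Finset.mem_union_right _ hx)]
    beta_reduce
    rw [if_pos hx]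
  have hcW : ∀ x ∈ W, cv a (crQ a W X p) x = 0 := by
    intro x hx
    rw [hQ, sol_cv a hFT _ x (Finset.mem_union_left _ hx)]
    beta_reduce
    rw [if_neg (hXW x hx)]
  have hX : ∀ x ∈ X, 0 < crQ a W X p x := by
    intro x hx
    refine sol_pos_of a _ hnn x ?_
    rw [hcX x hx]
    exact hp x hx
  have h0 : ∀ i, i ∉ tch a W X ∪ X → crQ a W X p i = 0 := by
    intro i hi
    rw [Finset.mem_union, not_or] at hi
    by_cases hiW : i ∈ W
    · have hiD : i ∈ W \ tch a W X := Finset.mem_sdiff.2 ⟨hiW, hi.1⟩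
      rw [hQ', solN_component hs hF (Finset.sdiff_subset.trans Finset.subset_union_left)
        (A := W \ tch a W X) ?_ _ i hiD]
      · have hFA : FinT a (W \ tch a W X) :=
          hF.mono (Finset.sdiff_subset.trans Finset.subset_union_left)
        have h1 := solN_unique hs hFA (fun x => if x ∈ X then p x else 0) (fun _ => 0) (by
          intro j hj
          beta_reduce
          rw [if_neg (hXW j (Finset.mem_sdiff.1 hj).1)]
          unfold cqN
          simp) i hiD
        exact h1.symm
      · intro x hx y hy hyA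
        have hy' : y ∈ tch a W X ∪ X := by
          rw [Finset.mem_union] at hy ⊢
          rcases hy with h | h
          · left
            by_contra h'
            exact hyA (Finset.mem_sdiff.2 ⟨h, h'⟩)
          · exact Or.inr h
        exact (tch_sep a hs W X hWX).2 x hx y hy'
    · rw [hQ]
      refine sol_off a _ _ i ?_
      rw [Finset.mem_union, not_or]
      exact ⟨hiW, hi.2⟩
  refine ⟨h0, ?_, hcX, hcW, ?_⟩
  · intro i hi
    rw [Finset.mem_union] at hi
    rcases hi with h | h
    · obtain ⟨A, hA, ⟨z, hz, x, hx, hzx⟩, hiA⟩ := (ah23_mem a W X i).1 h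
      have hA' : A ∈ clusters a W := by
        rw [clusters_eq_comps a hs]
        exact hA
      rcases cl_zero_or a hs hA' (crQ a W X p) hnn hcW with h2 | h2
      · exfalso
        have h3 := cl_zero_nbr a hA' (crQ a W X p) hnn hcW h2 hx (y := z) (by rw [hs x z]; exact hzx)
        exact absurd h3 (hX z hz).ne'
      · exact h2 i hiA
    · exact hX i h
  · intro x hx
    rw [← cv_eq_cqN a (tch a W X ∪ X) (crQ a W X p) h0 x]
    rw [Finset.mem_union] at hx
    by_cases hxX : x ∈ X
    · rw [if_pos hxX, hcX x hxX]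
    · rw [if_neg hxX]
      exact hcW x (tch_sub a W X (hx.resolve_right hxX))

private theorem ah23_mem_foldr (L : List (Finset I)) (x : I) :
    x ∈ L.foldr (fun A S => A ∪ S) ∅ ↔ ∃ A ∈ L, x ∈ A := by
  induction L with
  | nil => simp
  | cons A L ih =>
    rw [List.foldr_cons, Finset.mem_union, ih]
    simp only [List.mem_cons, exists_eq_or_imp]

private theorem ah23_evU (a : I → I → ℕ) (k : ℕ) (q : I → ℚ) (L : List (Finset I))
    (hd : L.Pairwise (fun A B => Disjoint A B)) (T : Trm I) :
    evU a (L.map (fun A => (A, [((1 : ℚ), (⟨fun _ => k, q⟩ : Pat I))]))) T =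
      TV a (tauT a (L.foldr (fun A S => A ∪ S) ∅) k q T) := by
  induction L generalizing T with
  | nil =>
    rw [List.map_nil, evU_nil, List.foldr_nil]
    show TV a T = TV a (blkT a ∅ k (k + 1) q T)
    rw [blkT_empty]
  | cons A L ih =>
    rw [List.pairwise_cons] at hd
    rw [List.map_cons, evU_cons, List.foldr_cons]
    simp only [List.map_cons, List.map_nil, List.sum_cons, List.sum_nil, one_mul, add_zero]
    rw [ih hd.2, ← tauT_eq_patT]
    have hdis : Disjoint (L.foldr (fun A S => A ∪ S) ∅) A := by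
      rw [Finset.disjoint_left]
      intro x hx hxA
      obtain ⟨B, hB, hxB⟩ := (ah23_mem_foldr L x).1 hx
      exact Finset.disjoint_left.1 (hd.1 B hB) hxA hxB
    show TV a (blkT a _ k (k + 1) q (blkT a A k (k + 1) q T)) = TV a (blkT a (A ∪ _) k (k + 1) q T)
    rw [Finset.union_comm A, blkT_union a _ A hdis]

/-- blocks with a common level. -/
theorem evU_tau (a : I → I → ℕ) (hs : ∀ i j, a i j = a j i) (N : Finset I) (k : ℕ) (q : I → ℚ)
    (T : Trm I) :
    evU a ((comps a N).toList.map (fun A => (A, [((1 : ℚ), (⟨fun _ => k, q⟩ : Pat I))]))) T =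
      TV a (tauT a N k q T) := by
  classical
  have hd : (comps a N).toList.Pairwise (fun A B => Disjoint A B) := by
    have hn := (comps a N).nodup_toList
    rw [List.pairwise_iff_getElem]
    intro i j hi hj hij
    refine comps_disjoint hs (Finset.mem_toList.1 (List.getElem_mem hi))
      (Finset.mem_toList.1 (List.getElem_mem hj)) ?_
    intro he
    exact absurd ((hn.getElem_inj_iff).1 he) (by omega)
  rw [ah23_evU a k q _ hd T]
  congr 1
  have h1 : (comps a N).toList.foldr (fun A S => A ∪ S) ∅ = N := by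
    ext x
    rw [ah23_mem_foldr]
    constructor
    · rintro ⟨A, hA, hx⟩
      exact comps_subset (Finset.mem_toList.1 hA) hx
    · intro hx
      obtain ⟨A, hA, hxA⟩ := comps_cover hs x hx
      exact ⟨A, Finset.mem_toList.2 hA, hxA⟩
  rw [h1]

/-- explicit blocks of the components. -/
theorem expl_comps (a : I → I → ℕ) (hs : ∀ i j, a i j = a j i) (N : Finset I) (f : ℕ) (q : I → ℚ)
    (w : Finset I → ℕ → ℚ) (Φ : Finset I → FFn I) (q' : I → ℚ)
    (hq' : ∀ A ∈ comps a N, ∀ x ∈ A, q' x = rp a A q x) (T : Trm I) :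
    TV a (expl a f ((comps a N).toList.map (blkOf a q w f Φ)) T) =
      TV a (blkT a N f (f + 1) q' T) := by
  classical
  have hn := (comps a N).nodup_toList
  have hd : ((comps a N).toList.map (blkOf a q w f Φ)).Pairwise (fun b c => Disjoint b.B c.B) := by
    rw [List.pairwise_map]
    show (comps a N).toList.Pairwise (fun A B => Disjoint A B)
    rw [List.pairwise_iff_getElem]
    intro i j hi hj hij
    refine comps_disjoint hs (Finset.mem_toList.1 (List.getElem_mem hi))
      (Finset.mem_toList.1 (List.getElem_mem hj)) ?_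
    intro he
    exact absurd ((hn.getElem_inj_iff).1 he) (by omega)
  have h1 := expl_merge a f ((comps a N).toList.map (blkOf a q w f Φ)) q' false hd (by
    intro b hb x hx
    rw [List.mem_map] at hb
    obtain ⟨A, hA, rfl⟩ := hb
    exact (hq' A (Finset.mem_toList.1 hA) x hx).symm) (by
    intro b hb
    rw [List.mem_map] at hb
    obtain ⟨A, hA, rfl⟩ := hb
    rfl) T
  have h2 : uniB ((comps a N).toList.map (blkOf a q w f Φ)) = N := by
    ext x
    rw [mem_uniB]
    constructor
    · rintro ⟨b, hb, hx⟩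
      rw [List.mem_map] at hb
      obtain ⟨A, hA, rfl⟩ := hb
      exact comps_subset (Finset.mem_toList.1 hA) hx
    · intro hx
      obtain ⟨A, hA, hxA⟩ := comps_cover hs x hx
      exact ⟨blkOf a q w f Φ A, List.mem_map.2 ⟨A, Finset.mem_toList.2 hA, rfl⟩, hxA⟩
  rw [h1, h2]
  rfl

private theorem ah23_sum_cE (a : I → I → ℕ) (hs : ∀ i j, a i j = a j i) (v : I → ℚ) (k : ℕ) :
    ∑ x, v x • cE a x k = ∑ i, cv a v i • sy i k := by
  unfold cE cv
  simp only [Finset.smul_sum, Finset.sum_smul, smul_smul]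
  rw [Finset.sum_comm]
  refine Finset.sum_congr rfl fun i _ => Finset.sum_congr rfl fun x _ => ?_
  rw [cart_symm a hs x i, mul_comm]

private theorem ah23_blkT_congr (a : I → I → ℕ) (K : Finset I) (k σ : ℕ) (q : I → ℚ)
    (T T' : Trm I) (hγ : T.γ = T'.γ) (hE : T.E = T'.E) (hΛ : ∀ j, j ∉ K → T.Λ j = T'.Λ j) :
    blkT a K k σ q T = blkT a K k σ q T' := by
  unfold blkT
  refine Trm.ext ?_ ?_ ?_
  · show (fun i => T.γ i - _) = (fun i => T'.γ i - _)
    rw [hγ]
  · show T.E - _ = T'.E - _
    rw [hE]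
  · funext i
    show (if i ∈ K then sy i σ else T.Λ i) = if i ∈ K then sy i σ else T'.Λ i
    by_cases hi : i ∈ K
    · rw [if_pos hi, if_pos hi]
    · rw [if_neg hi, if_neg hi, hΛ i hi]

/-- the solution for the column `j`. -/
private theorem ah23_solH (a : I → I → ℕ) (hs : ∀ i j, a i j = a j i) (H : I → I → ℚ)
    (W X : Finset I) (hWX : Disjoint W X) (hF : FinT a (W ∪ X))
    (hH : ∀ l i, l ∈ W ∨ i ∈ W → H l i = 0) (j : I) (l : I) :
    solN a (tch a W X ∪ X) (fun x => H x j) l =
      ∑ x ∈ X, H x j * sol a (W ∪ X) (fun y => if y = x then 1 else 0) l := by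
  classical
  have hFT : FT a (W ∪ X) := FinT_FT a hs hF
  have hKsub : tch a W X ∪ X ⊆ W ∪ X :=
    Finset.union_subset_union (tch_sub a W X) (Finset.Subset.refl X)
  have hFK : FinT a (tch a W X ∪ X) := hF.mono hKsub
  have hXW : ∀ x ∈ W, x ∉ X := fun x hx hx' => Finset.disjoint_left.1 hWX hx hx'
  refine FT_unique a hFT (solN a (tch a W X ∪ X) (fun x => H x j))
    (fun l => ∑ x ∈ X, H x j * sol a (W ∪ X) (fun y => if y = x then 1 else 0) l) ?_ ?_ l
  · intro x hx
    rw [solN_out a _ _ x (fun h => hx (hKsub h))]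
    symm
    refine Finset.sum_eq_zero fun y _ => ?_
    rw [sol_off a _ _ x hx, mul_zero]
  · intro x hx
    have h2 : cv a (fun l => ∑ x ∈ X, H x j * sol a (W ∪ X) (fun y => if y = x then 1 else 0) l) x =
        H x j := by
      rw [cv_sum a X (fun x l => H x j * sol a (W ∪ X) (fun y => if y = x then 1 else 0) l) x]
      have h3 : ∀ t ∈ X, cv a (fun l => H t j * sol a (W ∪ X) (fun y => if y = t then 1 else 0) l) x =
          if x = t then H t j else 0 := by
        intro t _
        rw [cv_smul, sol_cv a hFT _ x hx]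
        beta_reduce
        split_ifs <;> ring
      rw [Finset.sum_congr rfl h3, Finset.sum_ite_eq]
      split_ifs with h
      · rfl
      · rw [Finset.mem_union] at hx
        exact (hH x j (Or.inl (hx.resolve_right h))).symm
    rw [h2]
    rw [cv_eq_cqN a (tch a W X ∪ X) _ (fun y hy => solN_out a _ _ y hy) x]
    by_cases hxK : x ∈ tch a W X ∪ X
    · rw [solN_spec hs hFK _ x hxK]
    · rw [Finset.mem_union, not_or] at hxK
      have hxW : x ∈ W := (Finset.mem_union.1 hx).resolve_right hxK.2
      rw [hH x j (Or.inl hxW)]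
      unfold cqN
      refine Finset.sum_eq_zero fun y hy => ?_
      have hsep := tch_sep a hs W X hWX
      have hxD : x ∈ W \ tch a W X := Finset.mem_sdiff.2 ⟨hxW, hxK.1⟩
      have hxy : x ≠ y := by
        rintro rfl
        exact Finset.disjoint_left.1 hsep.1 hxD hy
      rw [cart_ne a hxy, hsep.2 x hxD y hy]
      simp

private theorem ah23_col (a : I → I → ℕ) (hs : ∀ i j, a i j = a j i) (k : ℕ) (hk : 1 ≤ k)
    (H : I → I → ℚ) (W X : Finset I) (hWX : Disjoint W X) (hF : FinT a (W ∪ X))
    (hH : ∀ l i, l ∈ W ∨ i ∈ W → H l i = 0) (j : I) (hj : j ∉ W ∪ X) :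
    elC a (tch a W X ∪ X) (k - 1) (stCol k idm H W j) =
      stCol k idm (crH a W X H) (W ∪ X) j := by
  classical
  have hFT : FT a (W ∪ X) := FinT_FT a hs hF
  have hKsub : tch a W X ∪ X ⊆ W ∪ X :=
    Finset.union_subset_union (tch_sub a W X) (Finset.Subset.refl X)
  have hFK : FinT a (tch a W X ∪ X) := hF.mono hKsub
  have hXW : ∀ x ∈ W, x ∉ X := fun x hx hx' => Finset.disjoint_left.1 hWX hx hx'
  have hjW : j ∉ W := fun h => hj (Finset.mem_union_left _ h)
  have hjX : j ∉ X := fun h => hj (Finset.mem_union_right _ h)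
  have hkk : k ≠ k - 1 := by omega
  -- the column
  have hcol : stCol k idm H W j = sy j k - ∑ l, H l j • sy l (k - 1) := by
    unfold stCol
    rw [if_neg hjW, Finset.sum_sub_distrib]
    congr 1
    · rw [Finset.sum_eq_single j]
      · unfold idm
        rw [if_pos rfl, one_smul]
      · intro l _ hl
        unfold idm
        rw [if_neg hl, zero_smul]
      · intro h
        exact absurd (Finset.mem_sdiff.2 ⟨Finset.mem_univ j, hjW⟩) h
    · refine Finset.sum_subset (Finset.subset_univ _) ?_
      intro l _ hl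
      have hlW : l ∈ W := by
        by_contra h
        exact hl (Finset.mem_sdiff.2 ⟨Finset.mem_univ l, h⟩)
      rw [hH l j (Or.inl hlW), zero_smul]
  have hcol' : stCol k idm (crH a W X H) (W ∪ X) j =
      sy j k - ∑ l, crH a W X H l j • sy l (k - 1) := by
    unfold stCol
    rw [if_neg hj, Finset.sum_sub_distrib]
    congr 1
    · rw [Finset.sum_eq_single j]
      · unfold idm
        rw [if_pos rfl, one_smul]
      · intro l _ hl
        unfold idm
        rw [if_neg hl, zero_smul]
      · intro h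
        exact absurd (Finset.mem_sdiff.2 ⟨Finset.mem_univ j, hj⟩) h
    · refine Finset.sum_subset (Finset.subset_univ _) ?_
      intro l _ hl
      have hlW : l ∈ W ∪ X := by
        by_contra h
        exact hl (Finset.mem_sdiff.2 ⟨Finset.mem_univ l, h⟩)
      unfold crH
      rw [if_pos (Or.inl hlW), zero_smul]
  -- the coefficients on `K`
  have hcoef : ∀ x ∈ tch a W X ∪ X, -(stCol k idm H W j) (x, k - 1) = H x j := by
    intro x hx
    have hxj : x ≠ j := by
      rintro rfl
      exact hj (hKsub hx)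
    rw [hcol, Finsupp.sub_apply, Finsupp.finsetSum_apply, Finset.sum_eq_single x]
    · rw [Finsupp.smul_apply, Finsupp.single_apply, Finsupp.single_apply, if_pos rfl, if_neg]
      · simp
      · intro h
        exact hkk (congrArg Prod.snd h)
    · intro l _ hl
      rw [Finsupp.smul_apply, Finsupp.single_apply, if_neg, smul_zero]
      intro h
      exact hl (congrArg Prod.fst h)
    · intro h
      exact absurd (Finset.mem_univ x) h
  have hsol : solN a (tch a W X ∪ X) (fun x => -(stCol k idm H W j) (x, k - 1)) =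
      solN a (tch a W X ∪ X) (fun x => H x j) := solN_congr hs hFK _ _ hcoef
  unfold elC
  rw [hsol]
  have hsum : ∑ y ∈ tch a W X ∪ X, solN a (tch a W X ∪ X) (fun x => H x j) y • cE a y (k - 1) =
      ∑ y, solN a (tch a W X ∪ X) (fun x => H x j) y • cE a y (k - 1) := by
    refine Finset.sum_subset (Finset.subset_univ _) ?_
    intro y _ hy
    rw [solN_out a _ _ y hy, zero_smul]
  rw [hsum, ah23_sum_cE a hs, hcol, hcol', sub_add, ← Finset.sum_sub_distrib]
  congr 1
  refine Finset.sum_congr rfl fun l _ => ?_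
  rw [← sub_smul]
  congr 1
  have hS : (solN a (tch a W X ∪ X) (fun x => H x j)) =
      fun l => ∑ x ∈ X, H x j * sol a (W ∪ X) (fun y => if y = x then 1 else 0) l :=
    funext fun l => ah23_solH a hs H W X hWX hF hH j l
  by_cases hl : l ∈ W ∪ X
  · unfold crH
    rw [if_pos (Or.inl hl), hS, cv_sum a X
      (fun x l => H x j * sol a (W ∪ X) (fun y => if y = x then 1 else 0) l) l]
    have h3 : ∀ t ∈ X, cv a (fun l => H t j * sol a (W ∪ X) (fun y => if y = t then 1 else 0) l) l =
        if l = t then H t j else 0 := by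
      intro t _
      rw [cv_smul, sol_cv a hFT _ l hl]
      beta_reduce
      split_ifs <;> ring
    rw [Finset.sum_congr rfl h3, Finset.sum_ite_eq]
    split_ifs with h
    · ring
    · rw [Finset.mem_union] at hl
      rw [hH l j (Or.inl (hl.resolve_right h))]
      ring
  · unfold crH
    rw [if_neg (by
      rintro (h | h)
      · exact hl h
      · exact hj h), hS, cv_sum a X
      (fun x l => H x j * sol a (W ∪ X) (fun y => if y = x then 1 else 0) l) l]
    congr 1
    refine Finset.sum_congr rfl fun t _ => ?_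
    rw [cv_smul, mul_comm]

/-- the term of the new state. -/
theorem cr_term (a : I → I → ℕ) (hs : ∀ i j, a i j = a j i) (k : ℕ) (hk : 1 ≤ k) (γ P p : I → ℚ)
    (H : I → I → ℚ) (W X : Finset I) (hWX : Disjoint W X) (hF : FinT a (W ∪ X))
    (hp : ∀ x ∈ X, 0 < p x) (hp0 : ∀ x ∈ W, p x = 0)
    (hH : ∀ l i, l ∈ W ∨ i ∈ W → H l i = 0) (q'' : I → ℚ) :
    blkT a (tch a W X ∪ X) (k - 1) k q''
        (elT a (tch a W X ∪ X) (k - 1)
          (((stTrm k γ P p idm H W).cols X (fun x => sy x k)).eta a (k - 1) (crQ a W X p))) =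
      blkT a (tch a W X ∪ X) (k - 1) k q''
        (stTrm k (crG k γ (crQ a W X p)) P (crp a p (crQ a W X p)) idm (crH a W X H) (W ∪ X)) := by
  classical
  set K := tch a W X ∪ X with hK
  have hFT : FT a (W ∪ X) := FinT_FT a hs hF
  have hKsub : K ⊆ W ∪ X := Finset.union_subset_union (tch_sub a W X) (Finset.Subset.refl X)
  have hFK : FinT a K := hF.mono hKsub
  have hXW : ∀ x ∈ W, x ∉ X := fun x hx hx' => Finset.disjoint_left.1 hWX hx hx'
  refine ah23_blkT_congr a K (k - 1) k q'' _ _ ?_ ?_ ?_
  · funext i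
    show γ i - ((k - 1 : ℕ) : ℚ) * crQ a W X p i = γ i - ((k : ℚ) - 1) * crQ a W X p i
    rw [Nat.cast_sub hk, Nat.cast_one]
  · show stE k P p - ∑ x, crQ a W X p x • cE a x (k - 1) = stE k P (crp a p (crQ a W X p))
    rw [ah23_sum_cE a hs]
    unfold stE crp
    rw [← Finset.sum_sub_distrib]
    refine Finset.sum_congr rfl fun i _ => ?_
    rw [sub_smul]
    abel
  · intro j hj
    have hjX : j ∉ X := fun h => hj (Finset.mem_union_right _ h)
    show (if j ∈ K then (0 : QE I) else elC a K (k - 1) (if j ∈ X then sy j k else stCol k idm H W j)) =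
      stCol k idm (crH a W X H) (W ∪ X) j
    rw [if_neg hj, if_neg hjX]
    by_cases hjW : j ∈ W
    · unfold stCol
      rw [if_pos hjW, if_pos (Finset.mem_union_left _ hjW)]
      exact elC_zero a hs K hFK (k - 1)
    · have hjWX : j ∉ W ∪ X := by
        rw [Finset.mem_union, not_or]
        exact ⟨hjW, hjX⟩
      exact ah23_col a hs k hk H W X hWX hF hH j hjWX

/-- the product of the weights. -/
theorem tw_tch (a : I → I → ℕ) (hs : ∀ i j, a i j = a j i) (W X : Finset I)
    (hWX : Disjoint W X) (hF : FinT a (W ∪ X)) (p : I → ℚ) (hp : ∀ x ∈ X, 0 < p x)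
    (w : Finset I → ℕ → ℚ) (f : ℕ) (q : I → ℚ) (Φ : Finset I → FFn I) :
    tw a W w f (crQ a W X p) =
      (((comps a (tch a W X)).toList.map (blkOf a q w f Φ)).map Blk.cf).prod := by
  classical
  obtain ⟨h0, hpos, _, _, _⟩ := crQ_facts a hs W X hWX hF p hp
  have h1 : (((comps a (tch a W X)).toList.map (blkOf a q w f Φ)).map Blk.cf).prod =
      ∏ A ∈ comps a (tch a W X), w A f := by
    rw [List.map_map, ← Finset.prod_map_toList]
    congr 1
    refine List.map_congr_left fun A _ => ?_
    show (if false = true then (-1 : ℚ) ^ A.card else 1) * w A f = w A f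
    rw [if_neg (by decide), one_mul]
  rw [h1, comps_tch a hs, Finset.prod_filter]
  unfold tw
  rw [clusters_eq_comps a hs]
  refine Finset.prod_congr rfl fun N hN => ?_
  obtain ⟨x0, hx0⟩ := (comps_conn hN).1
  by_cases hz : ∃ z ∈ X, ∃ x ∈ N, 0 < a z x
  · rw [if_pos hz, if_neg]
    intro h
    have h2 := hpos x0 (Finset.mem_union_left _ ((ah23_mem a W X x0).2 ⟨N, hN, hz, hx0⟩))
    rw [h x0 hx0] at h2
    exact lt_irrefl _ h2
  · rw [if_neg hz, if_pos]
    intro x hx
    refine h0 x ?_
    rw [Finset.mem_union, not_or]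
    constructor
    · intro hxt
      obtain ⟨A, hA, hz', hxA⟩ := (ah23_mem a W X x).1 hxt
      have hAN : A = N := by
        by_contra hne
        exact Finset.disjoint_left.1 (comps_disjoint hs hA hN hne) hxA hx
      rw [hAN] at hz'
      exact hz hz'
    · intro hxX
      exact Finset.disjoint_left.1 hWX (comps_subset hN hx) hxX

end

end Pool.Agent.H46.AH
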