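import Pool.Agent.H46.AH.AH23

/-!
KAC ADE, module AH24: the field `create` of `ClusterVal`.

PROOF.  `f = k - 1 ≥ 1`, `X = crX W P`, `Q = crQ a W X p` (`sol_eq_solN`), `T0 = stTrm k γ P p idm H W`,
`Wt` = union of the components of `W` which are adjacent to `X` (`tch`), `Wu = W \ Wt`, `N' = Wt ∪ X`; `Wu` and `N'` are
separated, `Q = 0` on `Wu`, `Q > 0` on `N'` (`crQ_facts`).
1. `drop_cols` (AH20): `T0' = T0.cols X (sy x k)`.
2. `evU_union` for `W = Wu ∪ Wt`, `evU_append`: the blocks of `Wu` outermost, patterns `π`; on `patT a Wu π T0'` apply `conv_all`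
   (AH21) with `V = ∅` to the blocks `blkOf a q w f _ A`, `A ∈ comps a Wt` (product of the coefficients = `tw`), and `expl_comps`.
3. `merge` (AH22) for `B = Wt`, `T = patT a Wu π T0'`, `q'' = rp a N' (q + Q)`; `elT_patT`, `patT_etaM_comm`, `blkT_patT_comm` move the
   pattern outside again.
4. Right hand side: `comps a (W ∪ X) = comps a Wu ∪ comps a N'`; on `A ∈ comps a Wu` the data are `q`, `w A`; on
   `B ∈ comps a N'` the response is `fun l => cn a cd B (q + Q) (f - l)`, with functional `[(1, ⟨f, q''⟩)]` by `IsRF_L`; the choice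
   does not matter (`evU_RF`); `evU_tau` collects the blocks of `N'`; the terms agree by `cr_term`.
-/

set_option autoImplicit false

namespace Pool.Agent.H46.AH

open scoped BigOperators
open Pool.Agent.H27.KAC Pool.Agent.H40.KADE

section

variable {I : Type} [Fintype I] [DecidableEq I]

private theorem c24_cqN_sep (a : I → I → ℕ) {A B : Finset I} (h : Sep a A B) (v : I → ℚ) (x : I)
    (hx : x ∈ A) : cqN a (A ∪ B) v x = cqN a A v x := by
  unfold cqN
  rw [Finset.sum_union h.1]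
  have h0 : ∑ j ∈ B, (cart a x j : ℚ) * v j = 0 := by
    refine Finset.sum_eq_zero fun j hj => ?_
    have hne : x ≠ j := fun e => Finset.disjoint_left.1 h.1 hx (e ▸ hj)
    rw [cart_ne a hne, h.2 x hx j hj]
    simp
  rw [h0, add_zero]

private theorem c24_cqN_out (a : I → I → ℕ) {W : Finset I} (v : I → ℚ) {z : I} (hz : z ∉ W) :
    cqN a W v z = -∑ x ∈ W, (a z x : ℚ) * v x := by
  unfold cqN
  rw [← Finset.sum_neg_distrib]
  refine Finset.sum_congr rfl fun x hx => ?_
  have hne : z ≠ x := fun e => hz (e ▸ hx)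
  rw [cart_ne a hne]
  push_cast
  ring

private theorem c24_pw (a : I → I → ℕ) (hs : ∀ i j, a i j = a j i) (N : Finset I) :
    (comps a N).toList.Pairwise (fun A B => Sep a A B) := by
  refine List.Pairwise.imp_of_mem ?_ (comps a N).nodup_toList
  intro A B hA hB hAB
  have hA' := Finset.mem_toList.1 hA
  have hB' := Finset.mem_toList.1 hB
  exact ⟨comps_disjoint hs hA' hB' hAB, comps_nonadj hs hA' hB' hAB⟩

open Classical in
private theorem c24_glue (a : I → I → ℕ) (hs : ∀ i j, a i j = a j i) (N : Finset I)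
    (g : Finset I → I → ℚ) :
    ∃ q' : I → ℚ, ∀ A ∈ comps a N, ∀ x ∈ A, q' x = g A x := by
  refine ⟨fun x => if h : ∃ A ∈ comps a N, x ∈ A then g h.choose x else 0, fun A hA x hx => ?_⟩
  have h : ∃ A ∈ comps a N, x ∈ A := ⟨A, hA, hx⟩
  have he : h.choose = A := by
    by_contra hne
    exact Finset.disjoint_left.1 (comps_disjoint hs h.choose_spec.1 hA hne) h.choose_spec.2 hx
  show (if h : ∃ A ∈ comps a N, x ∈ A then g h.choose x else 0) = g A x
  rw [dif_pos h, he]

private theorem c24_sum (a : I → I → ℕ) (hs : ∀ i j, a i j = a j i) (N : Finset I) (g : I → ℚ) :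
    ((comps a N).toList.map (fun A => ∑ x ∈ A, g x)).sum = ∑ x ∈ N, g x := by
  rw [Finset.sum_map_toList]
  have h1 : (comps a N).biUnion (fun A => A) = N := by
    ext x
    rw [Finset.mem_biUnion]
    refine ⟨fun ⟨A, hA, hx⟩ => comps_subset hA hx, fun hx => ?_⟩
    exact comps_cover hs x hx
  have h2 : ((comps a N : Finset (Finset I)) : Set (Finset I)).PairwiseDisjoint (fun A => A) :=
    fun A hA B hB hAB => comps_disjoint hs hA hB hAB
  have h3 := Finset.sum_biUnion (f := g) h2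
  rw [h1] at h3
  exact h3.symm

private theorem c24_stCol (k : ℕ) (H : I → I → ℚ) (W : Finset I) (j : I) (hj : j ∉ W) :
    stCol k idm H W j = sy j k - ∑ l ∈ Finset.univ \ W, H l j • sy l (k - 1) := by
  unfold stCol
  rw [if_neg hj, Finset.sum_sub_distrib]
  congr 1
  rw [Finset.sum_eq_single j]
  · unfold idm
    rw [if_pos rfl, one_smul]
  · intro l _ hl
    unfold idm
    rw [if_neg hl, zero_smul]
  · intro h
    exact absurd (Finset.mem_sdiff.2 ⟨Finset.mem_univ j, hj⟩) h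

private theorem c24_low (k : ℕ) (H : I → I → ℚ) (W : Finset I) (j i : I) (l : ℕ)
    (h : (∑ l ∈ Finset.univ \ W, H l j • sy l (k - 1) : QE I) (i, l) ≠ 0) :
    l = k - 1 ∧ i ∉ W := by
  rw [Finsupp.finsetSum_apply] at h
  obtain ⟨m, hm, hne⟩ := Finset.exists_ne_zero_of_sum_ne_zero h
  by_cases he : (m, k - 1) = (i, l)
  · have h1 : m = i := congrArg Prod.fst he
    have h2 : k - 1 = l := congrArg Prod.snd he
    exact ⟨h2.symm, h1 ▸ (Finset.mem_sdiff.1 hm).2⟩
  · exfalso
    apply hne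
    rw [Finsupp.smul_apply, Finsupp.single_apply, if_neg he, smul_zero]

private theorem c24_col (k : ℕ) (H : I → I → ℚ) (W : Finset I) (j i : I) (hj : j ∉ W) (l : ℕ)
    (h : stCol k idm H W j (i, l) ≠ 0) : (j = i ∧ l = k) ∨ (l = k - 1 ∧ i ∉ W) := by
  rw [c24_stCol k H W j hj, Finsupp.sub_apply] at h
  by_cases he : (j, k) = (i, l)
  · exact Or.inl ⟨congrArg Prod.fst he, (congrArg Prod.snd he).symm⟩
  · rw [Finsupp.single_apply, if_neg he, zero_sub, neg_ne_zero] at h
    exact Or.inr (c24_low k H W j i l h)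

private theorem c24_symne (j i : I) (k l : ℕ) (hji : j ≠ i) : (sy j k : QE I) (i, l) = 0 := by
  rw [Finsupp.single_apply, if_neg (fun e => hji (congrArg Prod.fst e))]

private theorem c24_zadd {p q : ℚ} (hp : IsZ p) (hq : IsZ q) : IsZ (p + q) := by
  obtain ⟨m, rfl⟩ := hp
  obtain ⟨n, rfl⟩ := hq
  exact ⟨m + n, by push_cast; rfl⟩

private theorem c24_zsub {p q : ℚ} (hp : IsZ p) (hq : IsZ q) : IsZ (p - q) := by
  obtain ⟨m, rfl⟩ := hp
  obtain ⟨n, rfl⟩ := hq
  exact ⟨m - n, by push_cast; rfl⟩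

private theorem c24_zneg {p : ℚ} (hp : IsZ p) : IsZ (-p) := by
  obtain ⟨m, rfl⟩ := hp
  exact ⟨-m, by push_cast; rfl⟩

private theorem c24_zsum (A : Finset I) (c : I → ℕ) (v : I → ℚ) (h : ∀ x ∈ A, IsZ (v x)) :
    IsZ (∑ x ∈ A, (c x : ℚ) * v x) := by
  classical
  refine ⟨∑ x ∈ A, (c x : ℤ) * (if hx : x ∈ A then (h x hx).choose else 0), ?_⟩
  push_cast
  refine Finset.sum_congr rfl fun x hx => ?_
  rw [dif_pos hx]
  rw [← (h x hx).choose_spec]

/-- the term with the new columns. -/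
private theorem c24_patΛ (a : I → I → ℕ) (k : ℕ) (γ P p : I → ℚ) (H : I → I → ℚ)
    (W U X : Finset I) (π : Pat I) (hUX : Disjoint U X) (x : I) (hx : x ∈ X) :
    (patT a U π ((stTrm k γ P p idm H W).cols X (fun x => sy x k))).Λ x = sy x k := by
  rw [patT_Λ, if_neg (fun h => Finset.disjoint_left.1 hUX h hx)]
  exact if_pos hx

private theorem c24_patΛ' (a : I → I → ℕ) (k : ℕ) (γ P p : I → ℚ) (H : I → I → ℚ)
    (W U X : Finset I) (π : Pat I) (j x : I) (hjx : j ≠ x) (hj : j ∉ W \ U) (l : ℕ)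
    (h : (patT a U π ((stTrm k γ P p idm H W).cols X (fun x => sy x k))).Λ j (x, l) ≠ 0) :
    l = k - 1 ∧ j ∉ X ∧ x ∉ W := by
  rw [patT_Λ] at h
  by_cases hjU : j ∈ U
  · rw [if_pos hjU, c24_symne _ _ _ _ hjx] at h
    exact absurd rfl h
  · rw [if_neg hjU] at h
    have hjW : j ∉ W := fun hw => hj (Finset.mem_sdiff.2 ⟨hw, hjU⟩)
    change (if j ∈ X then sy j k else stCol k idm H W j) (x, l) ≠ 0 at h
    by_cases hjX : j ∈ X
    · rw [if_pos hjX, c24_symne _ _ _ _ hjx] at h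
      exact absurd rfl h
    · rw [if_neg hjX] at h
      rcases c24_col k H W j x hjW l h with h1 | h1
      · exact absurd h1.1 hjx
      · exact ⟨h1.1, hjX, h1.2⟩

/-- the class is a weight. -/
private theorem c24_wt (a : I → I → ℕ) (P p q : I → ℚ) (x : I) (hP : P x = 0)
    (h : ∃ z : ℤ, P x - p x - cv a q x = z) : IsZ (cv a q x + p x) := by
  obtain ⟨z, hz⟩ := h
  refine ⟨-z, ?_⟩
  push_cast
  rw [← hz, hP]
  ring

open Classical in
/-- one pattern. -/
private theorem c24_pat (a : I → I → ℕ) (hs : ∀ i j, a i j = a j i) (cd : CrossData a)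
    (k : ℕ) (γ P p : I → ℚ) (H : I → I → ℚ) (W X : Finset I) (q : I → ℚ)
    (w : Finset I → ℕ → ℚ) (hk : 2 ≤ k) (Φ : Finset I → FFn I)
    (hWX : Disjoint W X) (hN : FinT a (W ∪ X)) (hq0 : ∀ i, i ∉ W → q i = 0)
    (hP0 : ∀ x ∈ W ∪ X, P x = 0) (hp0 : ∀ x ∈ W, p x = 0) (hX : ∀ x ∈ X, 0 < p x)
    (hint : ∀ i, ∃ z : ℤ, P i - p i - cv a q i = z)
    (hΦ : ∀ A ∈ comps a W, IsRF a cd A q (w A) (k - 1) (Φ A))
    (hH : ∀ l i, l ∈ W ∨ i ∈ W → H l i = 0) (π : Pat I) :
    evU a ((comps a (tch a W X)).toList.map (fun A => (A, Φ A)))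
        (patT a (W \ tch a W X) π ((stTrm k γ P p idm H W).cols X (fun x => sy x k))) =
      tw a W w (k - 1) (crQ a W X p) *
        TV a (patT a (W \ tch a W X) π
          (tauT a (tch a W X ∪ X) (k - 1)
            (rp a (tch a W X ∪ X) (crq q (crQ a W X p)))
            (stTrm k (crG k γ (crQ a W X p)) P (crp a p (crQ a W X p)) idm (crH a W X H)
              (W ∪ X)))) := by
  obtain ⟨Wt, hWt⟩ : ∃ Wt, Wt = tch a W X := ⟨_, rfl⟩
  obtain ⟨Q, hQd⟩ : ∃ Q, Q = crQ a W X p := ⟨_, rfl⟩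
  have hW : FinT a W := hN.mono Finset.subset_union_left
  have hf1 : 1 ≤ k - 1 := by omega
  have hfk : k - 1 + 1 = k := by omega
  have hsub : Wt ⊆ W := hWt ▸ tch_sub a W X
  have hsep : Sep a (W \ Wt) (Wt ∪ X) := hWt ▸ tch_sep a hs W X hWX
  have hsepsym : Sep a (Wt ∪ X) (W \ Wt) := hsep.symm hs
  have hcomps : ∀ A ∈ comps a Wt, A ∈ comps a W ∧ ∃ z ∈ X, ∃ x ∈ A, 0 < a z x := by
    intro A hA
    rw [hWt, comps_tch a hs W X, Finset.mem_filter] at hA
    exact hA
  obtain ⟨hQ0, hQpos, hQX, hQW, hQN⟩ := crQ_facts a hs W X hWX hN p hX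
  rw [← hWt, ← hQd] at hQ0 hQpos hQN
  rw [← hQd] at hQX hQW
  rw [← hWt, ← hQd]
  have hWu : (W \ Wt) ∪ Wt = W := Finset.sdiff_union_of_subset hsub
  have hdX : Disjoint Wt X := Finset.disjoint_of_subset_left hsub hWX
  have hUX : Disjoint (W \ Wt) X := Finset.disjoint_of_subset_left Finset.sdiff_subset hWX
  have hN' : FinT a (Wt ∪ X) := hN.mono (Finset.union_subset_union_left hsub)
  -- `C q`
  have hcvN : ∀ x ∈ Wt ∪ X, cqN a (Wt ∪ X) q x = cv a q x := by
    intro x hx
    have h1 : cqN a ((Wt ∪ X) ∪ (W \ Wt)) q x = cqN a (Wt ∪ X) q x :=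
      c24_cqN_sep a hsepsym q x hx
    rw [← h1]
    refine (cv_eq_cqN a _ q (fun y hy => hq0 y (fun hw => hy ?_)) x).symm
    by_cases hyt : y ∈ Wt
    · exact Finset.mem_union_left _ (Finset.mem_union_left _ hyt)
    · exact Finset.mem_union_right _ (Finset.mem_sdiff.2 ⟨hw, hyt⟩)
  have hcvW : ∀ x, cv a q x = cqN a W q x := fun x => cv_eq_cqN a W q hq0 x
  have hqW : ∀ x ∈ W, IsZ (cqN a W q x) := by
    intro x hx
    have h1 := c24_wt a P p q x (hP0 x (Finset.mem_union_left _ hx)) (hint x)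
    rwa [hp0 x hx, add_zero, hcvW] at h1
  have hqX : ∀ z ∈ X, IsZ (p z - ∑ x ∈ W, (a z x : ℚ) * q x) := by
    intro z hz
    have h1 := c24_wt a P p q z (hP0 z (Finset.mem_union_right _ hz)) (hint z)
    have h2 := c24_cqN_out a q (fun hw => Finset.disjoint_left.1 hWX hw hz)
    rw [hcvW, h2] at h1
    have h3 : p z - ∑ x ∈ W, (a z x : ℚ) * q x = -∑ x ∈ W, (a z x : ℚ) * q x + p z := by ring
    rw [h3]
    exact h1
  -- the representative on the touched components
  obtain ⟨q', hq'⟩ := c24_glue a hs Wt (fun A => rp a A q)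
  have hrpA : ∀ A ∈ comps a Wt, Rep a A q (rp a A q) := by
    intro A hA
    refine rp_spec a hs A (hW.mono (comps_subset (hcomps A hA).1)) q (fun x hx => ?_)
    rw [cqN_comp a W A (hcomps A hA).1 q x hx]
    exact hqW x (comps_subset (hcomps A hA).1 hx)
  have hq'Z : ∀ x ∈ Wt, IsZ (q' x - q x) := by
    intro x hx
    obtain ⟨A, hA, hxA⟩ := comps_cover hs x hx
    rw [hq' A hA x hxA]
    exact (hrpA A hA).2 x hxA
  have hq'ok : QOk a Wt q' := by
    intro x hx
    obtain ⟨A, hA, hxA⟩ := comps_cover hs x hx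
    obtain ⟨n, hn, h1⟩ := (hrpA A hA).1 x hxA
    refine ⟨n, hn, ?_⟩
    rw [← h1, ← cqN_comp a Wt A hA q' x hxA]
    unfold cqN
    exact Finset.sum_congr rfl fun j hj => by rw [hq' A hA j hj]
  -- the new representative
  obtain ⟨q'', hq''⟩ : ∃ q'', q'' = rp a (Wt ∪ X) (crq q Q) := ⟨_, rfl⟩
  have hQNp : ∀ x ∈ Wt ∪ X, cqN a (Wt ∪ X) Q x = p x := by
    intro x hx
    rw [hQN x hx]
    by_cases hxX : x ∈ X
    · rw [if_pos hxX]
    · rw [if_neg hxX]
      rcases Finset.mem_union.1 hx with h1 | h1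
      · rw [hp0 x (hsub h1)]
      · exact absurd h1 hxX
  have hrep : Rep a (Wt ∪ X) (crq q Q) q'' := by
    rw [hq'']
    refine rp_spec a hs _ hN' _ (fun x hx => ?_)
    have h1 : cqN a (Wt ∪ X) (crq q Q) x = cqN a (Wt ∪ X) q x + cqN a (Wt ∪ X) Q x := by
      unfold cqN crq
      rw [← Finset.sum_add_distrib]
      exact Finset.sum_congr rfl fun j _ => by ring
    rw [h1, hcvN x hx, hQNp x hx]
    refine c24_wt a P p q x (hP0 x ?_) (hint x)
    exact Finset.union_subset_union_left hsub hx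
  rw [← hq'']
  -- the term
  obtain ⟨T0, hT0⟩ : ∃ T0, T0 = (stTrm k γ P p idm H W).cols X (fun x => sy x k) := ⟨_, rfl⟩
  obtain ⟨T, hT⟩ : ∃ T, T = patT a (W \ Wt) π T0 := ⟨_, rfl⟩
  rw [← hT0, ← hT]
  have hk1 : 1 ≤ k := by omega
  have hE0 : ∀ x ∈ W ∪ X, ∀ l, 1 ≤ l → l ≠ k - 1 → T0.E (x, l) = 0 := by
    intro x hx l _ hl
    rw [hT0]
    change (stTrm k γ P p idm H W).E (x, l) = 0
    rw [stTrm_E a k hk1 γ P p idm H W x l, hP0 x hx, if_neg (show l + 1 ≠ k by omega)]
    simp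
  have hE1 : ∀ x, T0.E (x, k - 1) = p x := by
    intro x
    rw [hT0]
    change (stTrm k γ P p idm H W).E (x, k - 1) = p x
    rw [stTrm_E a k hk1 γ P p idm H W x (k - 1), if_neg (show k - 1 ≠ k by omega), if_pos hfk,
      zero_add]
  have hTE : ∀ x ∈ Wt ∪ X, ∀ l, T.E (x, l) = T0.E (x, l) := by
    intro x hx l
    rw [hT]
    exact (E_patT_sep a hs _ _ hsepsym π T0 x hx l).1
  have hsubN : Wt ∪ X ⊆ W ∪ X := Finset.union_subset_union_left hsub
  have hRT0 : RReg W T0 := by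
    refine ⟨fun x hx l hl => ?_, fun x hx j hj l hl hne => ?_⟩
    · by_cases hlf : l = k - 1
      · rw [hlf, hE1, hp0 x hx]
        exact ⟨0, by norm_num⟩
      · rw [hE0 x (Finset.mem_union_left _ hx) l hl hlf]
        exact ⟨0, by norm_num⟩
    · exfalso
      rw [hT0] at hne
      change (if j ∈ X then sy j k else stCol k idm H W j) (x, l) ≠ 0 at hne
      have hjx : j ≠ x := fun e => hj (e ▸ hx)
      by_cases hjX : j ∈ X
      · rw [if_pos hjX, c24_symne _ _ _ _ hjx] at hne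
        exact absurd rfl hne
      · rw [if_neg hjX] at hne
        rcases c24_col k H W j x hj l hne with h1 | h1
        · exact hjx h1.1
        · exact h1.2 hx
  have hRT : RReg Wt T := by
    rw [hT]
    refine RReg_patT a hs Wt (W \ Wt) Finset.sdiff_disjoint.symm π
      (fun x hx y hy _ => hsepsym.2 x (Finset.mem_union_left _ hx) y hy) T0 ?_
    rw [Finset.union_sdiff_of_subset hsub]
    exact hRT0
  -- conversion
  obtain ⟨L, hL⟩ : ∃ L, L = (comps a Wt).toList.map (blkOf a q w (k - 1) Φ) := ⟨_, rfl⟩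
  have hLmem : ∀ b ∈ L, ∃ A ∈ comps a Wt, b = blkOf a q w (k - 1) Φ A := by
    intro b hb
    rw [hL, List.mem_map] at hb
    obtain ⟨A, hA, h1⟩ := hb
    exact ⟨A, Finset.mem_toList.1 hA, h1.symm⟩
  have hLmap : L.map (fun b => (b.B, b.Φ)) = (comps a Wt).toList.map (fun A => (A, Φ A)) := by
    rw [hL, List.map_map]
    rfl
  have hLuni : uniB L = Wt := by
    rw [← uni_map_blk, hLmap, uni_comps a hs Wt Φ]
  have hconv := conv_all a hs cd (k - 1) hf1 X L
    (fun b hb => by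
      obtain ⟨A, hA, rfl⟩ := hLmem b hb
      refine blkOf_ok a hs cd A (hW.mono (comps_subset (hcomps A hA).1))
        (comps_conn (hcomps A hA).1) q (fun x hx => ?_) w (k - 1) hf1 Φ (hΦ A (hcomps A hA).1)
      rw [cqN_comp a W A (hcomps A hA).1 q x hx]
      exact hqW x (comps_subset (hcomps A hA).1 hx))
    (fun b hb => by
      obtain ⟨A, hA, rfl⟩ := hLmem b hb
      rfl)
    (by
      rw [hL, List.pairwise_map]
      exact c24_pw a hs Wt)
    ∅ (FinT.empty a)
    ⟨Finset.disjoint_empty_right _, fun x _ y hy => absurd hy (Finset.notMem_empty y)⟩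
    (fun b hb => by
      obtain ⟨A, hA, rfl⟩ := hLmem b hb
      exact (hcomps A hA).2)
    T (by rw [hLuni]; exact hRT)
    (fun v hv => absurd hv (Finset.notMem_empty v))
    (fun z hz hzL => by
      rw [hLuni] at hzL
      exact Finset.disjoint_left.1 hdX hzL hz)
    (fun z hz => Finset.notMem_empty z)
    (fun z hz => hN.loopfree z (Finset.mem_union_right _ hz))
    (fun z hz l hl hlf => by
      rw [hTE z (Finset.mem_union_right _ hz) l, hE0 z (Finset.mem_union_right _ hz) l hl hlf]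
      exact ⟨0, by norm_num⟩)
    (fun z hz => by
      rw [hTE z (Finset.mem_union_right _ hz), hE1]
      have h1 : (L.map (fun b => ∑ x ∈ b.B, (a z x : ℚ) * b.q x)).sum =
          ∑ x ∈ Wt, (a z x : ℚ) * q' x := by
        rw [← c24_sum a hs Wt (fun x => (a z x : ℚ) * q' x), hL, List.map_map]
        congr 1
        refine List.map_congr_left fun A hA => ?_
        show ∑ x ∈ A, (a z x : ℚ) * rp a A q x = ∑ x ∈ A, (a z x : ℚ) * q' x
        refine Finset.sum_congr rfl fun x hx => ?_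
        rw [hq' A (Finset.mem_toList.1 hA) x hx]
      have h2 : ∑ x ∈ W, (a z x : ℚ) * q x = ∑ x ∈ Wt, (a z x : ℚ) * q x := by
        symm
        refine Finset.sum_subset hsub fun x hx hxt => ?_
        rw [hsepsym.2 z (Finset.mem_union_right _ hz) x (Finset.mem_sdiff.2 ⟨hx, hxt⟩)]
        simp
      have h3 := hqX z hz
      rw [h2] at h3
      have h4 : p z - ∑ x ∈ Wt, (a z x : ℚ) * q' x = (p z - ∑ x ∈ Wt, (a z x : ℚ) * q x) -
          ∑ x ∈ Wt, (a z x : ℚ) * (q' x - q x) := by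
        have h5 : ∑ x ∈ Wt, (a z x : ℚ) * (q' x - q x) =
            ∑ x ∈ Wt, (a z x : ℚ) * q' x - ∑ x ∈ Wt, (a z x : ℚ) * q x := by
          rw [← Finset.sum_sub_distrib]
          exact Finset.sum_congr rfl fun x _ => by ring
        rw [h5]
        ring
      rw [h1, h4]
      exact c24_zsub h3 (c24_zsum Wt (a z) _ hq'Z))
    (fun z hz j hj l hl hne => by
      rw [hLuni] at hj
      rw [hT, hT0] at hne
      by_cases hjz : j = z
      · subst hjz
        rw [c24_patΛ a k γ P p H W (W \ Wt) X π hUX j hz] at hne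
        right
        left
        by_contra hlk
        apply hne
        rw [Finsupp.single_apply, if_neg]
        intro e
        have h1 : k = l := congrArg Prod.snd e
        omega
      · left
        refine (c24_patΛ' a k γ P p H W (W \ Wt) X π j z hjz (fun h1 => ?_)
          l hne).1
        rw [Finset.mem_sdiff] at h1
        exact h1.2 (Finset.mem_sdiff.2 ⟨h1.1, hj⟩))
    (fun z hz => by
      rw [Finset.sum_empty, add_zero, hTE z (Finset.mem_union_right _ hz), hE1]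
      exact hX z hz)
  rw [hLmap] at hconv
  rw [hconv]
  have htw : tw a W w (k - 1) Q = (L.map Blk.cf).prod := by
    rw [hL, hQd, hWt]
    exact tw_tch a hs W X hWX hN p hX w (k - 1) q Φ
  rw [htw]
  congr 1
  rw [hL, expl_comps a hs Wt (k - 1) q w Φ q' hq' T]
  -- merging
  have hmerge := merge a hs (k - 1) hf1 Wt X hdX hN' q' q'' Q hq'ok hrep.1 T
    (fun x hx l hl hlf => by
      rw [hTE x hx l]
      exact hE0 x (hsubN hx) l hl hlf)
    (fun x hx => by
      rw [hTE x (Finset.mem_union_left _ hx), hE1]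
      exact hp0 x (hsub hx))
    hQ0
    (fun x hx => by
      rw [hTE x hx, hE1]
      exact hQNp x hx)
    (fun x hx => (hQpos x hx).le)
    (fun x hx => hQpos x (Finset.mem_union_right _ hx))
    (fun x hx => by
      have h1 := hrep.2 x hx
      unfold crq at h1
      unfold resQ
      by_cases hxt : x ∈ Wt
      · rw [if_pos hxt]
        have h2 : q'' x - (q' x + Q x) = (q'' x - (q x + Q x)) - (q' x - q x) := by ring
        rw [h2]
        exact c24_zsub h1 (hq'Z x hxt)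
      · rw [if_neg hxt]
        have hxX : x ∈ X := (Finset.mem_union.1 hx).resolve_left hxt
        rw [hq0 x (fun hw => Finset.disjoint_left.1 hWX hw hxX)] at h1
        exact h1)
    (fun x hx j hj l hl hne => by
      rw [hT, hT0] at hne
      have hjx : j ≠ x := fun e => hj (e ▸ hx)
      refine (c24_patΛ' a k γ P p H W (W \ Wt) X π j x hjx (fun h1 => ?_)
        l hne).1
      rw [Finset.mem_sdiff] at h1
      exact hj (Finset.mem_union_left _ (by
        by_contra hjt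
        exact h1.2 (Finset.mem_sdiff.2 ⟨h1.1, hjt⟩))))
    (fun x hx => by
      rw [hfk, hT, hT0]
      exact c24_patΛ a k γ P p H W (W \ Wt) X π hUX x hx)
  rw [hmerge]
  have h1 : T.eta a (k - 1) Q = patT a (W \ Wt) π (T0.eta a (k - 1) Q) := by
    rw [hT]
    exact (patT_etaM_comm a (W \ Wt) π (fun _ => k - 1) Q T0).symm
  have hdN : Disjoint (Wt ∪ X) (W \ Wt) := hsepsym.1
  rw [h1, elT_patT a hs (Wt ∪ X) (W \ Wt) hN' hdN (k - 1) π,
    blkT_patT_comm a (Wt ∪ X) (W \ Wt) hdN (k - 1) (k - 1 + 1) q'' π, hfk]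
  have h2 := cr_term a hs k hk1 γ P p H W X hWX hN hX hp0 hH q''
  rw [← hWt, ← hQd, ← hT0] at h2
  rw [h2]
  show TV a _ = TV a (patT a (W \ Wt) π (blkT a (Wt ∪ X) (k - 1) (k - 1 + 1) q'' _))
  rw [hfk]

open Classical in
/-- the field `create` of `ClusterVal`. -/
theorem GG_create (a : I → I → ℕ) (hs : ∀ i j, a i j = a j i) (cd : CrossData a)
    (h : RTfam a cd) (fam : Finset I → (I → ℚ) → (ℕ → ℚ) → ℕ → FFn I) (hfam : IsFam a cd fam)
    (k : ℕ) (γ P p : I → ℚ) (H : I → I → ℚ) (W : Finset I) (q : I → ℚ)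
    (w : Finset I → ℕ → ℚ) (hk : 2 ≤ k)
    (hG : GS a (fun N q g => cn a cd N q g) k γ P p W q w)
    (hP : ∀ i, 0 ≤ P i) (hp : ∀ i, 0 ≤ p i) (hH : ∀ l i, l ∈ W ∨ i ∈ W → H l i = 0)
    (hF : FT a (W ∪ crX W P)) (hX : ∀ x ∈ crX W P, 0 < p x) :
    GG a fam k γ P p idm H W q w =
      tw a W w (k - 1) (crQ a W (crX W P) p) *
        GG a fam k (crG k γ (crQ a W (crX W P) p)) P (crp a p (crQ a W (crX W P) p)) idm
          (crH a W (crX W P) H) (W ∪ crX W P) (crq q (crQ a W (crX W P) p))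
          (neww (fun N q g => cn a cd N q g) w (k - 1) (crq q (crQ a W (crX W P) p))
            (crQ a W (crX W P) p)) := by
  obtain ⟨X, hXd⟩ : ∃ X, X = crX W P := ⟨_, rfl⟩
  rw [← hXd] at hF hX ⊢
  obtain ⟨Q, hQd⟩ : ∃ Q, Q = crQ a W X p := ⟨_, rfl⟩
  obtain ⟨Wt, hWt⟩ : ∃ Wt, Wt = tch a W X := ⟨_, rfl⟩
  have hk1 : 1 ≤ k := by omega
  have hf1 : 1 ≤ k - 1 := by omega
  have hfk : k - 1 + 1 = k := by omega
  have hN : FinT a (W ∪ X) := FT_FinT a hs hF
  have hW : FinT a W := hN.mono Finset.subset_union_left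
  have hWX : Disjoint W X := by
    rw [Finset.disjoint_left]
    intro x hx hx'
    rw [hXd] at hx'
    exact (Finset.mem_filter.1 hx').2.1 hx
  have hPX : ∀ x ∈ X, P x = 0 := by
    intro x hx
    rw [hXd] at hx
    exact (Finset.mem_filter.1 hx).2.2
  have hP0 : ∀ x ∈ W ∪ X, P x = 0 := by
    intro x hx
    rcases Finset.mem_union.1 hx with h1 | h1
    · exact hG.P0 x h1
    · exact hPX x h1
  have hcvW : ∀ x, cv a q x = cqN a W q x := fun x => cv_eq_cqN a W q hG.q0 x
  have hqW : ∀ x ∈ W, IsZ (cqN a W q x) := by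
    intro x hx
    have h1 := c24_wt a P p q x (hG.P0 x hx) (hG.int x)
    rwa [hG.p0 x hx, add_zero, hcvW] at h1
  have hΦ : ∀ A ∈ comps a W, IsRF a cd A q (w A) (k - 1) (fam A q (w A) (k - 1)) := by
    intro A hA
    have hA' : A ∈ clusters a W := by
      rw [clusters_eq_comps a hs W]
      exact hA
    have hex := RFex_of_Adm a hs cd h A (hW.mono (comps_subset hA)) (comps_conn hA) γ q
      (fun x hx => by
        rw [cqN_comp a W A hA q x hx]
        exact hqW x (comps_subset hA hx)) (w A) (k - 1) (hG.adm A hA')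
    exact hfam A q (w A) (k - 1) (hex (k - 1) le_rfl)
  -- the columns of the new walls
  have hdrop := drop_cols a hs cd (k - 1) hf1 W hW q hqW w
    (fun A => fam A q (w A) (k - 1)) hΦ (stTrm k γ P p idm H W)
    (stTrm_RReg a k hk1 γ P p idm H W hG.P0 hG.p0) X hWX
    (fun z hz => hN.loopfree z (Finset.mem_union_right _ hz))
    (fun z hz l _ hl => by
      rw [stTrm_E a k hk1 γ P p idm H W z l, hPX z hz, if_neg (show l + 1 ≠ k by omega)]
      simp)
    (fun z hz => by
      rw [stTrm_E a k hk1 γ P p idm H W z (k - 1), if_neg (show k - 1 ≠ k by omega),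
        if_pos hfk, zero_add]
      exact hX z hz)
    (fun z hz => by
      rw [stTrm_E a k hk1 γ P p idm H W z (k - 1), if_neg (show k - 1 ≠ k by omega),
        if_pos hfk, zero_add]
      have h1 := c24_wt a P p q z (hPX z hz) (hG.int z)
      have h2 := c24_cqN_out a q (fun hw => Finset.disjoint_left.1 hWX hw hz)
      rw [hcvW, h2] at h1
      have h3 : p z - ∑ x ∈ W, (a z x : ℚ) * q x = -∑ x ∈ W, (a z x : ℚ) * q x + p z := by ring
      rw [h3]
      exact h1)
    (fun x => -∑ l ∈ Finset.univ \ W, H l x • sy l (k - 1))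
    (fun x hx => by
      show stCol k idm H W x = _
      rw [c24_stCol k H W x (fun hw => Finset.disjoint_left.1 hWX hw hx), hfk, sub_eq_add_neg])
    (fun x hx i l _ hne => by
      rw [Finsupp.neg_apply, neg_ne_zero] at hne
      exact c24_low k H W x i l hne)
    (fun z hz j hjW hjX l _ hne => by
      rcases c24_col k H W j z hjW l hne with h1 | h1
      · exact absurd (h1.1 ▸ hz) hjX
      · exact h1.1)
  rw [hfk] at hdrop
  have hL0 : GG a fam k γ P p idm H W q w =
      evU a ((comps a W).toList.map (fun A => (A, fam A q (w A) (k - 1))))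
        ((stTrm k γ P p idm H W).cols X (fun x => sy x k)) := hdrop
  rw [hL0]
  -- splitting
  have hsub : Wt ⊆ W := hWt ▸ tch_sub a W X
  have hsep : Sep a (W \ Wt) (Wt ∪ X) := hWt ▸ tch_sep a hs W X hWX
  have hWu : (W \ Wt) ∪ Wt = W := Finset.sdiff_union_of_subset hsub
  have hUN : (W \ Wt) ∪ (Wt ∪ X) = W ∪ X := by
    rw [← Finset.union_assoc, hWu]
  have hpwd : ∀ Φ : Finset I → FFn I,
      ((comps a (W \ Wt)).toList.map (fun A => (A, Φ A))).Pairwise
        (fun b c => Disjoint b.1 c.1) := by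
    intro Φ
    rw [List.pairwise_map]
    exact (c24_pw a hs (W \ Wt)).imp (fun h => h.1)
  have hsplit := evU_union a hs (W \ Wt) Wt (hsep.mono (Finset.Subset.refl _)
    Finset.subset_union_left) (fun A => fam A q (w A) (k - 1))
    ((stTrm k γ P p idm H W).cols X (fun x => sy x k))
  rw [hWu, evU_append a _ _ (hpwd _), uni_comps a hs (W \ Wt)] at hsplit
  rw [hsplit]
  -- the right hand side
  obtain ⟨hQ0, hQpos, hQX, hQW, hQN⟩ := crQ_facts a hs W X hWX hN p hX
  rw [← hWt, ← hQd] at hQ0 hQpos hQN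
  rw [← hQd] at hQX hQW
  rw [← hQd]
  obtain ⟨q'', hq''⟩ : ∃ q'', q'' = rp a (Wt ∪ X) (crq q Q) := ⟨_, rfl⟩
  obtain ⟨w2, hw2⟩ : ∃ w2, w2 = neww (fun N q g => cn a cd N q g) w (k - 1) (crq q Q) Q := ⟨_, rfl⟩
  obtain ⟨T2, hT2⟩ : ∃ T2, T2 = stTrm k (crG k γ Q) P (crp a p Q) idm (crH a W X H) (W ∪ X) :=
    ⟨_, rfl⟩
  have hcvQ : ∀ x ∈ W ∪ X, cv a Q x = p x := by
    intro x hx
    by_cases hxX : x ∈ X
    · exact hQX x hxX
    · have hxW := (Finset.mem_union.1 hx).resolve_right hxX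
      rw [hQW x hxW, hG.p0 x hxW]
  have hQoff : ∀ x, x ∉ W ∪ X → Q x = 0 := by
    intro x hx
    refine hQ0 x (fun h1 => hx (Finset.union_subset_union_left hsub h1))
  have hq2 : ∀ x ∈ W ∪ X, IsZ (cqN a (W ∪ X) (crq q Q) x) := by
    intro x hx
    rw [← cv_eq_cqN a (W ∪ X) (crq q Q) (fun y hy => by
      unfold crq
      rw [hQoff y hy, hG.q0 y (fun hw => hy (Finset.mem_union_left _ hw)), add_zero])]
    have h1 : cv a (crq q Q) x = cv a q x + cv a Q x := cv_add a q Q x
    rw [h1, hcvQ x hx]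
    exact c24_wt a P p q x (hP0 x hx) (hG.int x)
  have hsubN : Wt ∪ X ⊆ W ∪ X := Finset.union_subset_union_left hsub
  have hN' : FinT a (Wt ∪ X) := hN.mono hsubN
  have hrep : Rep a (Wt ∪ X) (crq q Q) q'' := by
    rw [hq'']
    refine rp_spec a hs _ hN' _ (fun x hx => ?_)
    have h1 : cqN a ((Wt ∪ X) ∪ (W \ Wt)) (crq q Q) x = cqN a (Wt ∪ X) (crq q Q) x :=
      c24_cqN_sep a (hsep.symm hs) (crq q Q) x hx
    rw [← h1, Finset.union_comm, hUN]
    exact hq2 x (hsubN hx)
  have hcu : comps a (W ∪ X) = comps a (W \ Wt) ∪ comps a (Wt ∪ X) := by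
    rw [← hUN]
    exact comps_union a hs _ _ hsep
  have hcd : Disjoint (comps a (W \ Wt)) (comps a (Wt ∪ X)) := comps_disj a _ _ hsep
  have hcW : ∀ A ∈ comps a (W \ Wt), A ∈ comps a W := by
    intro A hA
    rw [hWt] at hA
    exact (comps_untouched a hs W X A hA).1
  obtain ⟨Ψ, hΨ⟩ : ∃ Ψ : Finset I → FFn I, Ψ = fun A => if A ∈ comps a (W \ Wt) then
    fam A q (w A) (k - 1) else [((1 : ℚ), (⟨fun _ => k - 1, q''⟩ : Pat I))] := ⟨_, rfl⟩
  have hΨ1 : ∀ A ∈ comps a (W \ Wt), Ψ A = fam A q (w A) (k - 1) := by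
    intro A hA
    rw [hΨ]
    exact if_pos hA
  have hΨ2 : ∀ A ∈ comps a (Wt ∪ X), Ψ A = [((1 : ℚ), (⟨fun _ => k - 1, q''⟩ : Pat I))] := by
    intro A hA
    rw [hΨ]
    exact if_neg (fun h1 => Finset.disjoint_left.1 hcd h1 hA)
  have hRF : ∀ A ∈ comps a (W ∪ X), IsRF a cd A (crq q Q) (w2 A) (k - 1) (Ψ A) := by
    intro A hA
    rw [hcu] at hA
    rcases Finset.mem_union.1 hA with hA1 | hA1
    · have hQA : ∀ x ∈ A, Q x = 0 := by
        intro x hx
        exact hQ0 x (fun h1 => Finset.disjoint_left.1 hsep.1 (comps_subset hA1 hx) h1)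
      rw [hΨ1 A hA1]
      refine (hΦ A (hcW A hA1)).congr (fun x hx => ?_) (fun l _ => ?_)
      · unfold crq
        rw [hQA x hx]
        exact ⟨0, by push_cast; ring⟩
      · rw [hw2]
        unfold neww
        rw [if_pos hQA]
    · have hQA : ¬ ∀ x ∈ A, Q x = 0 := by
        intro h1
        obtain ⟨x, hx⟩ := (comps_conn hA1).1
        exact (hQpos x (comps_subset hA1 hx)).ne' (h1 x hx)
      rw [hΨ2 A hA1]
      have h1 := IsRF_L a hs cd h A (hN'.mono (comps_subset hA1)) (comps_conn hA1) (crq q Q) q''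
        (hrep.mono hs hN' (comps_subset hA1) (fun x hx y hy hyA => comps_sep hA1 x hx y hy hyA))
        (k - 1)
      refine h1.congr (fun x hx => ⟨0, by push_cast; ring⟩) (fun l _ => ?_)
      rw [hw2]
      unfold neww
      rw [if_neg hQA]
  have hRT2 : RReg (W ∪ X) T2 := by
    rw [hT2]
    refine stTrm_RReg a k hk1 _ P _ idm _ (W ∪ X) hP0 (fun x hx => ?_)
    unfold crp
    rw [hcvQ x hx, sub_self]
  have hR0 : GG a fam k (crG k γ Q) P (crp a p Q) idm (crH a W X H) (W ∪ X) (crq q Q)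
      (neww (fun N q g => cn a cd N q g) w (k - 1) (crq q Q) Q) =
      evU a ((comps a (W ∪ X)).toList.map (fun A => (A, Ψ A))) T2 := by
    rw [← evU_RF hs hN hq2 (fun A hA => hfam A (crq q Q) (w2 A) (k - 1) ⟨_, hRF A hA⟩) hRF T2
      hRT2, hT2, hw2]
    rfl
  rw [hR0]
  have hsplit2 := evU_union a hs (W \ Wt) (Wt ∪ X) hsep Ψ T2
  rw [hUN, evU_append a _ _ (hpwd _), uni_comps a hs (W \ Wt)] at hsplit2
  rw [hsplit2]
  have hm1 : (comps a (W \ Wt)).toList.map (fun A => (A, Ψ A)) =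
      (comps a (W \ Wt)).toList.map (fun A => (A, fam A q (w A) (k - 1))) :=
    List.map_congr_left fun A hA => by rw [hΨ1 A (Finset.mem_toList.1 hA)]
  have hm2 : (comps a (Wt ∪ X)).toList.map (fun A => (A, Ψ A)) =
      (comps a (Wt ∪ X)).toList.map
        (fun A => (A, [((1 : ℚ), (⟨fun _ => k - 1, q''⟩ : Pat I))])) :=
    List.map_congr_left fun A hA => by rw [hΨ2 A (Finset.mem_toList.1 hA)]
  rw [hm1, hm2, GDef_mul_sum]
  congr 1
  refine List.map_congr_left fun c _ => ?_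
  rw [evU_tau a hs (Wt ∪ X) (k - 1) q'']
  have hpat := c24_pat a hs cd k γ P p H W X q w hk (fun A => fam A q (w A) (k - 1)) hWX hN hG.q0
    hP0 hG.p0 hX hG.int hΦ hH c.2
  rw [← hWt, ← hQd, ← hq'', ← hT2] at hpat
  have hcm : tauT a (Wt ∪ X) (k - 1) q'' (patT a (W \ Wt) c.2 T2) =
      patT a (W \ Wt) c.2 (tauT a (Wt ∪ X) (k - 1) q'' T2) :=
    blkT_patT_comm a (Wt ∪ X) (W \ Wt) (hsep.symm hs).1 (k - 1) (k - 1 + 1) q'' c.2 T2
  rw [hpat, hcm]
  ring

end

end Pool.Agent.H46.AH
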