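import Pool.Agent.H46.AH.AH14
import Pool.Agent.H46.AH.AH20
import Pool.Agent.H46.AH.AH24
import Pool.Agent.H46.AH.AH15
import Pool.Agent.H41.KA.AG12b
import Pool.Agent.H40.KADE.GTop
import Pool.Agent.H40.KADE.Glue

/-!
KAC ADE, module AH30: the instances `CN`, `ClusterVal`, and the statement `AllCal`.
-/

set_option autoImplicit false

namespace Pool.Agent.H46.AH

open scoped BigOperators
open Pool.Agent.H27.KAC Pool.Agent.H40.KADE

section

variable {I : Type} [Fintype I] [DecidableEq I]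

open Classical in
/-- a selection of functionals. -/
noncomputable def famOf (a : I → I → ℕ) (cd : CrossData a) (N : Finset I) (q : I → ℚ)
    (w : ℕ → ℚ) (f : ℕ) : FFn I :=
  if h : ∃ Φ : FFn I, IsRF a cd N q w f Φ then h.choose else []

theorem isFam_famOf (a : I → I → ℕ) (cd : CrossData a) : IsFam a cd (famOf a cd) := by
  intro N q w f h
  unfold famOf
  rw [dif_pos h]
  exact h.choose_spec

theorem IsRF_zero (a : I → I → ℕ) (hs : ∀ i j, a i j = a j i) (cd : CrossData a) (N : Finset I)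
    (hN : FinT a N) (q : I → ℚ) (hq : ∀ x ∈ N, IsZ (cqN a N q x)) (w : ℕ → ℚ) (Φ : FFn I)
    (h : IsRF a cd N q w 0 Φ) (T : Trm I) (hT : RReg N T) :
    evF a N Φ T = w 0 * TV a (T.cols N (fun x => sy x 1)) := by
  rw [h.val (rp a N q) (rp_spec a hs N hN q hq) T hT]
  unfold RFv
  rw [Finset.Icc_eq_empty (by omega), Finset.sum_empty, add_zero, TV_tauT_zero]

theorem fam_bot (a : I → I → ℕ) (hs : ∀ i j, a i j = a j i) (cd : CrossData a)
    (h : RTfam a cd) (fam : Finset I → (I → ℚ) → (ℕ → ℚ) → ℕ → FFn I) (hfam : IsFam a cd fam)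
    (γ P p : I → ℚ) (W : Finset I) (q : I → ℚ) (w : Finset I → ℕ → ℚ)
    (hG : GS a (fun N q g => cn a cd N q g) 1 γ P p W q w) (B : Finset I) (hB : B ∈ comps a W)
    (T : Trm I) (hT : RReg B T) :
    evF a B (fam B q (w B) 0) T = w B 0 * TV a (T.cols B (fun x => sy x 1)) := by
  have hW : FinT a W := FT_FinT a hs hG.ft
  have hBf : FinT a B := hW.mono (comps_subset hB)
  have hqZ : ∀ x ∈ B, IsZ (cqN a B q x) := by
    intro x hx
    rw [cqN_comp a W B hB q x hx]
    obtain ⟨z, hz⟩ := hG.int x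
    rw [hG.P0 x (comps_subset hB hx), hG.p0 x (comps_subset hB hx), cv_eq_cqN a W q hG.q0] at hz
    exact ⟨-z, by push_cast; linarith⟩
  have hadm := hG.adm B (by rw [clusters_eq_comps a hs]; exact hB)
  have hex := RFex_of_Adm a hs cd h B hBf (comps_conn hB) γ q hqZ (w B) 0 hadm
  exact IsRF_zero a hs cd B hBf q hqZ (w B) _ (hfam B q (w B) 0 (hex 0 le_rfl)) T hT

theorem fam_top (a : I → I → ℕ) (hs : ∀ i j, a i j = a j i) (cd : CrossData a)
    (h : RTfam a cd) (fam : Finset I → (I → ℚ) → (ℕ → ℚ) → ℕ → FFn I) (hfam : IsFam a cd fam)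
    (B : Finset I) (hB : FinT a B) (hc : ConnS a B) (K : ℕ) (T : Trm I) (hT : RReg B T) :
    evF a B (fam B (fun _ => 0) (fun _ => 1) K) T =
      TV a (T.cols B (fun x => sy x (K + 1) - sy x K)) := by
  have hqZ : ∀ x ∈ B, IsZ (cqN a B (fun _ => (0 : ℚ)) x) := by
    intro x _
    refine ⟨0, ?_⟩
    unfold cqN
    rw [Finset.sum_eq_zero fun j _ => mul_zero _]
    push_cast
    rfl
  by_cases hK : 1 ≤ K
  · obtain ⟨Φ, hΦ, hv⟩ := h.top B hB hc K hK
    rw [(hfam B (fun _ => 0) (fun _ => 1) K ⟨Φ, hΦ⟩).unique hs hB hqZ hΦ T hT]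
    exact hv T hT
  · have hK0 : K = 0 := by omega
    subst hK0
    rw [IsRF_zero a hs cd B hB (fun _ => 0) hqZ (fun _ => 1) _
      (hfam B (fun _ => 0) (fun _ => 1) 0 (h.top0 B hB hc 0)) T hT, one_mul]
    apply TV_lev0
    · rfl
    · intro i k _
      rfl
    · intro j i k hk
      show (if j ∈ B then (sy j 1 : QE I) else T.Λ j) (i, k) =
        (if j ∈ B then (sy j (0 + 1) : QE I) - sy j 0 else T.Λ j) (i, k)
      by_cases hj : j ∈ B
      · rw [if_pos hj, if_pos hj, Finsupp.sub_apply, Finsupp.single_apply (a := (j, 0)), if_neg,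
          sub_zero]
        intro h'
        have := (Prod.mk.inj h').2
        omega
      · rw [if_neg hj, if_neg hj]

/-- the interface of the engine. -/
theorem clusterVal_of (a : I → I → ℕ) (hs : ∀ i j, a i j = a j i) (cd : CrossData a)
    (h : RTfam a cd) :
    ClusterVal a (fun N q g => cn a cd N q g) (GG a (famOf a cd)) where
  step := fun k γ P p H W q w hk hG hP hp hH =>
    GG_step a hs cd h (famOf a cd) (isFam_famOf a cd) k γ P p H W q w hk hG hP hp hH
  create := fun k γ P p H W q w hk hG hP hp hH hF hX =>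
    GG_create a hs cd h (famOf a cd) (isFam_famOf a cd) k γ P p H W q w hk hG hP hp hH hF hX
  vanNeg := fun k γ P p M N W q w l hk hG hp hl hll hPl hpl =>
    GG_vanNeg a hs cd h (famOf a cd) (isFam_famOf a cd) k γ P p M N W q w l hk hG hp hl hll hPl hpl
  norm := fun k γ P p M N H W q w hN => GG_norm a (famOf a cd) k γ P p M N H W q w hN
  poly := fun k γ P p H W q w => GG_poly a (famOf a cd) k γ P p H W q w
  bot := fun γ P p M N W q w hG => by
    refine GG_bot a hs (famOf a cd) γ P p M N W q w hG.P0 hG.p0 (fun i => ?_)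
      (fun B hB T hT => fam_bot a hs cd h (famOf a cd) (isFam_famOf a cd) γ P p W q w hG B hB T hT)
    have := hG.cons i
    push_cast at this
    linarith
  top := fun α K μ ε hF hμ =>
    GG_top a hs (famOf a cd) α K μ ε hμ (fun B hB T hT =>
      fam_top a hs cd h (famOf a cd) (isFam_famOf a cd) B
        ((FT_FinT a hs hF).mono (comps_subset hB)) (comps_conn hB) K T hT)

theorem CN_of (a : I → I → ℕ) (hs : ∀ i j, a i j = a j i) (cd : CrossData a)
    (hn : ∀ (N : Finset I) (q : I → ℚ) (g : ℕ), FTC a N q → 0 ≤ cn a cd N q g) :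
    CN a (fun N q g => cn a cd N q g) where
  congr := fun N q q' g hq => cn_congrZ a cd N q q' g (fun x hx => ⟨0, by
    rw [hq x hx]; push_cast; ring⟩)
  nonneg := hn
  int := fun N q g hF hne => by
    obtain ⟨h1, h2, h3⟩ := (FTC_iff a hs N q).1 hF
    exact cn_wint a hs cd N h1 h2 q h3 g hne

end

/-- The remaining input: crossing data with nonnegative response numbers. -/
theorem allCal_of (H : ∀ (I : Type) [Fintype I] [DecidableEq I] (a : I → I → ℕ),
    (∀ i j, a i j = a j i) → (∀ i, a i i ≠ 1) → ∃ cd : CrossData a,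
      ∀ (N : Finset I) (q : I → ℚ) (g : ℕ), FTC a N q → 0 ≤ cn a cd N q g) : AllCal := by
  intro I _ _ a hs hd
  obtain ⟨cd, h2⟩ := H I a hs hd
  exact ⟨_, _, CN_of a hs cd h2, clusterVal_of a hs cd (rtfam_of a hs cd)⟩

end Pool.Agent.H46.AH
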