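import Pool.Agent.H46.AH.AH0
import Pool.Agent.H41.KA.AG1
import Pool.Agent.H41.KA.AE6
import Pool.Agent.H41.KA.AE8
import Pool.Agent.H41.KA.AE7
import Pool.Agent.H40.KADE.Br

/-!
KAC ADE, module AH6: one step of a single cluster (restart lemma), definitions and elementary facts.

Notation: `N` a cluster (finite type), `q` its class (any representative), `q'` an admissible representative, `T` a term which
is regular on `N`, `ν_x = T.E (x,k)` the kink.
* `rp a N q`: a chosen admissible representative;  `PPc a N k q T = PPv a N k (rp a N q) T`.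
* `shv a N S q ν n`: the vector `μ` with `μ = n - q` on `S`, `(C_N μ)_x = ν_x` for `x ∈ N \ S`, `μ = 0` off `N`.
* `rsT a S k μ T`: the term with the factor `∏ η_{x,k}^{μ_x}` and the columns `θ_{s,k}`, `s ∈ S`.
* `RRegK N k T`: like `RReg`, but symbols `(x, k)` are allowed in all columns.
-/

set_option autoImplicit false

namespace Pool.Agent.H46.AH

open scoped BigOperators
open Pool.Agent.H27.KAC Pool.Agent.H40.KADE

section

variable {I : Type} [Fintype I] [DecidableEq I]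

open Classical in
/-- a chosen admissible representative of the class of `q` on `N`. -/
noncomputable def rp (a : I → I → ℕ) (N : Finset I) (q : I → ℚ) : I → ℚ :=
  if h : ∃ q', Rep a N q q' then h.choose else q

/-- plateau functional, arbitrary representative of the class. -/
noncomputable def PPc (a : I → I → ℕ) (N : Finset I) (k : ℕ) (q : I → ℚ) (T : Trm I) : ℚ :=
  PPv a N k (rp a N q) T

/-- the shift vector. -/
noncomputable def shv (a : I → I → ℕ) (N S : Finset I) (q ν : I → ℚ) (n : I → ℤ) (i : I) : ℚ :=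
  (if i ∈ S then (n i : ℚ) - q i else 0) +
    solN a (N \ S) (fun x => ν x - cqN a S (fun s => (n s : ℚ) - q s) x) i

/-- restart term. -/
noncomputable def rsT (a : I → I → ℕ) (S : Finset I) (k : ℕ) (μ : I → ℚ) (T : Trm I) : Trm I :=
  (T.eta a k μ).cols S (fun x => cE a x k)

/-- the box of integer vectors on `S`. -/
noncomputable def rbox (S : Finset I) (k : ℕ) (γ q : I → ℚ) : Finset (I → ℤ) :=
  Fintype.piFinset (fun i => if i ∈ S then Finset.Icc ⌈q i⌉ ⌊γ i / k + q i⌋ else {0})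

/-- regular on `N` up to symbols at level `k` in the columns. -/
structure RRegK (N : Finset I) (k : ℕ) (T : Trm I) : Prop where
  nat : ∀ x ∈ N, ∀ l, 1 ≤ l → IsN (T.E (x, l))
  col : ∀ x ∈ N, ∀ j, j ∉ N → ∀ l, 1 ≤ l → T.Λ j (x, l) ≠ 0 → l = k ∨ 1 ≤ T.E (x, l)

theorem RReg.toK {N : Finset I} {T : Trm I} (h : RReg N T) (k : ℕ) : RRegK N k T :=
  ⟨h.nat, fun x hx j hj l hl hne => Or.inr (h.col x hx j hj l hl hne)⟩

private theorem AH6_congr (a : I → I → ℕ) (N : Finset I) (v w : I → ℚ) (h : ∀ i ∈ N, v i = w i)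
    (x : I) : cqN a N v x = cqN a N w x := by
  unfold cqN
  exact Finset.sum_congr rfl fun j hj => by rw [h j hj]

private theorem AH6_split (a : I → I → ℕ) {N S : Finset I} (hS : S ⊆ N) (v : I → ℚ) (x : I) :
    cqN a N v x = cqN a (N \ S) v x + cqN a S v x := by
  unfold cqN
  rw [Finset.sum_sdiff hS]

private theorem AH6_add (a : I → I → ℕ) (N : Finset I) (v w : I → ℚ) (x : I) :
    cqN a N (fun j => v j + w j) x = cqN a N v x + cqN a N w x := by
  unfold cqN
  rw [← Finset.sum_add_distrib]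
  exact Finset.sum_congr rfl fun j _ => by ring

private theorem AH6_sub (a : I → I → ℕ) (N : Finset I) (v w : I → ℚ) (x : I) :
    cqN a N (fun j => v j - w j) x = cqN a N v x - cqN a N w x := by
  unfold cqN
  rw [← Finset.sum_sub_distrib]
  exact Finset.sum_congr rfl fun j _ => by ring

private theorem AH6_int (a : I → I → ℕ) (N : Finset I) (n : I → ℤ) (x : I) :
    IsZ (cqN a N (fun i => (n i : ℚ)) x) := by
  refine ⟨∑ j ∈ N, cart a x j * n j, ?_⟩
  unfold cqN
  push_cast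
  rfl

private theorem AH6_intz (a : I → I → ℕ) (N : Finset I) (v : I → ℚ) (hv : ∀ i ∈ N, IsZ (v i))
    (x : I) : IsZ (cqN a N v x) := by
  classical
  have h1 : cqN a N v x = cqN a N (fun i => ((if h : i ∈ N then (hv i h).choose else 0 : ℤ) : ℚ)) x := by
    refine AH6_congr a N _ _ (fun i hi => ?_) x
    rw [dif_pos hi]
    exact (hv i hi).choose_spec
  rw [h1]
  exact AH6_int a N _ x

private theorem AH6_zadd {p q : ℚ} (hp : IsZ p) (hq : IsZ q) : IsZ (p + q) := by
  obtain ⟨m, rfl⟩ := hp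
  obtain ⟨n, rfl⟩ := hq
  exact ⟨m + n, by push_cast; rfl⟩

private theorem AH6_zsub {p q : ℚ} (hp : IsZ p) (hq : IsZ q) : IsZ (p - q) := by
  obtain ⟨m, rfl⟩ := hp
  obtain ⟨n, rfl⟩ := hq
  exact ⟨m - n, by push_cast; rfl⟩

/-- existence of representatives (`exists_QOk` of `KADE/Br`). -/
theorem rp_spec (a : I → I → ℕ) (hs : ∀ i j, a i j = a j i) (N : Finset I) (hN : FinT a N)
    (q : I → ℚ) (hq : ∀ x ∈ N, IsZ (cqN a N q x)) : Rep a N q (rp a N q) := by
  obtain ⟨q', _, h2, h3⟩ := exists_QOk a hs hN q hq 1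
  have h : ∃ q', Rep a N q q' := ⟨q', h3, h2⟩
  unfold rp
  rw [dif_pos h]
  exact h.choose_spec

/-- restriction of a representative. -/
theorem Rep.mono {a : I → I → ℕ} {N N' : Finset I} (hs : ∀ i j, a i j = a j i) (hN : FinT a N)
    (hsub : N' ⊆ N) (hsep : ∀ x ∈ N', ∀ y ∈ N, y ∉ N' → a x y = 0) {q q' : I → ℚ}
    (h : Rep a N q q') : Rep a N' q q' := by
  refine ⟨fun x hx => ?_, fun x hx => h.2 x (hsub hx)⟩
  obtain ⟨n, hn, h1⟩ := h.1 x (hsub hx)
  refine ⟨n, hn, ?_⟩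
  rw [← h1]
  unfold cqN
  refine Finset.sum_subset hsub fun y hy hyN => ?_
  have hxy : x ≠ y := fun h2 => hyN (h2 ▸ hx)
  have h2 : cart a x y = 0 := by
    unfold cart
    rw [if_neg hxy, hsep x hx y hy hyN]
    rfl
  rw [h2]
  push_cast
  ring

theorem shv_off (a : I → I → ℕ) (N S : Finset I) (hS : S ⊆ N) (q ν : I → ℚ) (n : I → ℤ) (i : I)
    (hi : i ∉ N) : shv a N S q ν n i = 0 := by
  unfold shv
  rw [if_neg (fun h => hi (hS h)), solN_out a _ _ i (fun h => hi (Finset.mem_sdiff.1 h).1), add_zero]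

theorem shv_S (a : I → I → ℕ) (N S : Finset I) (q ν : I → ℚ) (n : I → ℤ) (i : I)
    (hi : i ∈ S) : shv a N S q ν n i = (n i : ℚ) - q i := by
  unfold shv
  rw [if_pos hi, solN_out a _ _ i (fun h => (Finset.mem_sdiff.1 h).2 hi), add_zero]

theorem shv_eq (a : I → I → ℕ) (hs : ∀ i j, a i j = a j i) (N S : Finset I) (hN : FinT a N)
    (hS : S ⊆ N) (q ν : I → ℚ) (n : I → ℤ) (x : I) (hx : x ∈ N \ S) :
    cqN a N (shv a N S q ν n) x = ν x := by
  rw [AH6_split a hS, AH6_congr a S (shv a N S q ν n) (fun s => (n s : ℚ) - q s)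
    (fun i hi => shv_S a N S q ν n i hi),
    AH6_congr a (N \ S) (shv a N S q ν n)
      (solN a (N \ S) (fun x => ν x - cqN a S (fun s => (n s : ℚ) - q s) x)) (fun i hi => by
        unfold shv
        rw [if_neg (Finset.mem_sdiff.1 hi).2, zero_add]),
    solN_spec hs (hN.mono Finset.sdiff_subset) _ x hx]
  ring

/-- uniqueness of the shift vector. -/
theorem shv_unique (a : I → I → ℕ) (hs : ∀ i j, a i j = a j i) (N S : Finset I) (hN : FinT a N)
    (hS : S ⊆ N) (q ν : I → ℚ) (n : I → ℤ) (μ : I → ℚ) (h0 : ∀ i, i ∉ N → μ i = 0)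
    (h1 : ∀ i ∈ S, μ i = (n i : ℚ) - q i) (h2 : ∀ x ∈ N \ S, cqN a N μ x = ν x) :
    μ = shv a N S q ν n := by
  funext i
  by_cases hi : i ∈ N
  · by_cases hiS : i ∈ S
    · rw [h1 i hiS, shv_S a N S q ν n i hiS]
    · unfold shv
      rw [if_neg hiS, zero_add]
      refine solN_unique hs (hN.mono Finset.sdiff_subset) _ μ (fun x hx => ?_) i
        (Finset.mem_sdiff.2 ⟨hi, hiS⟩)
      have h3 := AH6_split a hS μ x
      rw [h2 x hx, AH6_congr a S μ (fun s => (n s : ℚ) - q s) h1 x] at h3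
      rw [h3]
      ring
  · rw [h0 i hi, shv_off a N S hS q ν n i hi]

/-- the class of `q + μ` on `N \ S` is a weight. -/
theorem shv_wt (a : I → I → ℕ) (hs : ∀ i j, a i j = a j i) (N S : Finset I) (hN : FinT a N)
    (hS : S ⊆ N) (q ν : I → ℚ) (hq : ∀ x ∈ N, IsZ (cqN a N q x)) (hν : ∀ x ∈ N, IsZ (ν x))
    (n : I → ℤ) : ∀ x ∈ N \ S, IsZ (cqN a (N \ S) (fun i => q i + shv a N S q ν n i) x) := by
  intro x hx
  have hxN := (Finset.mem_sdiff.1 hx).1
  have h1 : cqN a (N \ S) (fun i => q i + shv a N S q ν n i) x =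
      cqN a N q x + ν x - cqN a S (fun i => (n i : ℚ)) x := by
    have h2 := shv_eq a hs N S hN hS q ν n x hx
    rw [AH6_split a hS, AH6_congr a S (shv a N S q ν n) (fun s => (n s : ℚ) - q s)
      (fun i hi => shv_S a N S q ν n i hi), AH6_sub] at h2
    rw [AH6_add, AH6_split a hS q x]
    linarith
  rw [h1]
  exact AH6_zsub (AH6_zadd (hq x hxN) (hν x hxN)) (AH6_int a S n x)

private theorem AH6_ge (a : I → I → ℕ) (hs : ∀ i j, a i j = a j i) (N S : Finset I)
    (hN : FinT a N) (hS : S ⊆ N) (q ν : I → ℚ) (n : I → ℤ)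
    (hP : ∀ s ∈ S, ν s < cqN a N (shv a N S q ν n) s) (x : I) (hx : x ∈ N) :
    ν x ≤ cqN a N (shv a N S q ν n) x := by
  by_cases hxS : x ∈ S
  · exact (hP x hxS).le
  · exact (shv_eq a hs N S hN hS q ν n x (Finset.mem_sdiff.2 ⟨hx, hxS⟩)).ge

/-- positivity of the shift vector. -/
theorem shv_nonneg (a : I → I → ℕ) (hs : ∀ i j, a i j = a j i) (N S : Finset I) (hN : FinT a N)
    (hS : S ⊆ N) (q ν : I → ℚ) (hν : ∀ x ∈ N, 0 ≤ ν x) (n : I → ℤ)
    (hP : ∀ s ∈ S, ν s < cqN a N (shv a N S q ν n) s) :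
    (∀ i, 0 ≤ shv a N S q ν n i) ∧ ∀ s ∈ S, 0 < shv a N S q ν n s := by
  have h1 : ∀ i ∈ N, 0 ≤ cqN a N (shv a N S q ν n) i := fun i hi =>
    (hν i hi).trans (AH6_ge a hs N S hN hS q ν n hP i hi)
  refine ⟨fun i => ?_, fun s hsS => ?_⟩
  · by_cases hi : i ∈ N
    · exact hN.nonneg hs _ h1 i hi
    · rw [shv_off a N S hS q ν n i hi]
  · have h2 := solN_pos_self hs hN (cqN a N (shv a N S q ν n)) h1 s (hS hsS)
      ((hν s (hS hsS)).trans_lt (hP s hsS))
    rwa [solN_cqN hs hN _ s (hS hsS)] at h2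

/-- strict positivity on a connected cluster. -/
theorem shv_pos (a : I → I → ℕ) (hs : ∀ i j, a i j = a j i) (N S : Finset I) (hN : FinT a N)
    (hc : ConnS a N) (hS : S ⊆ N) (q ν : I → ℚ) (hν : ∀ x ∈ N, 0 ≤ ν x) (n : I → ℤ)
    (hP : ∀ s ∈ S, ν s < cqN a N (shv a N S q ν n) s)
    (hne : S.Nonempty ∨ ∃ x ∈ N, ν x ≠ 0) : ∀ i ∈ N, 0 < shv a N S q ν n i := by
  have h0 := AH6_ge a hs N S hN hS q ν n hP
  refine hN.pos_of_conn hs hc _ (fun i hi => (hν i hi).trans (h0 i hi)) ?_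
  rcases hne with ⟨s, hsS⟩ | ⟨x, hx, hxν⟩
  · exact ⟨s, hS hsS, ((hν s (hS hsS)).trans_lt (hP s hsS)).ne'⟩
  · exact ⟨x, hx, ((lt_of_le_of_ne (hν x hx) (Ne.symm hxν)).trans_le (h0 x hx)).ne'⟩

theorem rsT_E (a : I → I → ℕ) (hs : ∀ i j, a i j = a j i) (N S : Finset I) (hS : S ⊆ N) (k : ℕ)
    (μ : I → ℚ) (h0 : ∀ i, i ∉ N → μ i = 0) (T : Trm I) (i : I) (l : ℕ) :
    (rsT a S k μ T).E (i, l) = T.E (i, l) - if l = k then cqN a N μ i else 0 := by
  have h1 : (rsT a S k μ T).E = T.E - ∑ x, μ x • cE a x k := rfl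
  rw [h1, Finsupp.sub_apply, Finsupp.finset_sum_apply]
  congr 1
  by_cases hl : l = k
  · rw [if_pos hl, cqN_eq_cv, cv_eq_cq]
    unfold cq
    refine Finset.sum_congr rfl fun x _ => ?_
    rw [Finsupp.smul_apply, cE_apply, if_pos hl, smul_eq_mul]
    beta_reduce
    rw [cart_symm a hs x i]
    by_cases hx : x ∈ N
    · rw [if_pos hx, mul_comm]
    · rw [if_neg hx, h0 x hx, zero_mul, mul_zero]
  · rw [if_neg hl]
    refine Finset.sum_eq_zero fun x _ => ?_
    rw [Finsupp.smul_apply, cE_apply, if_neg hl, smul_zero]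

theorem rsT_γ (a : I → I → ℕ) (S : Finset I) (k : ℕ) (μ : I → ℚ) (T : Trm I) (i : I) :
    (rsT a S k μ T).γ i = T.γ i - k * μ i := rfl

/-- the restart term is regular on `N \ S` up to symbols at level `k`, with exponent `0` at `(x, k)`. -/
theorem rsT_RRegK (a : I → I → ℕ) (hs : ∀ i j, a i j = a j i) (N S : Finset I) (hN : FinT a N)
    (hS : S ⊆ N) (k : ℕ) (hk : 1 ≤ k) (q : I → ℚ) (n : I → ℤ) (T : Trm I) (hT : RRegK N k T) :
    RRegK (N \ S) k (rsT a S k (shv a N S q (fun x => T.E (x, k)) n) T) ∧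
      ∀ x ∈ N \ S, (rsT a S k (shv a N S q (fun x => T.E (x, k)) n) T).E (x, k) = 0 := by
  have hE := fun i l => rsT_E a hs N S hS k (shv a N S q (fun x => T.E (x, k)) n)
    (fun i hi => shv_off a N S hS q _ n i hi) T i l
  have hk0 : ∀ x ∈ N \ S, (rsT a S k (shv a N S q (fun x => T.E (x, k)) n) T).E (x, k) = 0 := by
    intro x hx
    rw [hE, if_pos rfl, shv_eq a hs N S hN hS q _ n x hx, sub_self]
  have hne : ∀ x l, l ≠ k →
      (rsT a S k (shv a N S q (fun x => T.E (x, k)) n) T).E (x, l) = T.E (x, l) := by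
    intro x l hl
    rw [hE, if_neg hl, sub_zero]
  refine ⟨⟨fun x hx l hl => ?_, fun x hx j hj l hl hΛ => ?_⟩, hk0⟩
  · by_cases hlk : l = k
    · subst hlk
      rw [hk0 x hx]
      exact ⟨0, by norm_num⟩
    · rw [hne x l hlk]
      exact hT.nat x (Finset.mem_sdiff.1 hx).1 l hl
  · by_cases hlk : l = k
    · exact Or.inl hlk
    · right
      rw [hne x l hlk]
      by_cases hjS : j ∈ S
      · exfalso
        apply hΛ
        have h1 : (rsT a S k (shv a N S q (fun x => T.E (x, k)) n) T).Λ j = cE a j k := by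
          show (if j ∈ S then cE a j k else _) = _
          rw [if_pos hjS]
        rw [h1, cE_apply, if_neg hlk]
      · have hjN : j ∉ N := fun h => hj (Finset.mem_sdiff.2 ⟨h, hjS⟩)
        have h1 : (rsT a S k (shv a N S q (fun x => T.E (x, k)) n) T).Λ j = T.Λ j := by
          show (if j ∈ S then cE a j k else _) = _
          rw [if_neg hjS]
          rfl
        rw [h1] at hΛ
        rcases hT.col x (Finset.mem_sdiff.1 hx).1 j hjN l hl hΛ with h2 | h2
        · exact absurd h2 hlk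
        · exact h2

end

end Pool.Agent.H46.AH
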